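import Pool.Agent.GH.MatU.Theta
import Pool.Agent.GH.Pot.Defs

/-!
# GH-MATU: definitions

`p = 2` (`x = k/2`) or `p = 3` (`x = k`), disc `x ≡ a mod p`. Centres `m ≡ a mod p`
(`m` even if `p = 3`), `y = ⌊m/p⌋`, `D = y - 1 = dim S_k(Γ_0(p))`, `t = ⌊(y-a)/(p+1)⌋ = dim S_k(1)`.
-/

open PowerSeries

noncomputable section

namespace GH.MatU

/-- `t_m`. -/
def tt (p m : ℕ) : ℕ := (m / p - m % p) / (p + 1)

/-- The multiplicity of the zero `m` in the `n`-th minor. -/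
def TT (p n m : ℕ) : ℕ :=
  if p = 2 ∨ Even m then min (n - tt p m) (m / p - 1 - tt p m - n) else 0

/-- The same, restricted to the class of `a`. -/
def Ta (p a n m : ℕ) : ℕ := if m % p = a then TT p n m else 0

/-- The slope `k/2 - 1`. -/
def ss (p m : ℕ) : ℕ := if p = 2 then m - 1 else m / 2 - 1

/-- The valuation at the root. -/
def BB (p n : ℕ) : ℕ := if p = 2 then 3 * (n * (n + 1) / 2) else n * (n + 1)

/-- All centres of the `n`-th minor are below `Zb p n`. -/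
def Zb (p n : ℕ) : ℕ := if p = 2 then 6 * n + 2 else 12 * n + 3

variable (p : ℕ) [Fact p.Prime]

/-- The matrix of a power series: `[s^(p(i+1))] F_j`. -/
def cmat {R : Type*} [CommRing R] (p : ℕ) (F : ℕ → PowerSeries R) (i j : ℕ) : R :=
  coeff (p * (i + 1)) (F j)

/-- `Z_ij = [s^(p(i+1))] w^a v^(j+1) Θ ∈ ℤ_p[x]`. -/
def ZZ (a i j : ℕ) : Polynomial ℤ_[p] :=
  cmat p (fun j ↦ wS p (Polynomial ℤ_[p]) ^ a * vS p (Polynomial ℤ_[p]) ^ (j + 1) * Th p) i j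

/-- `N_ij = ρ^(j+1) Z_ij`, `ρ = p c = 8, 9`. -/
def NN (a i j : ℕ) : Polynomial ℤ_[p] :=
  Polynomial.C (((p * cw p : ℕ) : ℤ_[p]) ^ (j + 1)) * ZZ p a i j

/-- `Y_ij = [s^(p(i+1))] w^a (ρ v)^(j+1) (1-s)^m`, `a = m mod p`. -/
def YY (p m i j : ℕ) : ℤ :=
  cmat p (fun j ↦ wS p ℤ ^ (m % p) * (C ((p * cw p : ℕ) : ℤ) * vS p ℤ) ^ (j + 1) *
    (1 - X) ^ m) i j

end GH.MatU
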