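import Pool.Agent.GH.Pot.Defs

/-! Corank at a point gives the order of vanishing of the determinant. -/

open Finset Polynomial

noncomputable section

namespace GH

namespace MatU

/-- `A = x y + t B` with `x y` of rank at most `|ι|`: `t^(n-|ι|)` divides `det A`. -/
theorem cor_dvd {S ι : Type*} [CommRing S] [IsDomain S] [Fintype ι] [DecidableEq ι] {n : ℕ}
    {t : S} (ht : t ≠ 0) (A B : Matrix (Fin n) (Fin n) S) (x : Matrix (Fin n) ι S)
    (y : Matrix ι (Fin n) S) (h : ∀ i j, A i j = (∑ l, x i l * y l j) + t * B i j) :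
    t ^ (n - Fintype.card ι) ∣ A.det := by
  rcases lt_or_ge n (Fintype.card ι) with hn | hn
  · rw [Nat.sub_eq_zero_of_le hn.le, pow_zero]
    exact one_dvd _
  have h1 : A.det = (Matrix.fromBlocks (t • B) x (-y) 1).det := by
    rw [Matrix.det_fromBlocks_one₂₂]
    congr 1
    ext i j
    rw [Matrix.sub_apply, Matrix.mul_neg, Matrix.neg_apply, Matrix.smul_apply, smul_eq_mul,
      Matrix.mul_apply, h i j]
    ring
  have h2 := Matrix.det_mul_row (Sum.elim (fun _ : Fin n => (1 : S)) fun _ : ι => t)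
    (Matrix.fromBlocks (t • B) x (-y) 1)
  have h3 := Matrix.det_mul_column (Sum.elim (fun _ : Fin n => t) fun _ : ι => (1 : S))
    (Matrix.fromBlocks B x (-y) (t • (1 : Matrix ι ι S)))
  have h4 : (Matrix.of fun i j : Fin n ⊕ ι =>
      (Sum.elim (fun _ : Fin n => (1 : S)) fun _ : ι => t) j *
        (Matrix.fromBlocks (t • B) x (-y) 1) i j) =
      Matrix.of fun i j : Fin n ⊕ ι =>
      (Sum.elim (fun _ : Fin n => t) fun _ : ι => (1 : S)) i *
        (Matrix.fromBlocks B x (-y) (t • (1 : Matrix ι ι S))) i j := by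
    ext i j
    rcases i with i | i <;> rcases j with j | j <;> simp
  rw [h4, h3] at h2
  rw [Fintype.prod_sum_type, Fintype.prod_sum_type] at h2
  simp only [Sum.elim_inl, Sum.elim_inr, Finset.prod_const_one, one_mul, mul_one,
    Finset.prod_const, Finset.card_univ, Fintype.card_fin] at h2
  rw [← h1] at h2
  obtain ⟨k, hk⟩ : ∃ k, n = Fintype.card ι + k := ⟨n - Fintype.card ι, by omega⟩
  have h5 : n - Fintype.card ι = k := by omega
  rw [h5]
  refine ⟨(Matrix.fromBlocks B x (-y) (t • (1 : Matrix ι ι S))).det, ?_⟩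
  refine mul_left_cancel₀ (pow_ne_zero (Fintype.card ι) ht) ?_
  rw [← h2, ← mul_assoc, ← pow_add, ← hk]

/-- The polynomial version. -/
theorem cor_poly {K ι : Type*} [Field K] [Fintype ι] [DecidableEq ι] {n : ℕ} (a : K)
    (A : Matrix (Fin n) (Fin n) K[X]) (x : Fin n → ι → K) (y : ι → Fin n → K)
    (h : ∀ i j, (A i j).eval a = ∑ l, x i l * y l j) :
    (X - C a) ^ (n - Fintype.card ι) ∣ A.det := by
  have h1 : ∀ i j, ∃ q : K[X], A i j = (∑ l, C (x i l) * C (y l j)) + (X - C a) * q := by
    intro i j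
    have h2 : (A i j - C ((A i j).eval a)).IsRoot a := by
      rw [IsRoot.def, eval_sub, eval_C, sub_self]
    obtain ⟨q, hq⟩ := dvd_iff_isRoot.2 h2
    refine ⟨q, ?_⟩
    rw [← hq, h i j, map_sum]
    simp only [map_mul]
    ring
  choose B hB using h1
  exact cor_dvd (X_sub_C_ne_zero a) A (Matrix.of B) (Matrix.of fun i l => C (x i l))
    (Matrix.of fun l j => C (y l j)) hB

/-- The tent: if the `D × D` block at `a` is `c J + (rank t)`, `J` the antidiagonal, then
`(X - a)^min(n-t, D-t-n)` divides the `n`-th leading minor. The indices start with `0`. -/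
theorem cor_tent {K : Type*} [Field K] (a c : K) (M : ℕ → ℕ → K[X]) (D t n : ℕ)
    (x : ℕ → Fin t → K) (y : Fin t → ℕ → K)
    (h : ∀ i j, i < D → j < D → (M i j).eval a =
      c * (if i + j + 1 = D then 1 else 0) + ∑ l, x i l * y l j) :
    (X - C a) ^ min (n - t) (D - t - n) ∣ Pot.lead M n := by
  rcases lt_or_ge D n with hn | hn
  · have h1 : min (n - t) (D - t - n) = 0 := by omega
    rw [h1, pow_zero]
    exact one_dvd _
  have h1 : min (n - t) (D - t - n) = n - Fintype.card (Fin t ⊕ Fin (2 * n - D)) := by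
    rw [Fintype.card_sum, Fintype.card_fin, Fintype.card_fin]
    omega
  rw [h1]
  refine cor_poly a _
    (fun i => Sum.elim (fun l : Fin t => x i l)
      (fun k : Fin (2 * n - D) => if (i : ℕ) = D - n + (k : ℕ) then c else 0))
    (fun l j => Sum.elim (fun l : Fin t => y l j)
      (fun k : Fin (2 * n - D) => if (j : ℕ) + (k : ℕ) + 1 = n then 1 else 0) l) ?_
  intro i j
  have hi := i.2
  have hj := j.2
  rw [Fintype.sum_sum_type]
  simp only [Sum.elim_inl, Sum.elim_inr, Matrix.of_apply]
  rw [h i j (by omega) (by omega), add_comm]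
  congr 1
  by_cases hij : (i : ℕ) + j + 1 = D
  · rw [if_pos hij, mul_one]
    have hk : (i : ℕ) - (D - n) < 2 * n - D := by omega
    rw [Finset.sum_eq_single (⟨(i : ℕ) - (D - n), hk⟩ : Fin (2 * n - D))]
    · rw [if_pos, if_pos, mul_one]
      · show (j : ℕ) + ((i : ℕ) - (D - n)) + 1 = n
        omega
      · show (i : ℕ) = D - n + ((i : ℕ) - (D - n))
        omega
    · intro k _ hk2
      rw [if_neg, zero_mul]
      intro h3
      exact hk2 (Fin.ext (by show (k : ℕ) = (i : ℕ) - (D - n); omega))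
    · intro h3
      exact absurd (Finset.mem_univ _) h3
  · rw [if_neg hij, mul_zero]
    symm
    refine Finset.sum_eq_zero fun k _ => ?_
    by_cases h3 : (i : ℕ) = D - n + k
    · have h4 : ¬ ((j : ℕ) + (k : ℕ) + 1 = n) := by omega
      rw [if_neg h4, mul_zero]
    · rw [if_neg h3, zero_mul]

end MatU

end GH
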