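import Mathlib

/-!
# Division in `ℤ_p[py]`
-/

open Polynomial

noncomputable section

namespace GH.MatU

variable {p : ℕ} [hp : Fact p.Prime]

theorem gd_p_ne : (p : ℚ_[p]) ≠ 0 := by exact_mod_cast hp.out.ne_zero

/-- A polynomial with `p^k` dividing the `k`-th coefficient is `F(py)`. -/
theorem gd_scale (L : Polynomial ℤ_[p]) (h : ∀ k, (p : ℤ_[p]) ^ k ∣ L.coeff k) :
    ∃ F : Polynomial ℤ_[p], L = F.comp (C (p : ℤ_[p]) * X) := by
  choose c hc using h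
  refine ⟨∑ k ∈ Finset.range (L.natDegree + 1), C (c k) * X ^ k, ?_⟩
  rw [Polynomial.sum_comp]
  conv_lhs => rw [L.as_sum_range_C_mul_X_pow]
  refine Finset.sum_congr rfl fun k _ => ?_
  rw [mul_comp, C_comp, pow_comp, X_comp, mul_pow, hc k, C_mul, C_pow]
  ring

/-- The zeros of `F(py)`, with multiplicity. -/
theorem gd_zero (F : Polynomial ℤ_[p]) (m T : ℕ)
    (h : (X - C ((m : ℕ) : ℚ_[p])) ^ T ∣
      (F.comp (C (p : ℤ_[p]) * X)).map (PadicInt.Coe.ringHom (p := p))) :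
    (X - C ((p * m : ℕ) : ℚ_[p])) ^ T ∣ F.map (PadicInt.Coe.ringHom (p := p)) := by
  have h5 : (p : ℚ_[p]) ≠ 0 := gd_p_ne
  rw [map_comp, Polynomial.map_mul, map_C, map_X] at h
  have e5 : PadicInt.Coe.ringHom (p := p) (p : ℤ_[p]) = (p : ℚ_[p]) := by
    rw [map_natCast]
  rw [e5] at h
  obtain ⟨G, hG⟩ := h
  have h1 := congrArg (fun f : ℚ_[p][X] => f.comp (C (p : ℚ_[p])⁻¹ * X)) hG
  simp only [mul_comp, pow_comp, sub_comp, X_comp, C_comp, comp_assoc] at h1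
  rw [← mul_assoc, ← C_mul, mul_inv_cancel₀ h5, C_1, one_mul, comp_X] at h1
  rw [h1]
  refine Dvd.dvd.mul_right ?_ _
  have h2 : (C (p : ℚ_[p])⁻¹ * X - C ((m : ℕ) : ℚ_[p])) =
      C (p : ℚ_[p])⁻¹ * (X - C ((p * m : ℕ) : ℚ_[p])) := by
    rw [mul_sub, ← C_mul]
    congr 2
    push_cast
    field_simp
  rw [h2, mul_pow]
  exact Dvd.intro_left _ rfl

variable (p) in
/-- `∏ (X - pm)^T`. -/
def gdP (T : ℕ → ℕ) (Z : ℕ) : Polynomial ℤ_[p] :=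
  ∏ m ∈ Finset.range Z, (X - C ((p * m : ℕ) : ℤ_[p])) ^ T m

theorem gdP_monic (T : ℕ → ℕ) (Z : ℕ) : (gdP p T Z).Monic :=
  monic_prod_of_monic _ _ fun _ _ => (monic_X_sub_C _).pow _

theorem gdP_dvd {T : ℕ → ℕ} {Z : ℕ} {L F : Polynomial ℤ_[p]}
    (hF : L = F.comp (C (p : ℤ_[p]) * X))
    (h : ∀ m < Z, (X - C ((m : ℕ) : ℚ_[p])) ^ T m ∣ L.map PadicInt.Coe.ringHom) :
    gdP p T Z ∣ F := by
  have hinj : Function.Injective (PadicInt.Coe.ringHom (p := p)) := Subtype.coe_injective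
  rw [← map_dvd_map _ hinj (gdP_monic T Z)]
  have h1 : (gdP p T Z).map (PadicInt.Coe.ringHom (p := p)) =
      ∏ m ∈ Finset.range Z, (X - C ((p * m : ℕ) : ℚ_[p])) ^ T m := by
    rw [gdP, Polynomial.map_prod]
    refine Finset.prod_congr rfl fun m _ => ?_
    rw [Polynomial.map_pow, Polynomial.map_sub, map_X, map_C, map_natCast]
  rw [h1]
  refine Finset.prod_dvd_of_coprime ?_ ?_
  · intro m _ m' _ hmm
    refine IsCoprime.pow ?_
    refine isCoprime_X_sub_C_of_isUnit_sub ?_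
    rw [isUnit_iff_ne_zero, sub_ne_zero]
    intro h
    have h' : p * m = p * m' := by exact_mod_cast h
    exact hmm (Nat.eq_of_mul_eq_mul_left hp.out.pos h')
  · intro m hm
    refine gd_zero F m _ ?_
    rw [← hF]
    exact h m (Finset.mem_range.1 hm)

theorem gdP_comp (T : ℕ → ℕ) (Z : ℕ) :
    (gdP p T Z).comp (C (p : ℤ_[p]) * X) = C ((p : ℤ_[p]) ^ ∑ m ∈ Finset.range Z, T m) *
      ∏ m ∈ Finset.range Z, (X - C (m : ℤ_[p])) ^ T m := by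
  rw [gdP, prod_comp, ← Finset.prod_pow_eq_pow_sum, map_prod, ← Finset.prod_mul_distrib]
  refine Finset.prod_congr rfl fun m _ => ?_
  rw [pow_comp, sub_comp, X_comp, C_comp, C_pow, ← mul_pow, mul_sub, ← C_mul, Nat.cast_mul]

/-- **Division in `ℤ_p[py]`.** -/
theorem gauss_div (F : Polynomial ℤ_[p]) (T : ℕ → ℕ) (Z : ℕ)
    (hF : ∀ k, (p : ℤ_[p]) ^ k ∣ F.coeff k)
    (h : ∀ m < Z, (X - C ((m : ℕ) : ℚ_[p])) ^ T m ∣ F.map PadicInt.Coe.ringHom) :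
    ∃ H : Polynomial ℤ_[p], (∀ k, (p : ℤ_[p]) ^ k ∣ H.coeff k) ∧
      F = C ((p : ℤ_[p]) ^ ∑ m ∈ Finset.range Z, T m) *
        (∏ m ∈ Finset.range Z, (X - C (m : ℤ_[p])) ^ T m) * H := by
  obtain ⟨G, hG⟩ := gd_scale F hF
  obtain ⟨E, hE⟩ := gdP_dvd hG h
  refine ⟨E.comp (C (p : ℤ_[p]) * X), fun k => ?_, ?_⟩
  · rw [comp_C_mul_X_coeff]
    exact Dvd.intro_left _ rfl
  · rw [← gdP_comp, ← mul_comp, ← hE, hG]

end GH.MatU
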