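import Pool.Agent.GH.MatU.FreeInst

/-!
# The free factorisation for series with the growth `v(Q_n) ≥ n/d`

`A, Q ∈ 1 + h ℤ_p[[h]]`, `v(A_n), v(Q_n) ≥ ⌈n/d⌉`, `g = h^p/Q`, `P = A^y` over `ℤ_p[y]`.
-/

open PowerSeries

noncomputable section

namespace GH.MatU

/-! ### The growth functions -/

/-- `⌈n/d⌉`. -/
def phD (d n : ℕ) : ℕ := (n + d - 1) / d

theorem lt_phD_iff {d : ℕ} (hd : 0 < d) {e n : ℕ} : e < phD d n ↔ d * e < n := by
  unfold phD
  rw [Nat.lt_iff_add_one_le, Nat.le_div_iff_mul_le hd, add_one_mul, mul_comm e d]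
  omega

theorem phD_le_iff {d : ℕ} (hd : 0 < d) {e n : ℕ} : phD d n ≤ e ↔ n ≤ d * e := by
  rw [← not_lt, ← not_lt, lt_phD_iff hd]

theorem phD_zero {d : ℕ} (hd : 0 < d) : phD d 0 = 0 := by
  have h := (phD_le_iff hd (e := 0) (n := 0)).2 (by omega)
  omega

theorem phD_mono {d : ℕ} (hd : 0 < d) {m n : ℕ} (h : m ≤ n) : phD d m ≤ phD d n :=
  (phD_le_iff hd).2 (h.trans ((phD_le_iff hd).1 le_rfl))

theorem phD_add {d : ℕ} (hd : 0 < d) (m n : ℕ) : phD d (m + n) ≤ phD d m + phD d n := by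
  rw [phD_le_iff hd, mul_add]
  exact add_le_add ((phD_le_iff hd).1 le_rfl) ((phD_le_iff hd).1 le_rfl)

theorem one_le_phD {d : ℕ} (hd : 0 < d) {n : ℕ} (hn : 1 ≤ n) : 1 ≤ phD d n :=
  Nat.succ_le_of_lt ((lt_phD_iff hd).2 (by omega))

/-- The growth at the root. -/
def psD (p d n : ℕ) : ℕ := (p - 2) * (phD d n + 1) / (p - 1)

theorem psD_zero {p d : ℕ} (hp : 2 ≤ p) (hd : 0 < d) : psD p d 0 = 0 := by
  rw [psD, phD_zero hd, zero_add, mul_one]
  exact Nat.div_eq_of_lt (by omega)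

theorem psD_add {p d : ℕ} (hp : 2 ≤ p) (hd : 0 < d) (m n : ℕ) :
    psD p d (m + n) ≤ psD p d m + psD p d n := by
  obtain ⟨r, rfl⟩ : ∃ r, p = r + 2 := ⟨p - 2, by omega⟩
  have h := phD_add hd m n
  unfold psD
  rw [show r + 2 - 2 = r by omega, show r + 2 - 1 = r + 1 by omega]
  set a := phD d m
  set b := phD d n
  have h1 : r * (phD d (m + n) + 1) ≤ r * (a + b + 1) := Nat.mul_le_mul_left _ (by omega)
  refine (Nat.div_le_div_right h1).trans ?_
  have h2 := Nat.lt_div_mul_add (a := r * (a + 1)) (b := r + 1) (by omega)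
  have h3 := Nat.lt_div_mul_add (a := r * (b + 1)) (b := r + 1) (by omega)
  rw [← Nat.lt_succ_iff, Nat.div_lt_iff_lt_mul (by omega)]
  set x := r * (a + 1) / (r + 1)
  set y := r * (b + 1) / (r + 1)
  have h4 : r * (a + 1) ≤ x * (r + 1) + r := by omega
  have h5 : r * (b + 1) ≤ y * (r + 1) + r := by omega
  nlinarith

theorem psD_spec (p : ℕ) [Fact p.Prime] {d n j : ℕ} (hj : 1 ≤ j) : psD p d n + padicValNat p j.factorial ≤ max j (phD d n) := by
  have hp : 2 ≤ p := (Fact.out : p.Prime).two_le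
  have h1 := sub_one_mul_padicValNat_factorial_lt_of_ne_zero p (n := j) (by omega)
  obtain ⟨r, rfl⟩ : ∃ r, p = r + 2 := ⟨p - 2, by omega⟩
  rw [show r + 2 - 1 = r + 1 by omega] at h1
  set v := padicValNat (r + 2) j.factorial
  have hM1 : j ≤ max j (phD d n) := le_max_left _ _
  have hM2 : phD d n ≤ max j (phD d n) := le_max_right _ _
  set M := max j (phD d n)
  unfold psD
  rw [show r + 2 - 2 = r by omega, show r + 2 - 1 = r + 1 by omega]
  have h2 := Nat.div_mul_le_self (r * (phD d n + 1)) (r + 1)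
  set x := r * (phD d n + 1) / (r + 1)
  have h3 : r * (phD d n + 1) ≤ r * (M + 1) := Nat.mul_le_mul_left _ (by omega)
  by_contra hlt
  have h4 : M + 1 ≤ x + v := by omega
  nlinarith

variable (p : ℕ) [Fact p.Prime]

/-! ### Powers `A^y` -/

/-- `x/p` if `p` divides `x`. -/
def divp (x : ℤ_[p]) : ℤ_[p] := open Classical in if h : (p : ℤ_[p]) ∣ x then h.choose else 0

theorem mul_divp {x : ℤ_[p]} (h : (p : ℤ_[p]) ∣ x) : (p : ℤ_[p]) * divp p x = x := by
  rw [divp, dif_pos h]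
  exact h.choose_spec.symm

/-- `(A - 1)/p`. -/
def thetaA (A : PowerSeries ℤ_[p]) : PowerSeries ℤ_[p] :=
  PowerSeries.mk fun n => divp p (coeff n (A - 1))

variable {p}

/-- Growth `v(A_n) ≥ ⌈n/d⌉`. -/
def GrD (d : ℕ) (A : PowerSeries ℤ_[p]) : Prop := ∀ n, (p : ℤ_[p]) ^ phD d n ∣ coeff n A

theorem GrD.dvd {d : ℕ} (hd : 0 < d) {A : PowerSeries ℤ_[p]} (hA0 : constantCoeff A = 1)
    (hA : GrD d A) (n : ℕ) : (p : ℤ_[p]) ∣ coeff n (A - 1) := by
  rw [map_sub, coeff_one]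
  split_ifs with hn
  · subst hn
    rw [coeff_zero_eq_constantCoeff_apply, hA0, sub_self]
    exact dvd_zero _
  · rw [sub_zero]
    exact (dvd_pow_self _ (by have := one_le_phD hd (n := n) (by omega); omega)).trans (hA n)

theorem one_add_thetaA {d : ℕ} (hd : 0 < d) {A : PowerSeries ℤ_[p]}
    (hA0 : constantCoeff A = 1) (hA : GrD d A) : 1 + C (p : ℤ_[p]) * thetaA p A = A := by
  ext n
  rw [map_add, coeff_C_mul, thetaA, coeff_mk, mul_divp p (hA.dvd hd hA0 n), ← map_add,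
    add_sub_cancel]

theorem thetaA_const {d : ℕ} (hd : 0 < d) {A : PowerSeries ℤ_[p]}
    (hA0 : constantCoeff A = 1) (hA : GrD d A) : constantCoeff (thetaA p A) = 0 := by
  have h := congrArg constantCoeff (one_add_thetaA hd hA0 hA)
  rw [map_add, map_mul, map_one, constantCoeff_C, hA0, add_eq_left] at h
  rcases mul_eq_zero.1 h with h1 | h1
  · exact absurd h1 (by exact_mod_cast p_ne_zero p)
  · exact h1

variable (p) in
/-- `A^y`. -/
def Apow (A : PowerSeries ℤ_[p]) : PowerSeries (Polynomial ℤ_[p]) := Lpow p (thetaA p A)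

theorem Apow_eval {d : ℕ} (hd : 0 < d) {A : PowerSeries ℤ_[p]}
    (hA0 : constantCoeff A = 1) (hA : GrD d A) (m : ℕ) :
    PowerSeries.map (Polynomial.evalRingHom (m : ℤ_[p])) (Apow p A) = A ^ m := by
  rw [Apow, Lpow_eval p (thetaA_const hd hA0 hA), one_add_thetaA hd hA0 hA]

theorem Apow_const {d : ℕ} (hd : 0 < d) {A : PowerSeries ℤ_[p]}
    (hA0 : constantCoeff A = 1) (hA : GrD d A) : constantCoeff (Apow p A) = 1 :=
  Lpow_const p (thetaA_const hd hA0 hA)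

theorem Apow_pt {d : ℕ} (hd : 0 < d) {A : PowerSeries ℤ_[p]}
    (hA0 : constantCoeff A = 1) (hA : GrD d A) : InF (Ipt p) (phD d) (Apow p A) :=
  Lpow_pt p (phD_zero hd) (phD_add hd) (thetaA_const hd hA0 hA)
    (by rw [one_add_thetaA hd hA0 hA]; exact hA)

theorem Apow_rt {d : ℕ} (hd : 0 < d) {A : PowerSeries ℤ_[p]}
    (hA0 : constantCoeff A = 1) (hA : GrD d A) : InF (Irt p) (psD p d) (Apow p A) :=
  Lpow_rt p (phD_zero hd) (phD_add hd) (psD_zero (Fact.out : p.Prime).two_le hd)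
    (fun _ _ _ hj => psD_spec p hj) (thetaA_const hd hA0 hA)
    (by rw [one_add_thetaA hd hA0 hA]; exact hA)

theorem psD_le_phD {d : ℕ} (hd : 0 < d) (n : ℕ) : psD p d n ≤ phD d n := by
  have hp : 2 ≤ p := (Fact.out : p.Prime).two_le
  rcases Nat.eq_zero_or_pos n with hn | hn
  · rw [hn, psD_zero hp hd]
    exact Nat.zero_le _
  · have h := psD_spec p (d := d) (n := n) (j := 1) le_rfl
    rw [max_eq_right (one_le_phD hd hn)] at h
    omega

theorem GrD.one {d : ℕ} (hd : 0 < d) : GrD d (1 : PowerSeries ℤ_[p]) := by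
  have h := InF.one (filt_Ipw (p : ℤ_[p]) (phD_zero hd) (phD_add hd))
  exact fun n => mem_Ipw.1 (h n)

theorem GrD.mul {d : ℕ} (hd : 0 < d) {A B : PowerSeries ℤ_[p]} (hA : GrD d A) (hB : GrD d B) :
    GrD d (A * B) := by
  have h := InF.mul (filt_Ipw (p : ℤ_[p]) (phD_zero hd) (phD_add hd)) (F := A) (G := B)
    (fun n => mem_Ipw.2 (hA n)) (fun n => mem_Ipw.2 (hB n))
  exact fun n => mem_Ipw.1 (h n)

theorem GrD.pow {d : ℕ} (hd : 0 < d) {A : PowerSeries ℤ_[p]} (hA : GrD d A) (k : ℕ) :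
    GrD d (A ^ k) := by
  have h := InF.pow (filt_Ipw (p : ℤ_[p]) (phD_zero hd) (phD_add hd)) (F := A)
    (fun n => mem_Ipw.2 (hA n)) k
  exact fun n => mem_Ipw.1 (h n)

theorem GrD.inv {d : ℕ} (hd : 0 < d) {A : PowerSeries ℤ_[p]} (hA0 : constantCoeff A = 1)
    (hA : GrD d A) : GrD d (invOfUnit A 1) := by
  have h := InF.inv (filt_Ipw (p : ℤ_[p]) (phD_zero hd) (phD_add hd)) (F := A)
    (fun n => mem_Ipw.2 (hA n)) hA0
  exact fun n => mem_Ipw.1 (h n)

theorem const_inv {A : PowerSeries ℤ_[p]} : constantCoeff (invOfUnit A 1) = 1 := by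
  rw [constantCoeff_invOfUnit]
  simp

/-- Growth `v(F_n) ≥ ⌈(n-a)/d⌉`. -/
def GrS (d a : ℕ) (F : PowerSeries ℤ_[p]) : Prop :=
  ∀ n, (p : ℤ_[p]) ^ phD d (n - a) ∣ coeff n F

theorem GrD.grS {d : ℕ} (hd : 0 < d) {A : PowerSeries ℤ_[p]} (hA : GrD d A) (a : ℕ) :
    GrS d a A := fun n => (pow_dvd_pow _ (phD_mono hd (Nat.sub_le n a))).trans (hA n)

theorem GrS.mul {d : ℕ} (hd : 0 < d) {a b : ℕ} {A B : PowerSeries ℤ_[p]} (hA : GrS d a A)
    (hB : GrS d b B) : GrS d (a + b) (A * B) := by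
  intro n
  rw [coeff_mul]
  refine Finset.dvd_sum fun x hx => ?_
  have hx1 := Finset.HasAntidiagonal.mem_antidiagonal.1 hx
  have h1 : phD d (n - (a + b)) ≤ phD d (x.1 - a) + phD d (x.2 - b) :=
    (phD_mono hd (by omega)).trans (phD_add hd _ _)
  refine (pow_dvd_pow _ h1).trans ?_
  rw [pow_add]
  exact mul_dvd_mul (hA x.1) (hB x.2)

theorem GrS.pow {d : ℕ} (hd : 0 < d) {a : ℕ} {A : PowerSeries ℤ_[p]} (hA : GrS d a A)
    (k : ℕ) : GrS d (k * a) (A ^ k) := by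
  induction k with
  | zero =>
    rw [zero_mul, pow_zero]
    exact (GrD.one hd).grS hd 0
  | succ k ih =>
    rw [pow_succ, add_one_mul]
    exact ih.mul hd hA

/-! ### The series `S` and `W` -/

variable (p) in
/-- The series `S` of the free factorisation of `A^y` with respect to `g = h^p/Q`. -/
def SQ (A Q : PowerSeries ℤ_[p]) (L : ℕ) : PowerSeries (Polynomial ℤ_[p]) :=
  SF p (Apow p A) (PowerSeries.map Polynomial.C (invOfUnit Q 1)) L

variable (p) in
/-- The series `W` of the free factorisation. -/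
def WQ (A Q : PowerSeries ℤ_[p]) (L : ℕ) : PowerSeries (Polynomial ℤ_[p]) :=
  WF p (Apow p A) (PowerSeries.map Polynomial.C (invOfUnit Q 1)) L

section

variable {d : ℕ} (hd : 0 < d) {A Q : PowerSeries ℤ_[p]} (hA0 : constantCoeff A = 1)
  (hA : GrD d A) (hQ0 : constantCoeff Q = 1) (hQ : GrD d Q)

include hd hA0 hA hQ0 hQ

theorem SQ_int {L n : ℕ} (hn : n < p * (L + 1)) : coeff n (SQ p A Q L) ∈ (iot p).range := by
  have h := SFL_int p (thetaA_const hd hA0 hA)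
    (thetaA_const hd const_inv (hQ.inv hd hQ0)) (L := L) (n := n) hn
  rwa [one_add_thetaA hd const_inv (hQ.inv hd hQ0)] at h

theorem SQ_pt (L : ℕ) : InF (Ipt p) (phD d) (SQ p A Q L) :=
  SF_filt (filt_Ipt p (phD_zero hd) (phD_add hd)) (Apow_pt hd hA0 hA)
    (C_pt p (hQ.inv hd hQ0)) L

theorem SQ_rt (L : ℕ) : InF (Irt p) (psD p d) (SQ p A Q L) :=
  SF_filt (filt_Ipw _ (psD_zero (Fact.out : p.Prime).two_le hd)
    (psD_add (Fact.out : p.Prime).two_le hd)) (Apow_rt hd hA0 hA)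
    (C_rt p fun n => (pow_dvd_pow _ (psD_le_phD hd n)).trans (hQ.inv hd hQ0 n)) L

theorem WQ_pt (L l : ℕ) : coeff l (WQ p A Q L) ∈ Ipt p (phD d (p * l)) :=
  WF_filt (filt_Ipt p (phD_zero hd) (phD_add hd)) (Apow_pt hd hA0 hA)
    (C_pt p (hQ.inv hd hQ0)) L l

theorem WQ_rt (L l : ℕ) : coeff l (WQ p A Q L) ∈ Irt p (psD p d (p * l)) :=
  WF_filt (filt_Ipw _ (psD_zero (Fact.out : p.Prime).two_le hd)
    (psD_add (Fact.out : p.Prime).two_le hd)) (Apow_rt hd hA0 hA)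
    (C_rt p fun n => (pow_dvd_pow _ (psD_le_phD hd n)).trans (hQ.inv hd hQ0 n)) L l

end

theorem WQ_const (A Q : PowerSeries ℤ_[p]) (L : ℕ) : constantCoeff (WQ p A Q L) = 1 :=
  constantCoeff_WF _ _ _

variable (p) in
/-- `M_ij = [h^(pi-j)] A^y F Q^i`. -/
def MQ (A Q F : PowerSeries ℤ_[p]) (i j : ℕ) : Polynomial ℤ_[p] :=
  ent p (Apow p A * PowerSeries.map Polynomial.C F) (PowerSeries.map Polynomial.C Q) i j

variable (p) in
/-- `N_ij = [h^(pi-j)] S F Q^i`. -/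
def NQ (A Q F : PowerSeries ℤ_[p]) (L i j : ℕ) : Polynomial ℤ_[p] :=
  ent p (SQ p A Q L * PowerSeries.map Polynomial.C F) (PowerSeries.map Polynomial.C Q) i j

theorem MQ_of_lt {A Q F : PowerSeries ℤ_[p]} {i j : ℕ} (h : p * i < j) :
    MQ p A Q F i j = 0 := if_neg (by omega)

theorem NQ_of_lt {A Q F : PowerSeries ℤ_[p]} {L i j : ℕ} (h : p * i < j) :
    NQ p A Q F L i j = 0 := if_neg (by omega)

/-- `M(m)` at the natural numbers. -/
theorem MQ_eval {d : ℕ} (hd : 0 < d) {A : PowerSeries ℤ_[p]}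
    (hA0 : constantCoeff A = 1) (hA : GrD d A) (Q F : PowerSeries ℤ_[p]) (i j m : ℕ) :
    (MQ p A Q F i j).eval (m : ℤ_[p]) = ent p (A ^ m * F) Q i j := by
  rw [MQ, ent, ent]
  split_ifs with h
  · rw [← Polynomial.coe_evalRingHom, ← coeff_map, RingHom.map_mul, RingHom.map_mul,
      RingHom.map_pow, Apow_eval hd hA0 hA]
    have h1 : ∀ G : PowerSeries ℤ_[p], PowerSeries.map (Polynomial.evalRingHom (m : ℤ_[p]))
        (PowerSeries.map Polynomial.C G) = G := by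
      intro G
      ext n
      rw [coeff_map, coeff_map, Polynomial.coe_evalRingHom, Polynomial.eval_C]
    rw [h1, h1]
  · exact Polynomial.eval_zero

/-- **The row operation** `M = [W] N`. -/
theorem MQ_row (A : PowerSeries ℤ_[p]) {Q : PowerSeries ℤ_[p]} (hQ0 : constantCoeff Q = 1)
    (F : PowerSeries ℤ_[p]) (L i j : ℕ) : MQ p A Q F i j =
      ∑ l ∈ Finset.range (i + 1), coeff l (WQ p A Q L) * NQ p A Q F L (i - l) j := by
  refine SF_row (p_ne_zero p) ?_ _ L i j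
  rw [← map_mul, mul_invOfUnit Q 1 (by simpa using hQ0), map_one]

section

variable {d : ℕ} (hd : 0 < d) {A Q F : PowerSeries ℤ_[p]} (hA0 : constantCoeff A = 1)
  (hA : GrD d A) (hQ0 : constantCoeff Q = 1) (hQ : GrD d Q)

include hd hA0 hA hQ0 hQ

/-- `N_ij ∈ ℤ_p[py]`. -/
theorem NQ_int {L i : ℕ} (hi : i ≤ L) (j : ℕ) : NQ p A Q F L i j ∈ (iot p).range := by
  have hp : 0 < p := (Fact.out : p.Prime).pos
  rw [NQ, ent]
  split_ifs with h
  · have h1 : IntTo (iot p) (p * (L + 1)) (SQ p A Q L) := fun n hn =>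
      SQ_int hd hA0 hA hQ0 hQ hn
    have hc : ∀ G : PowerSeries ℤ_[p], IntTo (iot p) (p * (L + 1))
        (PowerSeries.map Polynomial.C G) := fun G n _ => by
      rw [coeff_map]
      exact ⟨Polynomial.C (coeff n G), iot_C p _⟩
    refine ((h1.mul (hc F)).mul ((hc Q).pow i)) _ ?_
    have h2 : p * i ≤ p * L := Nat.mul_le_mul_left _ hi
    rw [mul_add]
    omega
  · exact Subring.zero_mem _

/-- The values of `N_ij` at the natural numbers. -/
theorem NQ_pt {a : ℕ} (hF : GrS d a F) (L i j : ℕ) :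
    NQ p A Q F L i j ∈ Ipt p (phD d (p * i - j - a)) := by
  rw [NQ, ent]
  split_ifs with h
  · intro m
    have hS : GrD d (PowerSeries.map (Polynomial.evalRingHom (m : ℤ_[p])) (SQ p A Q L)) := by
      intro n
      rw [coeff_map, Polynomial.coe_evalRingHom]
      exact SQ_pt hd hA0 hA hQ0 hQ L n m
    have h1 : ∀ G : PowerSeries ℤ_[p], PowerSeries.map (Polynomial.evalRingHom (m : ℤ_[p]))
        (PowerSeries.map Polynomial.C G) = G := by
      intro G
      ext n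
      rw [coeff_map, coeff_map, Polynomial.coe_evalRingHom, Polynomial.eval_C]
    rw [← Polynomial.coe_evalRingHom, ← coeff_map, RingHom.map_mul, RingHom.map_mul,
      RingHom.map_pow, h1, h1]
    have h2 := ((hS.grS hd 0).mul hd hF).mul hd ((hQ.pow hd i).grS hd 0)
    rw [zero_add, add_zero] at h2
    exact h2 _
  · exact Submodule.zero_mem _

/-- **The growth of `N` at the root.** -/
theorem NQ_rt {a : ℕ} (hF : GrS d a F) {L i j c : ℕ} (hi : i ≤ L)
    (hc : ∀ k < c, d * (k + padicValNat p k.factorial) + a < p * i - j) :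
    NQ p A Q F L i j ∈ Irt p c := by
  obtain ⟨G, hG⟩ := NQ_int hd hA0 hA hQ0 hQ (F := F) hi j
  have h1 := NQ_pt hd hA0 hA hQ0 hQ hF L i j
  rw [← hG] at h1 ⊢
  refine cost_mem p h1 fun k hk => ?_
  rw [lt_phD_iff hd]
  have := hc k hk
  omega

end

end GH.MatU
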