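import Mathlib

/-!
# The trace structure of the matrix of `U_p` at integral weights, genus zero, uniform in `p`

Paper proof: note 5290 (helper7) on MP_370013_nt. `J(x) = PG(x)/x`, `g = h^p/Q(h)`,
`Y = 1/(c h)`, `J(g) = J(Y)`. No roots and no start values are needed.
-/

open PowerSeries Finset

noncomputable section

namespace GH.TrJ

/-- The value of a polynomial at a power series. -/
abbrev ev (g : PowerSeries ℚ) (P : Polynomial ℚ) : PowerSeries ℚ := Polynomial.aeval g P

/-- The data. `ψ ψs = PG - x PG'`; `Pn`, `nψ`, `ns` are the reversed polynomials. -/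
structure Data where
  p : ℕ
  hp : p ≠ 0
  c : ℚ
  hc : c ≠ 0
  κ : ℚ
  κs : ℚ
  hκ : κs ≠ 0
  μ : ℕ
  μs : ℕ
  hμ : μ + μs = p + 1
  PG : Polynomial ℚ
  Pn : Polynomial ℚ
  ψ : Polynomial ℚ
  nψ : Polynomial ℚ
  ψs : Polynomial ℚ
  ns : Polynomial ℚ
  PG0 : PG.coeff 0 = 1
  ψ0 : ψ.coeff 0 = 1
  ψs0 : ψs.coeff 0 = 1
  dPG : PG.natDegree ≤ p + 1
  dPn : Pn.natDegree ≤ p + 1
  dψ : ψ.natDegree ≤ μ
  dnψ : nψ.natDegree ≤ μ
  dψs : ψs.natDegree ≤ μs
  dns : ns.natDegree ≤ μs
  rP : ∀ a b, a + b = p + 1 → c ^ b * Pn.coeff a = c * PG.coeff b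
  rψ : ∀ a b, a + b = μ → κ * c ^ b * nψ.coeff a = ψ.coeff b
  rs : ∀ a b, a + b = μs → κs * c ^ b * ns.coeff a = ψs.coeff b
  e14 : PG - Polynomial.X * Polynomial.derivative PG = ψ * ψs
  n14 : Polynomial.C (p : ℚ) * Pn - Polynomial.X * Polynomial.derivative Pn =
    Polynomial.C (p : ℚ) * (nψ * ns)
  hκκ : κ * κs * c = -p
  Q : PowerSeries ℚ
  Qi : PowerSeries ℚ
  Q0 : constantCoeff Q = 1
  hQ : Q * Qi = 1
  fix : Q * ev (X ^ p * Qi) PG = (Pn : PowerSeries ℚ)

namespace Data

variable (D : Data)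

/-- `g = h^p/Q`. -/
def g : PowerSeries ℚ := X ^ D.p * D.Qi

/-- The dimension plus one at the weight `z`. -/
def m (z : ℕ) : ℕ := (D.p + 1) * z + D.μ

/-- The matrix `[h^(pi-j)] Q^(i-1-z) ns / ψs(g)`. -/
def M (z i j : ℕ) : ℚ :=
  if j ≤ D.p * i then
    coeff (D.p * i - j) (D.Q ^ i * D.Qi ^ (z + 1) * (D.ns : PowerSeries ℚ) * (ev D.g D.ψs)⁻¹)
  else 0

end Data

/-! ### Reversed polynomials -/

/-- `B` is `λ c^b` times the reversal of `A` in degree `N`. -/
def Rev (c : ℚ) (N : ℕ) (l : ℚ) (A B : Polynomial ℚ) : Prop :=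
  A.natDegree ≤ N ∧ B.natDegree ≤ N ∧ ∀ a b, a + b = N → l * c ^ b * A.coeff a = B.coeff b

theorem Rev.mul {c : ℚ} {N N' : ℕ} {l l' : ℚ} {A B A' B' : Polynomial ℚ} (h : Rev c N l A B)
    (h' : Rev c N' l' A' B') : Rev c (N + N') (l * l') (A * A') (B * B') := by
  refine ⟨Polynomial.natDegree_mul_le.trans (add_le_add h.1 h'.1),
    Polynomial.natDegree_mul_le.trans (add_le_add h.2.1 h'.2.1), ?_⟩
  intro a b hab
  -- extend the relation to all indices
  have e1 : ∀ x y : ℕ, ∀ u v : ℕ, x + y = a → u + v = b → (A.coeff x ≠ 0 ∨ B.coeff u ≠ 0) → True :=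
    fun _ _ _ _ _ _ _ => trivial
  rw [Polynomial.coeff_mul, Polynomial.coeff_mul, Finset.mul_sum]
  -- both sums are over x ∈ [0, N], x' = a - x ∈ [0, N']
  have hA : ∀ x, N < x → A.coeff x = 0 := fun x hx =>
    Polynomial.coeff_eq_zero_of_natDegree_lt (h.1.trans_lt hx)
  have hB : ∀ x, N < x → B.coeff x = 0 := fun x hx =>
    Polynomial.coeff_eq_zero_of_natDegree_lt (h.2.1.trans_lt hx)
  have hA' : ∀ x, N' < x → A'.coeff x = 0 := fun x hx =>
    Polynomial.coeff_eq_zero_of_natDegree_lt (h'.1.trans_lt hx)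
  have hB' : ∀ x, N' < x → B'.coeff x = 0 := fun x hx =>
    Polynomial.coeff_eq_zero_of_natDegree_lt (h'.2.1.trans_lt hx)
  refine Finset.sum_bij_ne_zero (fun x _ _ => (N - x.1, N' - x.2)) ?_ ?_ ?_ ?_
  · intro x hx hne
    rw [HasAntidiagonal.mem_antidiagonal] at hx ⊢
    have h1 : x.1 ≤ N := by
      by_contra hlt
      exact hne (by rw [hA _ (not_le.1 hlt)]; ring)
    have h2 : x.2 ≤ N' := by
      by_contra hlt
      exact hne (by rw [hA' _ (not_le.1 hlt)]; ring)
    show N - x.1 + (N' - x.2) = b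
    omega
  · intro x hx hne y hy hne' hxy
    rw [HasAntidiagonal.mem_antidiagonal] at hx hy
    have h1 : x.1 ≤ N := by
      by_contra hlt
      exact hne (by rw [hA _ (not_le.1 hlt)]; ring)
    have h2 : x.2 ≤ N' := by
      by_contra hlt
      exact hne (by rw [hA' _ (not_le.1 hlt)]; ring)
    have h3 : y.1 ≤ N := by
      by_contra hlt
      exact hne' (by rw [hA _ (not_le.1 hlt)]; ring)
    have h4 : y.2 ≤ N' := by
      by_contra hlt
      exact hne' (by rw [hA' _ (not_le.1 hlt)]; ring)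
    have h5 : N - x.1 = N - y.1 := congrArg Prod.fst hxy
    have h6 : N' - x.2 = N' - y.2 := congrArg Prod.snd hxy
    ext
    · omega
    · omega
  · intro y hy hne
    rw [HasAntidiagonal.mem_antidiagonal] at hy
    have h1 : y.1 ≤ N := by
      by_contra hlt
      exact hne (by rw [hB _ (not_le.1 hlt)]; ring)
    have h2 : y.2 ≤ N' := by
      by_contra hlt
      exact hne (by rw [hB' _ (not_le.1 hlt)]; ring)
    have h3 := h.2.2 (N - y.1) y.1 (by omega)
    have h4 := h'.2.2 (N' - y.2) y.2 (by omega)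
    refine ⟨(N - y.1, N' - y.2), ?_, ?_, ?_⟩
    · rw [HasAntidiagonal.mem_antidiagonal]
      show N - y.1 + (N' - y.2) = a
      omega
    · show l * l' * c ^ b * (A.coeff (N - y.1) * A'.coeff (N' - y.2)) ≠ 0
      have h5 : l * l' * c ^ b * (A.coeff (N - y.1) * A'.coeff (N' - y.2)) =
          (l * c ^ y.1 * A.coeff (N - y.1)) * (l' * c ^ y.2 * A'.coeff (N' - y.2)) := by
        rw [← hy, pow_add]
        ring
      rw [h5, h3, h4]
      exact hne
    · ext
      · show N - (N - y.1) = y.1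
        omega
      · show N' - (N' - y.2) = y.2
        omega
  · intro x hx hne
    rw [HasAntidiagonal.mem_antidiagonal] at hx
    have h1 : x.1 ≤ N := by
      by_contra hlt
      exact hne (by rw [hA _ (not_le.1 hlt)]; ring)
    have h2 : x.2 ≤ N' := by
      by_contra hlt
      exact hne (by rw [hA' _ (not_le.1 hlt)]; ring)
    show l * l' * c ^ b * (A.coeff x.1 * A'.coeff x.2) = B.coeff (N - x.1) * B'.coeff (N' - x.2)
    rw [← h.2.2 x.1 (N - x.1) (by omega), ← h'.2.2 x.2 (N' - x.2) (by omega)]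
    have h5 : b = (N - x.1) + (N' - x.2) := by omega
    rw [h5, pow_add]
    ring

theorem Rev.one (c : ℚ) : Rev c 0 1 1 1 := by
  refine ⟨by simp, by simp, ?_⟩
  intro a b hab
  have h1 : a = 0 := by omega
  have h2 : b = 0 := by omega
  subst h1
  subst h2
  simp

theorem Rev.pow {c : ℚ} {N : ℕ} {l : ℚ} {A B : Polynomial ℚ} (h : Rev c N l A B) (k : ℕ) :
    Rev c (N * k) (l ^ k) (A ^ k) (B ^ k) := by
  induction k with
  | zero => simpa using Rev.one c
  | succ k ih =>
    rw [pow_succ, pow_succ, pow_succ, Nat.mul_succ]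
    exact ih.mul h

/-! ### Coefficients of `J^k dJ` -/

/-- `[x^(k+1)] PG^k (PG - x PG') = 0`. -/
theorem coeff_exact (P : Polynomial ℚ) (k : ℕ) :
    (P ^ k * (P - Polynomial.X * Polynomial.derivative P)).coeff (k + 1) = 0 := by
  have h1 : Polynomial.C ((k : ℚ) + 1) * (P ^ k * (P - Polynomial.X * Polynomial.derivative P)) =
      Polynomial.C ((k : ℚ) + 1) * P ^ (k + 1) -
        Polynomial.X * Polynomial.derivative (P ^ (k + 1)) := by
    rw [Polynomial.derivative_pow]
    simp only [Nat.cast_add, Nat.cast_one, Nat.add_sub_cancel]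
    ring
  have h2 := congrArg (fun q : Polynomial ℚ => q.coeff (k + 1)) h1
  simp only [Polynomial.coeff_sub, Polynomial.coeff_C_mul, Polynomial.coeff_X_mul,
    Polynomial.coeff_derivative] at h2
  have h3 : ((k : ℚ) + 1) ≠ 0 := by positivity
  have h4 : ((k : ℚ) + 1) * (P ^ k * (P - Polynomial.X * Polynomial.derivative P)).coeff (k + 1) =
      0 := by
    rw [h2]
    ring
  exact (mul_eq_zero.1 h4).resolve_left h3

/-- A power series orthogonal to all `J^k dJ` is a polynomial in `J`. -/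
theorem poly_of_orth (P : Polynomial ℚ) (hP0 : P.coeff 0 = 1) (r : ℕ) (G : PowerSeries ℚ)
    (h : ∀ k : ℕ, coeff (k + 1 + r) (G * ((P ^ k * (P - Polynomial.X * Polynomial.derivative P) :
      Polynomial ℚ) : PowerSeries ℚ)) = 0) :
    ∃ a : ℕ → ℚ, G = ∑ l ∈ range (r + 1),
      C (a l) * X ^ (r - l) * ((P ^ l : Polynomial ℚ) : PowerSeries ℚ) := by
  -- first match the coefficients `0, …, r`
  have key : ∀ s : ℕ, s ≤ r + 1 → ∃ a : ℕ → ℚ, ∀ n < s, coeff n (G - ∑ l ∈ range (r + 1),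
      C (a l) * X ^ (r - l) * ((P ^ l : Polynomial ℚ) : PowerSeries ℚ)) = 0 := by
    intro s
    induction s with
    | zero => exact fun _ => ⟨0, fun n hn => absurd hn (Nat.not_lt_zero n)⟩
    | succ s ih =>
      intro hs
      obtain ⟨a, ha⟩ := ih (by omega)
      set d := coeff s (G - ∑ l ∈ range (r + 1),
        C (a l) * X ^ (r - l) * ((P ^ l : Polynomial ℚ) : PowerSeries ℚ)) with hd
      refine ⟨fun l => a l + if l = r - s then d else 0, ?_⟩
      have h1 : (∑ l ∈ range (r + 1), C (a l + if l = r - s then d else 0) * X ^ (r - l) *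
          ((P ^ l : Polynomial ℚ) : PowerSeries ℚ)) = (∑ l ∈ range (r + 1),
          C (a l) * X ^ (r - l) * ((P ^ l : Polynomial ℚ) : PowerSeries ℚ)) +
          C d * X ^ s * ((P ^ (r - s) : Polynomial ℚ) : PowerSeries ℚ) := by
        have h2 : C d * X ^ s * ((P ^ (r - s) : Polynomial ℚ) : PowerSeries ℚ) =
            ∑ l ∈ range (r + 1), if l = r - s then
              C d * X ^ (r - l) * ((P ^ l : Polynomial ℚ) : PowerSeries ℚ) else 0 := by
          rw [Finset.sum_ite_eq' (range (r + 1)) (r - s), if_pos (mem_range.2 (by omega))]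
          congr 3
          omega
        rw [h2, ← Finset.sum_add_distrib]
        refine Finset.sum_congr rfl fun l _ => ?_
        split_ifs with hl
        · rw [map_add]
          ring
        · rw [add_zero, add_zero]
      intro n hn
      rw [h1, ← sub_sub, map_sub]
      have h3 : coeff n (C d * X ^ s * ((P ^ (r - s) : Polynomial ℚ) : PowerSeries ℚ)) =
          if n = s then d else 0 := by
        rw [mul_assoc, coeff_C_mul, coeff_X_pow_mul']
        split_ifs with h4 h5 h5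
        · subst h5
          rw [Nat.sub_self, Polynomial.coeff_coe, Polynomial.coeff_zero_eq_eval_zero,
            Polynomial.eval_pow, ← Polynomial.coeff_zero_eq_eval_zero, hP0, one_pow, mul_one]
        · omega
        · omega
        · rw [mul_zero]
      rw [h3]
      rcases Nat.lt_succ_iff_lt_or_eq.1 hn with h4 | h4
      · rw [ha n h4, if_neg (by omega), sub_zero]
      · rw [h4, if_pos rfl, ← hd, sub_self]
  obtain ⟨a, ha⟩ := key (r + 1) le_rfl
  refine ⟨a, ?_⟩
  set ρ := G - ∑ l ∈ range (r + 1),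
    C (a l) * X ^ (r - l) * ((P ^ l : Polynomial ℚ) : PowerSeries ℚ) with hρ
  suffices h0 : ρ = 0 by exact sub_eq_zero.1 h0
  -- the remainder is still orthogonal
  have horth : ∀ k : ℕ, coeff (k + 1 + r) (ρ * ((P ^ k *
      (P - Polynomial.X * Polynomial.derivative P) : Polynomial ℚ) : PowerSeries ℚ)) = 0 := by
    intro k
    rw [hρ, sub_mul, map_sub, h k, zero_sub, neg_eq_zero, Finset.sum_mul, map_sum]
    refine Finset.sum_eq_zero fun l hl => ?_
    rw [mem_range] at hl
    have h1 : C (a l) * X ^ (r - l) * ((P ^ l : Polynomial ℚ) : PowerSeries ℚ) * ((P ^ k *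
        (P - Polynomial.X * Polynomial.derivative P) : Polynomial ℚ) : PowerSeries ℚ) =
        C (a l) * (X ^ (r - l) * ((P ^ (l + k) *
        (P - Polynomial.X * Polynomial.derivative P) : Polynomial ℚ) : PowerSeries ℚ)) := by
      have h2 : ((P ^ (l + k) * (P - Polynomial.X * Polynomial.derivative P) : Polynomial ℚ) :
          PowerSeries ℚ) = ((P ^ l : Polynomial ℚ) : PowerSeries ℚ) * ((P ^ k *
          (P - Polynomial.X * Polynomial.derivative P) : Polynomial ℚ) : PowerSeries ℚ) := by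
        rw [← Polynomial.coe_mul, pow_add, mul_assoc]
      rw [h2]
      ring
    rw [h1, coeff_C_mul, coeff_X_pow_mul', if_pos (by omega), Polynomial.coeff_coe]
    have h2 : k + 1 + r - (r - l) = l + k + 1 := by omega
    rw [h2, coeff_exact, mul_zero]
  by_contra hne
  have hord : ∀ n, coeff n ρ = 0 := by
    intro n
    induction n using Nat.strong_induction_on with
    | _ n ih =>
      rcases lt_or_ge n (r + 1) with hn | hn
      · exact ha n hn
      · obtain ⟨k, rfl⟩ : ∃ k, n = k + 1 + r := ⟨n - 1 - r, by omega⟩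
        have h1 := horth k
        rw [coeff_mul, Finset.sum_eq_single (k + 1 + r, 0)] at h1
        · rw [Polynomial.coeff_coe, Polynomial.mul_coeff_zero, Polynomial.coeff_sub,
            Polynomial.coeff_X_mul_zero, sub_zero, hP0, Polynomial.coeff_zero_eq_eval_zero,
            Polynomial.eval_pow, ← Polynomial.coeff_zero_eq_eval_zero, hP0, one_pow, mul_one,
            mul_one] at h1
          exact h1
        · intro x hx hx0
          rw [HasAntidiagonal.mem_antidiagonal] at hx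
          have : x.1 < k + 1 + r := by
            by_contra hc
            apply hx0
            ext
            · show x.1 = k + 1 + r
              omega
            · show x.2 = 0
              omega
          rw [ih x.1 this, zero_mul]
        · intro hx
          exact absurd (HasAntidiagonal.mem_antidiagonal.2 (add_zero _)) hx
  exact hne (PowerSeries.ext fun n => by rw [hord n, map_zero])

/-! ### Coefficient extraction -/

section Lag

variable {p : ℕ} {Q Qi : PowerSeries ℚ}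

/-- `∑ u_n [h^(p(K-n)-j)] Q^(K-n) F = [h^(pK-j)] Q^K F u(g)`. -/
theorem ent_sum (hp : p ≠ 0) (hQ : Q * Qi = 1) (F : PowerSeries ℚ) (K j : ℕ) (u : Polynomial ℚ) :
    ∑ x ∈ antidiagonal K, (if j ≤ p * x.1 then coeff (p * x.1 - j) (Q ^ x.1 * F) else 0) *
      u.coeff x.2 =
    if j ≤ p * K then coeff (p * K - j) (Q ^ K * F * ev (X ^ p * Qi) u) else 0 := by
  induction u using Polynomial.induction_on' with
  | add u v hu hv =>
    simp only [Polynomial.coeff_add, mul_add, Finset.sum_add_distrib, hu, hv, map_add]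
    split_ifs
    · rfl
    · rw [add_zero]
  | monomial n a =>
    have h1 : ev (X ^ p * Qi) (Polynomial.monomial n a) = C a * (X ^ (p * n) * Qi ^ n) := by
      rw [ev, Polynomial.aeval_monomial, mul_pow, ← pow_mul]
      rfl
    rw [h1]
    rcases le_or_gt n K with hn | hn
    · rw [Finset.sum_eq_single (K - n, n)]
      · rw [Polynomial.coeff_monomial, if_pos rfl]
        have h2 : Q ^ K * F * (C a * (X ^ (p * n) * Qi ^ n)) =
            C a * (X ^ (p * n) * (Q ^ (K - n) * F)) := by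
          have h3 : Q ^ K = Q ^ (K - n) * Q ^ n := by
            rw [← pow_add]
            congr 1
            omega
          calc Q ^ K * F * (C a * (X ^ (p * n) * Qi ^ n)) =
              C a * (X ^ (p * n) * (Q ^ (K - n) * F)) * (Q * Qi) ^ n := by
                rw [h3, mul_pow]
                ring
            _ = _ := by rw [hQ, one_pow, mul_one]
        rw [h2, coeff_C_mul, coeff_X_pow_mul']
        have h4 : p * (K - n) = p * K - p * n := Nat.mul_sub p K n
        have h5 : p * n ≤ p * K := Nat.mul_le_mul_left p hn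
        by_cases hj : j ≤ p * (K - n)
        · rw [if_pos hj, if_pos (by omega), if_pos (by omega)]
          have h6 : p * (K - n) - j = p * K - j - p * n := by omega
          rw [h6]
          ring
        · rw [if_neg hj]
          split_ifs with h6 h7
          · exact absurd h7 (by omega)
          · ring
          · ring
      · intro x hx hx0
        rw [HasAntidiagonal.mem_antidiagonal] at hx
        have h3 : (Polynomial.monomial n a).coeff x.2 = 0 := by
          rw [Polynomial.coeff_monomial, if_neg]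
          intro h2
          apply hx0
          ext
          · show x.1 = K - n
            omega
          · exact h2.symm
        rw [h3, mul_zero]
      · intro hx
        exact absurd (HasAntidiagonal.mem_antidiagonal.2 (by show K - n + n = K; omega)) hx
    · rw [Finset.sum_eq_zero]
      · symm
        split_ifs with hj
        · have h2 : Q ^ K * F * (C a * (X ^ (p * n) * Qi ^ n)) =
              X ^ (p * n) * (C a * (Q ^ K * F * Qi ^ n)) := by ring
          rw [h2, coeff_X_pow_mul', if_neg]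
          have h3 : p * K < p * n := Nat.mul_lt_mul_of_pos_left hn (Nat.pos_of_ne_zero hp)
          omega
        · rfl
      · intro x hx
        rw [HasAntidiagonal.mem_antidiagonal] at hx
        have h3 : (Polynomial.monomial n a).coeff x.2 = 0 := by
          rw [Polynomial.coeff_monomial, if_neg (by omega)]
        rw [h3, mul_zero]

end Lag

namespace Data

variable (D : Data)

theorem rev_all (k : ℕ) : Rev D.c ((D.p + 1) * k + D.μs) (D.c⁻¹ ^ k * D.κs)
    (D.Pn ^ k * D.ns) (D.PG ^ k * D.ψs) := by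
  have h1 : Rev D.c (D.p + 1) D.c⁻¹ D.Pn D.PG := by
    refine ⟨D.dPn, D.dPG, fun a b hab => ?_⟩
    rw [mul_assoc, D.rP a b hab, inv_mul_cancel_left₀ D.hc]
  exact (h1.pow k).mul ⟨D.dns, D.dψs, D.rs⟩

theorem ev_ψs0 : constantCoeff (ev D.g D.ψs) ≠ 0 := by
  have h1 : constantCoeff D.g = 0 := by
    rw [g, map_mul, map_pow, constantCoeff_X, zero_pow D.hp, zero_mul]
  have h2 : constantCoeff (ev D.g D.ψs) = D.ψs.coeff 0 := by
    have h3 : (constantCoeff (R := ℚ)) (ev D.g D.ψs) =
        Polynomial.eval₂ ((constantCoeff (R := ℚ)).comp (algebraMap ℚ (PowerSeries ℚ)))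
          (constantCoeff D.g) D.ψs := by
      rw [ev, Polynomial.aeval_def, Polynomial.hom_eval₂]
    rw [h3, h1, Polynomial.eval₂_at_zero]
    rfl
  rw [h2, D.ψs0]
  exact one_ne_zero

/-- The constant `σ = -κs c`. -/
def σ : ℚ := -(D.κs * D.c)

/-- `Q^k PG(g)^k = Pn^k`. -/
theorem fix_pow (k : ℕ) : D.Q ^ k * (ev D.g D.PG) ^ k = ((D.Pn ^ k : Polynomial ℚ) :
    PowerSeries ℚ) := by
  rw [← mul_pow, Polynomial.coe_pow]
  congr 1
  exact D.fix

/-- The column `j` of the matrix. -/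
def U (z j : ℕ) : PowerSeries ℚ := PowerSeries.mk fun i => D.M z i j

theorem coeff_U_mul (z j k : ℕ) :
    coeff (k + 1 + z) (D.U z j * ((D.PG ^ k * D.ψs : Polynomial ℚ) : PowerSeries ℚ)) =
      if j ≤ D.p * (k + 1 + z) then (D.Pn ^ k * D.ns).coeff (D.p * (k + 1 + z) - j) else 0 := by
  rw [coeff_mul]
  have h1 : ∀ x ∈ antidiagonal (k + 1 + z), coeff x.1 (D.U z j) *
      coeff x.2 ((D.PG ^ k * D.ψs : Polynomial ℚ) : PowerSeries ℚ) =
      (if j ≤ D.p * x.1 then coeff (D.p * x.1 - j) (D.Q ^ x.1 *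
        (D.Qi ^ (z + 1) * (D.ns : PowerSeries ℚ) * (ev D.g D.ψs)⁻¹)) else 0) *
        (D.PG ^ k * D.ψs).coeff x.2 := by
    intro x _
    rw [U, coeff_mk, Polynomial.coeff_coe, M]
    congr 3
    rw [mul_assoc, mul_assoc, mul_assoc]
  rw [Finset.sum_congr rfl h1, ent_sum D.hp D.hQ]
  have h2 : D.Q ^ (k + 1 + z) * (D.Qi ^ (z + 1) * (D.ns : PowerSeries ℚ) * (ev D.g D.ψs)⁻¹) *
      ev (X ^ D.p * D.Qi) (D.PG ^ k * D.ψs) = ((D.Pn ^ k * D.ns : Polynomial ℚ) :
        PowerSeries ℚ) := by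
    have h3 : ev (X ^ D.p * D.Qi) (D.PG ^ k * D.ψs) = (ev D.g D.PG) ^ k * ev D.g D.ψs := by
      rw [ev, map_mul, map_pow]
      rfl
    have h4 : D.Q ^ (k + 1 + z) = D.Q ^ k * D.Q ^ (z + 1) := by
      rw [← pow_add]
      congr 1
      omega
    calc D.Q ^ (k + 1 + z) * (D.Qi ^ (z + 1) * (D.ns : PowerSeries ℚ) * (ev D.g D.ψs)⁻¹) *
        ev (X ^ D.p * D.Qi) (D.PG ^ k * D.ψs) =
        (D.Q ^ k * (ev D.g D.PG) ^ k) * (D.Q * D.Qi) ^ (z + 1) *
          (ev D.g D.ψs * (ev D.g D.ψs)⁻¹) * (D.ns : PowerSeries ℚ) := by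
          rw [h3, h4, mul_pow]
          ring
      _ = _ := by
          rw [D.fix_pow, D.hQ, one_pow, mul_one, PowerSeries.mul_inv_cancel _ D.ev_ψs0, mul_one,
            Polynomial.coe_mul]
  rw [h2]
  simp only [Polynomial.coeff_coe]

/-- The orthogonality. -/
theorem orth (z s a j : ℕ) (h : j + a = D.m z + s) (k : ℕ) :
    coeff (k + 1 + (z + s)) ((X ^ a + C (D.σ * D.c ^ ((z : ℤ) + s - a)) * (X ^ s * D.U z j)) *
      ((D.PG ^ k * D.ψs : Polynomial ℚ) : PowerSeries ℚ)) = 0 := by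
  set u : Polynomial ℚ := D.PG ^ k * D.ψs with hu
  have hR := D.rev_all k
  rw [← hu] at hR
  have e1 : (X ^ a + C (D.σ * D.c ^ ((z : ℤ) + s - a)) * (X ^ s * D.U z j)) *
      ((u : Polynomial ℚ) : PowerSeries ℚ) = X ^ a * (u : PowerSeries ℚ) +
      C (D.σ * D.c ^ ((z : ℤ) + s - a)) * (X ^ s * (D.U z j * (u : PowerSeries ℚ))) := by ring
  rw [e1, map_add, coeff_C_mul, coeff_X_pow_mul', coeff_X_pow_mul', if_pos (by omega : s ≤ _)]
  have e2 : k + 1 + (z + s) - s = k + 1 + z := by omega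
  rw [e2, hu, D.coeff_U_mul, ← hu, Polynomial.coeff_coe]
  have hm : D.m z = (D.p + 1) * z + D.μ := rfl
  have hμ := D.hμ
  have hN : D.p * (k + 1 + z) = D.p * k + D.p + D.p * z := by ring
  have hM : (D.p + 1) * z = D.p * z + z := by ring
  have hK : (D.p + 1) * k = D.p * k + k := by ring
  by_cases h1 : a ≤ k + 1 + (z + s)
  · rw [if_pos h1]
    by_cases h2 : j ≤ D.p * (k + 1 + z)
    · rw [if_pos h2]
      have h3 := hR.2.2 (D.p * (k + 1 + z) - j) (k + 1 + (z + s) - a) (by omega)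
      rw [← h3]
      have h4 : D.c ^ (k + 1 + (z + s) - a) = D.c ^ ((z : ℤ) + s - a) * D.c * D.c ^ k := by
        have h5 : ((k + 1 + (z + s) - a : ℕ) : ℤ) = ((z : ℤ) + s - a) + 1 + k := by
          rw [Nat.cast_sub h1]
          push_cast
          ring
        rw [← zpow_natCast, h5, zpow_add₀ D.hc, zpow_add₀ D.hc, zpow_one, zpow_natCast]
      rw [h4, σ, inv_pow]
      have h6 : (D.c ^ k)⁻¹ * D.c ^ k = 1 := inv_mul_cancel₀ (pow_ne_zero k D.hc)
      linear_combination (D.κs * D.c ^ ((z : ℤ) + s - a) * D.c *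
        (D.Pn ^ k * D.ns).coeff (D.p * (k + 1 + z) - j)) * h6
    · rw [if_neg h2, mul_zero, add_zero]
      exact Polynomial.coeff_eq_zero_of_natDegree_lt (hR.2.1.trans_lt (by omega))
  · rw [if_neg h1, zero_add]
    by_cases h2 : j ≤ D.p * (k + 1 + z)
    · rw [if_pos h2, Polynomial.coeff_eq_zero_of_natDegree_lt (hR.1.trans_lt (by omega)),
        mul_zero]
    · rw [if_neg h2, mul_zero]

theorem ψ_inv : ((D.ψ : PowerSeries ℚ))⁻¹ * (D.ψ : PowerSeries ℚ) = 1 := by
  refine PowerSeries.inv_mul_cancel _ ?_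
  rw [← coeff_zero_eq_constantCoeff_apply, Polynomial.coeff_coe, D.ψ0]
  exact one_ne_zero

/-- The columns are polynomials in `J`. -/
theorem column (z s a j : ℕ) (h : j + a = D.m z + s) : ∃ b : ℕ → ℚ,
    X ^ a + C (D.σ * D.c ^ ((z : ℤ) + s - a)) * (X ^ s * D.U z j) =
      ∑ l ∈ range (z + s + 1), C (b l) * X ^ (z + s - l) *
        ((D.ψ * D.PG ^ l : Polynomial ℚ) : PowerSeries ℚ) := by
  set t := X ^ a + C (D.σ * D.c ^ ((z : ℤ) + s - a)) * (X ^ s * D.U z j) with ht
  obtain ⟨b, hb⟩ := poly_of_orth D.PG D.PG0 (z + s) (((D.ψ : PowerSeries ℚ))⁻¹ * t) (by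
    intro k
    have h1 := D.orth z s a j h k
    rw [← ht] at h1
    rw [D.e14]
    have h2 : ((D.ψ : PowerSeries ℚ))⁻¹ * t * ((D.PG ^ k * (D.ψ * D.ψs) : Polynomial ℚ) :
        PowerSeries ℚ) = t * ((D.PG ^ k * D.ψs : Polynomial ℚ) : PowerSeries ℚ) := by
      calc ((D.ψ : PowerSeries ℚ))⁻¹ * t * ((D.PG ^ k * (D.ψ * D.ψs) : Polynomial ℚ) :
          PowerSeries ℚ) = (((D.ψ : PowerSeries ℚ))⁻¹ * (D.ψ : PowerSeries ℚ)) *
            (t * ((D.PG ^ k * D.ψs : Polynomial ℚ) : PowerSeries ℚ)) := by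
            rw [Polynomial.coe_mul, Polynomial.coe_mul, Polynomial.coe_mul]
            ring
        _ = _ := by rw [D.ψ_inv, one_mul]
    rw [h2]
    exact h1)
  refine ⟨b, ?_⟩
  calc t = (D.ψ : PowerSeries ℚ) * (((D.ψ : PowerSeries ℚ))⁻¹ * t) := by
        rw [← mul_assoc, mul_comm (D.ψ : PowerSeries ℚ), D.ψ_inv, one_mul]
    _ = _ := by
        rw [hb, Finset.mul_sum]
        refine Finset.sum_congr rfl fun l _ => ?_
        rw [Polynomial.coe_mul]
        ring

/-- `T_(i,i') = δ + σ c^(z-i') M_(i,m-i')`. -/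
def T (z i i' : ℕ) : ℚ :=
  (if i = i' then 1 else 0) + D.σ * D.c ^ ((z : ℤ) - i') * D.M z i (D.m z - i')

/-- `x_l = ψ PG^(z-l) x^l`. -/
def xl (z l : ℕ) : Polynomial ℚ := D.ψ * D.PG ^ (z - l) * Polynomial.X ^ l

/-- (J1) The columns of `T` are in the span of the `x_l`. -/
theorem image (z i' : ℕ) (h1 : 1 ≤ i') (h2 : i' < D.m z) : ∃ y : ℕ → ℚ, ∀ i,
    D.T z i i' = ∑ l ∈ Icc 1 z, y l * (D.xl z l).coeff i := by
  obtain ⟨b, hb⟩ := D.column z 0 i' (D.m z - i') (by omega)
  have hT : ∀ i, coeff i (X ^ i' + C (D.σ * D.c ^ ((z : ℤ) + (0 : ℕ) - i')) *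
      (X ^ 0 * D.U z (D.m z - i'))) = D.T z i i' := by
    intro i
    rw [map_add, coeff_X_pow, coeff_C_mul, pow_zero, one_mul, U, coeff_mk, T, Nat.cast_zero,
      add_zero]
  have hS : ∀ i, D.T z i i' = ∑ l ∈ range (z + 1), b l * (D.xl z (z - l)).coeff i := by
    intro i
    rw [← hT, hb, map_sum]
    refine Finset.sum_congr rfl fun l hl => ?_
    rw [mem_range] at hl
    have h3 : z - (z - l) = l := by omega
    have h4 : C (b l) * X ^ (z + 0 - l) * ((D.ψ * D.PG ^ l : Polynomial ℚ) : PowerSeries ℚ) =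
        C (b l) * ((D.xl z (z - l) : Polynomial ℚ) : PowerSeries ℚ) := by
      rw [xl, h3, Polynomial.coe_mul (D.ψ * D.PG ^ l), Polynomial.coe_pow, Polynomial.coe_X,
        add_zero]
      ring
    rw [h4, coeff_C_mul, Polynomial.coeff_coe]
  have hz : b z = 0 := by
    have h3 := hS 0
    have h4 : D.T z 0 i' = 0 := by
      rw [T, if_neg (by omega), zero_add, M, if_neg (by omega), mul_zero]
    rw [h4, Finset.sum_range_succ, Finset.sum_eq_zero, zero_add, Nat.sub_self] at h3
    · rw [xl, pow_zero, mul_one, Nat.sub_zero, Polynomial.mul_coeff_zero,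
        Polynomial.coeff_zero_eq_eval_zero (D.PG ^ z), Polynomial.eval_pow,
        ← Polynomial.coeff_zero_eq_eval_zero, D.PG0, D.ψ0, one_pow, mul_one, mul_one] at h3
      exact h3.symm
    · intro l hl
      rw [mem_range] at hl
      rw [xl, Polynomial.coeff_mul_X_pow', if_neg (by omega), mul_zero]
  refine ⟨fun l => b (z - l), fun i => ?_⟩
  rw [hS i, Finset.sum_range_succ, hz, zero_mul, add_zero]
  refine Finset.sum_bij (fun l _ => z - l) ?_ ?_ ?_ ?_
  · intro l hl
    rw [mem_range] at hl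
    rw [mem_Icc]
    omega
  · intro l hl l' hl' hll
    rw [mem_range] at hl hl'
    have : z - l = z - l' := hll
    omega
  · intro l hl
    rw [mem_Icc] at hl
    exact ⟨z - l, by rw [mem_range]; omega, by show z - (z - l) = l; omega⟩
  · intro l hl
    rw [mem_range] at hl
    have h3 : z - (z - l) = l := by omega
    show b l * _ = b (z - (z - l)) * _
    rw [h3]

/-! ### The Lagrange functional -/

/-- `R = 1 - h Q'/(p Q)`. -/
def R : PowerSeries ℚ := 1 - C ((D.p : ℚ)⁻¹) * (X * derivative ℚ D.Q * D.Qi)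

theorem p_ne : (D.p : ℚ) ≠ 0 := Nat.cast_ne_zero.2 D.hp

theorem R_eq : C (D.p : ℚ) * D.R = C (D.p : ℚ) - X * derivative ℚ D.Q * D.Qi := by
  have h1 : C (D.p : ℚ) * C ((D.p : ℚ)⁻¹) = 1 := by
    rw [← map_mul, mul_inv_cancel₀ D.p_ne, map_one]
  rw [R]
  linear_combination (-(X * derivative ℚ D.Q * D.Qi)) * h1

theorem lag0 (i : ℕ) : coeff (D.p * i) (D.Q ^ i * D.R) = if i = 0 then 1 else 0 := by
  rcases Nat.eq_zero_or_pos i with rfl | hi
  · rw [if_pos rfl, pow_zero, one_mul, mul_zero, coeff_zero_eq_constantCoeff_apply, R, map_sub,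
      map_one, map_mul, mul_assoc X, map_mul _ X, constantCoeff_X, zero_mul, mul_zero, sub_zero]
  · rw [if_neg hi.ne']
    have h1 : derivative ℚ (D.Q ^ i) = (i : PowerSeries ℚ) * D.Q ^ (i - 1) * derivative ℚ D.Q := by
      rw [Derivation.leibniz_pow, nsmul_eq_mul, smul_eq_mul]
      ring
    have h2 : C ((i : ℚ) * D.p) * (D.Q ^ i * D.R) =
        C ((i : ℚ) * D.p) * D.Q ^ i - X * derivative ℚ (D.Q ^ i) := by
      have h3 := D.R_eq
      have h4 : D.Q ^ i = D.Q ^ (i - 1) * D.Q := by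
        rw [← pow_succ]
        congr 1
        omega
      have h5 : (i : PowerSeries ℚ) = C (i : ℚ) := by rw [map_natCast]
      rw [h1, map_mul, h5]
      calc C (i : ℚ) * C (D.p : ℚ) * (D.Q ^ i * D.R) =
          C (i : ℚ) * D.Q ^ i * (C (D.p : ℚ) * D.R) := by ring
        _ = C (i : ℚ) * D.Q ^ i * C (D.p : ℚ) - C (i : ℚ) * D.Q ^ i *
            (X * derivative ℚ D.Q * D.Qi) := by rw [h3]; ring
        _ = C (i : ℚ) * D.Q ^ i * C (D.p : ℚ) - C (i : ℚ) * D.Q ^ (i - 1) *
            (X * derivative ℚ D.Q) * (D.Q * D.Qi) := by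
              rw [h4]
              ring
        _ = _ := by
            rw [D.hQ]
            ring
    have h3 := congrArg (coeff (D.p * i)) h2
    rw [coeff_C_mul, map_sub, coeff_C_mul] at h3
    obtain ⟨n, hn⟩ : ∃ n, D.p * i = n + 1 := by
      have : 0 < D.p * i := Nat.mul_pos (Nat.pos_of_ne_zero D.hp) hi
      exact ⟨D.p * i - 1, by omega⟩
    have hcast : ((n : ℚ) + 1) = (i : ℚ) * D.p := by
      have : ((D.p * i : ℕ) : ℚ) = ((n + 1 : ℕ) : ℚ) := by rw [hn]
      push_cast at this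
      linarith
    rw [hn] at h3 ⊢
    rw [coeff_succ_X_mul, coeff_derivative, hcast] at h3
    have h4 : (i : ℚ) * D.p ≠ 0 := mul_ne_zero (Nat.cast_ne_zero.2 hi.ne') D.p_ne
    have h5 : (i : ℚ) * D.p * coeff (n + 1) (D.Q ^ i * D.R) = 0 := by
      rw [h3]
      ring
    exact (mul_eq_zero.1 h5).resolve_left h4

/-- Lagrange: `[h^(pi)] R Q^i x(g) = x_i`. -/
theorem lag (i : ℕ) (x : Polynomial ℚ) :
    coeff (D.p * i) (D.Q ^ i * D.R * ev D.g x) = x.coeff i := by
  have h1 := ent_sum D.hp D.hQ D.R i 0 x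
  rw [if_pos (Nat.zero_le _), Nat.sub_zero] at h1
  rw [g, ← h1, Finset.sum_eq_single (0, i)]
  · rw [if_pos (Nat.zero_le _), Nat.sub_zero, D.lag0, if_pos rfl, one_mul]
  · intro y hy hy0
    rw [HasAntidiagonal.mem_antidiagonal] at hy
    have hy1 : y.1 ≠ 0 := by
      intro h0
      apply hy0
      ext
      · exact h0
      · show y.2 = i
        omega
    rw [if_pos (Nat.zero_le _), Nat.sub_zero, D.lag0, if_neg hy1, zero_mul]
  · intro hx
    exact absurd (HasAntidiagonal.mem_antidiagonal.2 (by show 0 + i = i; omega)) hx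

theorem deriv_Qi : derivative ℚ D.Qi = -(D.Qi ^ 2 * derivative ℚ D.Q) := by
  have h1 := congrArg (derivative ℚ) D.hQ
  rw [Derivation.leibniz, Derivation.map_one_eq_zero, smul_eq_mul, smul_eq_mul] at h1
  have h2 := D.hQ
  linear_combination D.Qi * h1 - derivative ℚ D.Qi * h2

theorem X_deriv_g : X * derivative ℚ D.g = C (D.p : ℚ) * D.R * D.g := by
  have h1 : derivative ℚ (X ^ D.p : PowerSeries ℚ) = (D.p : PowerSeries ℚ) * X ^ (D.p - 1) := by
    rw [Derivation.leibniz_pow, nsmul_eq_mul, smul_eq_mul]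
    simp
  have h2 : (X : PowerSeries ℚ) * X ^ (D.p - 1) = X ^ D.p := by
    rw [← pow_succ']
    congr 1
    have := Nat.pos_of_ne_zero D.hp
    omega
  rw [R_eq, g, Derivation.leibniz, smul_eq_mul, smul_eq_mul, h1, deriv_Qi]
  have h3 : (D.p : PowerSeries ℚ) = C (D.p : ℚ) := by rw [map_natCast]
  rw [h3]
  linear_combination (D.Qi * C (D.p : ℚ)) * h2

/-- `R Q ψψs(g) = nψ ns`. -/
theorem R_id : D.R * D.Q * (ev D.g D.ψ * ev D.g D.ψs) = (D.nψ : PowerSeries ℚ) * D.ns := by
  have h1 : D.Q * ev D.g D.PG = (D.Pn : PowerSeries ℚ) := D.fix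
  have h2 := congrArg (derivative ℚ) h1
  rw [Derivation.leibniz, smul_eq_mul, smul_eq_mul, ev, Derivation.map_aeval, smul_eq_mul,
    derivative_coe] at h2
  have h3 := D.X_deriv_g
  have h4 := D.R_eq
  have h5 := D.hQ
  have h6 : ev D.g D.ψ * ev D.g D.ψs =
      ev D.g D.PG - D.g * ev D.g (Polynomial.derivative D.PG) := by
    have h7 := congrArg (ev D.g) D.e14
    simp only [ev, map_sub, map_mul, Polynomial.aeval_X] at h7
    exact h7.symm
  have h8 : C (D.p : ℚ) * (D.Pn : PowerSeries ℚ) -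
      X * ((Polynomial.derivative D.Pn : Polynomial ℚ) : PowerSeries ℚ) =
      C (D.p : ℚ) * ((D.nψ : PowerSeries ℚ) * (D.ns : PowerSeries ℚ)) := by
    have h9 := congrArg (fun q : Polynomial ℚ => (q : PowerSeries ℚ)) D.n14
    simp only [Polynomial.coe_sub, Polynomial.coe_mul, Polynomial.coe_C, Polynomial.coe_X] at h9
    exact h9
  have hQX : X * derivative ℚ D.Q = C (D.p : ℚ) * (1 - D.R) * D.Q := by
    linear_combination D.Q * h4 - (X * derivative ℚ D.Q) * h5
  have hmain : C (D.p : ℚ) * (D.R * D.Q * (ev D.g D.ψ * ev D.g D.ψs)) =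
      C (D.p : ℚ) * ((D.nψ : PowerSeries ℚ) * D.ns) := by
    rw [h6, ← h8]
    linear_combination (-X) * h2 + (D.Q * ev D.g (Polynomial.derivative D.PG)) * h3 +
      ev D.g D.PG * hQX + C (D.p : ℚ) * h1
  have h10 : C ((D.p : ℚ)⁻¹) * C (D.p : ℚ) = 1 := by
    rw [← map_mul, inv_mul_cancel₀ D.p_ne, map_one]
  have h11 := congrArg (fun q => C ((D.p : ℚ)⁻¹) * q) hmain
  simp only [← mul_assoc] at h11
  rw [h10, one_mul, one_mul] at h11
  rw [← mul_assoc]
  exact h11

/-- The reversal of `x_l`. -/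
def xr (z l : ℕ) : Polynomial ℚ := D.nψ * D.Pn ^ (z - l) * Polynomial.X ^ (D.p * l)

theorem rev_xl (z l : ℕ) (hl : l ≤ z) :
    Rev D.c (D.m z) (D.κ * D.c⁻¹ ^ z) (D.xr z l) (D.xl z l) := by
  have h1 : Rev D.c (D.p + 1) D.c⁻¹ D.Pn D.PG := by
    refine ⟨D.dPn, D.dPG, fun a b hab => ?_⟩
    rw [mul_assoc, D.rP a b hab, inv_mul_cancel_left₀ D.hc]
  have h2 : Rev D.c D.μ D.κ D.nψ D.ψ := ⟨D.dnψ, D.dψ, D.rψ⟩
  have h3 : Rev D.c ((D.p + 1) * l) (D.c⁻¹ ^ l) (Polynomial.X ^ (D.p * l))
      (Polynomial.X ^ l) := by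
    refine ⟨by rw [Polynomial.natDegree_X_pow]; nlinarith,
      by rw [Polynomial.natDegree_X_pow]; nlinarith, fun a b hab => ?_⟩
    rw [Polynomial.coeff_X_pow, Polynomial.coeff_X_pow]
    have h4 : (D.p + 1) * l = D.p * l + l := by ring
    by_cases hb : b = l
    · subst hb
      rw [if_pos (by omega), if_pos rfl, mul_one, ← mul_pow, inv_mul_cancel₀ D.hc, one_pow]
    · rw [if_neg (by omega), if_neg hb, mul_zero]
  have h4 := (h2.mul (h1.pow (z - l))).mul h3
  have h5 : D.μ + (D.p + 1) * (z - l) + (D.p + 1) * l = D.m z := by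
    rw [m]
    have : (D.p + 1) * (z - l) + (D.p + 1) * l = (D.p + 1) * z := by
      rw [← mul_add]
      congr 1
      omega
    omega
  have h6 : D.κ * D.c⁻¹ ^ (z - l) * D.c⁻¹ ^ l = D.κ * D.c⁻¹ ^ z := by
    rw [mul_assoc, ← pow_add]
    congr 2
    omega
  rw [h5, h6] at h4
  exact h4

/-- (J2) `T x_l = (p+1) x_l`. -/
theorem eigen (z l : ℕ) (h1 : 1 ≤ l) (h2 : l ≤ z) (i : ℕ) :
    ∑ i' ∈ Icc 1 (D.m z - 1), D.T z i i' * (D.xl z l).coeff i' =
      ((D.p : ℚ) + 1) * (D.xl z l).coeff i := by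
  have hR := D.rev_xl z l h2
  have hm : D.m z = (D.p + 1) * z + D.μ := rfl
  have hx0 : (D.xl z l).coeff 0 = 0 := by
    rw [xl, Polynomial.coeff_mul_X_pow', if_neg (by omega)]
  have hr0 : (D.xr z l).coeff 0 = 0 := by
    rw [xr, Polynomial.coeff_mul_X_pow', if_neg]
    have : 0 < D.p * l := Nat.mul_pos (Nat.pos_of_ne_zero D.hp) h1
    omega
  have hxm : ∀ n, D.m z ≤ n → (D.xl z l).coeff n = 0 := by
    intro n hn
    rcases eq_or_lt_of_le hn with rfl | hn'
    · rw [← hR.2.2 0 (D.m z) (zero_add _), hr0, mul_zero]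
    · exact Polynomial.coeff_eq_zero_of_natDegree_lt (hR.2.1.trans_lt hn')
  set F : PowerSeries ℚ := D.Q ^ i * D.Qi ^ (z + 1) * (D.ns : PowerSeries ℚ) *
    (ev D.g D.ψs)⁻¹ with hF
  -- the first part
  have e1 : ∑ i' ∈ Icc 1 (D.m z - 1), (if i = i' then (1 : ℚ) else 0) * (D.xl z l).coeff i' =
      (D.xl z l).coeff i := by
    by_cases hi : i ∈ Icc 1 (D.m z - 1)
    · rw [Finset.sum_eq_single i]
      · rw [if_pos rfl, one_mul]
      · intro b _ hb
        rw [if_neg (Ne.symm hb), zero_mul]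
      · intro h
        exact absurd hi h
    · rw [Finset.sum_eq_zero]
      · symm
        rw [mem_Icc] at hi
        rcases Nat.eq_zero_or_pos i with rfl | hpos
        · exact hx0
        · exact hxm i (by omega)
      · intro b hb
        rw [if_neg, zero_mul]
        intro h
        rw [h] at hi
        exact hi hb
  -- the second part
  have e2 : ∑ i' ∈ Icc 1 (D.m z - 1), D.σ * D.c ^ ((z : ℤ) - i') * D.M z i (D.m z - i') *
      (D.xl z l).coeff i' = D.σ * D.κ * coeff (D.p * i) ((D.xr z l : PowerSeries ℚ) * F) := by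
    rw [coeff_mul, Finset.mul_sum]
    refine Finset.sum_bij_ne_zero (fun i' _ _ => (D.m z - i', D.p * i - (D.m z - i')))
      ?_ ?_ ?_ ?_
    · intro i' hi' hne
      rw [HasAntidiagonal.mem_antidiagonal]
      have h3 : D.m z - i' ≤ D.p * i := by
        by_contra hc
        apply hne
        rw [M, if_neg hc]
        ring
      show D.m z - i' + (D.p * i - (D.m z - i')) = D.p * i
      omega
    · intro a ha _ b hb _ hab
      rw [mem_Icc] at ha hb
      have h3 : D.m z - a = D.m z - b := congrArg Prod.fst hab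
      omega
    · intro x hx hne
      rw [HasAntidiagonal.mem_antidiagonal] at hx
      rw [Polynomial.coeff_coe] at hne
      have h3 : (D.xr z l).coeff x.1 ≠ 0 := by
        intro h0
        apply hne
        rw [h0]
        ring
      have h4 : x.1 ≤ D.m z := by
        by_contra hc
        exact h3 (Polynomial.coeff_eq_zero_of_natDegree_lt (hR.1.trans_lt (not_le.1 hc)))
      have h5 : x.1 ≠ 0 := by
        intro h0
        rw [h0] at h3
        exact h3 hr0
      have h6 := hR.2.2 x.1 (D.m z - x.1) (by omega)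
      have h7 : x.1 ≠ D.m z := by
        intro h0
        rw [h0, Nat.sub_self, hx0] at h6
        have h8 : D.κ * D.c⁻¹ ^ z * D.c ^ 0 ≠ 0 := by
          have hκ0 : D.κ ≠ 0 := by
            intro hk
            have := D.hκκ
            rw [hk, zero_mul, zero_mul] at this
            exact D.p_ne (by linarith)
          exact mul_ne_zero (mul_ne_zero hκ0 (pow_ne_zero _ (inv_ne_zero D.hc)))
            (pow_ne_zero _ D.hc)
        exact h3 (by rw [h0]; exact (mul_eq_zero.1 h6).resolve_left h8)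
      have h9 : D.m z - (D.m z - x.1) = x.1 := by omega
      refine ⟨D.m z - x.1, by rw [mem_Icc]; omega, ?_, ?_⟩
      · rw [h9, M, if_pos (by omega), ← hF, ← h6]
        have h10 : D.p * i - x.1 = x.2 := by omega
        rw [h10]
        have h11 : D.κ ≠ 0 := by
          intro hk
          have := D.hκκ
          rw [hk, zero_mul, zero_mul] at this
          exact D.p_ne (by linarith)
        have h12 : D.σ ≠ 0 := by
          rw [σ]
          exact neg_ne_zero.2 (mul_ne_zero D.hκ D.hc)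
        have h13 : coeff x.2 F ≠ 0 := by
          intro h0
          apply hne
          rw [h0]
          ring
        exact mul_ne_zero (mul_ne_zero (mul_ne_zero h12 (zpow_ne_zero _ D.hc)) h13)
          (mul_ne_zero (mul_ne_zero (mul_ne_zero h11 (pow_ne_zero _ (inv_ne_zero D.hc)))
            (pow_ne_zero _ D.hc)) h3)
      · ext
        · show D.m z - (D.m z - x.1) = x.1
          omega
        · show D.p * i - (D.m z - (D.m z - x.1)) = x.2
          omega
    · intro i' hi' hne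
      rw [mem_Icc] at hi'
      have h3 : D.m z - i' ≤ D.p * i := by
        by_contra hc
        apply hne
        rw [M, if_neg hc]
        ring
      have h6 := hR.2.2 (D.m z - i') i' (by omega)
      show D.σ * D.c ^ ((z : ℤ) - i') * D.M z i (D.m z - i') * (D.xl z l).coeff i' =
        D.σ * D.κ * (coeff (D.m z - i') (D.xr z l : PowerSeries ℚ) *
          coeff (D.p * i - (D.m z - i')) F)
      rw [M, if_pos h3, ← hF, ← h6, Polynomial.coeff_coe]
      have h7 : D.c ^ ((z : ℤ) - i') * (D.c⁻¹ ^ z * D.c ^ i') = 1 := by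
        rw [zpow_sub₀ D.hc, zpow_natCast, zpow_natCast, inv_pow]
        field_simp [pow_ne_zero i' D.hc, pow_ne_zero z D.hc]
      linear_combination (D.σ * D.κ * coeff (D.p * i - (D.m z - i')) F *
        (D.xr z l).coeff (D.m z - i')) * h7
  have e3 : coeff (D.p * i) ((D.xr z l : PowerSeries ℚ) * F) = (D.xl z l).coeff i := by
    rw [← D.lag i (D.xl z l)]
    congr 1
    have h3 := D.fix_pow (z - l)
    have h4 := D.R_id
    have h5 : ev D.g (D.xl z l) = ev D.g D.ψ * (ev D.g D.PG) ^ (z - l) * D.g ^ l := by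
      rw [xl, ev, map_mul, map_mul, map_pow, map_pow, Polynomial.aeval_X]
    have h6 : (D.xr z l : PowerSeries ℚ) =
        (D.nψ : PowerSeries ℚ) * ((D.Pn ^ (z - l) : Polynomial ℚ) : PowerSeries ℚ) *
          X ^ (D.p * l) := by
      rw [xr, Polynomial.coe_mul, Polynomial.coe_mul, Polynomial.coe_pow (φ := Polynomial.X),
        Polynomial.coe_X]
    have h7 : D.g ^ l * D.Q ^ l = X ^ (D.p * l) := by
      rw [g, ← mul_pow, mul_assoc, mul_comm D.Qi, D.hQ, mul_one, pow_mul]
    have h8 : D.Qi ^ (z + 1) * D.Q ^ (z + 1) = 1 := by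
      rw [← mul_pow, mul_comm, D.hQ, one_pow]
    have h9 : ev D.g D.ψs * (ev D.g D.ψs)⁻¹ = 1 := PowerSeries.mul_inv_cancel _ D.ev_ψs0
    have h10 : D.Q ^ (z + 1) = D.Q * D.Q ^ (z - l) * D.Q ^ l := by
      rw [mul_assoc, ← pow_add, ← pow_succ']
      congr 1
      omega
    rw [h6, ← h3, ← h7, hF, h5]
    calc (D.nψ : PowerSeries ℚ) * (D.Q ^ (z - l) * (ev D.g D.PG) ^ (z - l)) *
        (D.g ^ l * D.Q ^ l) * (D.Q ^ i * D.Qi ^ (z + 1) * (D.ns : PowerSeries ℚ) *
        (ev D.g D.ψs)⁻¹) = ((D.nψ : PowerSeries ℚ) * D.ns) * (D.Q ^ (z - l) * D.Q ^ l) *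
        D.Qi ^ (z + 1) * D.Q ^ i * ((ev D.g D.PG) ^ (z - l) * D.g ^ l) *
        (ev D.g D.ψs)⁻¹ := by ring
      _ = (D.Qi ^ (z + 1) * (D.Q * D.Q ^ (z - l) * D.Q ^ l)) * (ev D.g D.ψs * (ev D.g D.ψs)⁻¹) *
          (D.Q ^ i * D.R * (ev D.g D.ψ * (ev D.g D.PG) ^ (z - l) * D.g ^ l)) := by
          rw [← h4]
          ring
      _ = _ := by rw [← h10, h8, h9, one_mul, one_mul]
  have hsum : ∑ i' ∈ Icc 1 (D.m z - 1), D.T z i i' * (D.xl z l).coeff i' =
      (∑ i' ∈ Icc 1 (D.m z - 1), (if i = i' then (1 : ℚ) else 0) * (D.xl z l).coeff i') +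
      ∑ i' ∈ Icc 1 (D.m z - 1), D.σ * D.c ^ ((z : ℤ) - i') * D.M z i (D.m z - i') *
        (D.xl z l).coeff i' := by
    rw [← Finset.sum_add_distrib]
    refine Finset.sum_congr rfl fun i' _ => ?_
    rw [T]
    ring
  rw [hsum, e1, e2, e3]
  have h20 : D.σ * D.κ = D.p := by
    rw [σ]
    have := D.hκκ
    linarith
  rw [h20]
  ring

theorem κ_ne : D.κ ≠ 0 := by
  intro hk
  have := D.hκκ
  rw [hk, zero_mul, zero_mul] at this
  exact D.p_ne (by linarith)

theorem σ_ne : D.σ ≠ 0 := by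
  rw [σ]
  exact neg_ne_zero.2 (mul_ne_zero D.hκ D.hc)

/-- `x_l = x^l + …`. -/
theorem xl_coeff_self (z l : ℕ) : (D.xl z l).coeff l = 1 := by
  rw [xl, Polynomial.coeff_mul_X_pow', if_pos le_rfl, Nat.sub_self, Polynomial.mul_coeff_zero,
    Polynomial.coeff_zero_eq_eval_zero (D.PG ^ (z - l)), Polynomial.eval_pow,
    ← Polynomial.coeff_zero_eq_eval_zero, D.PG0, D.ψ0, one_pow, mul_one]

theorem xl_coeff_lt (z l i : ℕ) (h : i < l) : (D.xl z l).coeff i = 0 := by
  rw [xl, Polynomial.coeff_mul_X_pow', if_neg (by omega)]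

/-- The rank decomposition `T = x y`, `y x = p + 1`. -/
theorem rank (z : ℕ) : ∃ y : ℕ → ℕ → ℚ,
    (∀ i i', 1 ≤ i' → i' < D.m z →
      D.T z i i' = ∑ l ∈ Icc 1 z, (D.xl z l).coeff i * y l i') ∧
    ∀ l ∈ Icc 1 z, ∀ l' ∈ Icc 1 z, ∑ i' ∈ Icc 1 (D.m z - 1), y l i' * (D.xl z l').coeff i' =
      if l = l' then (D.p : ℚ) + 1 else 0 := by
  have h1 : ∀ i', ∃ y : ℕ → ℚ, 1 ≤ i' → i' < D.m z → ∀ i,
      D.T z i i' = ∑ l ∈ Icc 1 z, y l * (D.xl z l).coeff i := by
    intro i'
    by_cases h : 1 ≤ i' ∧ i' < D.m z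
    · obtain ⟨y, hy⟩ := D.image z i' h.1 h.2
      exact ⟨y, fun _ _ => hy⟩
    · exact ⟨0, fun h2 h3 => absurd ⟨h2, h3⟩ h⟩
  choose y hy using h1
  refine ⟨fun l i' => y i' l, fun i i' h2 h3 => ?_, ?_⟩
  · rw [hy i' h2 h3 i]
    exact Finset.sum_congr rfl fun l _ => mul_comm _ _
  · intro l hl l' hl'
    rw [mem_Icc] at hl'
    -- `w l = ∑ y x - (p+1) δ`
    set w : ℕ → ℚ := fun l => (∑ i' ∈ Icc 1 (D.m z - 1), y i' l * (D.xl z l').coeff i') -
      if l = l' then (D.p : ℚ) + 1 else 0 with hw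
    have hsum : ∀ i, ∑ l ∈ Icc 1 z, w l * (D.xl z l).coeff i = 0 := by
      intro i
      have h2 := D.eigen z l' hl'.1 hl'.2 i
      have h3 : ∑ i' ∈ Icc 1 (D.m z - 1), D.T z i i' * (D.xl z l').coeff i' =
          ∑ l ∈ Icc 1 z, (∑ i' ∈ Icc 1 (D.m z - 1), y i' l * (D.xl z l').coeff i') *
            (D.xl z l).coeff i := by
        have h4 : ∀ i' ∈ Icc 1 (D.m z - 1), D.T z i i' * (D.xl z l').coeff i' =
            ∑ l ∈ Icc 1 z, y i' l * (D.xl z l).coeff i * (D.xl z l').coeff i' := by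
          intro i' hi'
          rw [mem_Icc] at hi'
          rw [hy i' hi'.1 (by omega) i, Finset.sum_mul]
        rw [Finset.sum_congr rfl h4, Finset.sum_comm]
        refine Finset.sum_congr rfl fun l _ => ?_
        rw [Finset.sum_mul]
        refine Finset.sum_congr rfl fun i' _ => ?_
        ring
      have h5 : ∑ l ∈ Icc 1 z, (if l = l' then (D.p : ℚ) + 1 else 0) * (D.xl z l).coeff i =
          ((D.p : ℚ) + 1) * (D.xl z l').coeff i := by
        rw [Finset.sum_eq_single l']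
        · rw [if_pos rfl]
        · intro b _ hb
          rw [if_neg hb, zero_mul]
        · intro h
          exact absurd (mem_Icc.2 hl') h
      have h6 : ∑ l ∈ Icc 1 z, w l * (D.xl z l).coeff i =
          (∑ l ∈ Icc 1 z, (∑ i' ∈ Icc 1 (D.m z - 1), y i' l * (D.xl z l').coeff i') *
            (D.xl z l).coeff i) -
          ∑ l ∈ Icc 1 z, (if l = l' then (D.p : ℚ) + 1 else 0) * (D.xl z l).coeff i := by
        rw [← Finset.sum_sub_distrib]
        refine Finset.sum_congr rfl fun l _ => ?_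
        rw [hw]
        ring
      rw [h6, ← h3, h2, h5, sub_self]
    have hz : ∀ n, n ∈ Icc 1 z → w n = 0 := by
      intro n
      induction n using Nat.strong_induction_on with
      | _ n ih =>
        intro hn
        have h2 := hsum n
        rw [Finset.sum_eq_single n] at h2
        · rw [xl_coeff_self, mul_one] at h2
          exact h2
        · intro b hb hbn
          rcases Nat.lt_or_gt_of_ne hbn with h3 | h3
          · rw [ih b h3 hb, zero_mul]
          · rw [D.xl_coeff_lt z b n h3, mul_zero]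
        · intro h
          exact absurd hn h
    have h7 := hz l hl
    rw [hw] at h7
    exact sub_eq_zero.1 h7

/-! ### Duality -/

/-- The dual matrix (weight `2 - k`) at the indices `s, i`. -/
def Ms (z s i : ℕ) : ℚ :=
  if i ≤ D.p * s then
    coeff (D.p * s - i) (D.Q ^ (z + s) * (D.nψ : PowerSeries ℚ) * (ev D.g D.ψ)⁻¹)
  else 0

theorem ev_const (P : Polynomial ℚ) : constantCoeff (ev D.g P) = P.coeff 0 := by
  have h1 : constantCoeff D.g = 0 := by
    rw [g, map_mul, map_pow, constantCoeff_X, zero_pow D.hp, zero_mul]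
  have h3 : (constantCoeff (R := ℚ)) (ev D.g P) =
      Polynomial.eval₂ ((constantCoeff (R := ℚ)).comp (algebraMap ℚ (PowerSeries ℚ)))
        (constantCoeff D.g) P := by
    rw [ev, Polynomial.aeval_def, Polynomial.hom_eval₂]
  rw [h3, h1, Polynomial.eval₂_at_zero]
  rfl

theorem Rev.sum {c : ℚ} {N : ℕ} {l : ℚ} {ι : Type*} (s : Finset ι) (b : ι → ℚ)
    (A B : ι → Polynomial ℚ) (h : ∀ i ∈ s, Rev c N l (A i) (B i)) :
    Rev c N l (∑ i ∈ s, Polynomial.C (b i) * A i) (∑ i ∈ s, Polynomial.C (b i) * B i) := by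
  refine ⟨?_, ?_, ?_⟩
  · refine Polynomial.natDegree_sum_le_of_forall_le _ _ fun i hi => ?_
    exact (Polynomial.natDegree_C_mul_le _ _).trans (h i hi).1
  · refine Polynomial.natDegree_sum_le_of_forall_le _ _ fun i hi => ?_
    exact (Polynomial.natDegree_C_mul_le _ _).trans (h i hi).2.1
  · intro a b' hab
    rw [Polynomial.finsetSum_coeff, Polynomial.finsetSum_coeff, Finset.mul_sum]
    refine Finset.sum_congr rfl fun i hi => ?_
    rw [Polynomial.coeff_C_mul, Polynomial.coeff_C_mul, ← (h i hi).2.2 a b' hab]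
    ring

/-- Duality: `M_(i,m+s)(z)` is the transposed dual entry, for `i ≥ m`. -/
theorem dual (z s i : ℕ) (hi : D.m z ≤ i) (hj : 1 ≤ D.m z + s) :
    D.σ * D.c ^ (z + s) * D.M z i (D.m z + s) =
      D.κ * D.c⁻¹ ^ (z + s) * D.c ^ (i + s) * D.Ms z s (i - D.m z) := by
  obtain ⟨b, hb⟩ := D.column z s 0 (D.m z + s) (by omega)
  set r := z + s with hr
  set tp : Polynomial ℚ := ∑ l ∈ range (r + 1),
    Polynomial.C (b l) * (Polynomial.X ^ (r - l) * (D.ψ * D.PG ^ l)) with htp
  set tr : Polynomial ℚ := ∑ l ∈ range (r + 1),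
    Polynomial.C (b l) * (Polynomial.X ^ (D.p * (r - l)) * (D.nψ * D.Pn ^ l)) with htr
  have hcast : (tp : PowerSeries ℚ) = 1 + C (D.σ * D.c ^ r) * (X ^ s * D.U z (D.m z + s)) := by
    have h1 : (tp : PowerSeries ℚ) = ∑ l ∈ range (r + 1), C (b l) * X ^ (r - l) *
        ((D.ψ * D.PG ^ l : Polynomial ℚ) : PowerSeries ℚ) := by
      rw [htp, ← Polynomial.coeToPowerSeries.ringHom_apply, map_sum]
      refine Finset.sum_congr rfl fun l _ => ?_
      rw [Polynomial.coeToPowerSeries.ringHom_apply, Polynomial.coe_mul, Polynomial.coe_C,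
        Polynomial.coe_mul (Polynomial.X ^ (r - l)), Polynomial.coe_pow (φ := Polynomial.X),
        Polynomial.coe_X]
      ring
    have h2 : D.c ^ ((z : ℤ) + (s : ℤ) - ((0 : ℕ) : ℤ)) = D.c ^ (z + s) := by
      have h3 : ((z : ℤ) + (s : ℤ) - ((0 : ℕ) : ℤ)) = ((z + s : ℕ) : ℤ) := by push_cast; ring
      rw [h3, zpow_natCast]
    rw [h1, ← hb, pow_zero, hr, h2]
  have hRev : Rev D.c (D.μ + (D.p + 1) * r) (D.κ * D.c⁻¹ ^ r) tr tp := by
    refine Rev.sum _ _ _ _ fun l hl => ?_
    rw [mem_range] at hl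
    have h1 : Rev D.c (D.p + 1) D.c⁻¹ D.Pn D.PG := by
      refine ⟨D.dPn, D.dPG, fun a b hab => ?_⟩
      rw [mul_assoc, D.rP a b hab, inv_mul_cancel_left₀ D.hc]
    have h2 : Rev D.c D.μ D.κ D.nψ D.ψ := ⟨D.dnψ, D.dψ, D.rψ⟩
    have h3 : Rev D.c ((D.p + 1) * (r - l)) (D.c⁻¹ ^ (r - l)) (Polynomial.X ^ (D.p * (r - l)))
        (Polynomial.X ^ (r - l)) := by
      generalize r - l = q
      refine ⟨by rw [Polynomial.natDegree_X_pow]; nlinarith,
        by rw [Polynomial.natDegree_X_pow]; nlinarith, fun a b hab => ?_⟩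
      rw [Polynomial.coeff_X_pow, Polynomial.coeff_X_pow]
      have h4 : (D.p + 1) * q = D.p * q + q := by ring
      by_cases hb : b = q
      · subst hb
        rw [if_pos (by omega), if_pos rfl, mul_one, ← mul_pow, inv_mul_cancel₀ D.hc, one_pow]
      · rw [if_neg (by omega), if_neg hb, mul_zero]
    have h4 := h3.mul (h2.mul (h1.pow l))
    have h5 : (D.p + 1) * (r - l) + (D.μ + (D.p + 1) * l) = D.μ + (D.p + 1) * r := by
      have : (D.p + 1) * (r - l) + (D.p + 1) * l = (D.p + 1) * r := by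
        rw [← mul_add]
        congr 1
        omega
      omega
    have h6 : D.c⁻¹ ^ (r - l) * (D.κ * D.c⁻¹ ^ l) = D.κ * D.c⁻¹ ^ r := by
      have h7 : D.c⁻¹ ^ r = D.c⁻¹ ^ (r - l) * D.c⁻¹ ^ l := by
        rw [← pow_add]
        congr 1
        omega
      rw [h7]
      ring
    rw [h5, h6] at h4
    exact h4
  -- the coefficient of `tp`
  have hL : tp.coeff (i + s) = D.σ * D.c ^ r * D.M z i (D.m z + s) := by
    rw [← Polynomial.coeff_coe, hcast, map_add, coeff_C_mul, coeff_X_pow_mul', if_pos (by omega),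
      coeff_one, if_neg (by omega), zero_add, Nat.add_sub_cancel, U, coeff_mk]
  rw [← hL]
  have hm : D.m z = (D.p + 1) * z + D.μ := rfl
  have hN : D.μ + (D.p + 1) * r = D.m z + D.p * s + s := by
    rw [hm, hr]
    ring
  rw [Ms]
  by_cases his : i - D.m z ≤ D.p * s
  · rw [if_pos his]
    have h1 := hRev.2.2 (D.p * s - (i - D.m z)) (i + s) (by omega)
    rw [← h1]
    congr 1
    -- `tr = nψ Q^r tp(g) / ψ(g)`
    have hψ : ev D.g D.ψ * (ev D.g D.ψ)⁻¹ = 1 := by
      refine PowerSeries.mul_inv_cancel _ ?_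
      rw [ev_const, D.ψ0]
      exact one_ne_zero
    have h2 : (tr : PowerSeries ℚ) = D.Q ^ r * (D.nψ : PowerSeries ℚ) * (ev D.g D.ψ)⁻¹ *
        ev D.g tp := by
      have h3 : ev D.g tp = ∑ l ∈ range (r + 1), C (b l) * (D.g ^ (r - l) *
          (ev D.g D.ψ * (ev D.g D.PG) ^ l)) := by
        rw [htp, ev, map_sum]
        refine Finset.sum_congr rfl fun l _ => ?_
        rw [map_mul, map_mul, map_mul, map_pow, map_pow, Polynomial.aeval_X, Polynomial.aeval_C]
        rfl
      have h4 : (tr : PowerSeries ℚ) = ∑ l ∈ range (r + 1), C (b l) * (X ^ (D.p * (r - l)) *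
          ((D.nψ : PowerSeries ℚ) * ((D.Pn ^ l : Polynomial ℚ) : PowerSeries ℚ))) := by
        rw [htr, ← Polynomial.coeToPowerSeries.ringHom_apply, map_sum]
        refine Finset.sum_congr rfl fun l _ => ?_
        rw [Polynomial.coeToPowerSeries.ringHom_apply, Polynomial.coe_mul, Polynomial.coe_C,
          Polynomial.coe_mul, Polynomial.coe_pow (φ := Polynomial.X), Polynomial.coe_X,
          Polynomial.coe_mul]
      rw [h3, h4, Finset.mul_sum]
      refine Finset.sum_congr rfl fun l hl => ?_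
      rw [mem_range] at hl
      have h5 := D.fix_pow l
      have h6 : D.g ^ (r - l) * D.Q ^ (r - l) = X ^ (D.p * (r - l)) := by
        rw [g, ← mul_pow, mul_assoc, mul_comm D.Qi, D.hQ, mul_one, pow_mul]
      have h7 : D.Q ^ r = D.Q ^ (r - l) * D.Q ^ l := by
        rw [← pow_add]
        congr 1
        omega
      rw [← h5, ← h6, h7]
      calc C (b l) * (D.g ^ (r - l) * D.Q ^ (r - l) * ((D.nψ : PowerSeries ℚ) *
          (D.Q ^ l * (ev D.g D.PG) ^ l))) = C (b l) * (D.g ^ (r - l) * D.Q ^ (r - l) *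
          ((D.nψ : PowerSeries ℚ) * (D.Q ^ l * (ev D.g D.PG) ^ l))) *
          (ev D.g D.ψ * (ev D.g D.ψ)⁻¹) := by rw [hψ, mul_one]
        _ = _ := by ring
    -- `tp = 1 + x^(s+1) v`
    have h3 : ∃ v : Polynomial ℚ, tp = 1 + Polynomial.X ^ (s + 1) * v := by
      have h4 : Polynomial.X ^ (s + 1) ∣ tp - 1 := by
        rw [Polynomial.X_pow_dvd_iff]
        intro d hd
        rw [Polynomial.coeff_sub, ← Polynomial.coeff_coe, hcast, map_add, coeff_C_mul,
          coeff_X_pow_mul', coeff_one, Polynomial.coeff_one]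
        have h5 : (if s ≤ d then coeff (d - s) (D.U z (D.m z + s)) else 0) = 0 := by
          split_ifs with h6
          · have h7 : d - s = 0 := by omega
            rw [h7, U, coeff_mk, M, if_neg (by omega)]
          · rfl
        rw [h5, mul_zero, add_zero, sub_self]
      obtain ⟨v, hv⟩ := h4
      exact ⟨v, by rw [← hv]; ring⟩
    obtain ⟨v, hv⟩ := h3
    have h4 : ev D.g tp = 1 + X ^ (D.p * (s + 1)) * (D.Qi ^ (s + 1) * ev D.g v) := by
      rw [hv, ev, map_add, map_one, map_mul, map_pow, Polynomial.aeval_X, g, mul_pow, ← pow_mul,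
        mul_assoc]
    rw [← Polynomial.coeff_coe, h2, h4, mul_add, mul_one, map_add]
    have h5 : D.Q ^ r * (D.nψ : PowerSeries ℚ) * (ev D.g D.ψ)⁻¹ *
        (X ^ (D.p * (s + 1)) * (D.Qi ^ (s + 1) * ev D.g v)) = X ^ (D.p * (s + 1)) *
        (D.Q ^ r * (D.nψ : PowerSeries ℚ) * (ev D.g D.ψ)⁻¹ *
        (D.Qi ^ (s + 1) * ev D.g v)) := by ring
    rw [h5, coeff_X_pow_mul', if_neg, add_zero]
    have h6 : D.p * (s + 1) = D.p * s + D.p := by ring
    have h7 := Nat.pos_of_ne_zero D.hp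
    omega
  · rw [if_neg his, mul_zero]
    exact Polynomial.coeff_eq_zero_of_natDegree_lt (hRev.2.1.trans_lt (by omega))

end Data

end GH.TrJ
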