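import Pool.Agent.GH.M5.MinExp

/-!
# Root dominance from the bordered leading minors (`LDU`), for every prime

`M` a matrix over `ℤ_p[X]`, `π = C p`, `v(D_n) = B n` convex; if the minors with the rows
`0, …, n` and the columns `0, …, n-1, j`, and those with the rows `0, …, n-1, i` and the columns
`0, …, n` are divisible by `π^(B (n+1))`, then every `n`-minor is divisible by `π^(B n)`
(`ldu_weak`); `ldu_strict` is the strict version at a vertex.
-/

noncomputable section

namespace GH.MatU

open Finset Matrix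

/-- The rows `0, …, n-1, i`. -/
def upi (n i : ℕ) (k : Fin (n + 1)) : ℕ := if (k : ℕ) < n then k else i

/-- The rows `0, …, n-1`. -/
def idi (n : ℕ) (k : Fin n) : ℕ := k

theorem upi_self (k : ℕ) : upi k k = idi (k + 1) := by
  funext s
  unfold upi idi
  split_ifs with hs
  · rfl
  · have := s.2
    omega

/-! ### The `LU` expansion over a field -/

section

variable {K : Type} [Field K] (M : ℕ → ℕ → K)

/-- The leading block. -/
def ldA (k : ℕ) : Matrix (Fin k) (Fin k) K := Matrix.of fun i j => M i j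

/-- The Schur complement. -/
def ldS (k i j : ℕ) : K :=
  M i j - ((Matrix.of fun (_ : Fin 1) (s : Fin k) => M i s) * (ldA M k)⁻¹ *
    (Matrix.of fun (s : Fin k) (_ : Fin 1) => M s j)) 0 0

theorem ld_det_A (k : ℕ) : (ldA M k).det = Pot.lead M k := rfl

/-- Minors which contain the leading block. -/
theorem ld_minor {k l : ℕ} (hk : Pot.lead M k ≠ 0) (a b : Fin (k + l) → ℕ)
    (ha : ∀ s : Fin k, a (Fin.castAdd l s) = s) (hb : ∀ s : Fin k, b (Fin.castAdd l s) = s) :
    Pot.minor M a b = Pot.lead M k *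
      (Matrix.of fun s t : Fin l => ldS M k (a (Fin.natAdd k s)) (b (Fin.natAdd k t))).det := by
  have hdet : IsUnit (ldA M k).det := by
    rw [ld_det_A]
    exact isUnit_iff_ne_zero.2 hk
  let _ := Matrix.invertibleOfIsUnitDet _ hdet
  have h1 : Pot.minor M a b = (Matrix.fromBlocks (ldA M k)
      (Matrix.of fun (s : Fin k) (t : Fin l) => M s (b (Fin.natAdd k t)))
      (Matrix.of fun (s : Fin l) (t : Fin k) => M (a (Fin.natAdd k s)) t)
      (Matrix.of fun (s : Fin l) (t : Fin l) =>
        M (a (Fin.natAdd k s)) (b (Fin.natAdd k t)))).det := by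
    unfold Pot.minor
    rw [← Matrix.det_submatrix_equiv_self (finSumFinEquiv (m := k) (n := l))]
    congr 1
    ext x y
    rcases x with x | x <;> rcases y with y | y <;>
      simp [Matrix.submatrix_apply, ldA, ha, hb]
  rw [h1, Matrix.det_fromBlocks₁₁, ld_det_A]
  congr 2

/-- The single bordered minors. -/
theorem ld_one {k : ℕ} (hk : Pot.lead M k ≠ 0) (i j : ℕ) :
    Pot.minor M (upi k i) (upi k j) = Pot.lead M k * ldS M k i j := by
  have h1 := ld_minor M (l := 1) hk (upi k i) (upi k j) (fun s => by simp [upi])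
    (fun s => by simp [upi])
  rw [h1, Matrix.det_fin_one, Matrix.of_apply]
  simp [upi]

theorem ld_lead_succ {k : ℕ} (hk : Pot.lead M k ≠ 0) :
    Pot.lead M (k + 1) = Pot.lead M k * ldS M k k k := by
  rw [← ld_one M hk, upi_self]
  rfl

/-- The recursion. -/
theorem ld_step (h : ∀ n, Pot.lead M n ≠ 0) (k i j : ℕ) :
    ldS M (k + 1) i j = ldS M k i j - ldS M k i k * ldS M k k j / ldS M k k k := by
  have h1 := ld_minor M (l := 2) (h k) (upi (k + 1) i) (upi (k + 1) j)
    (fun s => by
      have := s.2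
      simp only [upi, Fin.val_castAdd]
      rw [if_pos (by omega)])
    (fun s => by
      have := s.2
      simp only [upi, Fin.val_castAdd]
      rw [if_pos (by omega)])
  have h2 := ld_one M (h (k + 1)) i j
  have e : ∀ i, (upi (k + 1) i (Fin.natAdd k (0 : Fin 2)) : ℕ) = k ∧
      upi (k + 1) i (Fin.natAdd k (1 : Fin 2)) = i := by
    intro i
    constructor
    · simp [upi]
    · simp [upi]
  have h3 : Pot.minor M (upi (k + 1) i) (upi (k + 1) j) =
      Pot.lead M k * (ldS M k k k * ldS M k i j - ldS M k k j * ldS M k i k) := by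
    refine h1.trans ?_
    rw [Matrix.det_fin_two, Matrix.of_apply, Matrix.of_apply, Matrix.of_apply, Matrix.of_apply,
      (e i).1, (e i).2, (e j).1, (e j).2]
  have h4 := ld_lead_succ M (h k)
  have hS : ldS M k k k ≠ 0 := by
    intro h0
    rw [h0, mul_zero] at h4
    exact h (k + 1) h4
  rw [h3, h4] at h2
  have hk := h k
  have h5 : ldS M k k k * ldS M k i j - ldS M k k j * ldS M k i k =
      ldS M k k k * ldS M (k + 1) i j := by
    apply mul_left_cancel₀ hk
    rw [h2]
    ring
  field_simp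
  linear_combination -h5

theorem ld_zero (i j : ℕ) : ldS M 0 i j = M i j := by
  unfold ldS
  rw [Matrix.mul_apply]
  simp

theorem ld_vanish (h : ∀ n, Pot.lead M n ≠ 0) {k i j : ℕ} (hij : i < k ∨ j < k) :
    ldS M k i j = 0 := by
  have h1 := ld_one M (h k) i j
  have h2 : Pot.minor M (upi k i) (upi k j) = 0 := by
    rcases hij with hi | hj
    · have hne : (⟨i, by omega⟩ : Fin (k + 1)) ≠ Fin.last k := by
        intro h0
        have := congrArg Fin.val h0
        simp at this
        omega
      unfold Pot.minor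
      refine Matrix.det_zero_of_row_eq hne ?_
      funext t
      rw [Matrix.of_apply, Matrix.of_apply]
      congr 1
      simp [upi, hi]
    · have hne : (⟨j, by omega⟩ : Fin (k + 1)) ≠ Fin.last k := by
        intro h0
        have := congrArg Fin.val h0
        simp at this
        omega
      unfold Pot.minor
      refine Matrix.det_zero_of_column_eq hne fun t => ?_
      rw [Matrix.of_apply, Matrix.of_apply]
      congr 1
      simp [upi, hj]
  rw [h2] at h1
  exact (mul_eq_zero.1 h1.symm).resolve_left (h k)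

/-- The `LU` expansion. -/
theorem lu_expand (h : ∀ n, Pot.lead M n ≠ 0) (i j : ℕ) :
    M i j = ∑ k ∈ Finset.range (min i j + 1),
      Pot.minor M (upi k i) (idi (k + 1)) * Pot.minor M (idi (k + 1)) (upi k j) /
        (Pot.lead M k * Pot.lead M (k + 1)) := by
  have h1 : ∀ m, M i j = ∑ k ∈ Finset.range m,
      ldS M k i k * ldS M k k j / ldS M k k k + ldS M m i j := by
    intro m
    induction m with
    | zero => rw [Finset.sum_range_zero, zero_add, ld_zero]
    | succ m ih =>
      rw [Finset.sum_range_succ, ld_step M h m i j, ih]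
      ring
  rw [h1 (min i j + 1), ld_vanish M h (by
    rcases min_choice i j with h2 | h2
    · left; omega
    · right; omega), add_zero]
  refine Finset.sum_congr rfl fun k _ => ?_
  have e1 := ld_one M (h k) i k
  have e2 := ld_one M (h k) k j
  have e3 := ld_lead_succ M (h k)
  rw [upi_self] at e1 e2
  have hS : ldS M k k k ≠ 0 := by
    intro h0
    rw [h0, mul_zero] at e3
    exact h (k + 1) e3
  have hk := h k
  rw [e1, e2, e3]
  field_simp

end

/-! ### The core -/

theorem sum_lt_vertex {n : ℕ} (w : ℕ → ℕ) (hw : Monotone w) (hv : ∀ k < n, w k + 1 ≤ w n)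
    (f : Fin n → ℕ) (hf : Function.Injective f) (i0 : Fin n) (h0 : n ≤ f i0) :
    (∑ k ∈ Finset.range n, w k) + 1 ≤ ∑ i, w (f i) := by
  set w' : ℕ → ℕ := fun k => if k < n then w k else w k - 1 with hw'
  have hmono : Monotone w' := by
    refine monotone_nat_of_le_succ fun k => ?_
    simp only [hw']
    have h1 : w k ≤ w (k + 1) := hw (Nat.le_succ k)
    split_ifs with h2 h3 h3
    · exact h1
    · have h4 : n = k + 1 := by omega
      have h5 := hv k h2
      rw [h4] at h5
      omega
    · omega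
    · omega
  have h1 := M5.sum_mono_le w' hmono f hf
  have h2 : ∑ k ∈ Finset.range n, w' k = ∑ k ∈ Finset.range n, w k := by
    refine Finset.sum_congr rfl fun k hk => ?_
    simp only [hw']
    rw [if_pos (Finset.mem_range.1 hk)]
  have h3 : ∑ i, w' (f i) < ∑ i, w (f i) := by
    refine Finset.sum_lt_sum (fun i _ => ?_) ⟨i0, Finset.mem_univ _, ?_⟩
    · simp only [hw']
      split_ifs
      · exact le_rfl
      · exact Nat.sub_le _ _
    · simp only [hw']
      rw [if_neg (by omega)]
      have h4 : w n ≤ w (f i0) := hw h0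
      have h5 : 1 ≤ w n := by
        have hn : 0 < n := Nat.pos_of_ne_zero fun h => by
          subst h
          exact i0.elim0
        have := hv 0 hn
        omega
      omega
  omega

section

variable {S : Type} [CommRing S] {π : S} {w : ℕ → ℕ} {M L B : ℕ → ℕ → S}

/-- The expansion of a minor of a product. -/
theorem core_expand (hL0 : ∀ i k, i < k → L i k = 0)
    (hL3 : ∀ i j, M i j = ∑ k ∈ Finset.range (i + 1), L i k * B k j)
    {n : ℕ} (a b : Fin n → ℕ) : ∃ N : ℕ, Pot.minor M a b = ∑ f : Fin n → Fin N,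
      (∏ i, L (a i) (f i)) * (Matrix.of fun i j => B (f i) (b j)).det := by
  classical
  obtain ⟨N, hN⟩ : ∃ N, ∀ i, a i + 1 ≤ N :=
    ⟨∑ i, (a i + 1), fun i => Finset.single_le_sum (f := fun i => a i + 1)
      (fun _ _ => Nat.zero_le _) (Finset.mem_univ i)⟩
  refine ⟨N, ?_⟩
  have hM : ∀ i j, M (a i) (b j) = ∑ k : Fin N, L (a i) k * B k (b j) := by
    intro i j
    rw [hL3, ← Finset.sum_range (fun k => L (a i) k * B k (b j))]
    refine Finset.sum_subset (Finset.range_mono (hN i)) fun k _ hk => ?_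
    rw [Finset.mem_range, not_lt] at hk
    rw [hL0 (a i) k (by omega), zero_mul]
  unfold Pot.minor
  have e1 : (Matrix.of fun i j => M (a i) (b j)) =
      fun i => ∑ k : Fin N, L (a i) k • (fun j => B k (b j)) := by
    funext i
    funext j
    rw [Finset.sum_apply]
    exact hM i j
  rw [e1]
  show Matrix.detRowAlternating (fun i => ∑ k : Fin N, L (a i) k • (fun j => B k (b j))) = _
  rw [← AlternatingMap.coe_multilinearMap, MultilinearMap.map_sum]
  refine Finset.sum_congr rfl fun f _ => ?_
  rw [MultilinearMap.map_smul_univ, smul_eq_mul]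
  rfl

/-- The determinants of rows of `B`. -/
theorem core_det (hB : ∀ k j, π ^ w k ∣ B k j) {n : ℕ} (f b : Fin n → ℕ) :
    π ^ (∑ i, w (f i)) ∣ (Matrix.of fun i j => B (f i) (b j)).det := by
  rw [Matrix.det_apply]
  refine Finset.dvd_sum fun σ _ => ?_
  rw [Units.smul_def, zsmul_eq_mul]
  refine Dvd.dvd.mul_left ?_ _
  rw [← Equiv.sum_comp σ (fun i => w (f i)), ← Finset.prod_pow_eq_pow_sum]
  exact Finset.prod_dvd_prod_of_dvd _ _ fun i _ => hB _ _

theorem core_weak (hw : Monotone w) (hB : ∀ k j, π ^ w k ∣ B k j)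
    (hL0 : ∀ i k, i < k → L i k = 0)
    (hL3 : ∀ i j, M i j = ∑ k ∈ Finset.range (i + 1), L i k * B k j)
    {n : ℕ} (a b : Fin n → ℕ) : π ^ (∑ k ∈ Finset.range n, w k) ∣ Pot.minor M a b := by
  obtain ⟨N, hN⟩ := core_expand hL0 hL3 a b
  rw [hN]
  refine Finset.dvd_sum fun f _ => ?_
  by_cases hf : Function.Injective f
  · refine Dvd.dvd.mul_left ?_ _
    refine (pow_dvd_pow π ?_).trans (core_det hB (fun i => (f i : ℕ)) b)
    exact M5.sum_mono_le w hw (fun i => (f i : ℕ)) fun i j hij => hf (Fin.ext hij)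
  · have hz : (Matrix.of fun i j => B (f i) (b j)).det = 0 := by
      unfold Function.Injective at hf
      push Not at hf
      obtain ⟨i, j, hij, hne⟩ := hf
      refine Matrix.det_zero_of_row_eq hne ?_
      funext l
      rw [Matrix.of_apply, Matrix.of_apply, hij]
    rw [hz, mul_zero]
    exact dvd_zero _

/-- The minors with the first rows do not see `L`. -/
theorem core_first (hL1 : ∀ i, L i i = 1) (hL0 : ∀ i k, i < k → L i k = 0)
    (hL3 : ∀ i j, M i j = ∑ k ∈ Finset.range (i + 1), L i k * B k j)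
    {n : ℕ} (b : Fin n → ℕ) : Pot.minor M (idi n) b = Pot.minor B (idi n) b := by
  have h1 : (Matrix.of fun i j : Fin n ↦ M (idi n i) (b j)) =
      (Matrix.of fun i l : Fin n ↦ L i l) * (Matrix.of fun i j : Fin n ↦ B (idi n i) (b j)) := by
    ext1 i j
    rw [Matrix.mul_apply]
    simp only [Matrix.of_apply, idi]
    rw [hL3, Fin.sum_univ_eq_sum_range (fun l ↦ L i l * B l (b j)) n]
    refine Finset.sum_subset (Finset.range_subset_range.2 (Nat.succ_le_of_lt i.2)) ?_
    intro l _ hl
    rw [Finset.mem_range, not_lt] at hl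
    rw [hL0 i l (by omega), zero_mul]
  have h2 : (Matrix.of fun i l : Fin n ↦ L i l).det = 1 := by
    rw [Matrix.det_of_isLowerTriangular]
    · exact Finset.prod_eq_one fun i _ => by rw [Matrix.of_apply, hL1]
    · intro i j hij
      have h3 : i < j := hij
      exact hL0 i j h3
  unfold Pot.minor
  rw [h1, Matrix.det_mul, h2, one_mul]

theorem core_strict (hw : Monotone w) (hB : ∀ k j, π ^ w k ∣ B k j)
    (hL1 : ∀ i, L i i = 1) (hL0 : ∀ i k, i < k → L i k = 0)
    (hL3 : ∀ i j, M i j = ∑ k ∈ Finset.range (i + 1), L i k * B k j)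
    {n : ℕ} (hv : ∀ k < n, w k + 1 ≤ w n) (a b : Fin n → ℕ)
    (hs : π ^ ((∑ k ∈ Finset.range n, w k) + 1) ∣ Pot.minor M (idi n) b) :
    π ^ ((∑ k ∈ Finset.range n, w k) + 1) ∣ Pot.minor M a b := by
  obtain ⟨N, hN⟩ := core_expand hL0 hL3 a b
  rw [hN]
  refine Finset.dvd_sum fun f _ => Dvd.dvd.mul_left ?_ _
  by_cases hf : Function.Injective f
  · have hinj : Function.Injective fun i => (f i : ℕ) := fun i j hij => hf (Fin.ext hij)
    by_cases hlt : ∀ i, (f i : ℕ) < n
    · -- a permutation of the first rows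
      set g : Fin n → Fin n := fun i => ⟨f i, hlt i⟩ with hg
      have hgi : Function.Injective g := fun i j hij => hinj (Fin.mk.inj_iff.1 hij)
      set σ : Equiv.Perm (Fin n) := Equiv.ofBijective g (Finite.injective_iff_bijective.1 hgi)
        with hσ
      have h1 : (Matrix.of fun i j => B (f i) (b j)) =
          (Matrix.of fun i j : Fin n => B (idi n i) (b j)).submatrix σ id := by
        ext i j
        rfl
      rw [h1, Matrix.det_permute]
      refine Dvd.dvd.mul_left ?_ _
      rw [core_first hL1 hL0 hL3 b] at hs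
      exact hs
    · push Not at hlt
      obtain ⟨i0, hi0⟩ := hlt
      refine (pow_dvd_pow π ?_).trans (core_det hB (fun i => (f i : ℕ)) b)
      exact sum_lt_vertex w hw hv (fun i => (f i : ℕ)) hinj i0 hi0
  · have hz : (Matrix.of fun i j => B (f i) (b j)).det = 0 := by
      unfold Function.Injective at hf
      push Not at hf
      obtain ⟨i, j, hij, hne⟩ := hf
      refine Matrix.det_zero_of_row_eq hne ?_
      funext l
      rw [Matrix.of_apply, Matrix.of_apply, hij]
    rw [hz]
    exact dvd_zero _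

end

/-! ### The local ring at `p` -/

variable (p : ℕ) [hp : Fact p.Prime]

/-- `p`. -/
abbrev cp : Polynomial ℤ_[p] := Polynomial.C (p : ℤ_[p])

theorem cp_prime : Prime (cp p) := by
  rw [Polynomial.prime_C_iff]
  exact PadicInt.prime_p

/-- The fraction field. -/
abbrev Kp : Type := FractionRing (Polynomial ℤ_[p])

/-- The localisation at `p` inside the fraction field. -/
def Op : Subring (Kp p) where
  carrier := {z | ∃ a s : Polynomial ℤ_[p], ¬ cp p ∣ s ∧
    z * algebraMap _ (Kp p) s = algebraMap _ (Kp p) a}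
  mul_mem' := by
    rintro z z' ⟨a, s, hs, hz⟩ ⟨a', s', hs', hz'⟩
    refine ⟨a * a', s * s', fun h => ?_, ?_⟩
    · rcases (cp_prime p).dvd_or_dvd h with h | h
      · exact hs h
      · exact hs' h
    · rw [map_mul, map_mul, ← hz, ← hz']
      ring
  one_mem' := ⟨1, 1, fun h => (cp_prime p).not_isUnit (isUnit_of_dvd_one h), by rw [one_mul]⟩
  add_mem' := by
    rintro z z' ⟨a, s, hs, hz⟩ ⟨a', s', hs', hz'⟩
    refine ⟨a * s' + a' * s, s * s', fun h => ?_, ?_⟩
    · rcases (cp_prime p).dvd_or_dvd h with h | h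
      · exact hs h
      · exact hs' h
    · rw [map_mul, map_add, map_mul, map_mul, ← hz, ← hz']
      ring
  zero_mem' := ⟨0, 1, fun h => (cp_prime p).not_isUnit (isUnit_of_dvd_one h), by
    rw [zero_mul, map_zero]⟩
  neg_mem' := by
    rintro z ⟨a, s, hs, hz⟩
    exact ⟨-a, s, hs, by rw [map_neg, ← hz]; ring⟩

theorem op_mem (x : Polynomial ℤ_[p]) : algebraMap _ (Kp p) x ∈ Op p :=
  ⟨x, 1, fun h => (cp_prime p).not_isUnit (isUnit_of_dvd_one h), by rw [map_one, mul_one]⟩

/-- The map to the local ring. -/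
def iop : Polynomial ℤ_[p] →+* Op p := (algebraMap _ (Kp p)).codRestrict (Op p) (op_mem p)

theorem iop_coe (x : Polynomial ℤ_[p]) : ((iop p x : Op p) : Kp p) = algebraMap _ (Kp p) x := rfl

variable {p}

theorem op_inj {x y : Polynomial ℤ_[p]} (h : algebraMap _ (Kp p) x = algebraMap _ (Kp p) y) :
    x = y := IsFractionRing.injective _ (Kp p) h

theorem op_back {c : ℕ} {x : Polynomial ℤ_[p]} (h : iop p (cp p) ^ c ∣ iop p x) :
    cp p ^ c ∣ x := by
  obtain ⟨⟨z, a, s, hs, hz⟩, hx⟩ := h
  have h1 := congrArg (Subtype.val) hx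
  rw [iop_coe] at h1
  have h2 : algebraMap _ (Kp p) (x * s) = algebraMap _ (Kp p) (cp p ^ c * a) := by
    rw [map_mul, map_mul, map_pow, ← hz, h1]
    show (((iop p (cp p) ^ c : Op p) : Kp p) * z) * _ = _
    rw [Subring.coe_pow, iop_coe]
    ring
  have h3 := op_inj h2
  refine (cp_prime p).pow_dvd_of_dvd_mul_right c hs ?_
  rw [h3]
  exact dvd_mul_right _ _

/-- Quotients. -/
theorem op_quot {a s : Polynomial ℤ_[p]} (hs : ¬ cp p ∣ s) : ∃ z : Op p, (z : Kp p) =
    algebraMap _ (Kp p) a / algebraMap _ (Kp p) s := by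
  have hs0 : algebraMap _ (Kp p) s ≠ 0 := by
    intro h
    rw [← map_zero (algebraMap (Polynomial ℤ_[p]) (Kp p))] at h
    exact hs (by rw [op_inj h]; exact dvd_zero _)
  exact ⟨⟨_, a, s, hs, div_mul_cancel₀ _ hs0⟩, rfl⟩

/-- The hypotheses of the `LDU` lemma. -/
structure LduHyp (M : ℕ → ℕ → Polynomial ℤ_[p]) (B : ℕ → ℕ) : Prop where
  zero : B 0 = 0
  convex : ∀ n, B (n + 1) + B (n + 1) ≤ B n + B (n + 2)
  lead_dvd : ∀ n, cp p ^ B n ∣ Pot.lead M n
  lead_ndvd : ∀ n, ¬ cp p ^ (B n + 1) ∣ Pot.lead M n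
  cols : ∀ n j, n < j → cp p ^ B (n + 1) ∣ Pot.minor M (idi (n + 1)) (upi n j)
  rows : ∀ n i, n < i → cp p ^ B (n + 1) ∣ Pot.minor M (upi n i) (idi (n + 1))

theorem LduHyp.mono {M : ℕ → ℕ → Polynomial ℤ_[p]} {B : ℕ → ℕ} (h : LduHyp M B) (k : ℕ) :
    B k ≤ B (k + 1) := by
  induction k with
  | zero => rw [h.zero]; exact Nat.zero_le _
  | succ k ih =>
    have h1 := h.convex k
    change B (k + 1) ≤ B (k + 2)
    omega

/-- The `LU` decomposition in the local ring. -/
theorem LduHyp.exists {M : ℕ → ℕ → Polynomial ℤ_[p]} {B : ℕ → ℕ} (h : LduHyp M B) :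
    ∃ L U : ℕ → ℕ → Op p, (∀ i, L i i = 1) ∧ (∀ i k, i < k → L i k = 0) ∧
      (∀ k j, iop p (cp p) ^ (B (k + 1) - B k) ∣ U k j) ∧
      ∀ i j, iop p (M i j) = ∑ k ∈ Finset.range (i + 1), L i k * U k j := by
  classical
  have hE : ∀ k, ∃ E : Polynomial ℤ_[p], ¬ cp p ∣ E ∧ Pot.lead M k = cp p ^ B k * E := by
    intro k
    obtain ⟨E, hE⟩ := h.lead_dvd k
    refine ⟨E, fun hd => h.lead_ndvd k ?_, hE⟩
    rw [hE, pow_succ]
    exact mul_dvd_mul_left _ hd
  choose E hE1 hE2 using hE
  have hc0 : algebraMap _ (Kp p) (cp p) ≠ 0 := by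
    intro h0
    rw [← map_zero (algebraMap (Polynomial ℤ_[p]) (Kp p))] at h0
    exact (cp_prime p).ne_zero (op_inj h0)
  have hE0 : ∀ k, algebraMap _ (Kp p) (E k) ≠ 0 := by
    intro k h0
    rw [← map_zero (algebraMap (Polynomial ℤ_[p]) (Kp p))] at h0
    exact hE1 k (by rw [op_inj h0]; exact dvd_zero _)
  set M' : ℕ → ℕ → Kp p := fun i j => algebraMap _ (Kp p) (M i j) with hM'
  have hmin : ∀ (m : ℕ) (a b : Fin m → ℕ), Pot.minor M' a b =
      algebraMap _ (Kp p) (Pot.minor M a b) := by
    intro m a b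
    unfold Pot.minor
    rw [RingHom.map_det]
    rfl
  have hleadM : ∀ k, Pot.lead M' k = algebraMap _ (Kp p) (Pot.lead M k) := fun k => hmin k _ _
  have hlead0 : ∀ k, Pot.lead M' k ≠ 0 := by
    intro k
    rw [hleadM, hE2, map_mul, map_pow]
    exact mul_ne_zero (pow_ne_zero _ hc0) (hE0 k)
  have hLU := lu_expand M' hlead0
  have e2 : ∀ k, Pot.minor M' (idi (k + 1)) (idi (k + 1)) = Pot.lead M' (k + 1) := fun _ => rfl
  -- the factor `L`
  have hLex : ∀ i k, ∃ z : Op p, (i < k → z = 0) ∧ (i = k → z = 1) ∧ (k ≤ i → (z : Kp p) =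
      Pot.minor M' (upi k i) (idi (k + 1)) / Pot.lead M' (k + 1)) := by
    intro i k
    rcases Nat.lt_or_ge i k with hik | hik
    · exact ⟨0, fun _ => rfl, fun h => by omega, fun h => by omega⟩
    · rcases Nat.eq_or_lt_of_le hik with hik | hik
      · subst hik
        refine ⟨1, fun h => by omega, fun _ => rfl, fun _ => ?_⟩
        rw [upi_self, e2, div_self (hlead0 _)]
        rfl
      · obtain ⟨c, hc⟩ := h.rows k i hik
        obtain ⟨z, hz⟩ := op_quot (a := c) (hE1 (k + 1))
        refine ⟨z, fun h => by omega, fun h => by omega, fun _ => ?_⟩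
        rw [hz, hmin, hleadM, hE2, hc, map_mul, map_mul, map_pow,
          mul_div_mul_left _ _ (pow_ne_zero _ hc0)]
  choose L hL0 hL1 hL2 using hLex
  -- the factor `U`
  have hUex : ∀ k j, ∃ z : Op p, (j < k → z = 0) ∧ (k ≤ j → (z : Kp p) =
      Pot.minor M' (idi (k + 1)) (upi k j) / Pot.lead M' k) ∧
      iop p (cp p) ^ (B (k + 1) - B k) ∣ z := by
    intro k j
    rcases Nat.lt_or_ge j k with hik | hik
    · exact ⟨0, fun _ => rfl, fun h => by omega, dvd_zero _⟩
    · have hBk : B (k + 1) = B k + (B (k + 1) - B k) := by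
        have := h.mono k
        omega
      have hd : cp p ^ B (k + 1) ∣ Pot.minor M (idi (k + 1)) (upi k j) := by
        rcases Nat.eq_or_lt_of_le hik with hik | hik
        · subst hik
          rw [upi_self]
          exact h.lead_dvd _
        · exact h.cols k j hik
      obtain ⟨c, hc⟩ := hd
      obtain ⟨z, hz⟩ := op_quot (a := c) (hE1 k)
      refine ⟨iop p (cp p) ^ (B (k + 1) - B k) * z, fun h => by omega, fun _ => ?_,
        dvd_mul_right _ _⟩
      have e3 : cp p ^ B (k + 1) * c = cp p ^ B k * (cp p ^ (B (k + 1) - B k) * c) := by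
        rw [← mul_assoc, ← pow_add, ← hBk]
      rw [Subring.coe_mul, Subring.coe_pow, iop_coe, hz, hmin, hleadM, hE2, hc, e3,
        map_mul, map_mul, map_mul, map_pow, map_pow,
        mul_div_mul_left _ _ (pow_ne_zero _ hc0), mul_div_assoc]
  choose U hU0 hU1 hU2 using hUex
  refine ⟨L, U, fun i => hL1 i i rfl, hL0, hU2, fun i j => ?_⟩
  apply Subtype.ext
  rw [iop_coe]
  have h1 := hLU i j
  change algebraMap _ (Kp p) (M i j) = _ at h1
  rw [h1]
  have h2 : ((∑ k ∈ Finset.range (i + 1), L i k * U k j : Op p) : Kp p) =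
      ∑ k ∈ Finset.range (i + 1), ((L i k : Kp p) * (U k j : Kp p)) := by
    rw [AddSubmonoidClass.coe_finsetSum]
    rfl
  rw [h2]
  have h3 : ∑ k ∈ Finset.range (i + 1), ((L i k : Kp p) * (U k j : Kp p)) =
      ∑ k ∈ Finset.range (min i j + 1), ((L i k : Kp p) * (U k j : Kp p)) := by
    symm
    refine Finset.sum_subset (Finset.range_mono (by
      have := min_le_left i j
      omega)) fun k hk hk2 => ?_
    rw [Finset.mem_range] at hk hk2
    have h4 : j < k := by
      rcases Nat.lt_or_ge j k with h5 | h5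
      · exact h5
      · exfalso
        apply hk2
        have : k ≤ min i j := le_min (by omega) h5
        omega
    rw [hU0 k j h4]
    show (L i k : Kp p) * 0 = 0
    rw [mul_zero]
  rw [h3]
  refine Finset.sum_congr rfl fun k hk => ?_
  rw [Finset.mem_range] at hk
  have hk1 : k ≤ i := by
    have := min_le_left i j
    omega
  have hk2 : k ≤ j := by
    have := min_le_right i j
    omega
  rw [hL2 i k hk1, hU1 k j hk2, div_mul_div_comm, mul_comm (Pot.lead M' (k + 1))]

theorem LduHyp.w_mono {M : ℕ → ℕ → Polynomial ℤ_[p]} {B : ℕ → ℕ} (h : LduHyp M B) :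
    Monotone fun k => B (k + 1) - B k := by
  refine monotone_nat_of_le_succ fun k => ?_
  have h1 := h.convex k
  have h2 := h.mono k
  have h3 : B (k + 1) ≤ B (k + 2) := h.mono (k + 1)
  change B (k + 1) - B k ≤ B (k + 2) - B (k + 1)
  omega

theorem LduHyp.w_sum {M : ℕ → ℕ → Polynomial ℤ_[p]} {B : ℕ → ℕ} (h : LduHyp M B) (m : ℕ) :
    ∑ k ∈ Finset.range m, (B (k + 1) - B k) = B m := by
  induction m with
  | zero => rw [Finset.sum_range_zero, h.zero]
  | succ m ih =>
    rw [Finset.sum_range_succ, ih]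
    have := h.mono m
    omega

theorem minor_iop (M : ℕ → ℕ → Polynomial ℤ_[p]) {n : ℕ} (a b : Fin n → ℕ) :
    Pot.minor (fun i j => iop p (M i j)) a b = iop p (Pot.minor M a b) := by
  unfold Pot.minor
  rw [RingHom.map_det]
  rfl

/-- **Weak root dominance.** -/
theorem ldu_weak {M : ℕ → ℕ → Polynomial ℤ_[p]} {B : ℕ → ℕ} (h : LduHyp M B) {n : ℕ}
    (a b : Fin n → ℕ) : cp p ^ B n ∣ Pot.minor M a b := by
  obtain ⟨L, U, -, hL0, hU, hM⟩ := h.exists
  have h1 := core_weak (π := iop p (cp p)) (M := fun i j => iop p (M i j)) h.w_mono hU hL0 hM a b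
  rw [h.w_sum, minor_iop] at h1
  exact op_back h1

/-- **Strict root dominance** at a vertex. -/
theorem ldu_strict {M : ℕ → ℕ → Polynomial ℤ_[p]} {B : ℕ → ℕ} (h : LduHyp M B) {n : ℕ}
    (hn : n = 0 ∨ B n + B n < B (n - 1) + B (n + 1)) (a b : Fin n → ℕ)
    (hs : cp p ^ (B n + 1) ∣ Pot.minor M (idi n) b) : cp p ^ (B n + 1) ∣ Pot.minor M a b := by
  rcases Nat.eq_zero_or_pos n with h0 | h0
  · subst h0
    have e : a = idi 0 := funext fun i => i.elim0
    rw [e]
    exact hs
  obtain ⟨L, U, hL1, hL0, hU, hM⟩ := h.exists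
  have hv : ∀ k < n, (B (k + 1) - B k) + 1 ≤ B (n + 1) - B n := by
    intro k hk
    have h2 : B (k + 1) - B k ≤ B (n - 1 + 1) - B (n - 1) :=
      h.w_mono (show k ≤ n - 1 by omega)
    have h3 : n - 1 + 1 = n := by omega
    rw [h3] at h2
    have h4 := h.mono (n - 1)
    rw [h3] at h4
    have h5 := h.mono n
    omega
  have h1 := core_strict (π := iop p (cp p)) (M := fun i j => iop p (M i j)) h.w_mono hU hL1 hL0
    hM hv a b (by
      rw [h.w_sum, minor_iop, ← map_pow]
      exact map_dvd _ hs)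
  rw [h.w_sum, minor_iop] at h1
  exact op_back h1

/-! ### The tropical bound of a minor -/

/-- Potentials bound minors. -/
theorem trop_minor {S : Type*} [CommRing S] {π : S} {N : ℕ → ℕ → S} {w : ℕ → ℕ → ℕ} {n : ℕ}
    (a b : Fin n → ℕ) (hN : ∀ i j, π ^ w (a i) (b j) ∣ N (a i) (b j)) (r c : ℕ → ℤ)
    (hrc : ∀ i j, r (a i) + c (b j) ≤ w (a i) (b j)) {k : ℕ}
    (hk : (k : ℤ) ≤ ∑ i, r (a i) + ∑ j, c (b j)) : π ^ k ∣ Pot.minor N a b := by
  unfold Pot.minor
  rw [Matrix.det_apply]
  refine Finset.dvd_sum fun σ _ => ?_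
  rw [Units.smul_def, zsmul_eq_mul]
  refine Dvd.dvd.mul_left ?_ _
  have h1 : π ^ (∑ i, w (a (σ i)) (b i)) ∣
      ∏ i, (Matrix.of fun i j => N (a i) (b j)) (σ i) i := by
    rw [← Finset.prod_pow_eq_pow_sum]
    exact Finset.prod_dvd_prod_of_dvd _ _ fun i _ => hN (σ i) i
  refine (pow_dvd_pow π ?_).trans h1
  have h2 : ∑ i, r (a i) = ∑ i, r (a (σ i)) := (Equiv.sum_comp σ (fun i => r (a i))).symm
  have h3 : (∑ i, r (a (σ i))) + ∑ j, c (b j) ≤ ∑ i, (w (a (σ i)) (b i) : ℤ) := by
    rw [← Finset.sum_add_distrib]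
    exact Finset.sum_le_sum fun i _ => hrc (σ i) i
  have h4 : ((∑ i, w (a (σ i)) (b i) : ℕ) : ℤ) = ∑ i, (w (a (σ i)) (b i) : ℤ) := by
    push_cast
    rfl
  omega

/-- The rows `0, …, n-1, i` of `M = [W] N`. -/
theorem row_minor {S : Type*} [CommRing S] {π : S} {M N : ℕ → ℕ → S} {W : ℕ → S}
    (hW0 : W 0 = 1) (hM : ∀ i j, M i j = ∑ l ∈ Finset.range (i + 1), W (i - l) * N l j)
    {n i k : ℕ} (b : Fin (n + 1) → ℕ)
    (h : ∀ l, n ≤ l → l ≤ i → π ^ k ∣ W (i - l) * Pot.minor N (upi n l) b) :
    π ^ k ∣ Pot.minor M (upi n i) b := by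
  rw [← Ideal.mem_span_singleton]
  -- the rows `0, …, n-1` of `M` and of `N` span the same module: replace them
  set R : ℕ → (Fin (n + 1) → S) := fun l j => N l (b j) with hR
  have key : ∀ l, Pot.minor N (upi n l) b =
      (Matrix.of fun s : Fin (n + 1) => if (s : ℕ) < n then R s else R l).det := by
    intro l
    unfold Pot.minor
    congr 1
    ext s t
    simp only [Matrix.of_apply, upi, hR]
    split_ifs <;> rfl
  -- expansion of the minor of `M`
  set A : Matrix (Fin (n + 1)) (Fin (n + 1)) S := Matrix.of fun s t : Fin (n + 1) =>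
    if (s : ℕ) < n then (if (t : ℕ) ≤ s then W (s - t) else 0) else (if (t : ℕ) < n then 0 else 1)
    with hA
  have hAdet : A.det = 1 := by
    rw [Matrix.det_of_isLowerTriangular]
    · refine Finset.prod_eq_one fun s _ => ?_
      rw [hA, Matrix.of_apply]
      by_cases hs : (s : ℕ) < n
      · rw [if_pos hs, if_pos le_rfl, Nat.sub_self, hW0]
      · rw [if_neg hs, if_neg hs]
    · intro s t hst
      have h3 : (s : ℕ) < t := hst
      rw [hA, Matrix.of_apply]
      have ht := t.2
      by_cases hs : (s : ℕ) < n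
      · rw [if_pos hs, if_neg (by omega)]
      · omega
  have e1 : (Matrix.of fun s t : Fin (n + 1) => M (upi n i s) (b t)) =
      A * (Matrix.of fun s : Fin (n + 1) => if (s : ℕ) < n then R s else
        fun j => M i (b j)) := by
    ext s t
    rw [Matrix.mul_apply, Fin.sum_univ_castSucc]
    simp only [Matrix.of_apply, hA, Fin.val_castSucc, Fin.val_last, lt_irrefl, if_false,
      Fin.is_lt, if_true]
    by_cases hs : (s : ℕ) < n
    · have h1 : upi n i s = s := by simp [upi, hs]
      rw [h1, hM]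
      simp only [hs, if_true]
      rw [if_neg (by omega), zero_mul, add_zero,
        Fin.sum_univ_eq_sum_range (fun l => (if l ≤ (s : ℕ) then W ((s : ℕ) - l) else 0) *
          R l t) n]
      rw [← Finset.sum_subset (Finset.range_subset_range.2 (Nat.succ_le_of_lt hs))]
      · refine Finset.sum_congr rfl fun l hl => ?_
        rw [if_pos (Nat.lt_succ_iff.1 (Finset.mem_range.1 hl))]
      · intro l _ hl
        rw [Finset.mem_range, not_lt] at hl
        rw [if_neg (by omega), zero_mul]
    · have h1 : upi n i s = i := by simp [upi, hs]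
      rw [h1]
      simp only [hs, if_false, zero_mul, Finset.sum_const_zero, zero_add, one_mul]
  have e2 : Pot.minor M (upi n i) b = (Matrix.of fun s : Fin (n + 1) =>
      if (s : ℕ) < n then R s else fun j => M i (b j)).det := by
    unfold Pot.minor
    rw [e1, Matrix.det_mul, hAdet, one_mul]
  -- the last row is a combination
  set D : Matrix (Fin (n + 1)) (Fin (n + 1)) S := Matrix.of fun s : Fin (n + 1) =>
    if (s : ℕ) < n then R s else 0 with hD
  have e3 : (Matrix.of fun s : Fin (n + 1) =>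
      if (s : ℕ) < n then R s else fun j => M i (b j)) =
      D.updateRow (Fin.last n) (∑ l ∈ Finset.range (i + 1), W (i - l) • R l) := by
    ext s t
    by_cases hs : (s : ℕ) < n
    · have h1 : s ≠ Fin.last n := fun h => by
        rw [h, Fin.val_last] at hs
        omega
      rw [Matrix.updateRow_ne h1, hD, Matrix.of_apply, Matrix.of_apply, if_pos hs, if_pos hs]
    · have h1 : s = Fin.last n := Fin.ext (by
        have := s.2
        rw [Fin.val_last]
        omega)
      rw [h1, Matrix.updateRow_self, Matrix.of_apply, Fin.val_last, if_neg (lt_irrefl n), hM,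
        Finset.sum_apply]
      rfl
  rw [e2, e3]
  have e4 : (D.updateRow (Fin.last n) (∑ l ∈ Finset.range (i + 1), W (i - l) • R l)).det =
      ∑ l ∈ Finset.range (i + 1), W (i - l) * (D.updateRow (Fin.last n) (R l)).det := by
    have h1 := (Matrix.detRowAlternating (R := S) (n := Fin (n + 1))).toMultilinearMap.map_update_sum
      (t := Finset.range (i + 1)) (i := Fin.last n) (g := fun l => W (i - l) • R l) (m := D)
    refine h1.trans (Finset.sum_congr rfl fun l _ => ?_)
    exact Matrix.det_updateRow_smul D (Fin.last n) (W (i - l)) (R l)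
  rw [e4]
  refine Ideal.sum_mem _ fun l hl => ?_
  have hl1 := Finset.mem_range.1 hl
  rcases Nat.lt_or_ge l n with hln | hln
  · -- a repeated row
    have hz : (D.updateRow (Fin.last n) (R l)).det = 0 := by
      have hne : (⟨l, by omega⟩ : Fin (n + 1)) ≠ Fin.last n := fun h => by
        have := congrArg Fin.val h
        simp at this
        omega
      refine Matrix.det_zero_of_row_eq hne ?_
      rw [Matrix.updateRow_self]
      funext t
      rw [Matrix.updateRow_ne hne, hD, Matrix.of_apply]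
      simp only [hln, if_true]
    rw [hz, mul_zero]
    exact Ideal.zero_mem _
  · have h1 : D.updateRow (Fin.last n) (R l) =
        Matrix.of fun s : Fin (n + 1) => if (s : ℕ) < n then R s else R l := by
      ext s t
      by_cases hs : (s : ℕ) < n
      · have h1 : s ≠ Fin.last n := fun h => by
          rw [h, Fin.val_last] at hs
          omega
        rw [Matrix.updateRow_ne h1, hD, Matrix.of_apply, Matrix.of_apply, if_pos hs, if_pos hs]
      · have h1 : s = Fin.last n := Fin.ext (by
          have := s.2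
          rw [Fin.val_last]
          omega)
        rw [h1, Matrix.updateRow_self, Matrix.of_apply, Fin.val_last, if_neg (lt_irrefl n)]
    rw [h1, ← key l, Ideal.mem_span_singleton]
    exact h l hln (by omega)

end GH.MatU
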