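import Pool.Agent.GH.MatU.Dwork

/-!
# GH-MATU: the powers `(1 + p θ)^x` over `ℤ_p[x]`
-/

open PowerSeries

noncomputable section

namespace GH.MatU

/-- Power series with polynomial coefficients are determined by their values at the integers. -/
theorem ext_nat {A : Type*} [CommRing A] [IsDomain A] [CharZero A]
    {F G : PowerSeries (Polynomial A)}
    (h : ∀ n : ℕ, PowerSeries.map (Polynomial.evalRingHom (n : A)) F =
      PowerSeries.map (Polynomial.evalRingHom (n : A)) G) : F = G := by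
  ext1 m
  apply Polynomial.eq_of_infinite_eval_eq
  refine Set.Infinite.mono (s := Set.range fun n : ℕ ↦ (n : A)) ?_ ?_
  · rintro _ ⟨n, rfl⟩
    have := congrArg (PowerSeries.coeff m) (h n)
    simpa [PowerSeries.coeff_map] using this
  · exact Set.infinite_range_of_injective Nat.cast_injective

theorem coeff_one_add_mul_X_pow {A : Type*} [CommRing A] (c : A) (n m : ℕ) :
    coeff m ((1 + C c * X : PowerSeries A) ^ n) = c ^ m * (n.choose m : A) := by
  have h1 : (1 + C c * X : PowerSeries A) ^ n = rescale c ((1 + X) ^ n) := by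
    rw [map_pow, map_add, map_one, rescale_X]
  rw [h1, coeff_rescale]
  have h2 : ((1 + X : PowerSeries A) ^ n) =
      ((((1 : Polynomial A) + Polynomial.X) ^ n : Polynomial A) : PowerSeries A) := by
    simp
  rw [h2, Polynomial.coeff_coe, Polynomial.coeff_one_add_X_pow]

variable (p : ℕ) [Fact p.Prime]

theorem exists_div_factorial (m : ℕ) :
    ∃ u : ℤ_[p], u * (m.factorial : ℤ_[p]) = (p : ℤ_[p]) ^ m ∧ (1 ≤ m → (p : ℤ_[p]) ∣ u) := by
  have hp : p.Prime := Fact.out
  obtain ⟨v, t, ht, hv⟩ := Nat.exists_eq_pow_mul_and_not_dvd m.factorial_ne_zero p hp.ne_one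
  have htu : IsUnit ((t : ℕ) : ℤ_[p]) := by
    rw [PadicInt.isUnit_iff]
    refine le_antisymm (PadicInt.norm_le_one _) ?_
    by_contra hlt
    have h1 : ‖((t : ℤ) : ℤ_[p])‖ < 1 := by
      push_cast
      exact not_le.mp hlt
    rw [PadicInt.norm_int_lt_one_iff_dvd] at h1
    exact ht (by exact_mod_cast h1)
  obtain ⟨t', ht'⟩ := htu.exists_right_inv
  have hvm : m ≠ 0 → v < m := by
    intro hm
    have h1 := padicValNat_factorial_lt_of_ne_zero (p := p) hm
    have h2 : v ≤ padicValNat p m.factorial := by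
      rw [← padicValNat_dvd_iff_le m.factorial_ne_zero, hv]
      exact dvd_mul_right _ _
    omega
  have hvm2 : v ≤ m := by
    rcases Nat.eq_zero_or_pos m with rfl | h
    · by_contra h0
      have h3 : p ∣ Nat.factorial 0 := by
        rw [hv]
        exact Dvd.dvd.mul_right (dvd_pow_self p (by omega)) _
      rw [Nat.factorial_zero] at h3
      exact hp.one_lt.ne' (Nat.dvd_one.mp h3)
    · exact (hvm (by omega)).le
  refine ⟨(p : ℤ_[p]) ^ (m - v) * t', ?_, ?_⟩
  · rw [hv]
    push_cast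
    calc (p : ℤ_[p]) ^ (m - v) * t' * ((p : ℤ_[p]) ^ v * (t : ℤ_[p])) =
        (p : ℤ_[p]) ^ (m - v) * (p : ℤ_[p]) ^ v * ((t : ℤ_[p]) * t') := by ring
      _ = (p : ℤ_[p]) ^ m := by rw [ht', mul_one, ← pow_add, Nat.sub_add_cancel hvm2]
  · intro hm
    have := hvm (by omega)
    exact Dvd.dvd.mul_right (dvd_pow_self _ (by omega)) _

/-- `p^m/m!`. -/
def uu (m : ℕ) : ℤ_[p] := (exists_div_factorial p m).choose

theorem uu_mul (m : ℕ) : uu p m * (m.factorial : ℤ_[p]) = (p : ℤ_[p]) ^ m :=
  (exists_div_factorial p m).choose_spec.1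

theorem dvd_uu {m : ℕ} (hm : 1 ≤ m) : (p : ℤ_[p]) ∣ uu p m :=
  (exists_div_factorial p m).choose_spec.2 hm

theorem uu_zero : uu p 0 = 1 := by
  have := uu_mul p 0
  simpa using this

/-- The coefficients of `(1 + pT)^x`. -/
def cc (m : ℕ) : Polynomial ℤ_[p] := Polynomial.C (uu p m) * descPochhammer ℤ_[p] m

/-- `(1 + p θ)^x`. -/
def Lpow (θ : PowerSeries ℤ_[p]) : PowerSeries (Polynomial ℤ_[p]) :=
  (PowerSeries.mk (cc p)).subst (PowerSeries.map Polynomial.C θ)

theorem hasSubst_C {θ : PowerSeries ℤ_[p]} (hθ : constantCoeff θ = 0) :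
    PowerSeries.HasSubst (PowerSeries.map (Polynomial.C (R := ℤ_[p])) θ) := by
  apply PowerSeries.HasSubst.of_constantCoeff_zero'
  rw [← coeff_zero_eq_constantCoeff_apply, coeff_map, coeff_zero_eq_constantCoeff_apply, hθ,
    map_zero]

theorem map_subst' {A B : Type*} [CommRing A] [CommRing B] {a : PowerSeries A}
    (ha : PowerSeries.HasSubst a) (h : A →+* B) (f : PowerSeries A) :
    PowerSeries.map h (f.subst a) = (PowerSeries.map h f).subst (PowerSeries.map h a) :=
  PowerSeries.map_subst ha f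

theorem red_Lpow {θ : PowerSeries ℤ_[p]} (hθ : constantCoeff θ = 0) : red p (Lpow p θ) = 1 := by
  have h1 : PowerSeries.map (Polynomial.mapRingHom (PadicInt.toZMod (p := p)))
      (PowerSeries.mk (cc p)) = 1 := by
    ext1 m
    rw [coeff_map, coeff_mk, coeff_one]
    split_ifs with hm
    · subst hm
      simp [cc, uu_zero]
    · obtain ⟨u, hu⟩ := dvd_uu p (by omega : 1 ≤ m)
      rw [cc, hu, map_mul, map_mul]
      simp
  rw [red, Lpow, map_subst' (hasSubst_C p hθ), h1]
  have h2 : PowerSeries.HasSubst (PowerSeries.map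
      (Polynomial.mapRingHom (PadicInt.toZMod (p := p)))
      (PowerSeries.map (Polynomial.C (R := ℤ_[p])) θ)) := by
    apply PowerSeries.HasSubst.of_constantCoeff_zero'
    rw [← coeff_zero_eq_constantCoeff_apply, coeff_map, coeff_map,
      coeff_zero_eq_constantCoeff_apply, hθ, map_zero, map_zero]
  rw [← PowerSeries.coe_substAlgHom h2, map_one]

theorem eval_cc (n m : ℕ) : (cc p m).eval (n : ℤ_[p]) = (p : ℤ_[p]) ^ m * (n.choose m : ℤ_[p]) := by
  rw [cc, Polynomial.eval_mul, Polynomial.eval_C, descPochhammer_eval_eq_descFactorial,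
    Nat.descFactorial_eq_factorial_mul_choose]
  push_cast
  rw [← mul_assoc, uu_mul]

theorem Lpow_eval {θ : PowerSeries ℤ_[p]} (hθ : constantCoeff θ = 0) (n : ℕ) :
    PowerSeries.map (Polynomial.evalRingHom (n : ℤ_[p])) (Lpow p θ) =
      (1 + C (p : ℤ_[p]) * θ) ^ n := by
  rw [Lpow, map_subst' (hasSubst_C p hθ)]
  have h1 : PowerSeries.map (Polynomial.evalRingHom (n : ℤ_[p])) (PowerSeries.mk (cc p)) =
      (1 + C (p : ℤ_[p]) * X) ^ n := by
    ext m
    rw [coeff_map, coeff_mk, coeff_one_add_mul_X_pow, Polynomial.coe_evalRingHom, eval_cc]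
  have h2 : PowerSeries.map (Polynomial.evalRingHom (n : ℤ_[p]))
      (PowerSeries.map (Polynomial.C (R := ℤ_[p])) θ) = θ := by
    ext m
    rw [coeff_map, coeff_map, Polynomial.coe_evalRingHom, Polynomial.eval_C]
  have h3 : PowerSeries.HasSubst θ := PowerSeries.HasSubst.of_constantCoeff_zero' hθ
  rw [h1, h2, ← PowerSeries.coe_substAlgHom h3, map_pow, map_add, map_one, map_mul,
    PowerSeries.coe_substAlgHom h3, PowerSeries.subst_X h3]
  congr 2
  rw [PowerSeries.subst_C]
  rfl

theorem Lpow_const {θ : PowerSeries ℤ_[p]} (hθ : constantCoeff θ = 0) :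
    constantCoeff (Lpow p θ) = 1 := by
  apply Polynomial.eq_of_infinite_eval_eq
  refine Set.Infinite.mono (s := Set.range fun n : ℕ ↦ (n : ℤ_[p])) ?_ ?_
  · rintro _ ⟨n, rfl⟩
    have := congrArg (PowerSeries.coeff 0) (Lpow_eval p hθ n)
    rw [coeff_map, coeff_zero_eq_constantCoeff_apply, coeff_zero_eq_constantCoeff_apply,
      map_pow, map_add, map_mul, map_one, hθ, mul_zero, add_zero, one_pow,
      Polynomial.coe_evalRingHom] at this
    simpa using this
  · exact Set.infinite_range_of_injective Nat.cast_injective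

end GH.MatU
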