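import Pool.Agent.GH.MatU.FreeFac
import Pool.Agent.GH.MatU.Lpow

/-!
# The free factorisation over `ℤ_p[y]`: instances and the cost lemma

`R = ℤ_p[y]`, `O = ℤ_p[w]`, `ι : w ↦ p y`, `P = (1 + pθ)^y`; the filtrations by the values at
the natural numbers (`Ipt`) and by the Gauss norm (`Irt`).
-/

open PowerSeries

noncomputable section

namespace GH.MatU

variable (p : ℕ) [Fact p.Prime]

/-! ### The inclusion -/

/-- `ι : w ↦ p y`. -/
def iot : Polynomial ℤ_[p] →+* Polynomial ℤ_[p] :=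
  Polynomial.compRingHom (Polynomial.C (p : ℤ_[p]) * Polynomial.X)

theorem iot_eval (F : Polynomial ℤ_[p]) (a : ℤ_[p]) :
    (iot p F).eval a = F.eval ((p : ℤ_[p]) * a) := by
  rw [iot, Polynomial.coe_compRingHom_apply, Polynomial.eval_comp, Polynomial.eval_mul,
    Polynomial.eval_C, Polynomial.eval_X]

theorem iot_C (a : ℤ_[p]) : iot p (Polynomial.C a) = Polynomial.C a := by
  rw [iot, Polynomial.coe_compRingHom_apply, Polynomial.C_comp]

theorem iot_X : iot p Polynomial.X = Polynomial.C (p : ℤ_[p]) * Polynomial.X := by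
  rw [iot, Polynomial.coe_compRingHom_apply, Polynomial.X_comp]

theorem natCast_reg (x : Polynomial ℤ_[p]) (h : (p : Polynomial ℤ_[p]) * x = 0) : x = 0 := by
  rcases mul_eq_zero.1 h with h1 | h1
  · exact absurd h1 (Nat.cast_ne_zero.2 (p_ne_zero p))
  · exact h1

theorem Lpow_pow {θ : PowerSeries ℤ_[p]} (hθ : constantCoeff θ = 0) :
    Lpow p θ ^ p = PowerSeries.map (iot p) (Lpow p θ) := by
  apply ext_nat
  intro n
  rw [map_pow, Lpow_eval p hθ, ← pow_mul]
  have h1 : PowerSeries.map (Polynomial.evalRingHom (n : ℤ_[p]))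
      (PowerSeries.map (iot p) (Lpow p θ)) =
      PowerSeries.map (Polynomial.evalRingHom ((n * p : ℕ) : ℤ_[p])) (Lpow p θ) := by
    ext m
    rw [coeff_map, coeff_map, coeff_map, Polynomial.coe_evalRingHom, Polynomial.coe_evalRingHom,
      iot_eval]
    congr 1
    push_cast
    ring
  rw [h1, Lpow_eval p hθ]

/-- A series which is `1` mod `p`. -/
theorem exists_of_red {F : PowerSeries (Polynomial ℤ_[p])} (h : red p F = 1)
    (h0 : constantCoeff F = 1) : ∃ V : PowerSeries (Polynomial ℤ_[p]), constantCoeff V = 0 ∧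
      F = 1 + C (p : Polynomial ℤ_[p]) * V := by
  have h1 : ∀ n, ∃ v : Polynomial ℤ_[p], coeff n (F - 1) = (p : Polynomial ℤ_[p]) * v := by
    intro n
    have h2 : Polynomial.C (p : ℤ_[p]) ∣ coeff n (F - 1) := by
      apply dvd_of_red
      have h3 : red p (F - 1) = 0 := by rw [map_sub, h, map_one, sub_self]
      have h4 := congrArg (PowerSeries.coeff n) h3
      rw [red, PowerSeries.coeff_map, map_zero] at h4
      exact h4
    obtain ⟨v, hv⟩ := h2
    exact ⟨v, by rw [hv]; simp⟩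
  choose v hv using h1
  refine ⟨PowerSeries.mk v, ?_, ?_⟩
  · rw [← coeff_zero_eq_constantCoeff_apply, coeff_mk]
    apply natCast_reg p
    rw [← hv 0, map_sub, coeff_zero_eq_constantCoeff_apply, h0, coeff_zero_eq_constantCoeff_apply,
      map_one, sub_self]
  · ext1 n
    rw [map_add, coeff_C_mul, coeff_mk, ← hv n, ← map_add, add_sub_cancel]

/-- Integrality of the free factorisation of `(1 + pθ)^y`, `q = 1 + pθ'`. -/
theorem SFL_int {θ θ' : PowerSeries ℤ_[p]} (hθ : constantCoeff θ = 0)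
    (hθ' : constantCoeff θ' = 0) {L n : ℕ} (hn : n < p * (L + 1)) :
    coeff n (SF p (Lpow p θ)
      (PowerSeries.map Polynomial.C (1 + C (p : ℤ_[p]) * θ')) L) ∈ (iot p).range := by
  obtain ⟨V, hV, hU⟩ := exists_of_red p (red_Lpow p hθ) (Lpow_const p hθ)
  refine SF_int (iot p) (natCast_reg p) (Lpow_const p hθ) hV (V' := PowerSeries.map
    Polynomial.C θ') ?_ ?_ ?_ hn
  · rw [Lpow_pow p hθ, ← hU]
  · rw [← coeff_zero_eq_constantCoeff_apply, coeff_map, coeff_zero_eq_constantCoeff_apply, hθ',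
      map_zero]
  · ext1 m
    have h1 : (p : Polynomial ℤ_[p]) = Polynomial.C (p : ℤ_[p]) := by simp
    have h2 : (coeff m (1 + C (p : Polynomial ℤ_[p]) * PowerSeries.map Polynomial.C θ')) =
        Polynomial.C (coeff m (1 + C (p : ℤ_[p]) * θ')) := by
      rw [map_add, map_add, coeff_C_mul, coeff_C_mul, coeff_map, map_add, map_mul, h1,
        coeff_one, coeff_one]
      split_ifs <;> simp
    rw [coeff_map, coeff_map, h2, iot_C]

/-! ### Filtrations -/

/-- The powers of a principal ideal. -/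
def Ipw {R : Type*} [CommRing R] (a : R) (k : ℕ) : Ideal R := Ideal.span {a ^ k}

theorem mem_Ipw {R : Type*} [CommRing R] {a : R} {k : ℕ} {x : R} :
    x ∈ Ipw a k ↔ a ^ k ∣ x := Ideal.mem_span_singleton

theorem filt_Ipw {R : Type*} [CommRing R] (a : R) {φ : ℕ → ℕ} (h0 : φ 0 = 0)
    (hs : ∀ m n, φ (m + n) ≤ φ m + φ n) : Filt (Ipw a) φ where
  zero := by rw [Ipw, pow_zero, Ideal.span_singleton_one]
  anti m n h := by
    intro x hx
    rw [mem_Ipw] at hx ⊢
    exact (pow_dvd_pow a h).trans hx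
  mul m n := by rw [Ipw, Ipw, Ideal.span_singleton_mul_span_singleton, ← pow_add, Ipw]
  phi0 := h0
  sub := hs

/-- The filtration by the Gauss norm. -/
abbrev Irt (k : ℕ) : Ideal (Polynomial ℤ_[p]) := Ipw (Polynomial.C (p : ℤ_[p])) k

/-- The filtration by the values at the natural numbers. -/
def Ipt (k : ℕ) : Ideal (Polynomial ℤ_[p]) where
  carrier := {F | ∀ m : ℕ, (p : ℤ_[p]) ^ k ∣ F.eval (m : ℤ_[p])}
  add_mem' h1 h2 m := by rw [Polynomial.eval_add]; exact dvd_add (h1 m) (h2 m)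
  zero_mem' m := by rw [Polynomial.eval_zero]; exact dvd_zero _
  smul_mem' c F h m := by
    rw [smul_eq_mul, Polynomial.eval_mul]; exact (h m).mul_left _

theorem mem_Ipt {k : ℕ} {F : Polynomial ℤ_[p]} :
    F ∈ Ipt p k ↔ ∀ m : ℕ, (p : ℤ_[p]) ^ k ∣ F.eval (m : ℤ_[p]) := Iff.rfl

theorem filt_Ipt {φ : ℕ → ℕ} (h0 : φ 0 = 0)
    (hs : ∀ m n, φ (m + n) ≤ φ m + φ n) : Filt (Ipt p) φ where
  zero := by
    rw [Ideal.eq_top_iff_one, mem_Ipt]
    intro m
    rw [pow_zero]
    exact one_dvd _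
  anti m n h := by
    intro x hx k
    exact (pow_dvd_pow _ h).trans (hx k)
  mul m n := by
    rw [Ideal.mul_le]
    intro F hF G hG k
    rw [Polynomial.eval_mul, pow_add]
    exact mul_dvd_mul (hF k) (hG k)
  phi0 := h0
  sub := hs

/-- Growth of `(1 + pθ)^y` at the natural numbers. -/
theorem Lpow_pt {φ : ℕ → ℕ} (h0 : φ 0 = 0) (hs : ∀ m n, φ (m + n) ≤ φ m + φ n)
    {θ : PowerSeries ℤ_[p]} (hθ : constantCoeff θ = 0)
    (hA : ∀ n, (p : ℤ_[p]) ^ φ n ∣ coeff n (1 + C (p : ℤ_[p]) * θ)) :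
    InF (Ipt p) φ (Lpow p θ) := by
  intro n m
  have h1 : InF (Ipw (p : ℤ_[p])) φ (1 + C (p : ℤ_[p]) * θ) := fun n => mem_Ipw.2 (hA n)
  have h2 := mem_Ipw.1 (h1.pow (filt_Ipw _ h0 hs) m n)
  rwa [← Lpow_eval p hθ, coeff_map, Polynomial.coe_evalRingHom] at h2

theorem C_pt {φ : ℕ → ℕ} {F : PowerSeries ℤ_[p]}
    (hA : ∀ n, (p : ℤ_[p]) ^ φ n ∣ coeff n F) :
    InF (Ipt p) φ (PowerSeries.map Polynomial.C F) := by
  intro n m
  rw [coeff_map, Polynomial.eval_C]
  exact hA n

theorem C_rt {φ : ℕ → ℕ} {F : PowerSeries ℤ_[p]}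
    (hA : ∀ n, (p : ℤ_[p]) ^ φ n ∣ coeff n F) :
    InF (Irt p) φ (PowerSeries.map Polynomial.C F) := by
  intro n
  rw [coeff_map, mem_Ipw, ← map_pow]
  exact map_dvd _ (hA n)

/-- Division by a factorial. -/
theorem dvd_of_dvd_mul_factorial {x : ℤ_[p]} {k j : ℕ}
    (h : (p : ℤ_[p]) ^ (k + padicValNat p j.factorial) ∣ x * (j.factorial : ℤ_[p])) :
    (p : ℤ_[p]) ^ k ∣ x := by
  have hp : p.Prime := Fact.out
  obtain ⟨v, t, ht, hv⟩ := Nat.exists_eq_pow_mul_and_not_dvd j.factorial_ne_zero p hp.ne_one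
  have hpv : padicValNat p j.factorial = v := by
    rw [hv, padicValNat.mul (pow_ne_zero _ hp.ne_zero) (by rintro rfl; exact ht (dvd_zero p)),
      padicValNat.prime_pow, padicValNat.eq_zero_of_not_dvd ht, add_zero]
  have htu : IsUnit ((t : ℕ) : ℤ_[p]) := by
    rw [PadicInt.isUnit_iff]
    refine le_antisymm (PadicInt.norm_le_one _) ?_
    by_contra hlt
    have h1 : ‖((t : ℤ) : ℤ_[p])‖ < 1 := by
      push_cast
      exact not_le.mp hlt
    rw [PadicInt.norm_int_lt_one_iff_dvd] at h1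
    exact ht (by exact_mod_cast h1)
  rw [hpv, hv] at h
  push_cast at h
  have h2 : x * ((p : ℤ_[p]) ^ v * (t : ℤ_[p])) = (x * t) * (p : ℤ_[p]) ^ v := by ring
  rw [h2, pow_add] at h
  have hp0 : (p : ℤ_[p]) ^ v ≠ 0 := pow_ne_zero _ (by exact_mod_cast hp.ne_zero)
  exact htu.dvd_mul_right.1 ((mul_dvd_mul_iff_right hp0).1 h)

/-- Growth of `(1 + pθ)^y` in the Gauss norm. -/
theorem Lpow_rt {φ ψ : ℕ → ℕ} (h0 : φ 0 = 0) (hs : ∀ m n, φ (m + n) ≤ φ m + φ n)
    (hψ0 : ψ 0 = 0)
    (hψ : ∀ n j, 1 ≤ n → 1 ≤ j → ψ n + padicValNat p j.factorial ≤ max j (φ n))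
    {θ : PowerSeries ℤ_[p]} (hθ : constantCoeff θ = 0)
    (hA : ∀ n, (p : ℤ_[p]) ^ φ n ∣ coeff n (1 + C (p : ℤ_[p]) * θ)) :
    InF (Irt p) ψ (Lpow p θ) := by
  intro n
  rcases Nat.eq_zero_or_pos n with hn | hn
  · subst hn
    rw [hψ0, mem_Ipw, pow_zero]
    exact one_dvd _
  have hp : (p : ℤ_[p]) ≠ 0 := by exact_mod_cast p_ne_zero p
  have hF := filt_Ipw (p : ℤ_[p]) h0 hs
  have h1 : InF (Ipw (p : ℤ_[p])) φ (C (p : ℤ_[p]) * θ) := by
    have h2 : InF (Ipw (p : ℤ_[p])) φ (1 + C (p : ℤ_[p]) * θ) := fun n => mem_Ipw.2 (hA n)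
    have h3 := h2.sub (InF.one hF)
    rwa [add_sub_cancel_left] at h3
  rw [Lpow, coeff_subst' (hasSubst_C p hθ)]
  refine finsum_induction (fun x => x ∈ Irt p (ψ n)) (Submodule.zero_mem _)
    (fun x y hx hy => Submodule.add_mem _ hx hy) fun j => ?_
  rw [coeff_mk, smul_eq_mul, ← map_pow, coeff_map, cc]
  rcases Nat.eq_zero_or_pos j with hj | hj
  · subst hj
    rw [pow_zero, coeff_one, if_neg (by omega), map_zero, mul_zero]
    exact Submodule.zero_mem _
  · have h2 : (p : ℤ_[p]) ^ (max j (φ n)) ∣ (p : ℤ_[p]) ^ j * coeff n (θ ^ j) := by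
      rcases le_total j (φ n) with h3 | h3
      · rw [max_eq_right h3]
        have h4 := mem_Ipw.1 (h1.pow hF j n)
        rwa [mul_pow, ← map_pow, coeff_C_mul] at h4
      · rw [max_eq_left h3]
        exact dvd_mul_right _ _
    have h3 : (p : ℤ_[p]) ^ (ψ n) ∣ uu p j * coeff n (θ ^ j) := by
      apply dvd_of_dvd_mul_factorial p (j := j)
      have h4 : uu p j * coeff n (θ ^ j) * (j.factorial : ℤ_[p]) =
          (p : ℤ_[p]) ^ j * coeff n (θ ^ j) := by
        rw [← uu_mul]; ring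
      rw [h4]
      exact (pow_dvd_pow _ (hψ n j hn hj)).trans h2
    rw [mem_Ipw]
    have h5 : Polynomial.C (uu p j) * descPochhammer ℤ_[p] j * Polynomial.C (coeff n (θ ^ j)) =
        Polynomial.C (uu p j * coeff n (θ ^ j)) * descPochhammer ℤ_[p] j := by
      rw [map_mul]; ring
    rw [h5, ← map_pow]
    exact (map_dvd _ h3).mul_right _

/-! ### The cost lemma -/

/-- `W_j(w) = w (w - p) ... (w - (j-1)p)`. -/
def Wj (j : ℕ) : Polynomial ℤ_[p] :=
  ∏ i ∈ Finset.range j, (Polynomial.X - Polynomial.C ((p : ℤ_[p]) * (i : ℤ_[p])))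

theorem Wj_monic (j : ℕ) : (Wj p j).Monic :=
  Polynomial.monic_prod_of_monic _ _ fun _ _ => Polynomial.monic_X_sub_C _

theorem Wj_natDegree (j : ℕ) : (Wj p j).natDegree = j := by
  rw [Wj, Polynomial.natDegree_prod_of_monic _ _ fun _ _ => Polynomial.monic_X_sub_C _,
    Finset.sum_congr rfl fun i _ => Polynomial.natDegree_X_sub_C _, Finset.sum_const,
    Finset.card_range, smul_eq_mul, mul_one]

theorem Wj_eval (j m : ℕ) : (Wj p j).eval ((p : ℤ_[p]) * (m : ℤ_[p])) =
    (p : ℤ_[p]) ^ j * (m.descFactorial j : ℤ_[p]) := by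
  have h1 : (Wj p j).eval ((p : ℤ_[p]) * (m : ℤ_[p])) =
      (p : ℤ_[p]) ^ j * (descPochhammer ℤ_[p] j).eval (m : ℤ_[p]) := by
    induction j with
    | zero => simp [Wj]
    | succ j ih =>
      rw [Wj, Finset.prod_range_succ, Polynomial.eval_mul, ← Wj, ih, Polynomial.eval_sub,
        Polynomial.eval_X, Polynomial.eval_C, descPochhammer_succ_right, Polynomial.eval_mul,
        Polynomial.eval_sub, Polynomial.eval_X, Polynomial.eval_natCast]
      ring
  rw [h1, descPochhammer_eval_eq_descFactorial]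

theorem iot_Wj (j : ℕ) : iot p (Wj p j) =
    Polynomial.C ((p : ℤ_[p]) ^ j) * descPochhammer ℤ_[p] j := by
  induction j with
  | zero => simp [Wj]
  | succ j ih =>
    rw [Wj, Finset.prod_range_succ, map_mul, ← Wj, ih, map_sub, iot_X, iot_C,
      descPochhammer_succ_right, pow_succ, map_mul, map_mul]
    have : Polynomial.C ((j : ℤ_[p])) = ((j : ℕ) : Polynomial ℤ_[p]) := by simp
    rw [this]
    ring

theorem exists_Wj (N : ℕ) : ∀ G : Polynomial ℤ_[p], (∀ k, N ≤ k → G.coeff k = 0) →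
    ∃ b : ℕ → ℤ_[p], G = ∑ j ∈ Finset.range N, Polynomial.C (b j) * Wj p j := by
  induction N with
  | zero =>
    intro G hG
    refine ⟨fun _ => 0, ?_⟩
    rw [Finset.sum_range_zero]
    ext k
    rw [hG k (Nat.zero_le k), Polynomial.coeff_zero]
  | succ N ih =>
    intro G hG
    obtain ⟨b, hb⟩ := ih (G - Polynomial.C (G.coeff N) * Wj p N) (by
      intro k hk
      rw [Polynomial.coeff_sub, Polynomial.coeff_C_mul]
      rcases Nat.eq_or_lt_of_le hk with h | h
      · subst h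
        have h1 : (Wj p N).coeff N = 1 := by
          have := (Wj_monic p N).coeff_natDegree
          rwa [Wj_natDegree] at this
        rw [h1, mul_one, sub_self]
      · have h2 : (Wj p N).coeff k = 0 :=
          Polynomial.coeff_eq_zero_of_natDegree_lt (by rw [Wj_natDegree]; exact h)
        rw [hG k h, h2, mul_zero, sub_zero])
    refine ⟨fun j => if j < N then b j else G.coeff N, ?_⟩
    rw [Finset.sum_range_succ]
    have h0 : (fun j => if j < N then b j else G.coeff N) N = G.coeff N := if_neg (lt_irrefl N)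
    rw [h0]
    have h1 : ∑ j ∈ Finset.range N,
        Polynomial.C (if j < N then b j else G.coeff N) * Wj p j =
        ∑ j ∈ Finset.range N, Polynomial.C (b j) * Wj p j :=
      Finset.sum_congr rfl fun j hj => by rw [if_pos (Finset.mem_range.1 hj)]
    have h2 := h1.trans hb.symm
    change G = ∑ j ∈ Finset.range N,
        Polynomial.C (if j < N then b j else G.coeff N) * Wj p j + _
    rw [h2]
    ring

/-- **The cost lemma**: `F ∈ ℤ_p[py]`, `p^e ∣ F(m)` for all `m`; then `p^c ∣ F` if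
`k + v(k!) < e` for all `k < c`. -/
theorem cost_mem {G : Polynomial ℤ_[p]} {e c : ℕ} (hG : iot p G ∈ Ipt p e)
    (hc : ∀ k < c, k + padicValNat p k.factorial < e) : iot p G ∈ Irt p c := by
  obtain ⟨b, hb⟩ := exists_Wj p (G.natDegree + 1) G fun k hk =>
    Polynomial.coeff_eq_zero_of_natDegree_lt (by omega)
  set N := G.natDegree + 1
  have hev : ∀ m : ℕ, (iot p G).eval (m : ℤ_[p]) =
      ∑ j ∈ Finset.range N, b j * ((p : ℤ_[p]) ^ j * (m.descFactorial j : ℤ_[p])) := by
    intro m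
    rw [iot_eval]
    conv_lhs => rw [hb]
    rw [Polynomial.eval_finsetSum]
    refine Finset.sum_congr rfl fun j _ => ?_
    rw [Polynomial.eval_mul, Polynomial.eval_C, Wj_eval]
  have hcoef : ∀ m, m < N → (p : ℤ_[p]) ^ e ∣ b m * (p : ℤ_[p]) ^ m * (m.factorial : ℤ_[p]) := by
    intro m
    induction m using Nat.strong_induction_on with
    | _ m ih =>
      intro hm
      have h1 := hG m
      rw [hev, ← Finset.add_sum_erase _ _ (Finset.mem_range.2 hm), Nat.descFactorial_self] at h1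
      have h2 : (p : ℤ_[p]) ^ e ∣ ∑ j ∈ (Finset.range N).erase m,
          b j * ((p : ℤ_[p]) ^ j * (m.descFactorial j : ℤ_[p])) := by
        refine Finset.dvd_sum fun j hj => ?_
        have hj1 := (Finset.mem_erase.1 hj).1
        have hj2 := Finset.mem_range.1 (Finset.mem_erase.1 hj).2
        rcases Nat.lt_or_gt_of_ne hj1 with h | h
        · rw [Nat.descFactorial_eq_factorial_mul_choose]
          push_cast
          have h3 : b j * ((p : ℤ_[p]) ^ j * ((j.factorial : ℤ_[p]) * (m.choose j : ℤ_[p]))) =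
              b j * (p : ℤ_[p]) ^ j * (j.factorial : ℤ_[p]) * (m.choose j : ℤ_[p]) := by ring
          rw [h3]
          exact (ih j h hj2).mul_right _
        · rw [Nat.descFactorial_of_lt h]
          simp
      have h3 := (dvd_add_left h2).1 h1
      rwa [← mul_assoc] at h3
  rw [hb, map_sum]
  refine Ideal.sum_mem _ fun j hj => ?_
  have hj1 := Finset.mem_range.1 hj
  rw [map_mul, iot_C, iot_Wj, ← mul_assoc, ← map_mul, mem_Ipw, ← map_pow]
  refine Dvd.dvd.mul_right (map_dvd _ ?_) _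
  rcases Nat.lt_or_ge j c with h | h
  · apply dvd_of_dvd_mul_factorial p (j := j)
    refine (pow_dvd_pow _ ?_).trans (hcoef j hj1)
    obtain ⟨c', rfl⟩ : ∃ c', c = c' + 1 := ⟨c - 1, by omega⟩
    have h1 := hc c' (Nat.lt_succ_self c')
    have h2 : padicValNat p j.factorial ≤ padicValNat p c'.factorial :=
      (padicValNat_dvd_iff_le c'.factorial_ne_zero).1
        (pow_padicValNat_dvd.trans (Nat.factorial_dvd_factorial (by omega)))
    omega
  · exact (pow_dvd_pow _ h).mul_left _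

end GH.MatU
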