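import Mathlib

/-! Row MU-3: corank and order of vanishing (helper64). -/

open Polynomial

namespace GH.MatU

/-- the induction on the set of columns -/
theorem pow_dvd_det_aux {K : Type*} [Field K] {n r : ℕ} (x₀ : K)
    (x : Fin n → Fin r → K) (y : Fin r → Fin n → K) (k : ℕ) :
    ∀ (A : Finset (Fin n)) (M : Matrix (Fin n) (Fin n) K[X]), A.card = k →
      (∀ i, ∀ j ∈ A, (M i j).eval x₀ = ∑ l, x i l * y l j) →
      (X - C x₀) ^ (A.card - r) ∣ M.det := by
  induction k with
  | zero =>
    intro A M hA _
    rw [hA, Nat.zero_sub, pow_zero]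
    exact one_dvd _
  | succ k ih =>
    intro A M hA h
    rcases Nat.lt_or_ge r A.card with hr | hr
    swap
    · rw [Nat.sub_eq_zero_of_le hr, pow_zero]
      exact one_dvd _
    have hli : ¬ LinearIndependent K (fun j : A => fun l : Fin r => y l j) := by
      intro hli
      have h1 := hli.fintype_card_le_finrank
      rw [Module.finrank_fin_fun, Fintype.card_coe] at h1
      omega
    obtain ⟨g, hg, j0, hj0⟩ := Fintype.not_linearIndependent_iff.1 hli
    classical
    set c : Fin n → K := fun j => if hj : j ∈ A then g ⟨j, hj⟩ else 0 with hc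
    have hcA : ∀ j : A, c j = g j := fun j => by
      simp only [hc]
      rw [dif_pos j.2]
    have hc0 : ∀ j, j ∉ A → c j = 0 := fun j hj => by
      simp only [hc]
      rw [dif_neg hj]
    have hcne : c j0 ≠ 0 := by rw [hcA]; exact hj0
    have hrel : ∀ l : Fin r, ∑ j ∈ A, c j * y l j = 0 := by
      intro l
      have h1 := congrFun hg l
      rw [Finset.sum_apply] at h1
      rw [← Finset.sum_coe_sort A (fun j => c j * y l j)]
      simpa [hcA] using h1
    have hroot : ∀ i, (∑ j, C (c j) * M i j).eval x₀ = 0 := by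
      intro i
      rw [eval_finsetSum]
      have h1 : ∀ j, (C (c j) * M i j).eval x₀ =
          if j ∈ A then ∑ l, x i l * (c j * y l j) else 0 := by
        intro j
        rw [eval_mul, eval_C]
        split_ifs with hj
        · rw [h i j hj, Finset.mul_sum]
          exact Finset.sum_congr rfl fun l _ => by ring
        · rw [hc0 j hj, zero_mul]
      rw [Finset.sum_congr rfl fun j _ => h1 j, Finset.sum_ite_mem, Finset.univ_inter,
        Finset.sum_comm]
      refine Finset.sum_eq_zero fun l _ => ?_
      rw [← Finset.mul_sum, hrel l, mul_zero]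
    have hdvd : ∀ i, ∃ q : K[X], ∑ j, C (c j) * M i j = (X - C x₀) * q := fun i =>
      dvd_iff_isRoot.2 (hroot i)
    choose q hq using hdvd
    have h1 := Matrix.det_updateCol_sum M (j0 : Fin n) (fun j => C (c j))
    have h2 : (fun i => ∑ j, (fun j => C (c j)) j • M i j) = (X - C x₀) • q := by
      funext i
      rw [Pi.smul_apply, smul_eq_mul, ← hq i]
      rfl
    rw [h2, Matrix.det_updateCol_smul, smul_eq_mul] at h1
    have h3 : (A.erase (j0 : Fin n)).card = k := by
      rw [Finset.card_erase_of_mem j0.2, hA, Nat.add_sub_cancel]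
    have h4 := ih (A.erase (j0 : Fin n)) (M.updateCol (j0 : Fin n) q) h3 (by
      intro i j hj
      rw [Matrix.updateCol_ne (Finset.ne_of_mem_erase hj)]
      exact h i j (Finset.mem_of_mem_erase hj))
    have h5 : (X - C x₀) ^ (A.card - r) ∣ C (c j0) * M.det := by
      rw [← h1, show A.card - r = (A.erase (j0 : Fin n)).card - r + 1 by omega, pow_succ']
      exact mul_dvd_mul_left _ h4
    have h6 : IsUnit (C (c j0)) := isUnit_C.2 (isUnit_iff_ne_zero.2 hcne)
    exact (IsUnit.dvd_mul_left h6).1 h5

/-- If `M(x₀)` factors through `K^r`, then `(X - x₀)^(n-r)` divides `det M`. Proof: induction on the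
number of columns of a set `A` of columns with `M(x₀)_(i, j) = ∑_l x_il y_lj` for `j ∈ A`: if
`|A| > r` there is a relation `∑_(j ∈ A) c_j col_j(x₀) = 0` with some `c_(j₀) ≠ 0`; replace the column
`j₀` of `M` by `∑ c_j col_j = (X - x₀) col'`. -/
theorem pow_dvd_det {K : Type*} [Field K] {n r : ℕ} (M : Matrix (Fin n) (Fin n) K[X]) (x₀ : K)
    (x : Fin n → Fin r → K) (y : Fin r → Fin n → K)
    (h : ∀ i j, (M i j).eval x₀ = ∑ l, x i l * y l j) :
    (X - C x₀) ^ (n - r) ∣ M.det := by
  have h1 := pow_dvd_det_aux x₀ x y n Finset.univ M (by rw [Finset.card_univ, Fintype.card_fin])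
    (fun i j _ => h i j)
  rwa [Finset.card_univ, Fintype.card_fin] at h1

end GH.MatU
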