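import Pool.Agent.GH.MatU.Lead
import Pool.Agent.GH.Pot.Gv
import Pool.Agent.GH.Pot.ADefs

/-!
# GH-MATU: corank at the integers, root
-/

open PowerSeries

noncomputable section

namespace GH.MatU

variable {p : ℕ} [Fact p.Prime]

theorem IsExp.inv {R : Type*} [CommRing R] {Xi : PowerSeries R} (h : IsExp p Xi)
    (h1 : constantCoeff Xi = 1) : ∃ Xj : PowerSeries R, IsExp p Xj ∧ constantCoeff Xj = 1 ∧
      Xi * Xj = 1 := by
  have hp := p_ne_zero p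
  obtain ⟨G, hG⟩ : ∃ G : PowerSeries R, G = PowerSeries.mk fun n ↦ coeff (p * n) Xi := ⟨_, rfl⟩
  have h2 := h.exists hp
  rw [← hG] at h2
  have h3 : constantCoeff G = 1 := by
    rw [← coeff_zero_eq_constantCoeff_apply, hG, coeff_mk, mul_zero,
      coeff_zero_eq_constantCoeff_apply, h1]
  have h4 : IsUnit G := by
    rw [PowerSeries.isUnit_iff_constantCoeff, h3]
    exact isUnit_one
  obtain ⟨H, hH⟩ := h4.exists_right_inv
  have h5 : Xi * PowerSeries.expand p hp H = 1 := by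
    rw [h2, ← map_mul, hH, map_one]
  refine ⟨PowerSeries.expand p hp H, isExp_expand hp H, ?_, h5⟩
  have h6 := congrArg constantCoeff h5
  rw [map_mul, h1, one_mul, map_one] at h6
  exact h6

/-- The value of `N` at an integer `m ≡ a`. -/
theorem NN_eval (hp : p = 2 ∨ p = 3) (m : ℕ) : ∃ T : ℕ → ℕ → ℤ_[p], ∀ i j,
    (NN p (m % p) i j).eval (m : ℤ_[p]) =
      ∑ l ∈ Finset.range (i + 1), T i l * (YY p m l j : ℤ_[p]) := by
  obtain ⟨Xi, h1, h2, h3⟩ := ratio_nat hp m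
  obtain ⟨Xj, h4, h5, h6⟩ := IsExp.inv h1 h2
  refine ⟨fun i l => coeff (p * (i - l)) Xj, fun i j => ?_⟩
  have h7 : PowerSeries.map (Polynomial.evalRingHom (m : ℤ_[p])) (Th p) = (1 - X) ^ m * Xj := by
    rw [h3, mul_assoc, h6, mul_one]
  have h8 : (fun j : ℕ ↦ wS p ℤ_[p] ^ (m % p) * vS p ℤ_[p] ^ (j + 1) * ((1 - X) ^ m * Xj)) =
      fun j ↦ (fun j : ℕ ↦ wS p ℤ_[p] ^ (m % p) * vS p ℤ_[p] ^ (j + 1) * (1 - X) ^ m) j * Xj := by
    funext j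
    ring
  rw [NN, Polynomial.eval_mul, Polynomial.eval_C, ← Polynomial.coe_evalRingHom, map_ZZ, h7, h8,
    cmat_mul (p_ne_zero p) _ h4, Finset.mul_sum]
  · refine Finset.sum_congr rfl fun l _ => ?_
    have h9 : (YY p m l j : ℤ_[p]) = ((p * cw p : ℕ) : ℤ_[p]) ^ (j + 1) *
        cmat p (fun j ↦ wS p ℤ_[p] ^ (m % p) * vS p ℤ_[p] ^ (j + 1) * (1 - X) ^ m) l j := by
      have h1 : ((YY p m l j : ℤ) : ℤ_[p]) = Int.castRingHom ℤ_[p] (YY p m l j) := rfl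
      rw [h1, YY, map_cmat, cmat, cmat]
      simp only [map_mul, map_pow, map_wS, map_vS, map_sub, map_one, PowerSeries.map_X,
        PowerSeries.map_C]
      have h2 : (Int.castRingHom ℤ_[p]) ((p * cw p : ℕ) : ℤ) = ((p * cw p : ℕ) : ℤ_[p]) := by
        simp
      rw [h2, mul_pow, ← map_pow]
      have h3 : wS p ℤ_[p] ^ (m % p) * (C (((p * cw p : ℕ) : ℤ_[p]) ^ (j + 1)) *
          vS p ℤ_[p] ^ (j + 1)) * (1 - X) ^ m = C (((p * cw p : ℕ) : ℤ_[p]) ^ (j + 1)) *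
          (wS p ℤ_[p] ^ (m % p) * vS p ℤ_[p] ^ (j + 1) * (1 - X) ^ m) := by ring
      rw [h3, PowerSeries.coeff_C_mul]
    rw [h9]
    ring
  · exact fun j => const_wv p (m % p) j _

theorem corank_NN (hp : p = 2 ∨ p = 3) (a m : ℕ) (h : ∃ n, Ta p a n m ≠ 0) :
    ∃ (x : ℕ → Fin (tt p m) → ℚ_[p]) (y : Fin (tt p m) → ℕ → ℚ_[p]), ∀ i j, ∃ z : ℤ_[p],
      (((NN p a i j).eval (m : ℤ_[p]) : ℤ_[p]) : ℚ_[p]) =
        ∑ l, x i l * y l j + (p : ℚ_[p]) ^ ss p m * z := by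
  obtain ⟨n, hn⟩ := h
  have hm : m % p = a := by
    by_contra h1
    rw [Ta, if_neg h1] at hn
    exact hn rfl
  rw [Ta, if_pos hm] at hn
  obtain ⟨x, y, hxy⟩ := inv_decomp hp m ⟨n, hn⟩
  obtain ⟨T, hT⟩ := NN_eval hp m
  rw [hm] at hT
  choose z hz using hxy
  refine ⟨fun i l => ∑ k ∈ Finset.range (i + 1), (T i k : ℚ_[p]) * ((x k l : ℚ) : ℚ_[p]),
    fun l j => ((y l j : ℚ) : ℚ_[p]), fun i j => ?_⟩
  refine ⟨∑ k ∈ Finset.range (i + 1), T i k * (z k j : ℤ_[p]), ?_⟩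
  rw [hT i j]
  have h1 : ∀ k, (((YY p m k j : ℤ) : ℤ_[p]) : ℚ_[p]) =
      ∑ l, ((x k l : ℚ) : ℚ_[p]) * ((y l j : ℚ) : ℚ_[p]) +
        (p : ℚ_[p]) ^ ss p m * ((z k j : ℤ) : ℚ_[p]) := by
    intro k
    have h2 : (((YY p m k j : ℤ) : ℤ_[p]) : ℚ_[p]) = ((YY p m k j : ℚ) : ℚ_[p]) := by
      push_cast
      rfl
    rw [h2, hz k j]
    push_cast
    rfl
  rw [PadicInt.coe_sum]
  simp only [PadicInt.coe_mul, h1, PadicInt.coe_sum, PadicInt.coe_intCast]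
  rw [Finset.mul_sum]
  have h3 : ∑ l, (∑ k ∈ Finset.range (i + 1), (T i k : ℚ_[p]) * ((x k l : ℚ) : ℚ_[p])) *
      ((y l j : ℚ) : ℚ_[p]) = ∑ k ∈ Finset.range (i + 1), (T i k : ℚ_[p]) *
        ∑ l, ((x k l : ℚ) : ℚ_[p]) * ((y l j : ℚ) : ℚ_[p]) := by
    simp only [Finset.sum_mul]
    rw [Finset.sum_comm]
    refine Finset.sum_congr rfl fun k _ => ?_
    rw [Finset.mul_sum]
    exact Finset.sum_congr rfl fun l _ => by ring
  rw [h3, ← Finset.sum_add_distrib]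
  exact Finset.sum_congr rfl fun k _ => by ring

end GH.MatU
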