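import Mathlib

/-! Row MU-1: the top coefficient of a determinant of polynomials. -/

open Polynomial

namespace GH.MatU

private theorem dd_prod {K : Type*} [CommRing K] {ι : Type*} (s : Finset ι) (f : ι → K[X])
    (b : ι → ℕ) (h : ∀ i ∈ s, (f i).natDegree ≤ b i) :
    (∏ i ∈ s, f i).natDegree ≤ ∑ i ∈ s, b i ∧
      (∏ i ∈ s, f i).coeff (∑ i ∈ s, b i) = ∏ i ∈ s, (f i).coeff (b i) := by
  classical
  induction s using Finset.induction_on with
  | empty => simp
  | insert a s ha ih =>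
    obtain ⟨ih1, ih2⟩ := ih fun i hi => h i (Finset.mem_insert_of_mem hi)
    have h1 := h a (Finset.mem_insert_self a s)
    rw [Finset.prod_insert ha, Finset.sum_insert ha, Finset.prod_insert ha]
    refine ⟨natDegree_mul_le_of_le h1 ih1, ?_⟩
    rw [coeff_mul_add_eq_of_natDegree_le h1 ih1, ih2]

private theorem dd_sum {n : ℕ} (r c : Fin n → ℕ) (σ : Equiv.Perm (Fin n))
    (hs : ∀ i, c i ≤ r (σ i)) : ∑ i, (r (σ i) - c i) = ∑ i, r i - ∑ i, c i := by
  rw [Finset.sum_tsub_distrib _ fun i _ => hs i]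
  congr 1
  exact Equiv.sum_comp σ r

/-- If `deg M_ij ≤ r_i - c_j` (and `M_ij = 0` if `r_i < c_j`), then `deg det M ≤ ∑ r - ∑ c`. -/
theorem natDegree_det_le {K : Type*} [CommRing K] {n : ℕ} (M : Matrix (Fin n) (Fin n) K[X])
    (r c : Fin n → ℕ) (h0 : ∀ i j, r i < c j → M i j = 0)
    (h : ∀ i j, (M i j).natDegree ≤ r i - c j) :
    M.det.natDegree ≤ ∑ i, r i - ∑ i, c i := by
  rw [Matrix.det_apply]
  refine natDegree_sum_le_of_forall_le _ _ fun σ _ => ?_
  refine (natDegree_smul_le _ _).trans ?_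
  by_cases hs : ∀ i, c i ≤ r (σ i)
  · rw [← dd_sum r c σ hs]
    exact (dd_prod Finset.univ (fun i => M (σ i) i) _ fun i _ => h (σ i) i).1
  · push Not at hs
    obtain ⟨i, hi⟩ := hs
    have hz : (∏ i, M (σ i) i) = 0 :=
      Finset.prod_eq_zero (f := fun i => M (σ i) i) (Finset.mem_univ i) (h0 _ _ hi)
    rw [hz]
    simp

/-- The coefficient of the top degree is the determinant of the top coefficients. -/
theorem coeff_det {K : Type*} [CommRing K] {n : ℕ} (M : Matrix (Fin n) (Fin n) K[X])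
    (r c : Fin n → ℕ) (h0 : ∀ i j, r i < c j → M i j = 0)
    (h : ∀ i j, (M i j).natDegree ≤ r i - c j) (hrc : ∑ i, c i ≤ ∑ i, r i) :
    M.det.coeff (∑ i, r i - ∑ i, c i) =
      (Matrix.of fun i j ↦ if c j ≤ r i then (M i j).coeff (r i - c j) else 0).det := by
  have _ := hrc
  rw [Matrix.det_apply, Matrix.det_apply, finsetSum_coeff]
  refine Finset.sum_congr rfl fun σ _ => ?_
  rw [coeff_smul]
  congr 1
  by_cases hs : ∀ i, c i ≤ r (σ i)
  · rw [← dd_sum r c σ hs,
      (dd_prod Finset.univ (fun i => M (σ i) i) _ fun i _ => h (σ i) i).2]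
    refine Finset.prod_congr rfl fun i _ => ?_
    rw [Matrix.of_apply, if_pos (hs i)]
  · push Not at hs
    obtain ⟨i, hi⟩ := hs
    have hz : (∏ i, M (σ i) i) = 0 :=
      Finset.prod_eq_zero (f := fun i => M (σ i) i) (Finset.mem_univ i) (h0 _ _ hi)
    have hz2 : (∏ i, Matrix.of (fun i j ↦ if c j ≤ r i then (M i j).coeff (r i - c j) else 0)
        (σ i) i) = 0 :=
      Finset.prod_eq_zero
        (f := fun i => Matrix.of
          (fun i j ↦ if c j ≤ r i then (M i j).coeff (r i - c j) else 0) (σ i) i)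
        (Finset.mem_univ i) (by simp only [Matrix.of_apply]; rw [if_neg (not_le.mpr hi)])
    rw [hz, hz2, coeff_zero]

end GH.MatU
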