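import Pool.Agent.GH.MatU.Frob

/-!
# GH-MATU: Dwork's lemma over `ℤ_p[x][[s]]`
-/

open PowerSeries

noncomputable section

namespace GH.MatU

variable (p : ℕ) [Fact p.Prime]

theorem p_ne_zero : p ≠ 0 := (Fact.out : p.Prime).ne_zero

/-- `x ↦ x^p` on coefficients. -/
def xexp : Polynomial ℤ_[p] →+* Polynomial ℤ_[p] := (Polynomial.expand ℤ_[p] p).toRingHom

/-- The Frobenius lift `σ`: `x ↦ x^p`, `s ↦ s^p`. -/
def sig : PowerSeries (Polynomial ℤ_[p]) →+* PowerSeries (Polynomial ℤ_[p]) :=
  (RingHomClass.toRingHom (PowerSeries.expand (R := Polynomial ℤ_[p]) p (p_ne_zero p))).comp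
    (PowerSeries.map (xexp p))

theorem sig_apply (F : PowerSeries (Polynomial ℤ_[p])) :
    sig p F = PowerSeries.expand p (p_ne_zero p) (PowerSeries.map (xexp p) F) := rfl

theorem isExp_sig (F : PowerSeries (Polynomial ℤ_[p])) : IsExp p (sig p F) :=
  isExp_expand (p_ne_zero p) _

/-- Reduction mod `p`. -/
def red : PowerSeries (Polynomial ℤ_[p]) →+* PowerSeries (Polynomial (ZMod p)) :=
  PowerSeries.map (Polynomial.mapRingHom PadicInt.toZMod)

instance : CharP (Polynomial (ZMod p)) p := inferInstance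

theorem red_sig (F : PowerSeries (Polynomial ℤ_[p])) : red p (sig p F) = red p F ^ p := by
  have h := MvPowerSeries.map_frobenius_expand (p := p) (hp := p_ne_zero p) (f := red p F)
  have h2 : (PowerSeries.map (frobenius (Polynomial (ZMod p)) p))
      (PowerSeries.expand p (p_ne_zero p) (red p F)) = red p F ^ p := h
  rw [← h2, sig_apply, red, PowerSeries.map_expand, PowerSeries.map_expand]
  congr 1
  ext1 n
  simp only [PowerSeries.coeff_map]
  set g := PowerSeries.coeff n F
  change Polynomial.map PadicInt.toZMod (Polynomial.expand ℤ_[p] p g) =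
    frobenius _ p (Polynomial.map PadicInt.toZMod g)
  rw [frobenius_def, ← ZMod.expand_card, Polynomial.map_expand]

/-- divisibility by `p` from the reduction. -/
theorem dvd_of_red {g : Polynomial ℤ_[p]} (h : Polynomial.map (PadicInt.toZMod (p := p)) g = 0) :
    Polynomial.C (p : ℤ_[p]) ∣ g := by
  rw [Polynomial.C_dvd_iff_dvd_coeff]
  intro i
  have h1 : PadicInt.toZMod (p := p) (g.coeff i) = 0 := by
    rw [← Polynomial.coeff_map, h, Polynomial.coeff_zero]
  have h2 : g.coeff i ∈ RingHom.ker (PadicInt.toZMod (p := p)) := h1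
  rw [PadicInt.ker_toZMod, PadicInt.maximalIdeal_eq_span_p, Ideal.mem_span_singleton] at h2
  exact h2

theorem map_monomial' {A B : Type*} [CommRing A] [CommRing B] (f : A →+* B) (n : ℕ) (a : A) :
    PowerSeries.map f (PowerSeries.monomial n a) = PowerSeries.monomial n (f a) := by
  ext m
  rw [PowerSeries.coeff_map, PowerSeries.coeff_monomial, PowerSeries.coeff_monomial]
  split_ifs <;> simp

/-- One step of the approximation. -/
theorem dwork_step {L G : PowerSeries (Polynomial ℤ_[p])} (hL : red p L = 1)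
    (hG : constantCoeff G = 1) {n : ℕ} (hn : 1 ≤ n) (h : X ^ n ∣ G ^ p - sig p G * L) :
    ∃ e : Polynomial ℤ_[p], X ^ (n + 1) ∣
      (G - PowerSeries.monomial n e) ^ p - sig p (G - PowerSeries.monomial n e) * L := by
  have hp2 : 2 ≤ p := (Fact.out : p.Prime).two_le
  have hr : red p (G ^ p - sig p G * L) = 0 := by
    rw [map_sub, map_mul, red_sig, hL, mul_one, map_pow, sub_self]
  obtain ⟨e, he⟩ : Polynomial.C (p : ℤ_[p]) ∣ coeff n (G ^ p - sig p G * L) := by
    apply dvd_of_red
    have := congrArg (PowerSeries.coeff n) hr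
    rw [red, PowerSeries.coeff_map, map_zero] at this
    exact this
  refine ⟨e, ?_⟩
  set G' := G - PowerSeries.monomial n e with hG'
  have hm : X ^ n ∣ G' - G := by
    rw [hG', sub_sub_cancel_left, dvd_neg, X_pow_dvd_iff]
    intro m hm
    rw [PowerSeries.coeff_monomial, if_neg (by omega)]
  have hc : constantCoeff G' = 1 := by
    rw [hG', map_sub, hG, ← coeff_zero_eq_constantCoeff_apply, PowerSeries.coeff_monomial,
      if_neg (by omega), sub_zero]
  -- sigma changes nothing mod X^(n+1)
  have hs : X ^ (n + 1) ∣ sig p G' - sig p G := by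
    rw [← map_sub, hG', sub_sub_cancel_left, map_neg, dvd_neg, X_pow_dvd_iff]
    intro m hm
    rw [sig_apply, map_monomial', PowerSeries.expand_monomial,
      PowerSeries.coeff_monomial, if_neg]
    intro h1
    have : n * 2 ≤ p * n := by nlinarith
    omega
  rw [X_pow_dvd_iff]
  intro m hm1
  have h3 : G' ^ p - sig p G' * L = (G ^ p - sig p G * L) + (G' ^ p - G ^ p) -
      (sig p G' - sig p G) * L := by ring
  rw [h3]
  have h4 : coeff m ((sig p G' - sig p G) * L) = 0 :=
    (X_pow_dvd_iff.mp (hs.mul_right L)) m hm1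
  have h5 : X ^ n ∣ G' ^ p - G ^ p := hm.trans (sub_dvd_pow_sub_pow G' G p)
  rw [map_sub, map_add, h4, sub_zero]
  rcases Nat.lt_or_ge m n with h6 | h6
  · rw [X_pow_dvd_iff.mp h m h6, X_pow_dvd_iff.mp h5 m h6, add_zero]
  · have h7 : m = n := by omega
    subst h7
    rw [coeff_pow_sub hc hG hm, hG', sub_sub_cancel_left, map_neg, PowerSeries.coeff_monomial,
      if_pos rfl, he]
    simp

/-- The approximations. -/
def dseq (L : PowerSeries (Polynomial ℤ_[p])) : ℕ → PowerSeries (Polynomial ℤ_[p])
  | 0 => 1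
  | n + 1 => dseq L n - PowerSeries.monomial (n + 1) (open Classical in
      if h : ∃ e : Polynomial ℤ_[p], X ^ (n + 2) ∣
        (dseq L n - PowerSeries.monomial (n + 1) e) ^ p -
          sig p (dseq L n - PowerSeries.monomial (n + 1) e) * L then h.choose else 0)

theorem dseq_coeff (L : PowerSeries (Polynomial ℤ_[p])) {n k : ℕ} (h : n ≤ k) :
    coeff n (dseq p L k) = coeff n (dseq p L n) := by
  induction k with
  | zero =>
    have : n = 0 := by omega
    rw [this]
  | succ k ih =>
    rcases Nat.lt_or_ge k n with h1 | h1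
    · have : n = k + 1 := by omega
      rw [this]
    · rw [← ih h1, dseq, map_sub, PowerSeries.coeff_monomial, if_neg (by omega), sub_zero]

theorem dseq_const (L : PowerSeries (Polynomial ℤ_[p])) (k : ℕ) :
    constantCoeff (dseq p L k) = 1 := by
  have := dseq_coeff p L (Nat.zero_le k)
  simpa [dseq] using this

theorem dseq_spec {L : PowerSeries (Polynomial ℤ_[p])} (hL : red p L = 1)
    (hc : constantCoeff L = 1) (k : ℕ) :
    X ^ (k + 1) ∣ dseq p L k ^ p - sig p (dseq p L k) * L := by
  induction k with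
  | zero =>
    rw [zero_add, pow_one, X_dvd_iff, dseq, one_pow, map_one, one_mul, map_sub, map_one, hc,
      sub_self]
  | succ k ih =>
    have h := dwork_step p hL (dseq_const p L k) (by omega : 1 ≤ k + 1) ih
    rw [dseq, dif_pos h]
    exact h.choose_spec

/-- **Dwork's lemma**: if `L ≡ 1 mod p`, there is `Θ` with `Θ^p = σ(Θ) L`. -/
theorem dwork {L : PowerSeries (Polynomial ℤ_[p])} (hL : red p L = 1)
    (hc : constantCoeff L = 1) :
    ∃ Th : PowerSeries (Polynomial ℤ_[p]), constantCoeff Th = 1 ∧ Th ^ p = sig p Th * L := by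
  set Th : PowerSeries (Polynomial ℤ_[p]) := PowerSeries.mk fun n ↦ coeff n (dseq p L n)
  refine ⟨Th, ?_, ?_⟩
  · have : coeff 0 Th = 1 := by
      rw [coeff_mk, coeff_zero_eq_constantCoeff_apply, dseq_const]
    simpa using this
  · rw [← sub_eq_zero]
    ext1 n
    have h1 : X ^ (n + 1) ∣ Th - dseq p L n := by
      rw [X_pow_dvd_iff]
      intro m hm
      rw [map_sub, coeff_mk, dseq_coeff p L (show m ≤ n by omega), sub_self]
    have h2 : X ^ (n + 1) ∣ sig p Th - sig p (dseq p L n) := by
      rw [← map_sub]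
      obtain ⟨D, hD⟩ := h1
      rw [hD, map_mul, map_pow]
      have : sig p X = X ^ p := by
        rw [sig_apply, PowerSeries.map_X, PowerSeries.expand_X]
      rw [this]
      apply Dvd.dvd.mul_right
      rw [← pow_mul]
      apply pow_dvd_pow
      have hp2 : 2 ≤ p := (Fact.out : p.Prime).two_le
      nlinarith
    have h3 : X ^ (n + 1) ∣ Th ^ p - sig p Th * L := by
      have h4 : Th ^ p - sig p Th * L = (Th ^ p - dseq p L n ^ p) +
        (dseq p L n ^ p - sig p (dseq p L n) * L) - (sig p Th - sig p (dseq p L n)) * L := by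
        ring
      rw [h4]
      exact dvd_sub (dvd_add (h1.trans (sub_dvd_pow_sub_pow _ _ _)) (dseq_spec p hL hc n))
        (h2.mul_right L)
    rw [map_zero]
    exact X_pow_dvd_iff.mp h3 n (by omega)

end GH.MatU
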