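import Pool.Agent.GH.MatU.Frob

/-!
# The free factorisation `P = S · W(g)`, `g = h^p q`

`P ∈ 1 + h R[[h]]` with `P^p = 1 mod p` over a subring `O`; the factors `1 - β_l g^l` are chosen
such that the coefficients of `h^(pl)` of `S_L = P ∏_(l ≤ L) (1 - β_l g^l)` vanish; then all
coefficients of `S_L` below `h^(p(L+1))` are in `O` (`SF_int`), every filtration property of
`P` and `q` is inherited (`SF_filt`, `WF_filt`), and `[h^(pi-j)] P F Q^i` (`Q = 1/q`) is
`∑_l W_l [h^(p(i-l)-j)] S_L F Q^(i-l)` (`SF_row`).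
-/

open PowerSeries

noncomputable section

namespace GH.MatU

variable {O R : Type*} [CommRing O] [CommRing R]

/-! ### Filtrations -/

/-- A multiplicative filtration and a subadditive weight. -/
structure Filt (I : ℕ → Ideal R) (φ : ℕ → ℕ) : Prop where
  zero : I 0 = ⊤
  anti : ∀ a b, a ≤ b → I b ≤ I a
  mul : ∀ a b, I a * I b ≤ I (a + b)
  phi0 : φ 0 = 0
  sub : ∀ a b, φ (a + b) ≤ φ a + φ b

/-- The coefficient of `h^n` is in `I_φ(n)`. -/
def InF (I : ℕ → Ideal R) (φ : ℕ → ℕ) (F : PowerSeries R) : Prop := ∀ n, coeff n F ∈ I (φ n)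

theorem InF.mul {I : ℕ → Ideal R} {φ : ℕ → ℕ} (h : Filt I φ) {F G : PowerSeries R}
    (hF : InF I φ F) (hG : InF I φ G) : InF I φ (F * G) := by
  intro n
  rw [coeff_mul]
  refine Ideal.sum_mem _ fun x hx => ?_
  rw [Finset.HasAntidiagonal.mem_antidiagonal] at hx
  have h1 := h.mul _ _ (Ideal.mul_mem_mul (hF x.1) (hG x.2))
  refine h.anti _ _ ?_ h1
  rw [← hx]
  exact h.sub _ _

theorem InF.one {I : ℕ → Ideal R} {φ : ℕ → ℕ} (h : Filt I φ) : InF I φ (1 : PowerSeries R) := by
  intro n
  rw [coeff_one]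
  split_ifs with hn
  · subst hn
    rw [h.phi0, h.zero]
    exact Submodule.mem_top
  · exact Submodule.zero_mem _

theorem InF.pow {I : ℕ → Ideal R} {φ : ℕ → ℕ} (h : Filt I φ) {F : PowerSeries R}
    (hF : InF I φ F) (k : ℕ) : InF I φ (F ^ k) := by
  induction k with
  | zero => rw [pow_zero]; exact InF.one h
  | succ k ih => rw [pow_succ]; exact ih.mul h hF

theorem InF.sub {I : ℕ → Ideal R} {φ : ℕ → ℕ} {F G : PowerSeries R}
    (hF : InF I φ F) (hG : InF I φ G) : InF I φ (F - G) := by
  intro n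
  rw [map_sub]
  exact Submodule.sub_mem _ (hF n) (hG n)

/-- `b h^k F` for `b ∈ I_φ(k)`. -/
theorem InF.shift {I : ℕ → Ideal R} {φ : ℕ → ℕ} (h : Filt I φ) {F : PowerSeries R}
    (hF : InF I φ F) {b : R} {k : ℕ} (hb : b ∈ I (φ k)) : InF I φ (C b * (X ^ k * F)) := by
  intro n
  rw [coeff_C_mul]
  by_cases hn : k ≤ n
  · obtain ⟨m, rfl⟩ := Nat.exists_eq_add_of_le hn
    rw [add_comm k m, coeff_X_pow_mul, add_comm m k]
    refine h.anti _ _ (h.sub k m) (h.mul _ _ (Ideal.mul_mem_mul hb (hF m)))
  · have h1 : coeff n (X ^ k * F) = 0 := X_pow_dvd_iff.1 (dvd_mul_right _ _) n (by omega)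
    rw [h1, mul_zero]
    exact Submodule.zero_mem _

theorem InF.inv {I : ℕ → Ideal R} {φ : ℕ → ℕ} (h : Filt I φ) {F : PowerSeries R}
    (hF : InF I φ F) (h1 : constantCoeff F = 1) : InF I φ (invOfUnit F 1) := by
  have hFI : F * invOfUnit F 1 = 1 := mul_invOfUnit F 1 (by simpa using h1)
  intro n
  induction n using Nat.strong_induction_on with
  | _ n ih =>
    have h2 := congrArg (coeff n) hFI
    rw [coeff_mul, Finset.Nat.sum_antidiagonal_eq_sum_range_succ
      (fun u v => coeff u F * coeff v (invOfUnit F 1)), Finset.sum_range_succ',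
      coeff_zero_eq_constantCoeff_apply, h1, one_mul, Nat.sub_zero] at h2
    rw [← sub_eq_iff_eq_add'.2 h2.symm]
    refine Submodule.sub_mem _ (InF.one h n) (Ideal.sum_mem _ fun k hk => ?_)
    have hk' := Finset.mem_range.1 hk
    have h3 := h.mul _ _ (Ideal.mul_mem_mul (hF (k + 1)) (ih (n - (k + 1)) (by omega)))
    refine h.anti _ _ ?_ h3
    have h4 := h.sub (k + 1) (n - (k + 1))
    rwa [show k + 1 + (n - (k + 1)) = n by omega] at h4

theorem Filt.scale {I : ℕ → Ideal R} {φ : ℕ → ℕ} (h : Filt I φ) (p : ℕ) :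
    Filt I (fun l => φ (p * l)) where
  zero := h.zero
  anti := h.anti
  mul := h.mul
  phi0 := by rw [mul_zero, h.phi0]
  sub a b := by rw [mul_add]; exact h.sub _ _

/-! ### The recursion -/

variable (p : ℕ)

/-- `S_0 = P`, `S_(L+1) = S_L (1 - β g^(L+1))`, `β = [h^(p(L+1))] S_L`, `g = h^p q`. -/
def SF (P q : PowerSeries R) : ℕ → PowerSeries R
  | 0 => P
  | L + 1 => SF P q L *
      (1 - C (coeff (p * (L + 1)) (SF P q L)) * (X ^ p * q) ^ (L + 1))

/-- `β_l`. -/
def bF (P q : PowerSeries R) (l : ℕ) : R := coeff (p * (l + 1)) (SF p P q l)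

/-- `C_L(T) = ∏_(l < L) (1 - β_l T^(l+1))`. -/
def CF (P q : PowerSeries R) (L : ℕ) : PowerSeries R :=
  ∏ l ∈ Finset.range L, (1 - C (bF p P q l) * X ^ (l + 1))

variable {p}

theorem SF_zero (P q : PowerSeries R) : SF p P q 0 = P := rfl

theorem SF_succ (P q : PowerSeries R) (L : ℕ) : SF p P q (L + 1) =
    SF p P q L * (1 - C (bF p P q L) * (X ^ p * q) ^ (L + 1)) := rfl

theorem SF_eq_prod (P q : PowerSeries R) (L : ℕ) : SF p P q L =
    P * ∏ l ∈ Finset.range L, (1 - C (bF p P q l) * (X ^ p * q) ^ (l + 1)) := by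
  induction L with
  | zero => rw [SF_zero, Finset.prod_range_zero, mul_one]
  | succ L ih => rw [SF_succ, ih, Finset.prod_range_succ, mul_assoc]

theorem SF_filt {I : ℕ → Ideal R} {φ : ℕ → ℕ} (h : Filt I φ) {P q : PowerSeries R}
    (hP : InF I φ P) (hq : InF I φ q) (L : ℕ) : InF I φ (SF p P q L) := by
  induction L with
  | zero => exact hP
  | succ L ih =>
    rw [SF_succ]
    refine ih.mul h ((InF.one h).sub ?_)
    rw [mul_pow, ← pow_mul]
    exact InF.shift h (hq.pow h _) (ih _)

theorem bF_filt {I : ℕ → Ideal R} {φ : ℕ → ℕ} (h : Filt I φ) {P q : PowerSeries R}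
    (hP : InF I φ P) (hq : InF I φ q) (l : ℕ) : bF p P q l ∈ I (φ (p * (l + 1))) :=
  SF_filt h hP hq l _

/-- the factor `1 - β g^(L+1)` changes nothing below `h^(p(L+1))` -/
theorem coeff_SF_succ (P q : PowerSeries R) {L n : ℕ} (hn : n < p * (L + 1)) :
    coeff n (SF p P q (L + 1)) = coeff n (SF p P q L) := by
  rw [SF_succ, mul_sub, mul_one, map_sub, sub_eq_self]
  have h1 : X ^ (p * (L + 1)) ∣ SF p P q L *
      (C (bF p P q L) * (X ^ p * q) ^ (L + 1)) := by
    rw [mul_pow, ← pow_mul]
    exact Dvd.dvd.mul_left (Dvd.dvd.mul_left (dvd_mul_right _ _) _) _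
  exact X_pow_dvd_iff.1 h1 n hn

theorem SF_const {P q : PowerSeries R} (hp : p ≠ 0) (hP : constantCoeff P = 1) (L : ℕ) :
    constantCoeff (SF p P q L) = 1 := by
  induction L with
  | zero => exact hP
  | succ L ih =>
    rw [← coeff_zero_eq_constantCoeff_apply, coeff_SF_succ P q (by positivity),
      coeff_zero_eq_constantCoeff_apply, ih]

/-- `[h^(p(L+1))] S_(L+1) = 0`. -/
theorem coeff_SF_self {P q : PowerSeries R} (hp : p ≠ 0) (hP : constantCoeff P = 1)
    (hq : constantCoeff q = 1) (L : ℕ) : coeff (p * (L + 1)) (SF p P q (L + 1)) = 0 := by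
  rw [SF_succ, mul_sub, mul_one, map_sub, mul_pow, ← pow_mul]
  have h1 : SF p P q L * (C (bF p P q L) * (X ^ (p * (L + 1)) * q ^ (L + 1))) =
      X ^ (p * (L + 1)) * (C (bF p P q L) * (SF p P q L * q ^ (L + 1))) := by ring
  have h2 := coeff_X_pow_mul (C (bF p P q L) * (SF p P q L * q ^ (L + 1))) (p * (L + 1)) 0
  rw [zero_add] at h2
  rw [h1, h2, coeff_C_mul, coeff_zero_eq_constantCoeff_apply, map_mul, map_pow,
    SF_const hp hP, hq, one_pow, mul_one, mul_one, bF, sub_self]

/-- `[h^(pl)] S_L = 0` for `1 ≤ l ≤ L`. -/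
theorem coeff_SF_zero {P q : PowerSeries R} (hp : p ≠ 0) (hP : constantCoeff P = 1)
    (hq : constantCoeff q = 1) {L l : ℕ} (h1 : 1 ≤ l) (hl : l ≤ L) :
    coeff (p * l) (SF p P q L) = 0 := by
  induction L with
  | zero => omega
  | succ L ih =>
    rcases Nat.lt_or_ge L l with h | h
    · obtain rfl : l = L + 1 := by omega
      exact coeff_SF_self hp hP hq L
    · rw [coeff_SF_succ P q (Nat.mul_lt_mul_of_pos_left (by omega) (Nat.pos_of_ne_zero hp)),
        ih h]

/-! ### The row operation -/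

theorem constantCoeff_CF (P q : PowerSeries R) (L : ℕ) : constantCoeff (CF p P q L) = 1 := by
  rw [CF, map_prod]
  refine Finset.prod_eq_one fun l _ => ?_
  rw [map_sub, map_mul, map_pow, constantCoeff_X, zero_pow (Nat.succ_ne_zero l), mul_zero,
    map_one, sub_zero]

theorem CF_filt {I : ℕ → Ideal R} {φ : ℕ → ℕ} (h : Filt I φ) {P q : PowerSeries R}
    (hP : InF I φ P) (hq : InF I φ q) (L : ℕ) :
    InF I (fun l => φ (p * l)) (CF p P q L) := by
  induction L with
  | zero => rw [CF, Finset.prod_range_zero]; exact InF.one (h.scale p)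
  | succ L ih =>
    have h1 : CF p P q (L + 1) = CF p P q L * (1 - C (bF p P q L) * (X ^ (L + 1) * 1)) := by
      rw [CF, Finset.prod_range_succ, mul_one]
      rfl
    rw [h1]
    refine ih.mul (h.scale p) ((InF.one (h.scale p)).sub ?_)
    exact InF.shift (h.scale p) (InF.one (h.scale p)) (bF_filt h hP hq L)

/-- The inverse of `C_L`: `P = S_L W(g)`. -/
def WF (p : ℕ) (P q : PowerSeries R) (L : ℕ) : PowerSeries R := invOfUnit (CF p P q L) 1

theorem WF_filt {I : ℕ → Ideal R} {φ : ℕ → ℕ} (h : Filt I φ) {P q : PowerSeries R}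
    (hP : InF I φ P) (hq : InF I φ q) (L : ℕ) :
    InF I (fun l => φ (p * l)) (WF p P q L) :=
  (CF_filt h hP hq L).inv (h.scale p) (constantCoeff_CF P q L)

theorem constantCoeff_WF (P q : PowerSeries R) (L : ℕ) : constantCoeff (WF p P q L) = 1 := by
  rw [WF, constantCoeff_invOfUnit]
  simp

/-- `C_L(T)` as a polynomial. -/
def CPoly (p : ℕ) (P q : PowerSeries R) (L : ℕ) : Polynomial R :=
  ∏ l ∈ Finset.range L, (1 - Polynomial.C (bF p P q l) * Polynomial.X ^ (l + 1))

theorem coe_CPoly (P q : PowerSeries R) (L : ℕ) :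
    ((CPoly p P q L : Polynomial R) : PowerSeries R) = CF p P q L := by
  rw [CPoly, CF, ← Polynomial.coeToPowerSeries.ringHom_apply, map_prod]
  refine Finset.prod_congr rfl fun l _ => ?_
  rw [map_sub, map_one, map_mul, map_pow, Polynomial.coeToPowerSeries.ringHom_apply,
    Polynomial.coeToPowerSeries.ringHom_apply, Polynomial.coe_C, Polynomial.coe_X]

theorem eval_CPoly (P q : PowerSeries R) (L : ℕ) :
    SF p P q L = P * Polynomial.eval₂ (C : R →+* PowerSeries R) (X ^ p * q)
      (CPoly p P q L) := by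
  rw [SF_eq_prod, CPoly, Polynomial.eval₂_finsetProd]
  congr 1
  refine Finset.prod_congr rfl fun l _ => ?_
  rw [Polynomial.eval₂_sub, Polynomial.eval₂_one, Polynomial.eval₂_mul,
    Polynomial.eval₂_C, Polynomial.eval₂_pow, Polynomial.eval₂_X]

/-- The entry `[h^(pi-j)] F Q^i`. -/
def ent (p : ℕ) (F Q : PowerSeries R) (i j : ℕ) : R :=
  if j ≤ p * i then coeff (p * i - j) (F * Q ^ i) else 0

/-- `[h^(pi-j)] F Q^i g^l = [h^(p(i-l)-j)] F Q^(i-l)` for `g = h^p q`, `Q q = 1`. -/
theorem ent_shift {Q q : PowerSeries R} (hQ : Q * q = 1) (F : PowerSeries R) {i j l : ℕ}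
    (hl : l ≤ i) (hj : j ≤ p * i) :
    coeff (p * i - j) (F * Q ^ i * (X ^ p * q) ^ l) = ent p F Q (i - l) j := by
  obtain ⟨k, rfl⟩ := Nat.exists_eq_add_of_le hl
  have h1 : F * Q ^ (l + k) * (X ^ p * q) ^ l = X ^ (p * l) * (F * Q ^ k) := by
    have h2 : Q ^ l * q ^ l = 1 := by rw [← mul_pow, hQ, one_pow]
    calc F * Q ^ (l + k) * (X ^ p * q) ^ l
        = X ^ (p * l) * (F * Q ^ k) * (Q ^ l * q ^ l) := by
          rw [pow_add, mul_pow, ← pow_mul]; ring
      _ = _ := by rw [h2, mul_one]
  rw [h1, ent, Nat.add_sub_cancel_left]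
  split_ifs with h3
  · have h4 : p * (l + k) - j = p * k - j + p * l := by rw [mul_add]; omega
    rw [h4, coeff_X_pow_mul]
  · refine X_pow_dvd_iff.1 (dvd_mul_right _ _) _ ?_
    rw [mul_add]
    rw [mul_add] at hj
    omega

/-- **The row operation**: `M = [W] N`, `W` the unipotent Toeplitz matrix of `WF`. -/
theorem SF_row (hp : p ≠ 0) {P q Q : PowerSeries R} (hQ : Q * q = 1) (F : PowerSeries R)
    (L i j : ℕ) : ent p (P * F) Q i j =
      ∑ l ∈ Finset.range (i + 1), coeff l (WF p P q L) * ent p (SF p P q L * F) Q (i - l) j := by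
  by_cases hj : j ≤ p * i
  · set W : Polynomial R := PowerSeries.trunc (i + 1) (WF p P q L) with hW
    have hCW : CF p P q L * WF p P q L = 1 :=
      mul_invOfUnit _ 1 (by simpa using constantCoeff_CF P q L)
    have h1 : Polynomial.X ^ (i + 1) ∣ CPoly p P q L * W - 1 := by
      rw [Polynomial.X_pow_dvd_iff]
      intro m hm
      have h2 : ((CPoly p P q L * W - 1 : Polynomial R) : PowerSeries R) =
          CF p P q L * W - 1 := by
        rw [Polynomial.coe_sub, Polynomial.coe_mul, coe_CPoly, Polynomial.coe_one]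
      rw [← Polynomial.coeff_coe, h2, ← hCW, ← mul_sub, coeff_mul]
      refine Finset.sum_eq_zero fun x hx => ?_
      have hx1 := Finset.HasAntidiagonal.mem_antidiagonal.1 hx
      rw [map_sub, Polynomial.coeff_coe, hW, coeff_trunc, if_pos (by omega), sub_self, mul_zero]
    obtain ⟨E, hE⟩ := h1
    have h2 : CPoly p P q L * W = 1 + Polynomial.X ^ (i + 1) * E := by
      rw [← hE]; ring
    have h3 := congrArg (Polynomial.eval₂ (C : R →+* PowerSeries R) (X ^ p * q)) h2
    rw [Polynomial.eval₂_mul, Polynomial.eval₂_add, Polynomial.eval₂_one, Polynomial.eval₂_mul,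
      Polynomial.eval₂_pow, Polynomial.eval₂_X] at h3
    set e := Polynomial.eval₂ (C : R →+* PowerSeries R) (X ^ p * q) E
    have h4 : P * F * Q ^ i = SF p P q L * F * Q ^ i *
        Polynomial.eval₂ (C : R →+* PowerSeries R) (X ^ p * q) W -
        X ^ (p * (i + 1)) * (q ^ (i + 1) * e * (P * F * Q ^ i)) := by
      have h5 : SF p P q L * F * Q ^ i *
          Polynomial.eval₂ (C : R →+* PowerSeries R) (X ^ p * q) W = P * F * Q ^ i *
          (1 + (X ^ p * q) ^ (i + 1) * e) := by
        rw [← h3, eval_CPoly]; ring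
      rw [h5, mul_pow, ← pow_mul]
      ring
    have h6 : coeff (p * i - j)
        (X ^ (p * (i + 1)) * (q ^ (i + 1) * e * (P * F * Q ^ i))) = 0 := by
      refine X_pow_dvd_iff.1 (dvd_mul_right _ _) _ ?_
      rw [mul_add]
      omega
    rw [ent, if_pos hj, h4, map_sub, h6, sub_zero, Polynomial.eval₂_eq_sum_range' _
      (n := i + 1) (by
        have := PowerSeries.natDegree_trunc_lt (WF p P q L) i
        exact this), Finset.mul_sum, map_sum]
    refine Finset.sum_congr rfl fun l hl => ?_
    have hl1 := Finset.mem_range.1 hl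
    have h7 : SF p P q L * F * Q ^ i * (C (W.coeff l) * (X ^ p * q) ^ l) =
        C (W.coeff l) * (SF p P q L * F * Q ^ i * (X ^ p * q) ^ l) := by ring
    rw [h7, coeff_C_mul, ent_shift hQ _ (by omega) hj, hW, coeff_trunc, if_pos hl1]
  · rw [ent, if_neg hj]
    symm
    refine Finset.sum_eq_zero fun l _ => ?_
    rw [ent, if_neg, mul_zero]
    have : p * (i - l) ≤ p * i := Nat.mul_le_mul_left p (Nat.sub_le i l)
    omega

/-! ### Integrality -/

/-- `[h^n] s^p` is divisible by `p` if `p` does not divide `n`. -/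
theorem coeff_pow_dvd [Fact p.Prime] (s : PowerSeries O) {n : ℕ} (hn : ¬ p ∣ n) :
    (p : O) ∣ coeff n (s ^ p) := by
  have hp : p ≠ 0 := (Fact.out : p.Prime).ne_zero
  rw [← Ideal.mem_span_singleton, ← Ideal.Quotient.eq_zero_iff_mem]
  have h1 : Ideal.Quotient.mk (Ideal.span {(p : O)}) (coeff n (s ^ p)) =
      coeff n ((PowerSeries.map (Ideal.Quotient.mk (Ideal.span {(p : O)})) s) ^ p) := by
    rw [← map_pow, coeff_map]
  rw [h1]
  rcases subsingleton_or_nontrivial (O ⧸ Ideal.span {(p : O)}) with h | h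
  · exact Subsingleton.elim _ _
  · have h3 : ((p : ℕ) : O ⧸ Ideal.span {(p : O)}) = 0 := by
      rw [← map_natCast (Ideal.Quotient.mk (Ideal.span {(p : O)})),
        Ideal.Quotient.eq_zero_iff_mem]
      exact Ideal.mem_span_singleton_self _
    have : CharP (O ⧸ Ideal.span {(p : O)}) p :=
      (CharP.charP_iff_prime_eq_zero (Fact.out : p.Prime)).2 h3
    set F := PowerSeries.map (Ideal.Quotient.mk (Ideal.span {(p : O)})) s with hF
    have h4 := MvPowerSeries.map_frobenius_expand (p := p) (hp := hp) (f := F)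
    have h2 : (PowerSeries.map (frobenius (O ⧸ Ideal.span {(p : O)}) p))
        (PowerSeries.expand p hp F) = F ^ p := h4
    rw [← h2, coeff_map, coeff_expand_of_not_dvd p hp F hn, map_zero]

/-- All coefficients below `n` are in the range of `ι`. -/
def IntTo (ι : O →+* R) (n : ℕ) (F : PowerSeries R) : Prop := ∀ m < n, coeff m F ∈ ι.range

theorem IntTo.mul {ι : O →+* R} {n : ℕ} {F G : PowerSeries R} (hF : IntTo ι n F)
    (hG : IntTo ι n G) : IntTo ι n (F * G) := by
  intro m hm
  rw [coeff_mul]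
  refine Subring.sum_mem _ fun x hx => ?_
  have h1 := Finset.HasAntidiagonal.mem_antidiagonal.1 hx
  exact Subring.mul_mem _ (hF _ (by omega)) (hG _ (by omega))

theorem IntTo.map (ι : O →+* R) (n : ℕ) (F : PowerSeries O) :
    IntTo ι n (PowerSeries.map ι F) := by
  intro m _
  rw [coeff_map]
  exact ⟨_, rfl⟩

theorem IntTo.pow {ι : O →+* R} {n : ℕ} {F : PowerSeries R} (hF : IntTo ι n F) (k : ℕ) :
    IntTo ι n (F ^ k) := by
  induction k with
  | zero =>
    have h := IntTo.map ι n (1 : PowerSeries O)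
    rwa [map_one] at h
  | succ k ih => rw [pow_succ]; exact ih.mul hF

/-- `[h^m] g^l` for `g = h^p q`. -/
theorem coeff_g_pow (q : PowerSeries R) (l m : ℕ) : coeff m ((X ^ p * q) ^ l) =
    if p * l ≤ m then coeff (m - p * l) (q ^ l) else 0 := by
  rw [mul_pow, ← pow_mul]
  split_ifs with h
  · obtain ⟨k, rfl⟩ := Nat.exists_eq_add_of_le h
    rw [Nat.add_sub_cancel_left, add_comm, coeff_X_pow_mul]
  · exact X_pow_dvd_iff.1 (dvd_mul_right _ _) m (by omega)

/-- The coefficients of `D` from those of `D(g)`. -/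
theorem coeff_of_evalg {ι : O →+* R} {n : ℕ} (hp : p ≠ 0) {q : PowerSeries R}
    (hq : ∀ k, IntTo ι k q)
    (hq0 : constantCoeff q = 1) (D : Polynomial R)
    (h : IntTo ι n (Polynomial.eval₂ (C : R →+* PowerSeries R) (X ^ p * q) D)) {l : ℕ}
    (hl : p * l < n) : D.coeff l ∈ ι.range := by
  induction l using Nat.strong_induction_on with
  | _ l ih =>
    by_cases hd : l ≤ D.natDegree
    · have h1 := h (p * l) hl
      rw [Polynomial.eval₂_eq_sum_range, map_sum,
        ← Finset.add_sum_erase _ _ (Finset.mem_range.2 (Nat.lt_succ_of_le hd))] at h1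
      have h2 : coeff (p * l) (C (D.coeff l) * (X ^ p * q) ^ l) = D.coeff l := by
        rw [coeff_C_mul, coeff_g_pow, if_pos le_rfl, Nat.sub_self,
          coeff_zero_eq_constantCoeff_apply, map_pow, hq0, one_pow, mul_one]
      rw [h2] at h1
      have h3 : ∑ x ∈ (Finset.range (D.natDegree + 1)).erase l,
          coeff (p * l) (C (D.coeff x) * (X ^ p * q) ^ x) ∈ ι.range := by
        refine Subring.sum_mem _ fun x hx => ?_
        rw [coeff_C_mul, coeff_g_pow]
        have hxl : x ≠ l := (Finset.mem_erase.1 hx).1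
        split_ifs with h4
        · have h5 : x ≤ l := Nat.le_of_mul_le_mul_left h4 (Nat.pos_of_ne_zero hp)
          have h6 : x < l := lt_of_le_of_ne h5 hxl
          exact Subring.mul_mem _ (ih x h6 (lt_of_le_of_lt (Nat.mul_le_mul_left p h5) hl))
            ((hq _).pow x (p * l - p * x) (Nat.lt_succ_self _))
        · rw [mul_zero]
          exact Subring.zero_mem _
      have h4 := Subring.sub_mem _ h1 h3
      rwa [add_sub_cancel_right] at h4
    · rw [Polynomial.coeff_eq_zero_of_natDegree_lt (by omega)]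
      exact Subring.zero_mem _

/-- Powers of `1 + p V`. -/
theorem one_add_pow_coeff (V : PowerSeries O) (l : ℕ) :
    ∃ W : PowerSeries O, (1 + C (p : O) * V) ^ l = 1 + C (p : O) * W := by
  induction l with
  | zero => exact ⟨0, by rw [pow_zero, mul_zero, add_zero]⟩
  | succ l ih =>
    obtain ⟨W, hW⟩ := ih
    exact ⟨V + W + C (p : O) * (W * V), by rw [pow_succ, hW]; ring⟩

/-- **The free factorisation is integral.** -/
theorem SF_int [Fact p.Prime] (ι : O →+* R) (hreg : ∀ x : R, (p : R) * x = 0 → x = 0)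
    {P q : PowerSeries R} (hP : constantCoeff P = 1) {V V' : PowerSeries O}
    (hV : constantCoeff V = 0) (hU : P ^ p = PowerSeries.map ι (1 + C (p : O) * V))
    (hV' : constantCoeff V' = 0) (hq : q = PowerSeries.map ι (1 + C (p : O) * V'))
    {L n : ℕ} (hn : n < p * (L + 1)) : coeff n (SF p P q L) ∈ ι.range := by
  have hp : p ≠ 0 := (Fact.out : p.Prime).ne_zero
  have hq0 : constantCoeff q = 1 := by
    rw [hq, ← coeff_zero_eq_constantCoeff_apply, coeff_map, coeff_zero_eq_constantCoeff_apply,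
      map_add, map_mul, hV', mul_zero, map_one, add_zero, map_one]
  have hqi : ∀ k, IntTo ι k q := fun k => by rw [hq]; exact IntTo.map ι k _
  set S := SF p P q L with hS
  have hS0 : constantCoeff S = 1 := SF_const hp hP L
  induction n using Nat.strong_induction_on with
  | _ n ih =>
    by_cases hd : p ∣ n
    · obtain ⟨l, rfl⟩ := hd
      rcases Nat.eq_zero_or_pos l with h0 | h0
      · subst h0
        rw [mul_zero, coeff_zero_eq_constantCoeff_apply, hS0]
        exact Subring.one_mem _
      · have h1 : l < L + 1 := Nat.lt_of_mul_lt_mul_left hn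
        rw [hS, coeff_SF_zero hp hP hq0 h0 (by omega)]
        exact Subring.zero_mem _
    · have hn0 : 0 < n := Nat.pos_of_ne_zero fun h => hd (h ▸ dvd_zero p)
      have hIS : IntTo ι n S := fun m hm => ih m hm (hm.trans hn)
      -- the polynomial `D`
      set D : Polynomial R := (∏ l ∈ Finset.range L,
        (1 - Polynomial.C (bF p P q l) * Polynomial.X ^ (l + 1))) ^ p with hD
      set Dg := Polynomial.eval₂ (C : R →+* PowerSeries R) (X ^ p * q) D with hDg
      have hDg1 : Dg = (∏ l ∈ Finset.range L,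
          (1 - C (bF p P q l) * (X ^ p * q) ^ (l + 1))) ^ p := by
        rw [hDg, hD, Polynomial.eval₂_pow, Polynomial.eval₂_finsetProd]
        congr 1
        refine Finset.prod_congr rfl fun l _ => ?_
        rw [Polynomial.eval₂_sub, Polynomial.eval₂_one, Polynomial.eval₂_mul,
          Polynomial.eval₂_C, Polynomial.eval₂_pow, Polynomial.eval₂_X]
      set U : PowerSeries O := 1 + C (p : O) * V with hUd
      have hU0 : constantCoeff U = 1 := by
        rw [hUd, map_add, map_mul, hV, mul_zero, map_one, add_zero]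
      have hSp : S ^ p = Dg * PowerSeries.map ι U := by
        rw [hS, SF_eq_prod, mul_pow, hU, hDg1, mul_comm]
      have hUI : U * invOfUnit U 1 = 1 := mul_invOfUnit U 1 (by simpa using hU0)
      have hDS : Dg = S ^ p * PowerSeries.map ι (invOfUnit U 1) := by
        rw [hSp, mul_assoc, ← map_mul, hUI, map_one, mul_one]
      have hDi : IntTo ι n Dg := by
        rw [hDS]
        exact (hIS.pow p).mul (IntTo.map ι n _)
      have hDl : ∀ l, p * l < n → D.coeff l ∈ ι.range := fun l hl =>
        coeff_of_evalg hp hqi hq0 D hDi hl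
      -- `[h^n] D(g)` is `p` times integral
      have hA : ∃ o : O, coeff n Dg = (p : R) * ι o := by
        rw [hDg, Polynomial.eval₂_eq_sum_range, map_sum]
        have h1 : ∀ l ∈ Finset.range (D.natDegree + 1), ∃ o : O,
            coeff n (C (D.coeff l) * (X ^ p * q) ^ l) = (p : R) * ι o := by
          intro l _
          rw [coeff_C_mul, coeff_g_pow]
          split_ifs with h2
          · have h3 : p * l < n := lt_of_le_of_ne h2 fun h => hd (h ▸ dvd_mul_right p l)
            obtain ⟨d, hd1⟩ := hDl l h3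
            obtain ⟨W, hW⟩ := one_add_pow_coeff (p := p) V' l
            refine ⟨d * coeff (n - p * l) W, ?_⟩
            have h5 : coeff (n - p * l) (q ^ l) = (p : R) * ι (coeff (n - p * l) W) := by
              rw [hq, ← map_pow, hW, coeff_map, map_add, coeff_one,
                if_neg (by omega), zero_add, coeff_C_mul, map_mul, map_natCast]
            rw [h5, ← hd1, map_mul]
            ring
          · exact ⟨0, by rw [map_zero, mul_zero, mul_zero]⟩
        choose! o ho using h1
        refine ⟨∑ l ∈ Finset.range (D.natDegree + 1), o l, ?_⟩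
        rw [map_sum, Finset.mul_sum]
        exact Finset.sum_congr rfl ho
      -- `[h^n] (D(g) V)`
      have hB : coeff n (Dg * PowerSeries.map ι V) ∈ ι.range := by
        rw [coeff_mul]
        refine Subring.sum_mem _ fun x hx => ?_
        have h1 := Finset.HasAntidiagonal.mem_antidiagonal.1 hx
        by_cases h2 : x.2 = 0
        · rw [h2, coeff_zero_eq_constantCoeff_apply, ← coeff_zero_eq_constantCoeff_apply,
            coeff_map, coeff_zero_eq_constantCoeff_apply, hV, map_zero, mul_zero]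
          exact Subring.zero_mem _
        · exact Subring.mul_mem _ (hDi _ (by omega)) ⟨_, (coeff_map _ _ _).symm⟩
      have hC : ∃ o : O, coeff n (S ^ p) = (p : R) * ι o := by
        obtain ⟨a, ha⟩ := hA
        obtain ⟨b, hb⟩ := hB
        refine ⟨a + b, ?_⟩
        have h1 : S ^ p = Dg + C (p : R) * (Dg * PowerSeries.map ι V) := by
          rw [hSp, hUd, map_add, map_one, map_mul, map_C, map_natCast]
          ring
        rw [h1, map_add, ha, coeff_C_mul, ← hb, map_add]
        ring
      -- the lift of the truncation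
      have hlift : ∀ m, ∃ o : O, m < n → ι o = coeff m S := by
        intro m
        by_cases hm : m < n
        · obtain ⟨o, ho⟩ := hIS m hm
          exact ⟨o, fun _ => ho⟩
        · exact ⟨0, fun h => absurd h hm⟩
      choose t ht using hlift
      set s : PowerSeries O := PowerSeries.mk fun m => if m = 0 then 1 else
        if m < n then t m else 0 with hs
      have hs0 : constantCoeff (PowerSeries.map ι s) = 1 := by
        rw [← coeff_zero_eq_constantCoeff_apply, coeff_map, hs, coeff_mk, if_pos rfl, map_one]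
      have hsS : X ^ n ∣ S - PowerSeries.map ι s := by
        rw [X_pow_dvd_iff]
        intro m hm
        rw [map_sub, coeff_map, hs, coeff_mk]
        by_cases h0 : m = 0
        · rw [if_pos h0, h0, coeff_zero_eq_constantCoeff_apply, hS0, map_one, sub_self]
        · rw [if_neg h0, if_pos hm, ht m hm, sub_self]
      have h1 := coeff_pow_sub (k := p) hS0 hs0 hsS
      have h2 : coeff n (PowerSeries.map ι s) = 0 := by
        rw [coeff_map, hs, coeff_mk, if_neg (by omega), if_neg (lt_irrefl n), map_zero]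
      rw [map_sub, map_sub, h2, sub_zero] at h1
      obtain ⟨a, ha⟩ := hC
      obtain ⟨b, hb⟩ := coeff_pow_dvd (p := p) s hd
      have h3 : coeff n (PowerSeries.map ι s ^ p) = (p : R) * ι b := by
        rw [← map_pow, coeff_map, hb, map_mul, map_natCast]
      rw [ha, h3] at h1
      refine ⟨a - b, ?_⟩
      have h4 : (p : R) * (ι (a - b) - coeff n S) = 0 := by
        rw [mul_sub, ← h1, map_sub]
        ring
      exact sub_eq_zero.1 (hreg _ h4)

end GH.MatU
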