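import Mathlib

/-!
# GH-MATU: power series in `s^p`, and Dwork's lemma
-/

open PowerSeries

noncomputable section

namespace GH.MatU

variable {R : Type*} [CommRing R]

/-- `F ∈ R[[s^p]]`. -/
def IsExp (p : ℕ) (F : PowerSeries R) : Prop := ∀ n, ¬ p ∣ n → coeff n F = 0

theorem isExp_expand {p : ℕ} (hp : p ≠ 0) (G : PowerSeries R) : IsExp p (expand p hp G) :=
  fun _ hn ↦ coeff_expand_of_not_dvd p hp G hn

theorem IsExp.exists {p : ℕ} (hp : p ≠ 0) {F : PowerSeries R} (h : IsExp p F) :
    F = expand p hp (PowerSeries.mk fun n ↦ coeff (p * n) F) := by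
  ext n
  rw [coeff_expand]
  split_ifs with hn
  · obtain ⟨m, rfl⟩ := hn
    rw [coeff_mk, Nat.mul_div_cancel_left _ (Nat.pos_of_ne_zero hp)]
  · exact h n hn

theorem IsExp.mul {p : ℕ} (hp : p ≠ 0) {F G : PowerSeries R} (hF : IsExp p F) (hG : IsExp p G) :
    IsExp p (F * G) := by
  rw [hF.exists hp, hG.exists hp, ← map_mul]
  exact isExp_expand hp _

theorem IsExp.one {p : ℕ} (hp : p ≠ 0) : IsExp p (1 : PowerSeries R) := by
  rw [← map_one (expand (R := R) p hp)]
  exact isExp_expand hp _

theorem IsExp.pow {p : ℕ} (hp : p ≠ 0) {F : PowerSeries R} (hF : IsExp p F) (k : ℕ) :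
    IsExp p (F ^ k) := by
  rw [hF.exists hp, ← map_pow]
  exact isExp_expand hp _

theorem coeff_of_X_pow_dvd {n : ℕ} {D K : PowerSeries R} (h : X ^ n ∣ D) :
    coeff n (D * K) = coeff n D * constantCoeff K := by
  obtain ⟨D', rfl⟩ := h
  have h1 : coeff n (X ^ n * D' * K) = constantCoeff (D' * K) := by
    rw [mul_assoc]
    have := coeff_X_pow_mul (D' * K) n 0
    simpa using this
  have h2 : coeff n (X ^ n * D') = constantCoeff D' := by
    have := coeff_X_pow_mul D' n 0
    simpa using this
  rw [h1, h2, map_mul]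

/-- If `F^p - F₀^p` with `F ≡ F₀ mod X^n`, both with constant coefficient one. -/
theorem coeff_pow_sub {n k : ℕ} {F G : PowerSeries R} (hF : constantCoeff F = 1)
    (hG : constantCoeff G = 1) (h : X ^ n ∣ F - G) :
    coeff n (F ^ k - G ^ k) = k * coeff n (F - G) := by
  have h1 : F ^ k - G ^ k = (F - G) * ∑ i ∈ Finset.range k, F ^ i * G ^ (k - 1 - i) := by
    rw [mul_comm, (Commute.all F G).geom_sum₂_mul]
  rw [h1, coeff_of_X_pow_dvd h, map_sum]
  have h2 : ∀ i ∈ Finset.range k, constantCoeff (F ^ i * G ^ (k - 1 - i)) = 1 := by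
    intro i _
    rw [map_mul, map_pow, map_pow, hF, hG]
    simp
  rw [Finset.sum_congr rfl h2]
  simp [mul_comm]

theorem isExp_of_pow {p : ℕ} [Fact p.Prime] [IsDomain R] [CharZero R] {F : PowerSeries R}
    (hF : constantCoeff F = 1) (h : IsExp p (F ^ p)) : IsExp p F := by
  have hp : p ≠ 0 := (Fact.out : p.Prime).ne_zero
  intro n
  induction n using Nat.strong_induction_on with
  | _ n ih =>
    intro hn
    set H : PowerSeries R := PowerSeries.mk fun n ↦ coeff (p * n) F with hH
    have h0 : constantCoeff (expand p hp H) = 1 := by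
      rw [constantCoeff_expand, hH, ← coeff_zero_eq_constantCoeff, coeff_mk, mul_zero]
      simpa using hF
    have h1 : X ^ n ∣ F - expand p hp H := by
      rw [X_pow_dvd_iff]
      intro m hm
      rw [map_sub, coeff_expand]
      split_ifs with hd
      · obtain ⟨k, rfl⟩ := hd
        rw [hH, coeff_mk, Nat.mul_div_cancel_left _ (Nat.pos_of_ne_zero hp), sub_self]
      · rw [ih m hm hd, sub_zero]
    have h2 := coeff_pow_sub (k := p) hF h0 h1
    rw [map_sub, h n hn, ← map_pow, coeff_expand_of_not_dvd p hp _ hn, sub_zero, map_sub,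
      coeff_expand_of_not_dvd p hp _ hn, sub_zero] at h2
    rcases mul_eq_zero.mp h2.symm with h3 | h3
    · exact absurd (Nat.cast_eq_zero.mp h3) hp
    · exact h3

/-- `Θ^p = A L`, `E^p = B L`, `A, B ∈ R[[s^p]]`: then `E = Θ Ξ` with `Ξ ∈ R[[s^p]]`. -/
theorem exists_ratio {p : ℕ} [Fact p.Prime] [IsDomain R] [CharZero R]
    {Th E A B L : PowerSeries R} (hT : constantCoeff Th = 1) (hE : constantCoeff E = 1)
    (hA : IsExp p A) (hB : IsExp p B) (h1 : Th ^ p = A * L) (h2 : E ^ p = B * L) :
    ∃ Xi : PowerSeries R, IsExp p Xi ∧ constantCoeff Xi = 1 ∧ E = Th * Xi := by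
  have hp : p ≠ 0 := (Fact.out : p.Prime).ne_zero
  have hTu : Th * invOfUnit Th 1 = 1 := mul_invOfUnit Th 1 (by simpa using hT)
  set I := invOfUnit Th 1 with hI
  have hIc : constantCoeff I = 1 := by
    have := congrArg constantCoeff hTu
    rw [map_mul, hT, one_mul, map_one] at this
    exact this
  refine ⟨E * I, ?_, by rw [map_mul, hE, hIc, one_mul], ?_⟩
  · apply isExp_of_pow (by rw [map_mul, hE, hIc, one_mul])
    -- A is a unit
    have hAc : constantCoeff A * constantCoeff L = 1 := by
      have := congrArg constantCoeff h1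
      rw [map_pow, hT, one_pow, map_mul] at this
      exact this.symm
    -- (E I)^p A = B
    have h3 : (E * I) ^ p * A = B := by
      have hL : L ≠ 0 := by
        rintro rfl
        simp at hAc
      apply mul_right_cancel₀ hL
      calc (E * I) ^ p * A * L = (E * I) ^ p * (A * L) := by ring
        _ = (E * I) ^ p * Th ^ p := by rw [h1]
        _ = (E * (Th * I)) ^ p := by ring
        _ = E ^ p := by rw [hTu, mul_one]
        _ = B * L := h2
    -- the inverse of A is in R[[s^p]]
    have hA' := hA.exists hp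
    set A' : PowerSeries R := PowerSeries.mk fun n ↦ coeff (p * n) A with hA'd
    obtain ⟨u, hu⟩ := IsUnit.of_mul_eq_one _ hAc
    have hA0 : constantCoeff A' = constantCoeff A := by
      rw [hA', constantCoeff_expand]
    have h4 : A' * invOfUnit A' u = 1 := by
      apply mul_invOfUnit
      rw [hA0]
      exact hu.symm
    have h6 : A * expand p hp (invOfUnit A' u) = 1 := by
      have := congrArg (expand p hp) h4
      rwa [map_mul, map_one, ← hA'] at this
    have h5 : (E * I) ^ p = B * expand p hp (invOfUnit A' u) := by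
      rw [← h3, mul_assoc, h6, mul_one]
    rw [h5]
    exact hB.mul hp (isExp_expand hp _)
  · calc E = E * (Th * I) := by rw [hTu, mul_one]
      _ = Th * (E * I) := by ring

end GH.MatU
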