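import Pool.Agent.GH.MatU.Inv_b

/-! Row MU-5: the block structure at the integers, `Y(m) = (rank ≤ t_m) + p^(s_m) (integral)`. -/

open PowerSeries

noncomputable section

namespace GH.MatU

/-- the power series is the polynomial `F` -/
theorem iv_series {p : ℕ} (hp : p = 2 ∨ p = 3) {a D j m : ℕ} (hj : j ≤ D)
    (hm : m = a + p * (D + 1)) :
    wS p ℤ ^ a * (C ((p * cw p : ℕ) : ℤ) * vS p ℤ) ^ (j + 1) * (1 - X) ^ m =
      ((iv_F ℤ p a D j : Polynomial ℤ) : PowerSeries ℤ) := by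
  have h1 : (1 - X) * wS p ℤ = 1 + (iv_c p : PowerSeries ℤ) * X := by
    have h := gs_mul ℤ
    have hc : (C (cw p : ℤ) : PowerSeries ℤ) = (iv_c p : PowerSeries ℤ) + 1 := by
      rcases hp with rfl | rfl
      · simp only [cw, iv_c, if_true]
        push_cast
        simp only [map_ofNat]
        ring
      · simp only [cw, iv_c, show ¬ (3 = 2) by decide, if_false]
        push_cast
        simp only [map_ofNat]
        ring
    unfold wS
    linear_combination (C (cw p : ℤ) * X) * h + X * hc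
  rw [← wS_pow hp ℤ]
  obtain ⟨d, rfl⟩ := Nat.exists_eq_add_of_le hj
  have h2 : ((iv_F ℤ p a (j + d) j : Polynomial ℤ) : PowerSeries ℤ) =
      (1 + (iv_c p : PowerSeries ℤ) * X) ^ a * (1 - X) ^ (p * d) *
        ((1 + (iv_c p : PowerSeries ℤ) * X) ^ p - (1 - X) ^ p) ^ (j + 1) := by
    have e0 : ((iv_c p : Polynomial ℤ) : PowerSeries ℤ) = (iv_c p : PowerSeries ℤ) :=
      map_natCast (Polynomial.coeToPowerSeries.ringHom (R := ℤ)) _
    unfold iv_F iv_E
    rw [Nat.add_sub_cancel_left]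
    simp [e0]
  rw [h2, ← h1]
  have e1 : ((1 - X) * wS p ℤ) ^ p - (1 - X) ^ p = (1 - X) ^ p * (wS p ℤ ^ p - 1) := by
    rw [mul_pow]
    ring
  have e2 : (1 - X : PowerSeries ℤ) ^ m = (1 - X) ^ a * (1 - X) ^ (p * d) *
      ((1 - X) ^ p) ^ (j + 1) := by
    rw [← pow_mul, ← pow_add, ← pow_add, hm]
    congr 1
    ring
  rw [e1, e2, mul_pow (1 - X) (wS p ℤ) a, mul_pow ((1 - X) ^ p)]
  ring

theorem iv_map_F (p a D j : ℕ) :
    (iv_F ℤ p a D j).map (Int.castRingHom ℚ) = iv_F ℚ p a D j := by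
  unfold iv_F iv_E
  simp

theorem iv_map_e (D j : ℕ) : (iv_e ℤ D j).map (Int.castRingHom ℚ) = iv_e ℚ D j := by
  unfold iv_e
  simp

theorem iv_YY {p : ℕ} (hp : p = 2 ∨ p = 3) {D j m : ℕ} (hj : j ≤ D)
    (hm : m = m % p + p * (D + 1)) (i : ℕ) :
    (YY p m i j : ℚ) = (iv_F ℚ p (m % p) D j).coeff (p * (i + 1)) := by
  unfold YY cmat
  beta_reduce
  rw [iv_series hp hj hm, Polynomial.coeff_coe, ← iv_map_F, Polynomial.coeff_map]
  rfl

theorem iv_mu_div {p : ℕ} (hp : p = 2 ∨ p = 3) {m : ℕ} (hm : 2 ≤ m) :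
    ∃ ε : ℤ, iv_mu p m / p = ε * (p : ℚ) ^ ss p m := by
  rcases hp with rfl | rfl
  · refine ⟨(-1) ^ m, ?_⟩
    unfold iv_mu ss
    rw [if_pos rfl, if_pos rfl]
    obtain ⟨k, rfl⟩ : ∃ k, m = k + 1 := ⟨m - 1, by omega⟩
    rw [Nat.add_sub_cancel]
    push_cast
    have : (-2 : ℚ) ^ (k + 1) = (-1) ^ (k + 1) * 2 ^ (k + 1) := by
      rw [← mul_pow]
      norm_num
    rw [this, pow_succ 2 k]
    ring
  · refine ⟨(-1) ^ (m / 2), ?_⟩
    unfold iv_mu ss
    rw [if_neg (by norm_num), if_neg (by norm_num)]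
    obtain ⟨k, hk⟩ : ∃ k, m / 2 = k + 1 := ⟨m / 2 - 1, by omega⟩
    rw [hk, Nat.add_sub_cancel]
    push_cast
    have : (-3 : ℚ) ^ (k + 1) = (-1) ^ (k + 1) * 3 ^ (k + 1) := by
      rw [← mul_pow]
      norm_num
    rw [this, pow_succ 3 k]
    ring

theorem iv_rho {p : ℕ} (hp : p = 2 ∨ p = 3) {D j m : ℕ} (hj : D ≤ j)
    (hm : m = m % p + p * (D + 1)) : p ^ ss p m ∣ (p * cw p) ^ (j + 1) := by
  rcases hp with rfl | rfl
  · have h1 : (2 * cw 2) ^ (j + 1) = 2 ^ (3 * (j + 1)) := by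
      rw [pow_mul]
      rfl
    rw [h1]
    refine pow_dvd_pow _ ?_
    unfold ss
    rw [if_pos rfl]
    omega
  · have h1 : (3 * cw 3) ^ (j + 1) = 3 ^ (2 * (j + 1)) := by
      rw [pow_mul]
      rfl
    rw [h1]
    refine pow_dvd_pow _ ?_
    unfold ss
    rw [if_neg (by norm_num)]
    omega

/-- The same with the exact form of the remainder inside the block: the remainder is `±` the
coefficients of `τ^(D-j) (1-τ)^(j+1)`, `D = m/p - 1`; in particular it vanishes for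
`i + j + 1 < D`. -/
theorem inv_decomp' {p : ℕ} (hp : p = 2 ∨ p = 3) (m : ℕ) (h : ∃ n, TT p n m ≠ 0) :
    ∃ (x : ℕ → Fin (tt p m) → ℚ) (y : Fin (tt p m) → ℕ → ℚ), ∀ i j,
      (∃ z : ℤ, (YY p m i j : ℚ) = ∑ l, x i l * y l j + (p : ℚ) ^ ss p m * z) ∧
      (i + j + 1 < m / p - 1 → (YY p m i j : ℚ) = ∑ l, x i l * y l j) := by
  obtain ⟨n, hn⟩ := h
  unfold TT at hn
  split_ifs at hn with hpar
  swap
  · exact absurd rfl hn
  have hp0 : p ≠ 0 := by omega
  obtain ⟨t, ht⟩ : ∃ t, t = tt p m := ⟨_, rfl⟩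
  rw [← ht] at hn
  have hn' : t < n ∧ t + n < m / p - 1 := by
    rw [Ne, Nat.min_eq_zero_iff, not_or] at hn
    omega
  obtain ⟨D, hD⟩ : ∃ D, D = m / p - 1 := ⟨_, rfl⟩
  have hD1 : m / p = D + 1 := by omega
  have hD2 : 2 ≤ D := by omega
  obtain ⟨a, ha⟩ : ∃ a, a = m % p := ⟨_, rfl⟩
  have hap : a < p := by
    rw [ha]
    exact Nat.mod_lt _ (Nat.pos_of_ne_zero hp0)
  have hm : m = a + p * (D + 1) := by
    rw [ha, ← hD1]
    exact (Nat.mod_add_div m p).symm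
  have hm2 : 2 ≤ m := by
    have : 1 * (D + 1) ≤ p * (D + 1) := Nat.mul_le_mul_right _ (Nat.pos_of_ne_zero hp0)
    omega
  have ht2 : D + 1 < (p + 1) * (t + 1) + a := by
    have h1 : (D + 1 - a) < (p + 1) * ((D + 1 - a) / (p + 1) + 1) :=
      Nat.lt_mul_div_succ _ (Nat.succ_pos p)
    have h2 : t = (D + 1 - a) / (p + 1) := by
      rw [ht, ha, ← hD1]
      rfl
    rw [← h2] at h1
    omega
  have hmu := iv_mu_ne p m
  obtain ⟨μ, hμ⟩ : ∃ μ, μ = iv_mu p m := ⟨_, rfl⟩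
  rw [← hμ] at hmu
  obtain ⟨W, hW⟩ : ∃ W, W = iv_W p a D μ := ⟨_, rfl⟩
  let ev : W →ₗ[ℚ] (Fin t → ℚ) :=
    LinearMap.pi fun l => (LinearMap.proj (R := ℚ) (φ := fun _ : ℕ => ℚ) (l.1 + 1)).comp W.subtype
  have hev : ∀ (g : W) (l : Fin t), ev g l = g.1 (l.1 + 1) := fun g l => rfl
  have hker : LinearMap.ker ev = ⊥ := by
    rw [LinearMap.ker_eq_bot']
    rintro ⟨g, hg⟩ h0
    rw [hW] at hg
    have h1 : g = 0 := by
      refine iv_claim hp hmu hg (t := t) ?_ ht2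
      intro l hl
      rcases l with _ | l
      · exact hg.2.1
      · have h2 := congrFun h0 ⟨l, by omega⟩
        exact h2
    exact Subtype.ext h1
  obtain ⟨L, hL⟩ := LinearMap.exists_leftInverse_of_injective ev hker
  have hexp : ∀ (g : W) (i : ℕ), g.1 i = ∑ l : Fin t, (L (Pi.single l 1)).1 i * g.1 (l.1 + 1) := by
    intro g i
    have h1 : g = L (ev g) := (LinearMap.congr_fun hL g).symm
    have h2 : ev g = ∑ l : Fin t, ev g l • (Pi.single l (1 : ℚ) : Fin t → ℚ) := by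
      funext k
      rw [Finset.sum_apply]
      simp [Pi.single_apply]
    conv_lhs => rw [h1, h2, map_sum]
    rw [Submodule.coe_sum, Finset.sum_apply]
    refine Finset.sum_congr rfl fun l _ => ?_
    rw [map_smul, Submodule.coe_smul, Pi.smul_apply, smul_eq_mul, hev]
    ring
  obtain ⟨ε, hε⟩ := iv_mu_div hp hm2
  rw [← hμ] at hε
  have hmem : ∀ j, j < D → (fun l => (iv_g p a D m j).coeff l) ∈ W := by
    intro j hj
    rw [hW, hμ]
    exact iv_mem hp hap hj hm hpar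
  subst ht
  have hpQ : (p : ℚ) ≠ 0 := by exact_mod_cast hp0
  -- the columns inside the block
  have hcol : ∀ i j, j < D → (YY p m i j : ℚ) =
      ∑ l : Fin (tt p m), ((μ / p) * (L (Pi.single l 1)).1 (i + 1)) *
        (iv_g p a D m j).coeff (l.1 + 1) - (μ / p) * ((iv_e ℤ D j).coeff (i + 1) : ℚ) := by
    intro i j hj
    have hm' : m = m % p + p * (D + 1) := by rw [← ha]; exact hm
    rw [iv_YY hp hj.le hm' i, ← ha]
    have h1 := hexp ⟨_, hmem j hj⟩ (i + 1)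
    have h2 : (iv_g p a D m j).coeff (i + 1) = ((iv_e ℤ D j).coeff (i + 1) : ℚ) +
        (p / μ) * (iv_F ℚ p a D j).coeff (p * (i + 1)) := by
      unfold iv_g
      rw [Polynomial.coeff_add, Polynomial.coeff_C_mul, Polynomial.coeff_contract hp0, ← iv_map_e,
        Polynomial.coeff_map, ← hμ, mul_comm (i + 1) p]
      rfl
    have h3 : ∑ l : Fin (tt p m), ((μ / p) * (L (Pi.single l 1)).1 (i + 1)) *
        (iv_g p a D m j).coeff (l.1 + 1) = (μ / p) * (iv_g p a D m j).coeff (i + 1) := by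
      have h4 : (iv_g p a D m j).coeff (i + 1) = ∑ l : Fin (tt p m),
        (L (Pi.single l 1)).1 (i + 1) * (iv_g p a D m j).coeff (l.1 + 1) := h1
      rw [h4, Finset.mul_sum]
      refine Finset.sum_congr rfl fun l _ => ?_
      ring
    rw [h3, h2]
    field_simp
    ring
  refine ⟨fun i l => (μ / p) * (L (Pi.single l 1)).1 (i + 1),
    fun l j => if j < D then (iv_g p a D m j).coeff (l.1 + 1) else 0, fun i j => ?_⟩
  by_cases hj : j < D
  · simp only [if_pos hj]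
    refine ⟨⟨-ε * (iv_e ℤ D j).coeff (i + 1), ?_⟩, fun hij => ?_⟩
    · rw [hcol i j hj]
      rw [hε]
      push_cast
      ring
    · rw [hcol i j hj]
      have h1 : (iv_e ℤ D j).coeff (i + 1) = 0 := by
        unfold iv_e
        rw [Polynomial.coeff_mul_X_pow', if_neg (by omega)]
      rw [h1]
      push_cast
      ring
  · simp only [if_neg hj]
    have hm' : m = m % p + p * (D + 1) := by rw [← ha]; exact hm
    refine ⟨?_, fun hij => absurd hij (by omega)⟩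
    obtain ⟨q, hq⟩ := iv_rho hp (le_of_not_gt hj) hm'
    refine ⟨q * PowerSeries.coeff (p * (i + 1))
      (wS p ℤ ^ (m % p) * vS p ℤ ^ (j + 1) * (1 - X) ^ m), ?_⟩
    have h1 : YY p m i j = ((p * cw p : ℕ) : ℤ) ^ (j + 1) * PowerSeries.coeff (p * (i + 1))
      (wS p ℤ ^ (m % p) * vS p ℤ ^ (j + 1) * (1 - X) ^ m) := by
      unfold YY cmat
      beta_reduce
      rw [← PowerSeries.coeff_C_mul]
      congr 1
      rw [mul_pow, ← map_pow]
      ring
    rw [h1]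
    have h2 : (((p * cw p : ℕ) : ℤ) ^ (j + 1) : ℤ) = (p : ℤ) ^ ss p m * q := by
      exact_mod_cast hq
    rw [h2]
    push_cast
    simp
    ring

theorem inv_decomp {p : ℕ} (hp : p = 2 ∨ p = 3) (m : ℕ) (h : ∃ n, TT p n m ≠ 0) :
    ∃ (x : ℕ → Fin (tt p m) → ℚ) (y : Fin (tt p m) → ℕ → ℚ), ∀ i j, ∃ z : ℤ,
      (YY p m i j : ℚ) = ∑ l, x i l * y l j + (p : ℚ) ^ ss p m * z := by
  obtain ⟨x, y, hxy⟩ := inv_decomp' hp m h
  exact ⟨x, y, fun i j => (hxy i j).1⟩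

end GH.MatU
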