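import Pool.Agent.GH.MatU.Defs

/-! Helper file for row MU-5: polynomial part. -/

open Polynomial

noncomputable section

namespace GH.MatU

/-- `c - 1` -/
def iv_c (p : ℕ) : ℕ := if p = 2 then 3 else 2

/-! ### contraction and roots of unity -/

theorem iv_contract_monomial {p : ℕ} (hp : p ≠ 0) (k : ℕ) (a : ℚ) :
    contract p (monomial (p * k) a) = monomial k a := by
  ext n
  rw [coeff_contract hp, coeff_monomial, coeff_monomial]
  by_cases h : k = n
  · rw [if_pos h, if_pos (by rw [h, mul_comm])]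
  · rw [if_neg h, if_neg]
    intro h2
    rw [mul_comm n p] at h2
    exact h (Nat.eq_of_mul_eq_mul_left (Nat.pos_of_ne_zero hp) h2)

theorem iv_contract_monomial' {p : ℕ} (hp : p ≠ 0) (n : ℕ) (hn : ¬ p ∣ n) (a : ℚ) :
    contract p (monomial n a) = 0 := by
  ext k
  rw [coeff_contract hp, coeff_monomial, if_neg, coeff_zero]
  rintro rfl
  exact hn (dvd_mul_left _ _)

theorem iv_contract2 (f : ℚ[X]) (x : ℂ) :
    2 * aeval (x ^ 2) (contract 2 f) = aeval x f + aeval (-x) f := by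
  induction f using Polynomial.induction_on' with
  | add f g hf hg =>
    rw [contract_add two_ne_zero, map_add, map_add, map_add]
    linear_combination hf + hg
  | monomial n a =>
    obtain ⟨k, rfl | rfl⟩ := Nat.even_or_odd' n
    · rw [iv_contract_monomial two_ne_zero, aeval_monomial, aeval_monomial, aeval_monomial,
        pow_mul, pow_mul]
      ring
    · rw [iv_contract_monomial' two_ne_zero _ (by omega), map_zero, aeval_monomial,
        aeval_monomial, pow_succ, pow_succ, pow_mul, pow_mul]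
      ring

theorem iv_contract3 {w : ℂ} (hw : w ^ 2 + w + 1 = 0) (f : ℚ[X]) (x : ℂ) :
    3 * aeval (x ^ 3) (contract 3 f) =
      aeval x f + aeval (w * x) f + aeval (w ^ 2 * x) f := by
  have hw3 : w ^ 3 = 1 := by linear_combination (w - 1) * hw
  induction f using Polynomial.induction_on' with
  | add f g hf hg =>
    rw [contract_add three_ne_zero, map_add, map_add, map_add, map_add]
    linear_combination hf + hg
  | monomial n a =>
    have h1 : n % 3 = 0 ∨ n % 3 = 1 ∨ n % 3 = 2 := by omega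
    have h2 := Nat.div_add_mod n 3
    obtain ⟨k, hk⟩ : ∃ k, k = n / 3 := ⟨_, rfl⟩
    rw [← hk] at h2
    have hwk : (w ^ 3) ^ k = 1 := by rw [hw3, one_pow]
    have hwk2 : ((w ^ 2) ^ 3) ^ k = 1 := by
      have h4 : (w ^ 2) ^ 3 = 1 := by linear_combination (w ^ 3 + 1) * hw3
      rw [h4, one_pow]
    rcases h1 with h1 | h1 | h1
    · have h3 : n = 3 * k := by omega
      rw [h3, iv_contract_monomial three_ne_zero, aeval_monomial, aeval_monomial,
        aeval_monomial, aeval_monomial, mul_pow, mul_pow, pow_mul, pow_mul w, hwk,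
        pow_mul (w ^ 2), hwk2]
      ring
    · have h3 : n = 3 * k + 1 := by omega
      rw [h3, iv_contract_monomial' three_ne_zero _ (by omega), map_zero, aeval_monomial,
        aeval_monomial, aeval_monomial, mul_pow, mul_pow, pow_succ w, pow_succ (w ^ 2), pow_mul w,
        hwk, pow_mul (w ^ 2), hwk2]
      linear_combination (-(algebraMap ℚ ℂ a) * x ^ (3 * k + 1)) * hw
    · have h3 : n = 3 * k + 2 := by omega
      rw [h3, iv_contract_monomial' three_ne_zero _ (by omega), map_zero, aeval_monomial,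
        aeval_monomial, aeval_monomial, mul_pow, mul_pow, pow_add w, pow_add (w ^ 2), pow_mul w,
        hwk, pow_mul (w ^ 2), hwk2]
      linear_combination (-(algebraMap ℚ ℂ a) * x ^ (3 * k + 2)) * hw -
        (algebraMap ℚ ℂ a) * x ^ (3 * k + 2) * w * hw3

/-! ### the forms -/

/-- the form `E_(D-j)` -/
def iv_E {K : Type*} [CommRing K] (p a D j : ℕ) (A B : K) : K :=
  A ^ a * B ^ (p * (D - j)) * (A ^ p - B ^ p) ^ (j + 1)

/-- the polynomial `F_(j+1)(1,s)` -/
def iv_F (R : Type*) [CommRing R] (p a D j : ℕ) : R[X] :=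
  iv_E p a D j (1 + (iv_c p : R[X]) * X) (1 - X)

/-- the polynomial `E_(D-j)(1,·)` -/
def iv_e (R : Type*) [CommRing R] (D j : ℕ) : R[X] := (1 - X) ^ (j + 1) * X ^ (D - j)

theorem iv_E_mul {K : Type*} [CommRing K] {p a D j : ℕ} (hj : j ≤ D) (k A B : K) :
    iv_E p a D j (k * A) (k * B) = k ^ (a + p * (D + 1)) * iv_E p a D j A B := by
  obtain ⟨d, rfl⟩ := Nat.exists_eq_add_of_le hj
  unfold iv_E
  have e1 : (k * A) ^ p - (k * B) ^ p = k ^ p * (A ^ p - B ^ p) := by
    rw [mul_pow, mul_pow]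
    ring
  have e2 : k ^ (a + p * (j + d + 1)) = k ^ a * k ^ (p * d) * k ^ (p * (j + 1)) := by
    rw [← pow_add, ← pow_add]
    congr 1
    ring
  rw [Nat.add_sub_cancel_left, e1, mul_pow k A a, mul_pow k B (p * d), mul_pow (k ^ p),
    ← pow_mul k p (j + 1), e2]
  ring

theorem iv_E_root {K : Type*} [CommRing K] {p a D j : ℕ} {ξ : K} (hξ : ξ ^ p = 1) (A B : K) :
    iv_E p a D j A (ξ * B) = iv_E p a D j A B := by
  unfold iv_E
  rw [mul_pow, mul_pow, pow_mul ξ, hξ, one_pow, one_mul, one_mul]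

theorem iv_aeval_F (p a D j : ℕ) (s : ℂ) :
    aeval s (iv_F ℚ p a D j) = iv_E p a D j (1 + (iv_c p : ℂ) * s) (1 - s) := by
  unfold iv_F iv_E
  simp

theorem iv_aeval_e (p a D j : ℕ) (s : ℂ) :
    aeval (s ^ p) (iv_e ℚ D j) = iv_E p a D j 1 s := by
  unfold iv_e iv_E
  simp
  ring

/-- `μ` -/
def iv_mu (p m : ℕ) : ℚ := if p = 2 then (-2) ^ m else (-3) ^ (m / 2)

theorem iv_mu_ne (p m : ℕ) : iv_mu p m ≠ 0 := by
  unfold iv_mu
  split_ifs
  · exact pow_ne_zero _ (by norm_num)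
  · exact pow_ne_zero _ (by norm_num)

/-- the group identity -/
theorem iv_key {p : ℕ} (hp : p = 2 ∨ p = 3) {a D j m : ℕ} (hj : j ≤ D)
    (hm : m = a + p * (D + 1)) (hpar : p = 2 ∨ Even m) (s : ℂ)
    (hz : 1 + (iv_c p : ℂ) * s ≠ 0) :
    (1 + (iv_c p : ℂ) * s) ^ m * ((p : ℂ) *
      aeval (((1 - s) / (1 + (iv_c p : ℂ) * s)) ^ p) (contract p (iv_F ℚ p a D j))) =
    (iv_mu p m : ℂ) ^ 2 * aeval (s ^ p) (iv_e ℚ D j) +
      (iv_mu p m : ℂ) * ((p : ℂ) * aeval (s ^ p) (contract p (iv_F ℚ p a D j)) -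
        aeval s (iv_F ℚ p a D j)) := by
  rcases hp with rfl | rfl
  · have hc : (iv_c 2 : ℂ) = 3 := by simp [iv_c]
    rw [hc] at hz ⊢
    push_cast
    rw [iv_contract2, iv_contract2, iv_aeval_F, iv_aeval_F, iv_aeval_F, iv_aeval_F,
      iv_aeval_e 2 a, hc]
    have h1 : (1 + 3 * s) ^ m * iv_E 2 a D j (1 + 3 * ((1 - s) / (1 + 3 * s)))
        (1 - (1 - s) / (1 + 3 * s)) = 4 ^ m * iv_E 2 a D j 1 s := by
      rw [hm, ← iv_E_mul hj, ← iv_E_mul hj]
      congr 1
      · field_simp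
        ring
      · field_simp
        ring
    have h2 : (1 + 3 * s) ^ m * iv_E 2 a D j (1 + 3 * (-((1 - s) / (1 + 3 * s))))
        (1 - (-((1 - s) / (1 + 3 * s)))) =
        (-2) ^ m * iv_E 2 a D j (1 + 3 * (-s)) (1 - (-s)) := by
      have h3 : iv_E 2 a D j (1 + 3 * (-s)) (1 - (-s)) =
          iv_E 2 a D j (1 + 3 * (-s)) ((-1) * (1 - (-s))) := by
        rw [iv_E_root (by norm_num)]
      rw [h3, hm, ← iv_E_mul hj, ← iv_E_mul hj]
      congr 1
      · field_simp
        ring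
      · field_simp
        ring
    have h4 : (iv_mu 2 m : ℂ) = (-2) ^ m := by
      unfold iv_mu
      rw [if_pos rfl]
      push_cast
      ring
    have h5 : ((-2 : ℂ) ^ m) ^ 2 = 4 ^ m := by
      rw [← pow_mul, mul_comm, pow_mul]
      norm_num
    rw [h4, h5]
    linear_combination h1 + h2
  · have hev : Even m := hpar.resolve_left (by norm_num)
    obtain ⟨n, hn⟩ := hev
    have hc : (iv_c 3 : ℂ) = 2 := by simp [iv_c]
    rw [hc] at hz ⊢
    obtain ⟨w, hw⟩ : ∃ w : ℂ, w ^ 2 + w + 1 = 0 := by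
      obtain ⟨y, hy⟩ := IsAlgClosed.exists_pow_nat_eq (-3 : ℂ) (n := 2) (by norm_num)
      refine ⟨(-1 + y) / 2, ?_⟩
      linear_combination hy / 4
    have hw3 : w ^ 3 = 1 := by linear_combination (w - 1) * hw
    have hw23 : (w ^ 2) ^ 3 = 1 := by rw [← pow_mul, mul_comm, pow_mul, hw3, one_pow]
    push_cast
    rw [iv_contract3 hw, iv_contract3 hw, iv_aeval_F, iv_aeval_F, iv_aeval_F, iv_aeval_F,
      iv_aeval_F, iv_aeval_F, iv_aeval_e 3 a, hc]
    have hn' : m = 2 * n := by omega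
    have h1 : (1 + 2 * s) ^ m * iv_E 3 a D j (1 + 2 * ((1 - s) / (1 + 2 * s)))
        (1 - (1 - s) / (1 + 2 * s)) = 3 ^ m * iv_E 3 a D j 1 s := by
      rw [hm, ← iv_E_mul hj, ← iv_E_mul hj]
      congr 1
      · field_simp
        ring
      · field_simp
        ring
    have hl1 : (1 + 2 * w) ^ 2 = -3 := by linear_combination 4 * hw
    have hl2 : (1 + 2 * w ^ 2) ^ 2 = -3 := by
      linear_combination (4 * w ^ 2 - 4 * w + 4) * hw
    have h2 : (1 + 2 * s) ^ m * iv_E 3 a D j (1 + 2 * (w * ((1 - s) / (1 + 2 * s))))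
        (1 - (w * ((1 - s) / (1 + 2 * s)))) =
        (-3) ^ n * iv_E 3 a D j (1 + 2 * (w ^ 2 * s)) (1 - (w ^ 2 * s)) := by
      have h3 : iv_E 3 a D j (1 + 2 * (w ^ 2 * s)) (1 - (w ^ 2 * s)) =
          iv_E 3 a D j (1 + 2 * (w ^ 2 * s)) (w ^ 2 * (1 - (w ^ 2 * s))) := by
        rw [iv_E_root hw23]
      rw [h3, ← hl1, ← pow_mul, ← hn', hm, ← iv_E_mul hj, ← iv_E_mul hj]
      congr 1
      · field_simp
        linear_combination (2 * s - 4 * s * w) * hw
      · field_simp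
        linear_combination ((2 * w ^ 3 - w ^ 2 - w + 2) * s + (1 - 2 * w)) * hw
    have h4 : (1 + 2 * s) ^ m * iv_E 3 a D j (1 + 2 * (w ^ 2 * ((1 - s) / (1 + 2 * s))))
        (1 - (w ^ 2 * ((1 - s) / (1 + 2 * s)))) =
        (-3) ^ n * iv_E 3 a D j (1 + 2 * (w * s)) (1 - (w * s)) := by
      have h3 : iv_E 3 a D j (1 + 2 * (w * s)) (1 - (w * s)) =
          iv_E 3 a D j (1 + 2 * (w * s)) (w * (1 - (w * s))) := by
        rw [iv_E_root hw3]
      rw [h3, ← hl2, ← pow_mul, ← hn', hm, ← iv_E_mul hj, ← iv_E_mul hj]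
      congr 1
      · field_simp
        linear_combination (2 * s - 4 * s * w) * hw
      · field_simp
        linear_combination ((1 - 2 * w) + 2 * s * (w ^ 2 - w + 1)) * hw
    have h5 : (iv_mu 3 m : ℂ) = (-3) ^ n := by
      unfold iv_mu
      rw [if_neg (by norm_num), show m / 2 = n by omega]
      push_cast
      ring
    have h6 : ((-3 : ℂ) ^ n) ^ 2 = 3 ^ m := by
      rw [hn', ← pow_mul, mul_comm, pow_mul, pow_mul]
      norm_num
    rw [h5, h6]
    linear_combination h1 + h2 + h4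

end GH.MatU
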