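import Pool.Agent.GH.MatU.Inv_a

/-! Helper file for row MU-5: the space of invariant forms. -/

open Polynomial

noncomputable section

namespace GH.MatU

/-! ### zeros of `P(s^p)` -/

theorem iv_dvd_comp {p : ℕ} (hp : p ≠ 0) {r : ℚ} (hr : r ≠ 0) {P : ℚ[X]} {N : ℕ}
    (h : (X - C r) ^ N ∣ expand ℚ p P) : (X - C (r ^ p)) ^ N ∣ P := by
  by_cases hP : P = 0
  · rw [hP]
    exact dvd_zero _
  obtain ⟨Q, hQ, hQ2⟩ := Polynomial.exists_eq_pow_rootMultiplicity_mul_and_not_dvd P hP (r ^ p)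
  obtain ⟨k, hk⟩ : ∃ k, k = P.rootMultiplicity (r ^ p) := ⟨_, rfl⟩
  rw [← hk] at hQ
  have hQr : Q.eval (r ^ p) ≠ 0 := by
    intro h0
    exact hQ2 (dvd_iff_isRoot.2 h0)
  -- `X^p - r^p = (X - r) T`
  obtain ⟨T, hT⟩ : ∃ T : ℚ[X], T = ∑ i ∈ Finset.range p, X ^ i * C r ^ (p - 1 - i) := ⟨_, rfl⟩
  have hT2 : (X ^ p - C (r ^ p) : ℚ[X]) = (X - C r) * T := by
    rw [hT, C_pow, mul_comm, ← geom_sum₂_mul]
  have hTr : T.eval r ≠ 0 := by
    rw [hT, eval_finset_sum]
    have h1 : ∀ i ∈ Finset.range p, (X ^ i * C r ^ (p - 1 - i) : ℚ[X]).eval r = r ^ (p - 1) := by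
      intro i hi
      rw [Finset.mem_range] at hi
      rw [eval_mul, eval_pow, eval_pow, eval_X, eval_C, ← pow_add]
      congr 1
      omega
    rw [Finset.sum_congr rfl h1, Finset.sum_const, Finset.card_range, nsmul_eq_mul]
    exact mul_ne_zero (by exact_mod_cast hp) (pow_ne_zero _ hr)
  have h2 : expand ℚ p P = (X - C r) ^ k * (T ^ k * expand ℚ p Q) := by
    rw [hQ, map_mul, map_pow, map_sub, expand_X, expand_C, hT2, mul_pow]
    ring
  have h3 : ¬ (X - C r) ∣ T ^ k * expand ℚ p Q := by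
    rw [dvd_iff_isRoot, IsRoot.def, eval_mul, eval_pow, expand_eval]
    exact mul_ne_zero (pow_ne_zero _ hTr) hQr
  have h4 : N ≤ k := by
    by_contra hlt
    push Not at hlt
    rw [h2] at h
    have h5 : (X - C r) ^ (k + 1) ∣ (X - C r) ^ k * (T ^ k * expand ℚ p Q) :=
      (pow_dvd_pow _ hlt).trans h
    rw [pow_succ] at h5
    have h6 : (X - C r) ^ k ≠ 0 := pow_ne_zero _ (X_sub_C_ne_zero r)
    exact h3 ((mul_dvd_mul_iff_left h6).1 h5)
  rw [hQ]
  exact Dvd.dvd.mul_right (pow_dvd_pow _ h4) _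

/-! ### the space -/

/-- `z = 1 + (c-1) s` -/
def iv_z (p : ℕ) : ℚ[X] := 1 + (iv_c p : ℚ[X]) * X

/-- the form with the coefficients `g` at `(z, u)` -/
def iv_H (p a D : ℕ) (g : ℕ → ℚ) : ℚ[X] :=
  ∑ l ∈ Finset.range (D + 2), C (g l) * (iv_z p ^ (a + p * (D + 1 - l)) * (1 - X) ^ (p * l))

/-- the polynomial with the coefficients `g` -/
def iv_P (D : ℕ) (g : ℕ → ℚ) : ℚ[X] := ∑ l ∈ Finset.range (D + 2), C (g l) * X ^ l

theorem iv_P_coeff (D : ℕ) (g : ℕ → ℚ) (l : ℕ) :
    (iv_P D g).coeff l = if l < D + 2 then g l else 0 := by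
  unfold iv_P
  rw [finset_sum_coeff]
  simp only [coeff_C_mul, coeff_X_pow, mul_ite, mul_one, mul_zero]
  rw [Finset.sum_ite_eq]
  simp

/-- the space of invariant sequences -/
def iv_W (p a D : ℕ) (μ : ℚ) : Submodule ℚ (ℕ → ℚ) where
  carrier := {g | (∀ l, D + 1 < l → g l = 0) ∧ g 0 = 0 ∧
    iv_H p a D g = C μ * expand ℚ p (iv_P D g)}
  add_mem' := by
    rintro f g ⟨h1, h2, h3⟩ ⟨h4, h5, h6⟩
    refine ⟨fun l hl => ?_, ?_, ?_⟩
    · rw [Pi.add_apply, h1 l hl, h4 l hl, add_zero]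
    · rw [Pi.add_apply, h2, h5, add_zero]
    · have e1 : iv_H p a D (f + g) = iv_H p a D f + iv_H p a D g := by
        unfold iv_H
        rw [← Finset.sum_add_distrib]
        refine Finset.sum_congr rfl fun l _ => ?_
        rw [Pi.add_apply, C_add]
        ring
      have e2 : iv_P D (f + g) = iv_P D f + iv_P D g := by
        unfold iv_P
        rw [← Finset.sum_add_distrib]
        refine Finset.sum_congr rfl fun l _ => ?_
        rw [Pi.add_apply, C_add]
        ring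
      rw [e1, e2, map_add, h3, h6]
      ring
  zero_mem' := by
    refine ⟨fun l _ => rfl, rfl, ?_⟩
    unfold iv_H iv_P
    simp
  smul_mem' := by
    rintro c g ⟨h4, h5, h6⟩
    refine ⟨fun l hl => ?_, ?_, ?_⟩
    · rw [Pi.smul_apply, h4 l hl, smul_zero]
    · rw [Pi.smul_apply, h5, smul_zero]
    · have e1 : iv_H p a D (c • g) = C c * iv_H p a D g := by
        unfold iv_H
        rw [Finset.mul_sum]
        refine Finset.sum_congr rfl fun l _ => ?_
        rw [Pi.smul_apply, smul_eq_mul, C_mul]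
        ring
      have e2 : iv_P D (c • g) = C c * iv_P D g := by
        unfold iv_P
        rw [Finset.mul_sum]
        refine Finset.sum_congr rfl fun l _ => ?_
        rw [Pi.smul_apply, smul_eq_mul, C_mul]
        ring
      rw [e1, e2, map_mul, expand_C, h6]
      ring

/-- an invariant sequence that vanishes up to `t` is zero -/
theorem iv_claim {p : ℕ} (hp : p = 2 ∨ p = 3) {a D t : ℕ} {μ : ℚ} (hμ : μ ≠ 0) {g : ℕ → ℚ}
    (hg : g ∈ iv_W p a D μ) (h0 : ∀ l, l ≤ t → g l = 0)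
    (ht : D + 1 < (p + 1) * (t + 1) + a) : g = 0 := by
  obtain ⟨h1, h2, h3⟩ := hg
  obtain ⟨P, hP⟩ : ∃ P, P = iv_P D g := ⟨_, rfl⟩
  rw [← hP] at h3
  have hp0 : p ≠ 0 := by omega
  have hc : (iv_c p : ℚ) ≠ 0 := by
    rcases hp with rfl | rfl <;> norm_num [iv_c]
  -- zero at `s = 1`
  have d1 : (X - C 1) ^ (p * (t + 1)) ∣ expand ℚ p P := by
    have e1 : (X - C 1) ^ (p * (t + 1)) ∣ iv_H p a D g := by
      unfold iv_H
      refine Finset.dvd_sum fun l hl => ?_
      by_cases hlt : l ≤ t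
      · rw [h0 l hlt, C_0, zero_mul]
        exact dvd_zero _
      · refine Dvd.dvd.mul_left (Dvd.dvd.mul_left ?_ _) _
        have e2 : (1 - X : ℚ[X]) = (-1) * (X - C 1) := by
          rw [C_1]
          ring
        rw [e2, mul_pow]
        refine Dvd.dvd.mul_left (pow_dvd_pow _ ?_) _
        exact Nat.mul_le_mul_left p (by omega)
    rw [h3] at e1
    have e3 : IsUnit (C μ : ℚ[X]) := isUnit_C.2 (isUnit_iff_ne_zero.2 hμ)
    exact (e3.dvd_mul_left).1 e1
  -- zero at `s = -1/(c-1)`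
  have d2 : (X - C (-(iv_c p : ℚ)⁻¹)) ^ a ∣ expand ℚ p P := by
    have e1 : (X - C (-(iv_c p : ℚ)⁻¹)) ^ a ∣ iv_H p a D g := by
      unfold iv_H
      refine Finset.dvd_sum fun l hl => ?_
      refine Dvd.dvd.mul_left (Dvd.dvd.mul_right ?_ _) _
      have e2 : iv_z p = C (iv_c p : ℚ) * (X - C (-(iv_c p : ℚ)⁻¹)) := by
        unfold iv_z
        have e4 : (C (iv_c p : ℚ) : ℚ[X]) = (iv_c p : ℚ[X]) := by simp
        have e5 : C (iv_c p : ℚ) * C (-(iv_c p : ℚ)⁻¹) = (-1 : ℚ[X]) := by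
          rw [← C_mul, mul_neg, mul_inv_cancel₀ hc, C_neg, C_1]
        rw [← e4]
        linear_combination e5
      rw [e2, mul_pow]
      refine Dvd.dvd.mul_left (pow_dvd_pow _ ?_) _
      omega
    rw [h3] at e1
    have e3 : IsUnit (C μ : ℚ[X]) := isUnit_C.2 (isUnit_iff_ne_zero.2 hμ)
    exact (e3.dvd_mul_left).1 e1
  have f1 := iv_dvd_comp hp0 one_ne_zero d1
  have f2 := iv_dvd_comp hp0 (neg_ne_zero.2 (inv_ne_zero hc)) d2
  rw [one_pow] at f1
  have f3 : (X - C 0) ^ (t + 1) ∣ P := by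
    rw [C_0, sub_zero, X_pow_dvd_iff]
    intro d hd
    rw [hP, iv_P_coeff]
    split_ifs
    · exact h0 d (by omega)
    · rfl
  obtain ⟨r, hr⟩ : ∃ r, r = (-(iv_c p : ℚ)⁻¹) ^ p := ⟨_, rfl⟩
  rw [← hr] at f2
  have hr1 : (1 : ℚ) ≠ r := by
    rw [hr]
    rcases hp with rfl | rfl <;> norm_num [iv_c]
  have hr0 : (0 : ℚ) ≠ r := by
    rw [hr]
    exact (pow_ne_zero _ (neg_ne_zero.2 (inv_ne_zero hc))).symm
  have g1 : IsCoprime ((X - C 1 : ℚ[X]) ^ (p * (t + 1))) ((X - C r) ^ a) :=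
    (isCoprime_X_sub_C_of_isUnit_sub (isUnit_iff_ne_zero.2 (sub_ne_zero.2 hr1))).pow
  have g2 := g1.mul_dvd f1 f2
  have g3 : IsCoprime ((X - C 0 : ℚ[X]) ^ (t + 1))
      ((X - C 1) ^ (p * (t + 1)) * (X - C r) ^ a) := by
    refine IsCoprime.mul_right ?_ ?_
    · exact (isCoprime_X_sub_C_of_isUnit_sub
        (isUnit_iff_ne_zero.2 (by norm_num : (0 : ℚ) - 1 ≠ 0))).pow
    · exact (isCoprime_X_sub_C_of_isUnit_sub
        (isUnit_iff_ne_zero.2 (sub_ne_zero.2 hr0))).pow
  have g4 := g3.mul_dvd f3 g2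
  have hdeg : P.natDegree ≤ D + 1 := by
    rw [natDegree_le_iff_coeff_eq_zero]
    intro n hn
    rw [hP, iv_P_coeff, if_neg (by omega)]
  have hP0 : P = 0 := by
    by_contra hne
    have g5 := natDegree_le_of_dvd g4 hne
    have m1 : ∀ (x : ℚ) (n : ℕ), ((X - C x : ℚ[X]) ^ n).Monic := fun x n => (monic_X_sub_C x).pow n
    rw [(m1 0 _).natDegree_mul ((m1 1 _).mul (m1 r _)), (m1 1 _).natDegree_mul (m1 r _),
      natDegree_pow, natDegree_pow, natDegree_pow, natDegree_X_sub_C, natDegree_X_sub_C,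
      natDegree_X_sub_C] at g5
    have g6 : (t + 1) * 1 + (p * (t + 1) * 1 + a * 1) = (p + 1) * (t + 1) + a := by ring
    omega
  funext l
  by_cases hl : l < D + 2
  · have := congrArg (fun Q : ℚ[X] => Q.coeff l) hP0
    simp only [coeff_zero] at this
    rw [hP, iv_P_coeff, if_pos hl] at this
    exact this
  · exact h1 l (by omega)

/-! ### the elements -/

theorem iv_natDegree_F (R : Type) [CommRing R] (p : ℕ) {a D j : ℕ} (hj : j ≤ D) :
    (iv_F R p a D j).natDegree ≤ a + p * (D + 1) := by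
  obtain ⟨d, rfl⟩ := Nat.exists_eq_add_of_le hj
  unfold iv_F iv_E
  rw [Nat.add_sub_cancel_left]
  have h1 : (1 + (iv_c p : R[X]) * X).natDegree ≤ 1 := by
    have : (1 + (iv_c p : R[X]) * X) = C (iv_c p : R) * X + C 1 := by
      simp [add_comm]
    rw [this]
    exact natDegree_linear_le
  have h2 : (1 - X : R[X]).natDegree ≤ 1 := by
    have : (1 - X : R[X]) = C (-1) * X + C 1 := by
      rw [C_neg, C_1]
      ring
    rw [this]
    exact natDegree_linear_le
  have h3 : ((1 + (iv_c p : R[X]) * X) ^ a).natDegree ≤ a := by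
    have := natDegree_pow_le_of_le a h1
    omega
  have h4 : ((1 - X : R[X]) ^ (p * d)).natDegree ≤ p * d := by
    have := natDegree_pow_le_of_le (p * d) h2
    omega
  have h5 : ((1 + (iv_c p : R[X]) * X) ^ p - (1 - X) ^ p).natDegree ≤ p := by
    refine (natDegree_sub_le _ _).trans (max_le ?_ ?_)
    · have := natDegree_pow_le_of_le p h1
      omega
    · have := natDegree_pow_le_of_le p h2
      omega
  have h6 : (((1 + (iv_c p : R[X]) * X) ^ p - (1 - X) ^ p) ^ (j + 1)).natDegree ≤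
      (j + 1) * p := natDegree_pow_le_of_le (j + 1) h5
  have h7 := (natDegree_mul_le (p := (1 + (iv_c p : R[X]) * X) ^ a) (q := (1 - X) ^ (p * d)))
  have h8 := (natDegree_mul_le (p := (1 + (iv_c p : R[X]) * X) ^ a * (1 - X) ^ (p * d))
    (q := ((1 + (iv_c p : R[X]) * X) ^ p - (1 - X) ^ p) ^ (j + 1)))
  have h9 : a + p * (j + d + 1) = a + p * d + (j + 1) * p := by ring
  omega

/-- the polynomial `g_j` -/
def iv_g (p a D m j : ℕ) : ℚ[X] :=
  iv_e ℚ D j + C ((p : ℚ) / iv_mu p m) * contract p (iv_F ℚ p a D j)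

theorem iv_natDegree_g {p : ℕ} (hp : p ≠ 0) {a D m j : ℕ} (ha : a < p) (hj : j ≤ D) :
    (iv_g p a D m j).natDegree ≤ D + 1 := by
  have h1 : (contract p (iv_F ℚ p a D j)).natDegree ≤ D + 1 := by
    rw [natDegree_le_iff_coeff_eq_zero]
    intro n hn
    rw [coeff_contract hp]
    refine coeff_eq_zero_of_natDegree_lt (lt_of_le_of_lt (iv_natDegree_F ℚ p hj) ?_)
    have h2 : p * (D + 2) ≤ n * p := by
      rw [mul_comm n p]
      exact Nat.mul_le_mul_left p (by omega)
    have h3 : p * (D + 2) = p * (D + 1) + p := by ring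
    omega
  have h4 : (iv_e ℚ D j).natDegree ≤ D + 1 := by
    unfold iv_e
    have h2 : (1 - X : ℚ[X]).natDegree ≤ 1 := by
      have : (1 - X : ℚ[X]) = C (-1) * X + C 1 := by
        rw [C_neg, C_1]
        ring
      rw [this]
      exact natDegree_linear_le
    have h5 := natDegree_pow_le_of_le (j + 1) h2
    have h6 := natDegree_X_pow_le (R := ℚ) (D - j)
    have h7 := natDegree_mul_le (p := (1 - X : ℚ[X]) ^ (j + 1)) (q := X ^ (D - j))
    omega
  unfold iv_g
  refine (natDegree_add_le _ _).trans (max_le h4 ?_)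
  exact (natDegree_C_mul_le _ _).trans h1

theorem iv_P_self {D : ℕ} {f : ℚ[X]} (hf : f.natDegree ≤ D + 1) :
    iv_P D (fun l => f.coeff l) = f := by
  unfold iv_P
  exact (as_sum_range_C_mul_X_pow' f (n := D + 2) (by omega)).symm

theorem iv_mem {p : ℕ} (hp : p = 2 ∨ p = 3) {a D j m : ℕ} (ha : a < p) (hj : j < D)
    (hm : m = a + p * (D + 1)) (hpar : p = 2 ∨ Even m) :
    (fun l => (iv_g p a D m j).coeff l) ∈ iv_W p a D (iv_mu p m) := by
  have hp0 : p ≠ 0 := by omega
  have hdeg := iv_natDegree_g (m := m) hp0 ha hj.le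
  have hself := iv_P_self hdeg
  refine ⟨fun l hl => coeff_eq_zero_of_natDegree_lt (by omega), ?_, ?_⟩
  · show (iv_g p a D m j).coeff 0 = 0
    unfold iv_g iv_e
    rw [coeff_add, coeff_C_mul, coeff_contract hp0, zero_mul, mul_coeff_zero, coeff_X_pow,
      if_neg (by omega), mul_zero, coeff_zero_eq_eval_zero]
    unfold iv_F iv_E
    simp
  · rw [hself]
    apply Polynomial.map_injective (algebraMap ℚ ℂ) (algebraMap ℚ ℂ).injective
    refine Polynomial.eq_of_infinite_eval_eq _ _ ?_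
    have hinf : {s : ℂ | 1 + (iv_c p : ℂ) * s ≠ 0}.Infinite := by
      have hc : (iv_c p : ℂ) ≠ 0 := by
        rcases hp with rfl | rfl <;> norm_num [iv_c]
      have : {s : ℂ | 1 + (iv_c p : ℂ) * s ≠ 0} = {-(iv_c p : ℂ)⁻¹}ᶜ := by
        ext s
        rw [Set.mem_ofPred_eq, Set.mem_compl_iff, Set.mem_singleton_iff, not_iff_not]
        constructor
        · intro h
          field_simp
          linear_combination h
        · intro h
          rw [h]
          field_simp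
          ring
      rw [this]
      exact (Set.finite_singleton _).infinite_compl
    refine hinf.mono ?_
    intro s hs
    rw [Set.mem_ofPred_eq] at hs ⊢
    rw [eval_map, eval_map, ← aeval_def, ← aeval_def]
    obtain ⟨z, hz⟩ : ∃ z : ℂ, z = 1 + (iv_c p : ℂ) * s := ⟨_, rfl⟩
    have hzz : aeval s (iv_z p) = z := by
      unfold iv_z
      rw [hz]
      simp
    -- the left side
    have hL : aeval s (iv_H p a D (fun l => (iv_g p a D m j).coeff l)) =
        z ^ m * aeval (((1 - s) / z) ^ p) (iv_g p a D m j) := by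
      conv_rhs => rw [← hself]
      unfold iv_H iv_P
      rw [map_sum, map_sum, Finset.mul_sum]
      refine Finset.sum_congr rfl fun l hl => ?_
      rw [Finset.mem_range] at hl
      rw [map_mul, map_mul, map_mul, map_pow, map_pow, map_pow, hzz, map_sub, map_one, aeval_X,
        aeval_X, aeval_C, aeval_C, ← pow_mul, div_pow]
      have e1 : z ^ m = z ^ (a + p * (D + 1 - l)) * z ^ (p * l) := by
        rw [← pow_add]
        congr 1
        rw [hm]
        have : D + 1 = (D + 1 - l) + l := by omega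
        conv_lhs => rw [this]
        ring
      rw [e1]
      have hzp : z ^ (p * l) ≠ 0 := pow_ne_zero _ (by rw [hz]; exact hs)
      field_simp
    have hkey := iv_key hp (j := j) hj.le hm hpar s hs
    rw [← hz] at hkey
    -- `e` at `(z, u)`
    have he : z ^ m * aeval (((1 - s) / z) ^ p) (iv_e ℚ D j) = aeval s (iv_F ℚ p a D j) := by
      rw [iv_aeval_e p a, iv_aeval_F, hm, ← iv_E_mul hj.le, mul_one, hz, mul_div_cancel₀]
      exact hs
    have hmu : (iv_mu p m : ℂ) ≠ 0 := by exact_mod_cast iv_mu_ne p m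
    rw [hL, map_mul, expand_aeval, aeval_C]
    unfold iv_g
    rw [map_add, map_mul, map_add, map_mul, aeval_C, aeval_C]
    have e2 : (algebraMap ℚ ℂ) ((p : ℚ) / iv_mu p m) = (p : ℂ) / (iv_mu p m : ℂ) := by simp
    have e3 : (algebraMap ℚ ℂ) (iv_mu p m) = (iv_mu p m : ℂ) := by simp
    rw [e2, e3, mul_add, he]
    field_simp
    field_simp at hkey
    linear_combination hkey

end GH.MatU
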