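import Pool.Agent.GH.MatU.Defs

/-!
# GH-MATU, row MU-6: the number of zeros (helper91)

Every even residue class contributes `∑_j min (j, N - p j)` with `N = (p-1) n + c`, and
`N ↦ N + p + 1` adds `⌊N/p⌋ + 1`.
-/

namespace GH.MatU

/-- `∑_{1 ≤ j ≤ K} min (j, N - p j)` (truncated subtraction). -/
def tsV (p K N : ℕ) : ℕ := ∑ j ∈ Finset.range K, min (j + 1) (N - p * (j + 1))

theorem tsV_ext (p K N : ℕ) (h : N ≤ p * (K + 1)) : tsV p (K + 1) N = tsV p K N := by
  unfold tsV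
  rw [Finset.sum_range_succ, Nat.sub_eq_zero_of_le h]
  simp

theorem ts_count (p K N : ℕ) (hp : 0 < p) :
    ∑ j ∈ Finset.range K, (if p * (j + 1) ≤ N then 1 else 0) = min K (N / p) := by
  induction K with
  | zero => simp
  | succ K ih =>
    rw [Finset.sum_range_succ, ih]
    have h : p * (K + 1) ≤ N ↔ K + 1 ≤ N / p := by
      rw [Nat.le_div_iff_mul_le hp, mul_comm]
    by_cases h1 : K + 1 ≤ N / p
    · rw [if_pos (h.2 h1)]
      omega
    · rw [if_neg fun h2 => h1 (h.1 h2)]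
      omega

theorem tsV_step (p K N : ℕ) (hp : 0 < p) (h : N / p ≤ K) :
    tsV p (K + 1) (N + p + 1) = tsV p K N + N / p + 1 := by
  unfold tsV
  rw [Finset.sum_range_succ']
  have h1 : ∀ j ∈ Finset.range K, min (j + 1 + 1) (N + p + 1 - p * (j + 1 + 1)) =
      min (j + 1) (N - p * (j + 1)) + (if p * (j + 1) ≤ N then 1 else 0) := by
    intro j _
    have h2 : p * (j + 1 + 1) = p * (j + 1) + p := by ring
    rw [h2]
    generalize p * (j + 1) = M
    split_ifs <;> omega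
  rw [Finset.sum_congr rfl h1, Finset.sum_add_distrib, ts_count p K N hp, min_eq_right h]
  have h3 : min (0 + 1) (N + p + 1 - p * (0 + 1)) = 1 := by
    have h4 : p * (0 + 1) = p := by ring
    rw [h4]
    omega
  rw [h3]

/-- the sum over the zeros for `p = 2` -/
theorem ts_group2 (f : ℕ → ℕ) (K : ℕ) :
    ∑ m ∈ Finset.range (6 * K + 2), f m = f 1 + f (6 * K) +
      ∑ q ∈ Finset.range K, (f (6 * q) + f (6 * q + 2) + f (6 * q + 4) + f (6 * q + 3) +
        f (6 * q + 5) + f (6 * q + 7)) := by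
  induction K with
  | zero =>
    simp [Finset.sum_range_succ]
    ring
  | succ K ih =>
    rw [Finset.sum_range_succ _ K, show 6 * (K + 1) + 2 = 6 * K + 2 + 1 + 1 + 1 + 1 + 1 + 1 by ring]
    simp only [Finset.sum_range_succ _ (6 * K + 2 + 1 + 1 + 1 + 1 + 1),
      Finset.sum_range_succ _ (6 * K + 2 + 1 + 1 + 1 + 1),
      Finset.sum_range_succ _ (6 * K + 2 + 1 + 1 + 1), Finset.sum_range_succ _ (6 * K + 2 + 1 + 1),
      Finset.sum_range_succ _ (6 * K + 2 + 1), Finset.sum_range_succ _ (6 * K + 2)]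
    rw [ih]
    have e1 : 6 * K + 2 + 1 + 1 + 1 + 1 + 1 = 6 * K + 7 := by ring
    have e2 : 6 * K + 2 + 1 + 1 + 1 + 1 = 6 * (K + 1) := by ring
    have e3 : 6 * K + 2 + 1 + 1 + 1 = 6 * K + 5 := by ring
    have e4 : 6 * K + 2 + 1 + 1 = 6 * K + 4 := by ring
    have e5 : 6 * K + 2 + 1 = 6 * K + 3 := by ring
    rw [e1, e2, e3, e4, e5]
    ring

/-- the sum over the zeros for `p = 3` -/
theorem ts_group3 (f : ℕ → ℕ) (hf : ∀ m, m % 2 = 1 → f m = 0) (K : ℕ) :
    ∑ m ∈ Finset.range (12 * K + 3), f m = f 2 + f (12 * K) +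
      ∑ q ∈ Finset.range K, (f (12 * q) + f (12 * q + 4) + f (12 * q + 6) + f (12 * q + 8) +
        f (12 * q + 10) + f (12 * q + 14)) := by
  induction K with
  | zero =>
    simp [Finset.sum_range_succ]
    rw [hf 1 rfl]
    ring
  | succ K ih =>
    rw [Finset.sum_range_succ _ K, show 12 * (K + 1) + 3 =
      12 * K + 3 + 1 + 1 + 1 + 1 + 1 + 1 + 1 + 1 + 1 + 1 + 1 + 1 by ring]
    simp only [Finset.sum_range_succ _ (12 * K + 3 + 1 + 1 + 1 + 1 + 1 + 1 + 1 + 1 + 1 + 1 + 1),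
      Finset.sum_range_succ _ (12 * K + 3 + 1 + 1 + 1 + 1 + 1 + 1 + 1 + 1 + 1 + 1),
      Finset.sum_range_succ _ (12 * K + 3 + 1 + 1 + 1 + 1 + 1 + 1 + 1 + 1 + 1),
      Finset.sum_range_succ _ (12 * K + 3 + 1 + 1 + 1 + 1 + 1 + 1 + 1 + 1),
      Finset.sum_range_succ _ (12 * K + 3 + 1 + 1 + 1 + 1 + 1 + 1 + 1),
      Finset.sum_range_succ _ (12 * K + 3 + 1 + 1 + 1 + 1 + 1 + 1),
      Finset.sum_range_succ _ (12 * K + 3 + 1 + 1 + 1 + 1 + 1),
      Finset.sum_range_succ _ (12 * K + 3 + 1 + 1 + 1 + 1),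
      Finset.sum_range_succ _ (12 * K + 3 + 1 + 1 + 1), Finset.sum_range_succ _ (12 * K + 3 + 1 + 1),
      Finset.sum_range_succ _ (12 * K + 3 + 1), Finset.sum_range_succ _ (12 * K + 3)]
    rw [ih]
    have e1 : 12 * K + 3 + 1 + 1 + 1 + 1 + 1 + 1 + 1 + 1 + 1 + 1 + 1 = 12 * K + 14 := by ring
    have e3 : 12 * K + 3 + 1 + 1 + 1 + 1 + 1 + 1 + 1 + 1 + 1 = 12 * (K + 1) := by ring
    have e5 : 12 * K + 3 + 1 + 1 + 1 + 1 + 1 + 1 + 1 = 12 * K + 10 := by ring
    have e7 : 12 * K + 3 + 1 + 1 + 1 + 1 + 1 = 12 * K + 8 := by ring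
    have e9 : 12 * K + 3 + 1 + 1 + 1 = 12 * K + 6 := by ring
    have e11 : 12 * K + 3 + 1 = 12 * K + 4 := by ring
    rw [hf (12 * K + 3 + 1 + 1 + 1 + 1 + 1 + 1 + 1 + 1 + 1 + 1) (by omega),
      hf (12 * K + 3 + 1 + 1 + 1 + 1 + 1 + 1 + 1 + 1) (by omega),
      hf (12 * K + 3 + 1 + 1 + 1 + 1 + 1 + 1) (by omega),
      hf (12 * K + 3 + 1 + 1 + 1 + 1) (by omega), hf (12 * K + 3 + 1 + 1) (by omega),
      hf (12 * K + 3) (by omega), e1, e3, e5, e7, e9, e11]
    ring

/-- reversal of one class -/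
theorem ts_rev (p n c d : ℕ) (hp : 1 ≤ p) :
    ∑ q ∈ Finset.range n, min (n - q) (p * q + c - (n + d)) = tsV p n ((p - 1) * n + c - d) := by
  unfold tsV
  rw [← Finset.sum_range_reflect]
  refine Finset.sum_congr rfl fun j hj => ?_
  have hj' : j < n := Finset.mem_range.1 hj
  obtain ⟨k, rfl⟩ := Nat.exists_eq_add_of_lt hj'
  obtain ⟨r, rfl⟩ := Nat.exists_eq_add_of_le' hp
  have e1 : j + k + 1 - 1 - j = k := by omega
  have e2 : (r + 1) * k = r * k + k := by ring
  have e3 : (r + 1 - 1) * (j + k + 1) = r * (j + 1) + r * k := by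
    rw [Nat.add_sub_cancel]
    ring
  have e4 : (r + 1) * (j + 1) = r * (j + 1) + (j + 1) := by ring
  rw [e1, e2, e3, e4]
  generalize r * k = A
  generalize r * (j + 1) = B
  omega

theorem TT_supp {p : ℕ} (hp : p = 2 ∨ p = 3) {n m : ℕ} (h : Zb p n ≤ m) : TT p n m = 0 := by
  rcases hp with rfl | rfl
  · have h1 : 6 * n + 2 ≤ m := by simpa [Zb] using h
    unfold TT tt
    rw [if_pos (Or.inl rfl)]
    omega
  · have h1 : 12 * n + 3 ≤ m := by simpa [Zb] using h
    unfold TT tt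
    split_ifs with h2
    · have h3 : m % 2 = 0 := by
        rcases h2 with h2 | h2
        · omega
        · exact Nat.even_iff.1 h2
      omega
    · rfl

theorem TT_zero (p m : ℕ) : TT p 0 m = 0 := by
  simp [TT]

theorem ts_num2 (n : ℕ) : tsV 2 n (n - 1) + 2 * tsV 2 n n + 2 * tsV 2 n (n + 1) +
    tsV 2 n (n + 2) = n * (n + 1) / 2 := by
  induction n using Nat.strong_induction_on with
  | _ n ih =>
    rcases Nat.lt_or_ge n 4 with hn | hn
    · interval_cases n <;> decide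
    · obtain ⟨k, rfl⟩ := Nat.exists_eq_add_of_le' (show 3 ≤ n by omega)
      have h := ih k (by omega)
      have hs : ∀ N, N ≤ 2 * (k + 1) → tsV 2 (k + 3) (N + 3) = tsV 2 k N + N / 2 + 1 := by
        intro N hN
        rw [show N + 3 = N + 2 + 1 by ring, tsV_step 2 (k + 2) N (by norm_num) (by omega),
          tsV_ext 2 (k + 1) N (by omega), tsV_ext 2 k N (by omega)]
      have e0 : k + 3 - 1 = (k - 1) + 3 := by omega
      rw [e0, show k + 3 + 1 = k + 1 + 3 by ring, show k + 3 + 2 = k + 2 + 3 by ring,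
        hs (k - 1) (by omega), hs k (by omega), hs (k + 1) (by omega), hs (k + 2) (by omega)]
      have e : (k + 3) * (k + 1 + 3) = k * (k + 1) + (3 * k + 6) * 2 := by ring
      rw [e, Nat.add_mul_div_right _ _ (by norm_num), ← h]
      omega

theorem ts_herm (x : ℕ) : x / 3 + (x + 1) / 3 + (x + 2) / 3 = x := by
  obtain ⟨t, r, hr, rfl⟩ : ∃ t r, r < 3 ∧ x = 3 * t + r :=
    ⟨x / 3, x % 3, Nat.mod_lt _ (by norm_num), by omega⟩
  interval_cases r <;> omega

theorem ts_num3 (n : ℕ) : tsV 3 n (2 * n - 1) + tsV 3 n (2 * n) + 2 * tsV 3 n (2 * n + 1) +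
    tsV 3 n (2 * n + 2) + tsV 3 n (2 * n + 3) = n * (n + 1) := by
  induction n using Nat.strong_induction_on with
  | _ n ih =>
    rcases Nat.lt_or_ge n 3 with hn | hn
    · interval_cases n <;> decide
    · obtain ⟨k, rfl⟩ := Nat.exists_eq_add_of_le' (show 2 ≤ n by omega)
      have h := ih k (by omega)
      have hs : ∀ N, N ≤ 3 * (k + 1) → tsV 3 (k + 2) (N + 4) = tsV 3 k N + N / 3 + 1 := by
        intro N hN
        rw [show N + 4 = N + 3 + 1 by ring, tsV_step 3 (k + 1) N (by norm_num) (by omega),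
          tsV_ext 3 k N (by omega)]
      have e0 : 2 * (k + 2) - 1 = (2 * k - 1) + 4 := by omega
      rw [e0, show 2 * (k + 2) = 2 * k + 4 by ring, show 2 * k + 4 + 1 = 2 * k + 1 + 4 by ring,
        show 2 * k + 4 + 2 = 2 * k + 2 + 4 by ring, show 2 * k + 4 + 3 = 2 * k + 3 + 4 by ring,
        hs (2 * k - 1) (by omega), hs (2 * k) (by omega), hs (2 * k + 1) (by omega),
        hs (2 * k + 2) (by omega), hs (2 * k + 3) (by omega)]
      have e : (k + 2) * (k + 2 + 1) = k * (k + 1) + (4 * k + 6) := by ring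
      have f1 : (2 * k - 1) / 3 + 2 * k / 3 + (2 * k + 1) / 3 = 2 * k - 1 := by
        have := ts_herm (2 * k - 1)
        rwa [show 2 * k - 1 + 1 = 2 * k by omega, show 2 * k - 1 + 2 = 2 * k + 1 by omega] at this
      have f2 : (2 * k + 1) / 3 + (2 * k + 2) / 3 + (2 * k + 3) / 3 = 2 * k + 1 :=
        ts_herm (2 * k + 1)
      rw [e, ← h]
      clear e h hs
      omega

/-- The total number of zeros of the `n`-th minor is `(p-1) n(n+1)/2`. -/
theorem sum_TT {p : ℕ} (hp : p = 2 ∨ p = 3) (n : ℕ) :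
    ∑ m ∈ Finset.range (Zb p n), TT p n m = (p - 1) * (n * (n + 1) / 2) := by
  rcases hp with rfl | rfl
  · have hZ : Zb 2 n = 6 * n + 2 := by simp [Zb]
    have hT : ∀ m, TT 2 n m = min (n - (m / 2 - m % 2) / 3)
        (m / 2 - 1 - (m / 2 - m % 2) / 3 - n) := fun m => by
      unfold TT tt
      rw [if_pos (Or.inl rfl)]
    rw [hZ, ts_group2]
    have h1 : TT 2 n 1 = 0 := by rw [hT]; omega
    have h2 : TT 2 n (6 * n) = 0 := by rw [hT]; omega
    rw [h1, h2, zero_add, zero_add]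
    have h3 : ∀ q ∈ Finset.range n, (TT 2 n (6 * q) + TT 2 n (6 * q + 2) + TT 2 n (6 * q + 4) +
        TT 2 n (6 * q + 3) + TT 2 n (6 * q + 5) + TT 2 n (6 * q + 7)) =
        min (n - q) (2 * q + 0 - (n + 1)) + 2 * min (n - q) (2 * q + 0 - (n + 0)) +
          2 * min (n - q) (2 * q + 1 - (n + 0)) + min (n - q) (2 * q + 2 - (n + 0)) := by
      intro q hq
      have a1 : TT 2 n (6 * q) = min (n - q) (2 * q + 0 - (n + 1)) := by rw [hT]; omega
      have a2 : TT 2 n (6 * q + 2) = min (n - q) (2 * q + 0 - (n + 0)) := by rw [hT]; omega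
      have a3 : TT 2 n (6 * q + 4) = min (n - q) (2 * q + 1 - (n + 0)) := by rw [hT]; omega
      have a4 : TT 2 n (6 * q + 3) = min (n - q) (2 * q + 0 - (n + 0)) := by rw [hT]; omega
      have a5 : TT 2 n (6 * q + 5) = min (n - q) (2 * q + 1 - (n + 0)) := by rw [hT]; omega
      have a6 : TT 2 n (6 * q + 7) = min (n - q) (2 * q + 2 - (n + 0)) := by rw [hT]; omega
      rw [a1, a2, a3, a4, a5, a6]
      ring
    rw [Finset.sum_congr rfl h3]
    simp only [Finset.sum_add_distrib, ← Finset.mul_sum]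
    rw [ts_rev 2 n 0 1 (by norm_num), ts_rev 2 n 0 0 (by norm_num), ts_rev 2 n 1 0 (by norm_num),
      ts_rev 2 n 2 0 (by norm_num)]
    have h4 := ts_num2 n
    simpa using h4
  · have hZ : Zb 3 n = 12 * n + 3 := by simp [Zb]
    have hT : ∀ m, m % 2 = 0 → TT 3 n m = min (n - (m / 3 - m % 3) / 4)
        (m / 3 - 1 - (m / 3 - m % 3) / 4 - n) := fun m hm => by
      unfold TT tt
      rw [if_pos (Or.inr (Nat.even_iff.2 hm))]
    have hf : ∀ m, m % 2 = 1 → TT 3 n m = 0 := fun m hm => by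
      unfold TT
      rw [if_neg]
      rintro (h | h)
      · omega
      · have := Nat.even_iff.1 h
        omega
    rw [hZ, ts_group3 _ hf]
    have h1 : TT 3 n 2 = 0 := by rw [hT _ rfl]; omega
    have h2 : TT 3 n (12 * n) = 0 := by rw [hT _ (by omega)]; omega
    rw [h1, h2, zero_add, zero_add]
    have h3 : ∀ q ∈ Finset.range n, (TT 3 n (12 * q) + TT 3 n (12 * q + 4) +
        TT 3 n (12 * q + 6) + TT 3 n (12 * q + 8) + TT 3 n (12 * q + 10) +
        TT 3 n (12 * q + 14)) =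
        min (n - q) (3 * q + 0 - (n + 1)) + min (n - q) (3 * q + 0 - (n + 0)) +
          2 * min (n - q) (3 * q + 1 - (n + 0)) + min (n - q) (3 * q + 2 - (n + 0)) +
          min (n - q) (3 * q + 3 - (n + 0)) := by
      intro q hq
      have a1 : TT 3 n (12 * q) = min (n - q) (3 * q + 0 - (n + 1)) := by
        rw [hT _ (by omega)]; omega
      have a2 : TT 3 n (12 * q + 4) = min (n - q) (3 * q + 0 - (n + 0)) := by
        rw [hT _ (by omega)]; omega
      have a3 : TT 3 n (12 * q + 6) = min (n - q) (3 * q + 1 - (n + 0)) := by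
        rw [hT _ (by omega)]; omega
      have a4 : TT 3 n (12 * q + 8) = min (n - q) (3 * q + 1 - (n + 0)) := by
        rw [hT _ (by omega)]; omega
      have a5 : TT 3 n (12 * q + 10) = min (n - q) (3 * q + 2 - (n + 0)) := by
        rw [hT _ (by omega)]; omega
      have a6 : TT 3 n (12 * q + 14) = min (n - q) (3 * q + 3 - (n + 0)) := by
        rw [hT _ (by omega)]; omega
      rw [a1, a2, a3, a4, a5, a6]
      ring
    rw [Finset.sum_congr rfl h3]
    simp only [Finset.sum_add_distrib, ← Finset.mul_sum]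
    rw [ts_rev 3 n 0 1 (by norm_num), ts_rev 3 n 0 0 (by norm_num), ts_rev 3 n 1 0 (by norm_num),
      ts_rev 3 n 2 0 (by norm_num), ts_rev 3 n 3 0 (by norm_num)]
    have h4 := ts_num3 n
    have h5 : 2 * (n * (n + 1) / 2) = n * (n + 1) :=
      Nat.mul_div_cancel' (Nat.even_mul_succ_self n).two_dvd
    simp only [add_zero, Nat.sub_zero, show 3 - 1 = 2 from rfl]
    rw [h5, ← h4]

end GH.MatU
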