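import Pool.Agent.GH.MatU.LeadA
import Pool.Agent.GH.MatU.Cor
import Pool.Agent.GH.MatU.Inv
import Pool.Agent.GH.MatU.TentSum

/-!
# GH-MATU: the leading minors
-/

open PowerSeries

noncomputable section

namespace GH.MatU

variable {p : ℕ} [Fact p.Prime]

/-- The lead of `NN` in terms of `QQ`. -/
theorem lead_NN_QQ (hp : p = 2 ∨ p = 3) (a n : ℕ) :
    Pot.lead (NN p a) n = Polynomial.C ((p : ℤ_[p]) ^ BB p n) * QQ p a n := by
  have h1 := Matrix.det_mul_row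
    (fun j : Fin n => Polynomial.C (((p * cw p : ℕ) : ℤ_[p]) ^ ((j : ℕ) + 1)))
    (Matrix.of fun i j : Fin n ↦ ZZ p a (i : ℕ) (j : ℕ))
  have h2 : Pot.lead (NN p a) n = (Matrix.of fun i j : Fin n ↦
      (fun j : Fin n => Polynomial.C (((p * cw p : ℕ) : ℤ_[p]) ^ ((j : ℕ) + 1))) j *
      (Matrix.of fun i j : Fin n ↦ ZZ p a (i : ℕ) (j : ℕ)) i j).det := rfl
  rw [h2, h1, QQ]
  congr 1
  have h3 : ∏ i : Fin n, Polynomial.C (((p * cw p : ℕ) : ℤ_[p]) ^ ((i : ℕ) + 1)) =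
      Polynomial.C (((p * cw p : ℕ) : ℤ_[p]) ^ (∑ i : Fin n, ((i : ℕ) + 1))) := by
    rw [← Finset.prod_pow_eq_pow_sum, map_prod]
  rw [h3, sum_fin]
  congr 1
  rcases hp with rfl | rfl
  · rw [BB, if_pos rfl, pow_mul, cw, if_pos rfl]
    norm_num
  · have h4 : n * (n + 1) = 2 * (n * (n + 1) / 2) :=
      (Nat.two_mul_div_two_of_even (Nat.even_mul_succ_self n)).symm
    rw [BB, if_neg (by decide), cw, if_neg (by decide)]
    conv_rhs => rw [h4]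
    rw [pow_mul]
    norm_num

/-- The value of the entries at `m ≡ a`. -/
theorem entry_eval (i j m : ℕ) :
    ((p * cw p : ℕ) : ℚ_[p]) ^ (j + 1) * (cmat p (fun j ↦ wS p (Polynomial ℚ_[p]) ^ (m % p) *
      vS p (Polynomial ℚ_[p]) ^ (j + 1) * EX p) i j).eval (m : ℚ_[p]) =
      (YY p m i j : ℚ_[p]) := by
  rw [← Polynomial.coe_evalRingHom, map_cmat, YY]
  have h1 : ((cmat p (fun j ↦ wS p ℤ ^ (m % p) * (C ((p * cw p : ℕ) : ℤ) * vS p ℤ) ^ (j + 1) *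
    (1 - X) ^ m) i j : ℤ) : ℚ_[p]) = Int.castRingHom ℚ_[p] (cmat p (fun j ↦ wS p ℤ ^ (m % p) *
      (C ((p * cw p : ℕ) : ℤ) * vS p ℤ) ^ (j + 1) * (1 - X) ^ m) i j) := rfl
  rw [h1, map_cmat, cmat, cmat]
  simp only [map_mul, map_pow, map_wS, map_vS, EX_eval, map_sub, map_one, PowerSeries.map_X,
    PowerSeries.map_C]
  have h2 : (Int.castRingHom ℚ_[p]) ((p * cw p : ℕ) : ℤ) = ((p * cw p : ℕ) : ℚ_[p]) := by
    simp
  rw [h2, mul_pow, ← map_pow]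
  have h3 : wS p ℚ_[p] ^ (m % p) * (C (((p * cw p : ℕ) : ℚ_[p]) ^ (j + 1)) *
      vS p ℚ_[p] ^ (j + 1)) * (1 - X) ^ m = C (((p * cw p : ℕ) : ℚ_[p]) ^ (j + 1)) *
      (wS p ℚ_[p] ^ (m % p) * vS p ℚ_[p] ^ (j + 1) * (1 - X) ^ m) := by ring
  rw [h3, PowerSeries.coeff_C_mul]

theorem rho_ne (p : ℕ) [Fact p.Prime] : ((p * cw p : ℕ) : ℚ_[p]) ≠ 0 := by
  rw [Nat.cast_ne_zero]
  refine mul_ne_zero (p_ne_zero p) ?_
  rw [cw]
  split_ifs <;> norm_num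

/-- The order of vanishing at `m`. -/
theorem pow_dvd_QQ (hp : p = 2 ∨ p = 3) (m n : ℕ) :
    (Polynomial.X - Polynomial.C (m : ℚ_[p])) ^ TT p n m ∣ toQ p (QQ p (m % p) n) := by
  by_cases h0 : TT p n m = 0
  · rw [h0, pow_zero]
    exact one_dvd _
  obtain ⟨x, y, h⟩ := inv_decomp' hp m ⟨n, h0⟩
  obtain ⟨D, hD⟩ : ∃ D, D = m / p - 1 := ⟨_, rfl⟩
  rw [← hD] at h
  have h1 : TT p n m = min (n - tt p m) (D - tt p m - n) := by
    rw [TT] at h0 ⊢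
    split_ifs at h0 ⊢
    · rw [hD]
    · exact absurd rfl h0
  have hnD : n ≤ D := by omega
  rw [toQ_QQ hp]
  have h2 : TT p n m = n - Fintype.card (Fin (tt p m) ⊕ Fin (2 * n - D)) := by
    rw [Fintype.card_sum, Fintype.card_fin, Fintype.card_fin]
    omega
  rw [h2]
  set E : ℕ → ℕ → ℚ_[p] := fun i j => (cmat p (fun j ↦ wS p (Polynomial ℚ_[p]) ^ (m % p) *
      vS p (Polynomial ℚ_[p]) ^ (j + 1) * EX p) i j).eval (m : ℚ_[p]) with hE
  have hE2 : ∀ i j, i + j + 1 < D → E i j = ∑ l, ((x i l : ℚ) : ℚ_[p]) *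
      ((((p * cw p : ℕ) : ℚ_[p]) ^ (j + 1))⁻¹ * ((y l j : ℚ) : ℚ_[p])) := by
    intro i j hij
    have h3 := entry_eval (p := p) i j m
    have h4 : (YY p m i j : ℚ_[p]) = ((YY p m i j : ℚ) : ℚ_[p]) := by norm_cast
    rw [h4, (h i j).2 hij] at h3
    have h5 := pow_ne_zero (j + 1) (rho_ne p)
    have h6 : E i j = (((p * cw p : ℕ) : ℚ_[p]) ^ (j + 1))⁻¹ *
        ((∑ l, x i l * y l j : ℚ) : ℚ_[p]) := by
      rw [← h3, hE, inv_mul_cancel_left₀ h5]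
    rw [h6]
    push_cast
    rw [Finset.mul_sum]
    refine Finset.sum_congr rfl fun l _ => ?_
    ring
  refine cor_poly _ _
    (fun i => Sum.elim (fun l : Fin (tt p m) => ((x i l : ℚ) : ℚ_[p]))
      (fun k : Fin (2 * n - D) => if (i : ℕ) = D - n + (k : ℕ) then 1 else 0))
    (fun l j => Sum.elim (fun l : Fin (tt p m) =>
        (((p * cw p : ℕ) : ℚ_[p]) ^ ((j : ℕ) + 1))⁻¹ * ((y l j : ℚ) : ℚ_[p]))
      (fun k : Fin (2 * n - D) => E (D - n + k) j - ∑ l, ((x (D - n + k) l : ℚ) : ℚ_[p]) *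
        ((((p * cw p : ℕ) : ℚ_[p]) ^ ((j : ℕ) + 1))⁻¹ * ((y l j : ℚ) : ℚ_[p]))) l) ?_
  intro i j
  have hi := i.2
  have hj := j.2
  rw [Fintype.sum_sum_type]
  simp only [Sum.elim_inl, Sum.elim_inr, Matrix.of_apply]
  have h7 : (cmat p (fun j ↦ wS p (Polynomial ℚ_[p]) ^ (m % p) *
      vS p (Polynomial ℚ_[p]) ^ (j + 1) * EX p) i j).eval (m : ℚ_[p]) = E i j := rfl
  rw [h7]
  by_cases hiD : (i : ℕ) < D - n
  · rw [hE2 i j (by omega)]
    symm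
    rw [add_eq_left]
    refine Finset.sum_eq_zero fun k _ => ?_
    rw [if_neg (by omega), zero_mul]
  · have hk : (i : ℕ) - (D - n) < 2 * n - D := by omega
    rw [Finset.sum_eq_single (⟨(i : ℕ) - (D - n), hk⟩ : Fin (2 * n - D))]
    · have h8 : D - n + ((i : ℕ) - (D - n)) = i := by omega
      simp only [h8, if_true]
      ring
    · intro k _ hk2
      rw [if_neg, zero_mul]
      intro h3
      exact hk2 (Fin.ext (by show (k : ℕ) = (i : ℕ) - (D - n); omega))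
    · intro h3
      exact absurd (Finset.mem_univ _) h3

end GH.MatU
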