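import Mathlib

/-! Row MU-2: the determinant `det [±1/(p i - j)!]` is a `p`-adic unit. -/

namespace GH.MatU

private theorem vd_norm_nat (p : ℕ) [Fact p.Prime] {m : ℕ} (hm : m ≠ 0) :
    ‖(m : ℚ_[p])‖ = (p : ℝ) ^ (-(padicValNat p m : ℤ)) := by
  rw [Padic.norm_eq_zpow_neg_valuation (by exact_mod_cast hm), Padic.valuation_natCast]

private theorem vd_fac (p : ℕ) [Fact p.Prime] (j : ℕ) :
    ‖((p * (j + 1) - 1).factorial : ℚ_[p])‖ = ‖((p ^ j * j.factorial : ℕ) : ℚ_[p])‖ := by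
  have hp := (Fact.out : p.Prime)
  have h1 : p * (j + 1) - 1 = p * j + (p - 1) := by
    have h2 := hp.one_lt
    rw [mul_add, mul_one]
    omega
  rw [vd_norm_nat p (Nat.factorial_ne_zero _),
    vd_norm_nat p (mul_ne_zero (pow_ne_zero _ hp.ne_zero) (Nat.factorial_ne_zero _)), h1,
    padicValNat_factorial_mul_add j (by have := hp.one_lt; omega), padicValNat_factorial_mul,
    padicValNat.mul (pow_ne_zero _ hp.ne_zero) (Nat.factorial_ne_zero _),
    padicValNat.prime_pow, add_comm]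

/-- `1/(r-c)! = (r-1)(r-2)⋯(r-c+1)/(r-1)!`, Vandermonde in `r_i - 1 = p(i+1) - 1`, and
`v((p(i+1)-1)!) = v(p^i i!)`. -/
theorem norm_vand (p : ℕ) [Fact p.Prime] (n : ℕ) :
    ‖(Matrix.of fun i j : Fin n ↦ if (j : ℕ) + 1 ≤ p * ((i : ℕ) + 1) then
      ((-1 : ℚ_[p]) ^ (p * ((i : ℕ) + 1) - ((j : ℕ) + 1))) /
        ((p * ((i : ℕ) + 1) - ((j : ℕ) + 1)).factorial : ℚ_[p]) else 0).det‖ = 1 := by
  classical
  have hp := (Fact.out : p.Prime)
  set R : Fin n → ℕ := fun i => p * ((i : ℕ) + 1) - 1 with hR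
  have hR1 : ∀ i : Fin n, p * ((i : ℕ) + 1) = R i + 1 := fun i => by
    have : 0 < p * ((i : ℕ) + 1) := Nat.mul_pos hp.pos (Nat.succ_pos _)
    simp only [hR]
    omega
  have hfac : ∀ i : Fin n, ((R i).factorial : ℚ_[p]) ≠ 0 := fun i => by
    exact_mod_cast Nat.factorial_ne_zero _
  -- factor the rows and the columns
  have hA : (Matrix.of fun i j : Fin n ↦ if (j : ℕ) + 1 ≤ p * ((i : ℕ) + 1) then
      ((-1 : ℚ_[p]) ^ (p * ((i : ℕ) + 1) - ((j : ℕ) + 1))) /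
        ((p * ((i : ℕ) + 1) - ((j : ℕ) + 1)).factorial : ℚ_[p]) else 0) =
      Matrix.of fun i j : Fin n ↦ ((-1 : ℚ_[p]) ^ (R i) / ((R i).factorial : ℚ_[p])) *
        (Matrix.of fun i j : Fin n ↦ (-1 : ℚ_[p]) ^ (j : ℕ) *
          (Matrix.of fun i j : Fin n ↦
            (descPochhammer ℚ_[p] (j : ℕ)).eval ((R i : ℕ) : ℚ_[p])) i j) i j := by
    ext i j
    simp only [Matrix.of_apply]
    rw [descPochhammer_eval_eq_descFactorial, hR1 i]
    by_cases hij : (j : ℕ) + 1 ≤ R i + 1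
    · rw [if_pos hij]
      have hle : (j : ℕ) ≤ R i := by omega
      have e1 : R i + 1 - ((j : ℕ) + 1) = R i - j := by omega
      have e2 := Nat.factorial_mul_descFactorial hle
      have e3 : ((R i - (j : ℕ)).factorial : ℚ_[p]) * ((R i).descFactorial j : ℚ_[p]) =
          ((R i).factorial : ℚ_[p]) := by exact_mod_cast e2
      have h0 : ((R i - (j : ℕ)).factorial : ℚ_[p]) ≠ 0 := by
        exact_mod_cast Nat.factorial_ne_zero _
      have e4 : (-1 : ℚ_[p]) ^ (R i - (j : ℕ)) = (-1) ^ (R i) * (-1) ^ (j : ℕ) := by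
        have h5 : (-1 : ℚ_[p]) ^ (R i) = (-1) ^ (R i - (j : ℕ)) * (-1) ^ (j : ℕ) := by
          rw [← pow_add, Nat.sub_add_cancel hle]
        rw [h5, mul_assoc, ← mul_pow]
        simp
      rw [e1, e4, div_mul_eq_mul_div, div_eq_div_iff h0 (hfac i), ← e3]
      ring
    · rw [if_neg hij, Nat.descFactorial_of_lt (by omega)]
      simp
  rw [hA, Matrix.det_mul_column, Matrix.det_mul_row,
    ← Matrix.det_eval_matrixOfPolynomials_eq_det_vandermonde (fun i : Fin n => ((R i : ℕ) : ℚ_[p]))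
      (fun j => descPochhammer ℚ_[p] (j : ℕ)) (fun j => descPochhammer_natDegree _ _)
      (fun j => monic_descPochhammer _ _), Matrix.det_vandermonde, norm_mul, norm_mul, norm_prod,
    norm_prod, norm_prod]
  have e1 : ∏ j : Fin n, ‖(-1 : ℚ_[p]) ^ (j : ℕ)‖ = 1 :=
    Finset.prod_eq_one fun j _ => by rw [norm_pow, norm_neg, norm_one, one_pow]
  have e2 : ∏ i : Fin n, ‖(-1 : ℚ_[p]) ^ (R i) / ((R i).factorial : ℚ_[p])‖ =
      (∏ i : Fin n, ‖((R i).factorial : ℚ_[p])‖)⁻¹ := by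
    rw [← Finset.prod_inv_distrib]
    refine Finset.prod_congr rfl fun i _ => ?_
    rw [norm_div, norm_pow, norm_neg, norm_one, one_pow, one_div]
  have e3 : ∏ i : Fin n, ‖∏ j ∈ Finset.Ioi i, (((R j : ℕ) : ℚ_[p]) - ((R i : ℕ) : ℚ_[p]))‖ =
      ∏ j : Fin n, ‖((R j).factorial : ℚ_[p])‖ := by
    have h1 : ∀ i : Fin n, ‖∏ j ∈ Finset.Ioi i, (((R j : ℕ) : ℚ_[p]) - ((R i : ℕ) : ℚ_[p]))‖ =
        ∏ j ∈ Finset.Ioi i, ‖((R j : ℕ) : ℚ_[p]) - ((R i : ℕ) : ℚ_[p])‖ := fun i => norm_prod _ _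
    rw [Finset.prod_congr rfl fun i _ => h1 i,
      Finset.prod_comm' (t' := Finset.univ) (s' := fun j => Finset.Iio j) (by
        intro x y
        simp)]
    refine Finset.prod_congr rfl fun j _ => ?_
    have h2 : ∀ i ∈ Finset.Iio j, ‖((R j : ℕ) : ℚ_[p]) - ((R i : ℕ) : ℚ_[p])‖ =
        (fun k : ℕ => ‖((p * ((j : ℕ) - k) : ℕ) : ℚ_[p])‖) (Fin.valEmbedding i) := by
      intro i hi
      rw [Finset.mem_Iio] at hi
      have h3 : (i : ℕ) ≤ (j : ℕ) := (Fin.lt_def.1 hi).le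
      have h4 : R i ≤ R j := by
        have h5 : p * ((i : ℕ) + 1) ≤ p * ((j : ℕ) + 1) := Nat.mul_le_mul_left _ (by omega)
        have h6 := hR1 i
        have h7 := hR1 j
        omega
      have h5 : R j - R i = p * ((j : ℕ) - (i : ℕ)) := by
        have h6 := hR1 i
        have h7 := hR1 j
        have h8 : p * ((j : ℕ) - (i : ℕ)) = p * ((j : ℕ) + 1) - p * ((i : ℕ) + 1) := by
          rw [← Nat.mul_sub]
          congr 1
          omega
        rw [h8]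
        omega
      rw [← Nat.cast_sub h4, h5]
      rfl
    rw [Finset.prod_congr rfl h2, ← Finset.prod_map (Finset.Iio j) Fin.valEmbedding
      (fun k : ℕ => ‖((p * ((j : ℕ) - k) : ℕ) : ℚ_[p])‖), Fin.map_valEmbedding_Iio]
    have h6 : ∏ k ∈ Finset.Iio (j : ℕ), ‖((p * ((j : ℕ) - k) : ℕ) : ℚ_[p])‖ =
        ‖((∏ k ∈ Finset.range (j : ℕ), (p * ((j : ℕ) - k)) : ℕ) : ℚ_[p])‖ := by
      rw [Nat.cast_prod, norm_prod]
      refine Finset.prod_congr ?_ fun _ _ => rfl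
      ext k
      simp
    rw [h6, Finset.prod_mul_distrib, Finset.prod_const, Finset.card_range,
      ← Nat.descFactorial_eq_prod_range, Nat.descFactorial_self]
    exact (vd_fac p j).symm
  rw [e1, e2, e3, one_mul]
  refine inv_mul_cancel₀ (Finset.prod_ne_zero_iff.2 fun i _ => ?_)
  exact norm_ne_zero_iff.2 (hfac i)

end GH.MatU
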