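import Pool.Agent.GH.MatU.Toep
import Pool.Agent.GH.MatU.DetDeg
import Pool.Agent.GH.MatU.Vand

/-!
# GH-MATU: degree and top coefficient of `det Z_[n]`
-/

open PowerSeries

noncomputable section

namespace GH.MatU

variable {p : ℕ} [Fact p.Prime]

/-- `det Z_[n]`. -/
def QQ (p : ℕ) [Fact p.Prime] (a n : ℕ) : Polynomial ℤ_[p] :=
  (Matrix.of fun i j : Fin n ↦ ZZ p a (i : ℕ) (j : ℕ)).det

theorem vS_const (p : ℕ) (R : Type*) [CommRing R] : constantCoeff (vS p R) = 0 := by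
  simp [vS]

theorem wS_const (p : ℕ) (R : Type*) [CommRing R] : constantCoeff (wS p R) = 1 := by
  simp [wS]

theorem const_wv (p a j : ℕ) {R : Type*} [CommRing R] (F : PowerSeries R) :
    constantCoeff (wS p R ^ a * vS p R ^ (j + 1) * F) = 0 := by
  rw [map_mul, map_mul, map_pow, map_pow, vS_const, pow_succ, mul_zero, mul_zero, zero_mul]

theorem map_cmat {R S : Type*} [CommRing R] [CommRing S] (f : R →+* S) (p : ℕ)
    (F : ℕ → PowerSeries R) (i j : ℕ) :
    f (cmat p F i j) = cmat p (fun j ↦ PowerSeries.map f (F j)) i j := by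
  simp [cmat, coeff_map]

theorem map_ZZ {S : Type*} [CommRing S] (f : Polynomial ℤ_[p] →+* S) (a i j : ℕ) :
    f (ZZ p a i j) =
      cmat p (fun j ↦ wS p S ^ a * vS p S ^ (j + 1) * PowerSeries.map f (Th p)) i j := by
  rw [ZZ, map_cmat]
  simp only [map_mul, map_pow, map_wS, map_vS]

/-- The determinant over `ℚ_p[X]` with `(1-s)^X` instead of `Θ`. -/
theorem toQ_QQ (hp : p = 2 ∨ p = 3) (a n : ℕ) :
    toQ p (QQ p a n) = (Matrix.of fun i j : Fin n ↦
      cmat p (fun j ↦ wS p (Polynomial ℚ_[p]) ^ a * vS p (Polynomial ℚ_[p]) ^ (j + 1) * EX p)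
        (i : ℕ) (j : ℕ)).det := by
  obtain ⟨Xi, h1, h2, h3⟩ := ratio_Q hp
  have h4 := det_cmat_mul (p_ne_zero p)
    (F := fun j ↦ wS p (Polynomial ℚ_[p]) ^ a * vS p (Polynomial ℚ_[p]) ^ (j + 1) *
      PowerSeries.map (toQ p) (Th p)) (fun j ↦ const_wv p a j _) h1 h2 n
  have h5 : (fun j : ℕ ↦ wS p (Polynomial ℚ_[p]) ^ a * vS p (Polynomial ℚ_[p]) ^ (j + 1) *
      PowerSeries.map (toQ p) (Th p) * Xi) =
      fun j ↦ wS p (Polynomial ℚ_[p]) ^ a * vS p (Polynomial ℚ_[p]) ^ (j + 1) * EX p := by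
    funext j
    rw [h3, mul_assoc]
  rw [h5] at h4
  rw [h4, QQ, RingHom.map_det]
  congr 1
  ext1 i j
  rw [RingHom.mapMatrix_apply, Matrix.map_apply, Matrix.of_apply, Matrix.of_apply, map_ZZ]

/-- The series `w^a v^(j+1)` is `s^(j+1) (1 + ⋯)`. -/
theorem coeff_wv (p : ℕ) [Fact p.Prime] (a j : ℕ) (R : Type*) [CommRing R] {m : ℕ}
    (hm : m ≤ j + 1) :
    coeff m (wS p R ^ a * vS p R ^ (j + 1)) = if m = j + 1 then 1 else 0 := by
  have h1 : wS p R ^ a * vS p R ^ (j + 1) =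
      X ^ (j + 1) * (wS p R ^ a * ((1 - X ^ p) * gs R ^ (p + 1)) ^ (j + 1)) := by
    rw [vS, mul_assoc X, mul_pow X]
    ring
  rw [h1]
  split_ifs with h
  · rw [h]
    have h2 := coeff_X_pow_mul (wS p R ^ a * ((1 - X ^ p) * gs R ^ (p + 1)) ^ (j + 1)) (j + 1) 0
    rw [zero_add] at h2
    rw [h2, coeff_zero_eq_constantCoeff_apply, map_mul, map_pow, map_pow, map_mul, map_pow,
      map_sub, map_pow, wS_const, constantCoeff_X]
    have h3 : constantCoeff (gs R) = 1 := by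
      rw [← coeff_zero_eq_constantCoeff_apply, gs, coeff_mk]
    rw [h3, zero_pow (p_ne_zero p)]
    simp
  · exact X_pow_dvd_iff.mp (dvd_mul_right _ _) m (by omega)

theorem EX_natDegree (n : ℕ) : (coeff n (EX p)).natDegree ≤ n := by
  rw [EX, coeff_mk]
  refine (Polynomial.natDegree_C_mul_le _ _).trans ?_
  rw [descPochhammer_natDegree]

theorem EX_top (n : ℕ) : (coeff n (EX p)).coeff n = (-1) ^ n / (n.factorial : ℚ_[p]) := by
  rw [EX, coeff_mk, Polynomial.coeff_C_mul]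
  have h1 : (descPochhammer ℚ_[p] n).coeff n = 1 := by
    have h2 := monic_descPochhammer ℚ_[p] n
    rw [Polynomial.Monic, Polynomial.leadingCoeff, descPochhammer_natDegree] at h2
    exact h2
  rw [h1, mul_one]

/-- A power series over `K` as a power series over `K[X]`. -/
theorem wv_C (a j m : ℕ) :
    coeff m (wS p (Polynomial ℚ_[p]) ^ a * vS p (Polynomial ℚ_[p]) ^ (j + 1)) =
      Polynomial.C (coeff m (wS p ℚ_[p] ^ a * vS p ℚ_[p] ^ (j + 1))) := by
  have h : PowerSeries.map (Polynomial.C (R := ℚ_[p])) (wS p ℚ_[p] ^ a * vS p ℚ_[p] ^ (j + 1)) =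
      wS p (Polynomial ℚ_[p]) ^ a * vS p (Polynomial ℚ_[p]) ^ (j + 1) := by
    rw [map_mul, map_pow, map_pow, map_wS, map_vS]
  rw [← h, coeff_map]

/-- Degree of the entries. -/
theorem entry_deg (a i j : ℕ) :
    (cmat p (fun j ↦ wS p (Polynomial ℚ_[p]) ^ a * vS p (Polynomial ℚ_[p]) ^ (j + 1) * EX p)
      i j).natDegree ≤ p * (i + 1) - (j + 1) := by
  rw [cmat, coeff_mul]
  refine Polynomial.natDegree_sum_le_of_forall_le _ _ fun x hx => ?_
  rw [Finset.HasAntidiagonal.mem_antidiagonal] at hx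
  rw [wv_C]
  by_cases h : x.1 < j + 1
  · rw [coeff_wv p a j ℚ_[p] h.le, if_neg (by omega)]
    simp
  · refine (Polynomial.natDegree_C_mul_le _ _).trans ((EX_natDegree _).trans ?_)
    omega

/-- Entries are `0` for `p (i+1) < j+1`. -/
theorem entry_zero (a i j : ℕ) (h : p * (i + 1) < j + 1) :
    cmat p (fun j ↦ wS p (Polynomial ℚ_[p]) ^ a * vS p (Polynomial ℚ_[p]) ^ (j + 1) * EX p)
      i j = 0 := by
  rw [cmat, coeff_mul]
  refine Finset.sum_eq_zero fun x hx => ?_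
  rw [Finset.HasAntidiagonal.mem_antidiagonal] at hx
  rw [coeff_wv p a j _ (by omega), if_neg (by omega), zero_mul]

/-- Top coefficient of the entries. -/
theorem entry_top (a i j : ℕ) (h : j + 1 ≤ p * (i + 1)) :
    (cmat p (fun j ↦ wS p (Polynomial ℚ_[p]) ^ a * vS p (Polynomial ℚ_[p]) ^ (j + 1) * EX p)
      i j).coeff (p * (i + 1) - (j + 1)) =
      (-1 : ℚ_[p]) ^ (p * (i + 1) - (j + 1)) / ((p * (i + 1) - (j + 1)).factorial : ℚ_[p]) := by
  rw [cmat, coeff_mul, Polynomial.finsetSum_coeff,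
    Finset.sum_eq_single (j + 1, p * (i + 1) - (j + 1))]
  · rw [coeff_wv p a j _ le_rfl, if_pos rfl, one_mul, EX_top]
  · intro x hx hne
    rw [Finset.HasAntidiagonal.mem_antidiagonal] at hx
    rw [wv_C, Polynomial.coeff_C_mul]
    by_cases h1 : x.1 < j + 1
    · rw [coeff_wv p a j ℚ_[p] h1.le, if_neg (by omega), zero_mul]
    · have h2 : x.1 ≠ j + 1 := by
        intro h3
        apply hne
        ext
        · exact h3
        · show x.2 = p * (i + 1) - (j + 1)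
          omega
      rw [Polynomial.coeff_eq_zero_of_natDegree_lt ((EX_natDegree _).trans_lt ?_), mul_zero]
      omega
  · intro h1
    exact absurd (Finset.HasAntidiagonal.mem_antidiagonal.mpr (by omega)) h1

theorem sum_fin (n : ℕ) : ∑ i : Fin n, ((i : ℕ) + 1) = n * (n + 1) / 2 := by
  have h2 := Finset.sum_range_id_mul_two (n + 1)
  rw [Finset.sum_range_succ', add_zero] at h2
  rw [Fin.sum_univ_eq_sum_range (fun i => i + 1) n]
  rw [Nat.add_sub_cancel] at h2
  rw [mul_comm n (n + 1), ← h2, Nat.mul_div_cancel _ (by norm_num)]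

theorem sum_rc (p n : ℕ) : ∑ i : Fin n, (p * ((i : ℕ) + 1)) - ∑ i : Fin n, ((i : ℕ) + 1) =
    (p - 1) * (n * (n + 1) / 2) := by
  rw [← Finset.mul_sum, sum_fin, Nat.sub_mul, one_mul]

/-- degree of `det Z` -/
theorem QQ_deg (hp : p = 2 ∨ p = 3) (a n : ℕ) :
    (QQ p a n).natDegree ≤ (p - 1) * (n * (n + 1) / 2) := by
  have h1 : (toQ p (QQ p a n)).natDegree ≤ (p - 1) * (n * (n + 1) / 2) := by
    rw [toQ_QQ hp, ← sum_rc p n]
    exact natDegree_det_le _ (fun i => p * ((i : ℕ) + 1)) (fun j => (j : ℕ) + 1)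
      (fun i j h => entry_zero a i j h) (fun i j => entry_deg a i j)
  rwa [toQ, Polynomial.coe_mapRingHom, Polynomial.natDegree_map_eq_of_injective
    (Subtype.coe_injective)] at h1

/-- top coefficient of `det Z` -/
theorem QQ_top (hp : p = 2 ∨ p = 3) (a n : ℕ) :
    IsUnit ((QQ p a n).coeff ((p - 1) * (n * (n + 1) / 2))) := by
  rw [PadicInt.isUnit_iff]
  have h1 : ((QQ p a n).coeff ((p - 1) * (n * (n + 1) / 2)) : ℚ_[p]) =
      (toQ p (QQ p a n)).coeff ((p - 1) * (n * (n + 1) / 2)) := by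
    rw [toQ, Polynomial.coe_mapRingHom, Polynomial.coeff_map]
    rfl
  rw [PadicInt.norm_def, h1, toQ_QQ hp, ← sum_rc p n]
  have h3 := coeff_det (Matrix.of fun i j : Fin n ↦
      cmat p (fun j ↦ wS p (Polynomial ℚ_[p]) ^ a * vS p (Polynomial ℚ_[p]) ^ (j + 1) * EX p)
        (i : ℕ) (j : ℕ)) (fun i => p * ((i : ℕ) + 1)) (fun j => (j : ℕ) + 1)
      (fun i j h => entry_zero a i j h) (fun i j => entry_deg a i j)
      (Finset.sum_le_sum fun i _ => Nat.le_mul_of_pos_left _ (Fact.out : p.Prime).pos)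
  rw [h3, ← norm_vand p n]
  congr 2
  ext1 i j
  simp only [Matrix.of_apply]
  by_cases h : (j : ℕ) + 1 ≤ p * ((i : ℕ) + 1)
  · rw [if_pos h, if_pos h, entry_top a i j h]
  · rw [if_neg h, if_neg h]

end GH.MatU
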