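import Pool.Agent.GH.MatU.Lead
import Pool.Agent.GH.UDet

/-!
# GH-MATU: the leading minors, second part
-/

open Polynomial

noncomputable section

namespace GH.MatU

variable {p : ℕ} [Fact p.Prime]

/-- `∏_(m ≡ a) (X - m)^(T n m)`. -/
def PP (p : ℕ) [Fact p.Prime] (a n : ℕ) : ℤ_[p][X] :=
  ∏ m ∈ Finset.range (Zb p n), (X - C (m : ℤ_[p])) ^ Ta p a n m

theorem PP_monic (a n : ℕ) : (PP p a n).Monic :=
  monic_prod_of_monic _ _ fun _ _ => (monic_X_sub_C _).pow _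

theorem PP_dvd (hp : p = 2 ∨ p = 3) (a n : ℕ) : PP p a n ∣ QQ p a n := by
  have hinj : Function.Injective (PadicInt.Coe.ringHom (p := p)) := Subtype.coe_injective
  rw [← map_dvd_map _ hinj (PP_monic a n)]
  have h1 : (PP p a n).map (PadicInt.Coe.ringHom (p := p)) =
      ∏ m ∈ Finset.range (Zb p n), (X - C (m : ℚ_[p])) ^ Ta p a n m := by
    rw [PP, Polynomial.map_prod]
    refine Finset.prod_congr rfl fun m _ => ?_
    rw [Polynomial.map_pow, Polynomial.map_sub, map_X, map_C, map_natCast]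
  rw [h1]
  refine Finset.prod_dvd_of_coprime ?_ ?_
  · intro m _ m' _ hmm
    refine IsCoprime.pow ?_
    refine isCoprime_X_sub_C_of_isUnit_sub ?_
    rw [isUnit_iff_ne_zero, sub_ne_zero]
    exact_mod_cast hmm
  · intro m _
    rw [Ta]
    split_ifs with h
    · have h2 := pow_dvd_QQ hp m n
      rw [h] at h2
      exact h2
    · rw [pow_zero]
      exact one_dvd _

/-- reduction mod `p` -/
def rd (p : ℕ) [Fact p.Prime] : ℤ_[p][X] →+* (ZMod p)[X] := mapRingHom PadicInt.toZMod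

theorem wS_zmod (hp : p = 2 ∨ p = 3) : wS p (ZMod p)[X] = 1 := by
  rw [wS]
  have h2 : ((cw p : ℕ) : (ZMod p)[X]) = 0 := by
    rcases hp with rfl | rfl
    · rw [cw, if_pos rfl]
      have : ((2 : ℕ) : (ZMod 2)[X]) = 0 := CharP.cast_eq_zero _ 2
      rw [show (4 : ℕ) = 2 * 2 by norm_num, Nat.cast_mul, this, zero_mul]
    · rw [cw, if_neg (by decide)]
      exact CharP.cast_eq_zero _ 3
  rw [h2, map_zero, zero_mul, zero_mul, add_zero]

theorem rd_ZZ (hp : p = 2 ∨ p = 3) (a i j : ℕ) : rd p (ZZ p a i j) = rd p (ZZ p 0 i j) := by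
  rw [map_ZZ, map_ZZ, wS_zmod hp, one_pow, one_pow]

theorem rd_QQ (hp : p = 2 ∨ p = 3) (a n : ℕ) : rd p (QQ p a n) = rd p (QQ p 0 n) := by
  have h (b : ℕ) : rd p (QQ p b n) =
      (Matrix.of fun i j : Fin n ↦ rd p (ZZ p b (i : ℕ) (j : ℕ))).det := by
    rw [QQ, RingHom.map_det]
    rfl
  rw [h, h]
  simp only [rd_ZZ hp a]

theorem rd_PP (a n : ℕ) : rd p (PP p a n) =
    (X - C (a : ZMod p)) ^ (∑ m ∈ Finset.range (Zb p n), Ta p a n m) := by
  rw [PP, map_prod, ← Finset.prod_pow_eq_pow_sum]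
  refine Finset.prod_congr rfl fun m _ => ?_
  rw [map_pow, map_sub, rd, coe_mapRingHom, map_X, map_C, map_natCast]
  by_cases h : m % p = a
  · congr 3
    rw [← h, ZMod.natCast_mod]
  · rw [Ta, if_neg h, pow_zero, pow_zero]

theorem sum_Ta (hp : p = 2 ∨ p = 3) (n : ℕ) :
    ∑ a ∈ Finset.range p, ∑ m ∈ Finset.range (Zb p n), Ta p a n m =
      (p - 1) * (n * (n + 1) / 2) := by
  rw [Finset.sum_comm, ← sum_TT hp]
  refine Finset.sum_congr rfl fun m _ => ?_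
  simp only [Ta]
  rw [Finset.sum_ite_eq, if_pos]
  exact Finset.mem_range.2 (Nat.mod_lt _ (Fact.out : p.Prime).pos)

/-- The number of zeros in the class of `b`. -/
def SS (p b n : ℕ) : ℕ := ∑ m ∈ Finset.range (Zb p n), Ta p b n m

/-- The reduction of `det Z` mod `p`. -/
theorem rd_QQ_eq (hp : p = 2 ∨ p = 3) (a n : ℕ) : ∃ c : ZMod p, c ≠ 0 ∧
    rd p (QQ p a n) = (∏ b ∈ Finset.range p, (X - C (b : ZMod p)) ^ SS p b n) * C c := by
  set q : (ZMod p)[X] := rd p (QQ p 0 n) with hq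
  have hdvd : ∀ b ∈ Finset.range p, (X - C (b : ZMod p)) ^ SS p b n ∣ q := by
    intro b hb
    rw [Finset.mem_range] at hb
    rw [SS, ← rd_PP, hq, ← rd_QQ hp b]
    exact _root_.map_dvd (rd p) (PP_dvd hp b n)
  have hcop : ∀ b ∈ Finset.range p, ∀ b' ∈ Finset.range p, b ≠ b' →
      IsCoprime ((X - C (b : ZMod p)) ^ SS p b n) ((X - C (b' : ZMod p)) ^ SS p b' n) := by
    intro b hb b' hb' hbb
    refine IsCoprime.pow (isCoprime_X_sub_C_of_isUnit_sub ?_)
    rw [isUnit_iff_ne_zero, sub_ne_zero]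
    intro h
    exact hbb (CharP.natCast_injOn_Iio (ZMod p) p (Finset.mem_range.1 hb)
      (Finset.mem_range.1 hb') h)
  obtain ⟨r, hr⟩ := Finset.prod_dvd_of_coprime (fun b hb b' hb' h => hcop b hb b' hb' h) hdvd
  -- the degree
  have hqd : q.natDegree ≤ (p - 1) * (n * (n + 1) / 2) := by
    refine natDegree_map_le.trans ?_
    exact QQ_deg hp 0 n
  have hq0 : q ≠ 0 := by
    intro h
    have h1 := congrArg (fun f => f.coeff ((p - 1) * (n * (n + 1) / 2))) h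
    simp only [hq, rd, coe_mapRingHom, coeff_map, coeff_zero] at h1
    exact ((QQ_top hp 0 n).map PadicInt.toZMod).ne_zero h1
  have hr0 : r ≠ 0 := by
    rintro rfl
    exact hq0 (by rw [hr, mul_zero])
  have hmon : ∀ s : Finset ℕ, (∏ b ∈ s, (X - C (b : ZMod p)) ^ SS p b n).Monic := fun s =>
    monic_prod_of_monic _ _ fun m _ => (monic_X_sub_C _).pow _
  have hdeg : (∏ b ∈ Finset.range p, (X - C (b : ZMod p)) ^ SS p b n).natDegree =
      (p - 1) * (n * (n + 1) / 2) := by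
    rw [natDegree_prod_of_monic _ _ fun m _ => (monic_X_sub_C _).pow _, ← sum_Ta hp]
    refine Finset.sum_congr rfl fun b _ => ?_
    rw [natDegree_pow, natDegree_X_sub_C, mul_one, SS]
  have hrd : r.natDegree = 0 := by
    have h1 := (hmon (Finset.range p)).natDegree_mul' hr0
    rw [← hr, hdeg] at h1
    omega
  obtain ⟨c, rfl⟩ := natDegree_eq_zero.1 hrd
  have hc : c ≠ 0 := fun h => hr0 (by rw [h, map_zero])
  exact ⟨c, hc, by rw [rd_QQ hp, ← hq, hr]⟩

/-- The leading minor: `p^B · u · ∏ (X - m)^T`, `u(a)` a unit. -/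
theorem lead_NN (hp : p = 2 ∨ p = 3) {a : ℕ} (ha : a < p) (n : ℕ) :
    ∃ u : ℤ_[p][X], IsUnit (u.eval (a : ℤ_[p])) ∧
      Pot.lead (NN p a) n = C ((p : ℤ_[p]) ^ BB p n) * u *
        ∏ m ∈ Finset.range (Zb p n), (X - C (m : ℤ_[p])) ^ Ta p a n m := by
  obtain ⟨u, hu⟩ := PP_dvd hp a n
  refine ⟨u, ?_, ?_⟩
  swap
  · rw [lead_NN_QQ hp, hu, PP]
    ring
  obtain ⟨c, hc, hr⟩ := rd_QQ_eq hp a n
  -- `ū`
  have ha' : a ∈ Finset.range p := Finset.mem_range.2 ha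
  have h1 : (X - C (a : ZMod p)) ^ SS p a n * rd p u = (X - C (a : ZMod p)) ^ SS p a n *
      ((∏ b ∈ (Finset.range p).erase a, (X - C (b : ZMod p)) ^ SS p b n) * C c) := by
    rw [← mul_assoc, Finset.mul_prod_erase _ (fun b : ℕ => (X - C (b : ZMod p)) ^ SS p b n) ha',
      ← hr, hu, map_mul, rd_PP, SS]
  have h2 := mul_left_cancel₀ (pow_ne_zero _ (X_sub_C_ne_zero _)) h1
  have h3 : PadicInt.toZMod (u.eval (a : ℤ_[p])) = (rd p u).eval (a : ZMod p) := by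
    rw [rd, coe_mapRingHom]
    have h4 := eval_map_apply (f := PadicInt.toZMod (p := p)) (p := u) (a : ℤ_[p])
    rw [map_natCast] at h4
    exact h4.symm
  have h4 : (rd p u).eval (a : ZMod p) ≠ 0 := by
    rw [h2, eval_mul, eval_C, eval_prod]
    refine mul_ne_zero (Finset.prod_ne_zero_iff.2 fun b hb => ?_) hc
    rw [eval_pow, eval_sub, eval_X, eval_C]
    refine pow_ne_zero _ (sub_ne_zero.2 fun h => ?_)
    rw [Finset.mem_erase] at hb
    exact hb.1 (CharP.natCast_injOn_Iio (ZMod p) p ha (Finset.mem_range.1 hb.2) h).symm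
  by_contra h5
  apply h4
  rw [← h3]
  have h6 : u.eval (a : ℤ_[p]) ∈ IsLocalRing.maximalIdeal ℤ_[p] := h5
  rw [← PadicInt.ker_toZMod] at h6
  exact h6

/-! ### The generic points -/

theorem norm_eval_lt_one {K : Type*} [NormedField K] [IsUltrametricDist K] {φ : ℤ_[p] →+* K}
    (hφ : ∀ z, ‖φ z‖ = ‖z‖) {E : ℤ_[p][X]} (h : rd p E = 0) {x : K} (hx : ‖x‖ ≤ 1) :
    ‖E.eval₂ φ x‖ < 1 := by
  rw [eval₂_eq_sum_range]
  refine ud_sum_lt _ _ zero_lt_one fun i _ => ?_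
  rw [norm_mul, norm_pow, hφ]
  have h1 : PadicInt.toZMod (E.coeff i) = 0 := by
    have := congrArg (fun f => f.coeff i) h
    simpa [rd, coeff_map] using this
  have h2 : E.coeff i ∈ RingHom.ker (PadicInt.toZMod (p := p)) := h1
  rw [PadicInt.ker_toZMod] at h2
  have h3 : ‖E.coeff i‖ < 1 := PadicInt.mem_nonunits.1 h2
  calc ‖E.coeff i‖ * ‖x‖ ^ i ≤ ‖E.coeff i‖ * 1 :=
        mul_le_mul_of_nonneg_left (pow_le_one₀ (norm_nonneg _) hx) (norm_nonneg _)
    _ < 1 := by rw [mul_one]; exact h3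

theorem norm_QQ_gen {K : Type*} [NormedField K] [IsUltrametricDist K] (hp : p = 2 ∨ p = 3)
    (a n : ℕ) {φ : ℤ_[p] →+* K} (hφ : ∀ z, ‖φ z‖ = ‖z‖) {x : K} (hx : ‖x‖ ≤ 1)
    (h : ∀ b : ℕ, b < p → ‖x - b‖ = 1) : ‖(QQ p a n).eval₂ φ x‖ = 1 := by
  obtain ⟨c, hc, hr⟩ := rd_QQ_eq hp a n
  obtain ⟨c', hc'⟩ : ∃ c' : ℤ_[p], PadicInt.toZMod c' = c :=
    ⟨(c.val : ℤ_[p]), by rw [map_natCast, ZMod.natCast_val, ZMod.cast_id', id]⟩
  set M : ℤ_[p][X] := (∏ b ∈ Finset.range p, (X - C (b : ℤ_[p])) ^ SS p b n) * C c' with hM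
  have h1 : rd p (QQ p a n - M) = 0 := by
    rw [map_sub, hr, sub_eq_zero, hM, map_mul, map_prod]
    congr 1
    · refine Finset.prod_congr rfl fun b _ => ?_
      rw [map_pow, map_sub, rd, coe_mapRingHom, map_X, map_C, map_natCast PadicInt.toZMod]
    · rw [rd, coe_mapRingHom, map_C, hc']
  have h2 := norm_eval_lt_one hφ h1 hx
  have h3 : ‖M.eval₂ φ x‖ = 1 := by
    rw [hM, eval₂_mul, eval₂_C, norm_mul, hφ]
    have h4 : ‖c'‖ = 1 := by
      rw [← PadicInt.isUnit_iff]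
      by_contra h5
      have h6 : c' ∈ IsLocalRing.maximalIdeal ℤ_[p] := h5
      rw [← PadicInt.ker_toZMod] at h6
      exact hc (by rw [← hc']; exact h6)
    rw [h4, mul_one, ← coe_eval₂RingHom, map_prod, norm_prod]
    refine Finset.prod_eq_one fun b hb => ?_
    rw [map_pow, norm_pow, coe_eval₂RingHom, eval₂_sub, eval₂_X, eval₂_C, map_natCast,
      h b (Finset.mem_range.1 hb), one_pow]
  have h4 : (QQ p a n).eval₂ φ x = M.eval₂ φ x + (QQ p a n - M).eval₂ φ x := by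
    rw [eval₂_sub]
    ring
  rw [h4, IsUltrametricDist.norm_add_eq_max_of_norm_ne_norm (by rw [h3]; exact h2.ne'), h3]
  exact max_eq_left h2.le

end GH.MatU
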