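import Pool.Agent.GH.MatU.Corank
import Pool.Agent.GH.MatU.LeadB

/-!
# GH-MATU: minors at the root, and the assembled input `MatA`
-/

open Polynomial

noncomputable section

namespace GH.MatU

/-- The sum of `n` distinct natural numbers. -/
theorem sum_inj {n : ℕ} {b : Fin n → ℕ} (hb : Function.Injective b) :
    n * (n + 1) / 2 ≤ ∑ i, (b i + 1) ∧
      ((∃ i, n ≤ b i) → n * (n + 1) / 2 + 1 ≤ ∑ i, (b i + 1)) := by
  classical
  set s : Finset ℕ := Finset.univ.image b with hs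
  have hc : s.card = n := by
    rw [hs, Finset.card_image_of_injective _ hb, Finset.card_univ, Fintype.card_fin]
  set e := s.orderEmbOfFin hc with he
  have h1 : ∑ i, (b i + 1) = ∑ i, (e i + 1) := by
    have h2 : ∑ i, (b i + 1) = ∑ k ∈ s, (k + 1) := by
      rw [hs, Finset.sum_image fun x _ y _ h => hb h]
    have h3 : ∑ i, (e i + 1) = ∑ k ∈ s, (k + 1) := by
      have h4 : s = Finset.univ.map e.toEmbedding := by
        rw [he]
        exact (Finset.map_orderEmbOfFin_univ s hc).symm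
      conv_rhs => rw [h4]
      rw [Finset.sum_map]
      rfl
    rw [h2, h3]
  have h5 : ∀ i : Fin n, (i : ℕ) ≤ e i := by
    intro i
    obtain ⟨k, hk⟩ := i
    induction k with
    | zero => exact Nat.zero_le _
    | succ k ih =>
      have h6 := ih (by omega)
      have h7 : e ⟨k, by omega⟩ < e ⟨k + 1, hk⟩ := e.strictMono (by
        rw [Fin.mk_lt_mk]
        omega)
      show k + 1 ≤ e ⟨k + 1, hk⟩
      have h8 : k ≤ e ⟨k, by omega⟩ := h6
      omega
  rw [h1, ← sum_fin]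
  refine ⟨Finset.sum_le_sum fun i _ => by have := h5 i; omega, ?_⟩
  rintro ⟨i, hi⟩
  have h6 : b i ∈ s := by
    rw [hs]
    exact Finset.mem_image_of_mem _ (Finset.mem_univ _)
  obtain ⟨k, hk⟩ : ∃ k, e k = b i := by
    have h7 := Finset.range_orderEmbOfFin s hc
    have h8 : b i ∈ Set.range (s.orderEmbOfFin hc) := by rw [h7]; exact h6
    exact h8
  have h7 : ∑ i : Fin n, ((i : ℕ) + 1) < ∑ i, (e i + 1) := by
    refine Finset.sum_lt_sum (fun i _ => by have := h5 i; omega) ⟨k, Finset.mem_univ _, ?_⟩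
    have := k.2
    omega
  omega

variable {p : ℕ} [Fact p.Prime]

/-- All minors are divisible by the power of `ρ`. -/
theorem minor_NN_dvd (a' n : ℕ) (a b : Fin n → ℕ) :
    C (((p * cw p : ℕ) : ℤ_[p]) ^ (∑ i, (b i + 1))) ∣ Pot.minor (NN p a') a b := by
  have h1 := Matrix.det_mul_row
    (fun j : Fin n => C (((p * cw p : ℕ) : ℤ_[p]) ^ (b j + 1)))
    (Matrix.of fun i j : Fin n ↦ ZZ p a' (a i) (b j))
  have h2 : Pot.minor (NN p a') a b = (Matrix.of fun i j : Fin n ↦
      (fun j : Fin n => C (((p * cw p : ℕ) : ℤ_[p]) ^ (b j + 1))) j *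
      (Matrix.of fun i j : Fin n ↦ ZZ p a' (a i) (b j)) i j).det := rfl
  rw [h2, h1, ← Finset.prod_pow_eq_pow_sum, map_prod]
  exact dvd_mul_right _ _

theorem rho_pow (hp : p = 2 ∨ p = 3) : ∃ e, (e = 2 ∨ e = 3) ∧
    ((p * cw p : ℕ) : ℤ_[p]) = (p : ℤ_[p]) ^ e ∧ ∀ n, BB p n = e * (n * (n + 1) / 2) := by
  rcases hp with rfl | rfl
  · refine ⟨3, Or.inr rfl, ?_, fun n => ?_⟩
    · rw [cw, if_pos rfl]
      norm_num
    · rw [BB, if_pos rfl]
  · refine ⟨2, Or.inl rfl, ?_, fun n => ?_⟩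
    · rw [cw, if_neg (by decide)]
      norm_num
    · rw [BB, if_neg (by decide), Nat.two_mul_div_two_of_even (Nat.even_mul_succ_self n)]

/-- Root dominance. -/
theorem root_NN (hp : p = 2 ∨ p = 3) (a' n : ℕ) (a b : Fin n → ℕ) :
    ∀ c ν, (BB p n : ℕ∞) ≤ Pot.gv p c ν (Pot.minor (NN p a') a b) ∧
      ((∃ i, n ≤ b i) → ((BB p n + 1 : ℕ) : ℕ∞) ≤ Pot.gv p c ν (Pot.minor (NN p a') a b)) := by
  intro c ν
  by_cases hb : Function.Injective b
  swap
  · have h1 : Pot.minor (NN p a') a b = 0 := by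
      rw [Function.Injective] at hb
      push Not at hb
      obtain ⟨i, j, hij, hne⟩ := hb
      exact Matrix.det_zero_of_column_eq hne fun k => by
        rw [Matrix.of_apply, Matrix.of_apply, hij]
    rw [h1, Pot.gv_zero]
    exact ⟨le_top, fun _ => le_top⟩
  obtain ⟨h1, h2⟩ := sum_inj hb
  obtain ⟨e, he, h3, h4⟩ := rho_pow hp
  have key : ∀ k, k ≤ e * ∑ i, (b i + 1) → (k : ℕ∞) ≤ Pot.gv p c ν (Pot.minor (NN p a') a b) := by
    intro k hk
    rw [Pot.le_gv_iff]
    have h5 : C ((p : ℤ_[p]) ^ k) ∣ Pot.minor (NN p a') a b := by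
      refine dvd_trans ?_ (minor_NN_dvd a' n a b)
      rw [h3, ← pow_mul, C_pow, C_pow]
      exact pow_dvd_pow _ hk
    exact Pot.gv_dvd_comp h5 _
  rw [h4]
  refine ⟨key _ (Nat.mul_le_mul_left e h1), fun h5 => key _ ?_⟩
  have h6 := Nat.mul_le_mul_left e (h2 h5)
  rcases he with rfl | rfl <;> omega

/-- The input for the potential theory. -/
theorem matA_NN (hp : p = 2 ∨ p = 3) {a : ℕ} (ha : a < p) :
    Pot.MatA p a (NN p a) (BB p) (Zb p) (Ta p a) (ss p) (tt p) where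
  lead n := lead_NN hp ha n
  root n a' b := (root_NN hp a n a' b a 0).1
  corank m h := corank_NN hp a m h

end GH.MatU
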