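import Pool.Agent.GH.MatU.Lpow

/-!
# GH-MATU: the series `w`, `v` and Dwork's factor `Θ`

`p = 2` or `3`; `w = 1 + c s/(1-s)` (`c = 4, 3`), `v = s (1-s^p)/(1-s)^(p+1)`, `w^p - 1 = p c v`,
`(1-s)^p = (1-s^p)(1 + p θ)`, `θ = (s^2-s)/(1-s^p)`, and `Θ ∈ ℤ_p[x][[s]]` with
`Θ^p = σ(Θ) (1+pθ)^x`.
-/

open PowerSeries

noncomputable section

namespace GH.MatU

/-- `1/(1-s)`. -/
def gs (R : Type*) [CommRing R] : PowerSeries R := PowerSeries.mk fun _ ↦ 1

theorem gs_mul (R : Type*) [CommRing R] : (1 - X) * gs R = 1 := by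
  rw [mul_comm]
  exact PowerSeries.mk_one_mul_one_sub_eq_one R

theorem map_gs {R S : Type*} [CommRing R] [CommRing S] (f : R →+* S) :
    PowerSeries.map f (gs R) = gs S := by
  ext n
  simp [gs, coeff_map]

/-- `4` for `p = 2` and `3` for `p = 3`. -/
def cw (p : ℕ) : ℕ := if p = 2 then 4 else 3

/-- `w = 1 + c s/(1-s)`. -/
def wS (p : ℕ) (R : Type*) [CommRing R] : PowerSeries R := 1 + C (cw p : R) * X * gs R

/-- `v = s (1-s^p)/(1-s)^(p+1)`. -/
def vS (p : ℕ) (R : Type*) [CommRing R] : PowerSeries R := X * (1 - X ^ p) * gs R ^ (p + 1)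

theorem map_wS {R S : Type*} [CommRing R] [CommRing S] (f : R →+* S) (p : ℕ) :
    PowerSeries.map f (wS p R) = wS p S := by
  simp [wS, map_gs]

theorem map_vS {R S : Type*} [CommRing R] [CommRing S] (f : R →+* S) (p : ℕ) :
    PowerSeries.map f (vS p R) = vS p S := by
  simp [vS, map_gs]

theorem wS_pow {p : ℕ} (hp : p = 2 ∨ p = 3) (R : Type*) [CommRing R] :
    wS p R ^ p - 1 = C ((p * cw p : ℕ) : R) * vS p R := by
  have h := gs_mul R
  rcases hp with rfl | rfl
  · simp only [wS, vS, cw, if_true]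
    push_cast
    simp only [map_ofNat]
    linear_combination (-8 * X * gs R - 8 * X * (1 + X) * gs R ^ 2 : PowerSeries R) * h
  · simp only [wS, vS, cw, show ¬ (3 = 2) by decide, if_false]
    push_cast
    simp only [map_ofNat]
    linear_combination (-(9 * X * gs R * (1 + gs R + 2 * X * gs R) +
      9 * X * (1 + X + X ^ 2) * gs R ^ 3) : PowerSeries R) * h

variable (p : ℕ) [Fact p.Prime]

/-- `1/(1-s^p)`. -/
def gsp (R : Type*) [CommRing R] : PowerSeries R := PowerSeries.expand p (p_ne_zero p) (gs R)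

theorem gsp_mul (R : Type*) [CommRing R] : (1 - X ^ p) * gsp p R = 1 := by
  have := congrArg (PowerSeries.expand p (p_ne_zero p)) (gs_mul R)
  rw [map_mul, map_sub, map_one, PowerSeries.expand_X] at this
  exact this

/-- `θ = (s^2 - s)/(1-s^p)`. -/
def thL : PowerSeries ℤ_[p] := (X ^ 2 - X) * gsp p ℤ_[p]

theorem thL_const : constantCoeff (thL p) = 0 := by
  simp [thL]

theorem one_sub_pow (hp : p = 2 ∨ p = 3) :
    ((1 - X) ^ p : PowerSeries ℤ_[p]) = (1 - X ^ p) * (1 + C (p : ℤ_[p]) * thL p) := by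
  have h := gsp_mul p ℤ_[p]
  have h2 : ((1 - X ^ p) * (1 + C (p : ℤ_[p]) * thL p) : PowerSeries ℤ_[p]) =
      1 - X ^ p + C (p : ℤ_[p]) * (X ^ 2 - X) := by
    rw [thL]
    linear_combination (C (p : ℤ_[p]) * (X ^ 2 - X)) * h
  rw [h2]
  rcases hp with rfl | rfl
  · push_cast
    simp only [map_ofNat]
    ring
  · push_cast
    simp only [map_ofNat]
    ring

/-- `L^x = ((1-s)^p/(1-s^p))^x`. -/
def LX : PowerSeries (Polynomial ℤ_[p]) := Lpow p (thL p)

/-- Dwork's factor. -/
def Th : PowerSeries (Polynomial ℤ_[p]) :=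
  (dwork p (red_Lpow p (thL_const p)) (Lpow_const p (thL_const p))).choose

theorem Th_const : constantCoeff (Th p) = 1 :=
  (dwork p (red_Lpow p (thL_const p)) (Lpow_const p (thL_const p))).choose_spec.1

theorem Th_pow : Th p ^ p = sig p (Th p) * LX p :=
  (dwork p (red_Lpow p (thL_const p)) (Lpow_const p (thL_const p))).choose_spec.2

variable {p}

omit [Fact p.Prime] in
theorem isExp_map {A B : Type*} [CommRing A] [CommRing B] (f : A →+* B) {F : PowerSeries A}
    (h : IsExp p F) : IsExp p (PowerSeries.map f F) := by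
  intro n hn
  rw [coeff_map, h n hn, map_zero]

theorem isExp_one_sub (R : Type*) [CommRing R] : IsExp p (1 - X ^ p : PowerSeries R) := by
  have := isExp_expand (p_ne_zero p) (1 - X : PowerSeries R)
  rwa [map_sub, map_one, PowerSeries.expand_X] at this

theorem const_map {A B : Type*} [CommRing A] [CommRing B] (f : A →+* B) {F : PowerSeries A}
    (h : constantCoeff F = 1) : constantCoeff (PowerSeries.map f F) = 1 := by
  rw [← coeff_zero_eq_constantCoeff_apply, coeff_map, coeff_zero_eq_constantCoeff_apply, h,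
    map_one]

/-- The ratio, general form. -/
theorem ratio {A : Type*} [CommRing A] [IsDomain A] [CharZero A]
    (ψ : Polynomial ℤ_[p] →+* A) {E B : PowerSeries A} (hE : constantCoeff E = 1)
    (hB : IsExp p B) (h : E ^ p = B * PowerSeries.map ψ (LX p)) :
    ∃ Xi : PowerSeries A, IsExp p Xi ∧ constantCoeff Xi = 1 ∧
      E = PowerSeries.map ψ (Th p) * Xi := by
  refine exists_ratio (const_map ψ (Th_const p)) hE (isExp_map ψ (isExp_sig p (Th p))) hB ?_ h
  rw [← map_pow, Th_pow, map_mul]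

/-- At the integers. -/
theorem ratio_nat (hp : p = 2 ∨ p = 3) (x : ℕ) :
    ∃ Xi : PowerSeries ℤ_[p], IsExp p Xi ∧ constantCoeff Xi = 1 ∧
      (1 - X) ^ x = PowerSeries.map (Polynomial.evalRingHom (x : ℤ_[p])) (Th p) * Xi := by
  refine ratio (B := (1 - X ^ p) ^ x) _ ?_ ((isExp_one_sub _).pow (p_ne_zero p) _) ?_
  · simp
  · rw [LX, Lpow_eval p (thL_const p), ← mul_pow, ← one_sub_pow p hp, ← pow_mul, ← pow_mul,
      mul_comm]

/-- `(1-s)^X` over `ℚ_p[X]`. -/
def EX (p : ℕ) [Fact p.Prime] : PowerSeries (Polynomial ℚ_[p]) :=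
  PowerSeries.mk fun n ↦ Polynomial.C ((-1) ^ n / (n.factorial : ℚ_[p])) * descPochhammer ℚ_[p] n

theorem EX_eval (n : ℕ) :
    PowerSeries.map (Polynomial.evalRingHom (n : ℚ_[p])) (EX p) = (1 - X) ^ n := by
  ext m
  rw [coeff_map, EX, coeff_mk, Polynomial.coe_evalRingHom, Polynomial.eval_mul, Polynomial.eval_C,
    descPochhammer_eval_eq_descFactorial, Nat.descFactorial_eq_factorial_mul_choose]
  have h1 : (1 - X : PowerSeries ℚ_[p]) = 1 + C (-1) * X := by simp [sub_eq_add_neg]
  rw [h1, coeff_one_add_mul_X_pow]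
  have h2 : (m.factorial : ℚ_[p]) ≠ 0 := Nat.cast_ne_zero.mpr m.factorial_ne_zero
  push_cast
  field_simp

theorem EX_const : constantCoeff (EX p) = 1 := by
  rw [← coeff_zero_eq_constantCoeff_apply, EX, coeff_mk]
  simp

/-- The inclusion `ℤ_p[X] → ℚ_p[X]`. -/
def toQ (p : ℕ) [Fact p.Prime] : Polynomial ℤ_[p] →+* Polynomial ℚ_[p] :=
  Polynomial.mapRingHom PadicInt.Coe.ringHom

theorem evalQ (n : ℕ) : (Polynomial.evalRingHom (n : ℚ_[p])).comp (toQ p) =
    (PadicInt.Coe.ringHom).comp (Polynomial.evalRingHom (n : ℤ_[p])) := by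
  apply Polynomial.ringHom_ext
  · intro a
    simp [toQ]
  · simp [toQ]

theorem map_comp' {A B D : Type*} [CommRing A] [CommRing B] [CommRing D] (f : A →+* B)
    (g : B →+* D) (F : PowerSeries A) :
    PowerSeries.map g (PowerSeries.map f F) = PowerSeries.map (g.comp f) F := by
  ext n
  simp [coeff_map]

/-- Over `ℚ_p[X]`. -/
theorem ratio_Q (hp : p = 2 ∨ p = 3) :
    ∃ Xi : PowerSeries (Polynomial ℚ_[p]), IsExp p Xi ∧ constantCoeff Xi = 1 ∧
      EX p = PowerSeries.map (toQ p) (Th p) * Xi := by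
  -- `(1-s^p)^X`
  refine ratio (B := PowerSeries.expand p (p_ne_zero p) (EX p)) _ EX_const
    (isExp_expand _ _) ?_
  apply ext_nat
  intro n
  rw [map_pow, EX_eval, map_mul, PowerSeries.map_expand, EX_eval, map_comp', evalQ, ← map_comp',
    LX, Lpow_eval p (thL_const p), map_pow, map_pow, map_sub, map_one, PowerSeries.expand_X,
    ← mul_pow, ← pow_mul, mul_comm n p, pow_mul]
  congr 1
  have h := congrArg (PowerSeries.map (PadicInt.Coe.ringHom (p := p))) (one_sub_pow p hp)
  rw [map_pow, map_mul, map_sub, map_sub, map_one, map_pow, PowerSeries.map_X] at h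
  exact h

/-- `L^(a + p y) = L^a (L^y)^p` over `ℤ_p[y]`. -/
theorem LX_comp (a : ℕ) :
    PowerSeries.map (Polynomial.compRingHom (Polynomial.C (a : ℤ_[p]) +
      Polynomial.C (p : ℤ_[p]) * Polynomial.X)) (LX p) =
      PowerSeries.map Polynomial.C ((1 + C (p : ℤ_[p]) * thL p) ^ a) * LX p ^ p := by
  apply ext_nat
  intro n
  have h1 : (Polynomial.evalRingHom (n : ℤ_[p])).comp
      (Polynomial.compRingHom (Polynomial.C (a : ℤ_[p]) +
        Polynomial.C (p : ℤ_[p]) * Polynomial.X)) =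
      Polynomial.evalRingHom ((a + p * n : ℕ) : ℤ_[p]) := by
    apply Polynomial.ringHom_ext
    · intro b
      simp
    · simp
  have h2 : (Polynomial.evalRingHom (n : ℤ_[p])).comp (Polynomial.C (R := ℤ_[p])) =
      RingHom.id _ := by
    ext b
    simp
  have h3 : PowerSeries.map (RingHom.id ℤ_[p]) ((1 + C (p : ℤ_[p]) * thL p) ^ a) =
      (1 + C (p : ℤ_[p]) * thL p) ^ a := by
    ext m
    simp
  rw [map_comp', h1, map_mul, map_comp', h2, h3, map_pow, LX, Lpow_eval p (thL_const p),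
    Lpow_eval p (thL_const p), pow_add, ← pow_mul, mul_comm p n]

/-- At the points `x = a + p y` of a domain `A`. -/
theorem ratio_pt (hp : p = 2 ∨ p = 3) {A : Type*} [CommRing A] [IsDomain A] [CharZero A]
    (φ : ℤ_[p] →+* A) (a : ℕ) (y : A) :
    ∃ Xi : PowerSeries A, IsExp p Xi ∧ constantCoeff Xi = 1 ∧
      (1 - X) ^ a * PowerSeries.map (Polynomial.eval₂RingHom φ y) (LX p) =
        PowerSeries.map (Polynomial.eval₂RingHom φ ((a : A) + p * y)) (Th p) * Xi := by
  refine ratio (B := (1 - X ^ p) ^ a) _ ?_ ((isExp_one_sub _).pow (p_ne_zero p) _) ?_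
  · rw [map_mul, const_map (F := LX p) _ (Lpow_const p (thL_const p))]
    simp
  · have h1 : Polynomial.eval₂RingHom φ ((a : A) + p * y) =
        (Polynomial.eval₂RingHom φ y).comp
          (Polynomial.compRingHom (Polynomial.C (a : ℤ_[p]) +
            Polynomial.C (p : ℤ_[p]) * Polynomial.X)) := by
      apply Polynomial.ringHom_ext
      · intro b
        simp
      · simp [Polynomial.eval₂_add, Polynomial.eval₂_mul]
    rw [h1, ← map_comp', LX_comp, map_mul, map_pow (PowerSeries.map _) (LX p) p, mul_pow,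
      ← mul_assoc]
    congr 1
    have h2 : (Polynomial.eval₂RingHom φ y).comp (Polynomial.C (R := ℤ_[p])) = φ := by
      ext b
      simp
    rw [map_comp', h2, map_pow, ← mul_pow, ← pow_mul, mul_comm a p, pow_mul]
    congr 1
    have h := congrArg (PowerSeries.map φ) (one_sub_pow p hp)
    rw [map_pow, map_mul, map_sub, map_sub, map_one, map_pow, PowerSeries.map_X] at h
    exact h

end GH.MatU
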