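import Pool.Agent.GH.MatU.Defs

/-!
# GH-MATU: multiplication by a series in `s^p` is a unipotent row operation
-/

open PowerSeries

noncomputable section

namespace GH.MatU

theorem cmat_mul {R : Type*} [CommRing R] {p : ℕ} (hp : p ≠ 0) {F : ℕ → PowerSeries R}
    {Xi : PowerSeries R} (hF : ∀ j, constantCoeff (F j) = 0) (hX : IsExp p Xi) (i j : ℕ) :
    cmat p (fun j ↦ F j * Xi) i j =
      ∑ l ∈ Finset.range (i + 1), coeff (p * (i - l)) Xi * cmat p F l j := by
  have hp' : 0 < p := Nat.pos_of_ne_zero hp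
  unfold cmat
  rw [coeff_mul, Finset.Nat.sum_antidiagonal_eq_sum_range_succ
    (fun u v ↦ coeff u (F j) * coeff v Xi)]
  -- only the multiples of p contribute
  have h1 : ∑ k ∈ Finset.range (p * (i + 1)).succ,
      coeff k (F j) * coeff (p * (i + 1) - k) Xi =
      ∑ k ∈ (Finset.range (p * (i + 1)).succ).filter (fun k ↦ p ∣ k ∧ k ≠ 0),
        coeff k (F j) * coeff (p * (i + 1) - k) Xi := by
    rw [Finset.sum_filter]
    apply Finset.sum_congr rfl
    intro k hk
    split_ifs with h
    · rfl
    · by_cases hk0 : k = 0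
      · subst hk0
        have := hF j
        rw [← coeff_zero_eq_constantCoeff_apply] at this
        rw [this, zero_mul]
      · have hd : ¬ p ∣ k := fun hd ↦ h ⟨hd, hk0⟩
        rw [hX _ (fun hd2 ↦ hd ?_), mul_zero]
        have hk2 : k ≤ p * (i + 1) := by
          have := Finset.mem_range.mp hk
          omega
        have h3 := Nat.dvd_sub (dvd_mul_right p (i + 1)) hd2
        rwa [Nat.sub_sub_self hk2] at h3
  rw [h1]
  symm
  apply Finset.sum_nbij' (fun l ↦ p * (l + 1)) (fun k ↦ k / p - 1)
  · intro l hl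
    have hl2 : l + 1 ≤ i + 1 := by
      have := Finset.mem_range.mp hl
      omega
    rw [Finset.mem_filter, Finset.mem_range]
    refine ⟨?_, dvd_mul_right _ _, by positivity⟩
    have := Nat.mul_le_mul_left p hl2
    omega
  · intro k hk
    rw [Finset.mem_filter, Finset.mem_range] at hk
    obtain ⟨hk1, ⟨m, rfl⟩, hk3⟩ := hk
    have hm : m ≠ 0 := by
      rintro rfl
      simp at hk3
    have hm2 : m ≤ i + 1 := by
      have : p * m ≤ p * (i + 1) := by omega
      exact Nat.le_of_mul_le_mul_left this hp'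
    rw [Finset.mem_range, Nat.mul_div_cancel_left _ hp']
    omega
  · intro l _
    rw [Nat.mul_div_cancel_left _ hp', Nat.add_sub_cancel]
  · intro k hk
    rw [Finset.mem_filter] at hk
    obtain ⟨_, ⟨m, rfl⟩, hk3⟩ := hk
    have hm : m ≠ 0 := by
      rintro rfl
      simp at hk3
    rw [Nat.mul_div_cancel_left _ hp', Nat.sub_add_cancel (by omega)]
  · intro l hl
    have hl2 : l ≤ i := by
      have := Finset.mem_range.mp hl
      omega
    have h2 : p * (i + 1) - p * (l + 1) = p * (i - l) := by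
      rw [← Nat.mul_sub]
      congr 1
      omega
    rw [h2, mul_comm]

theorem det_cmat_mul {R : Type*} [CommRing R] {p : ℕ} (hp : p ≠ 0) {F : ℕ → PowerSeries R}
    {Xi : PowerSeries R} (hF : ∀ j, constantCoeff (F j) = 0) (hX : IsExp p Xi)
    (hX1 : constantCoeff Xi = 1) (n : ℕ) :
    (Matrix.of fun i j : Fin n ↦ cmat p (fun j ↦ F j * Xi) (i : ℕ) (j : ℕ)).det =
      (Matrix.of fun i j : Fin n ↦ cmat p F (i : ℕ) (j : ℕ)).det := by
  set T : Matrix (Fin n) (Fin n) R :=
    Matrix.of fun i l ↦ if (l : ℕ) ≤ i then coeff (p * ((i : ℕ) - l)) Xi else 0 with hT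
  have h1 : (Matrix.of fun i j : Fin n ↦ cmat p (fun j ↦ F j * Xi) (i : ℕ) (j : ℕ)) =
      T * (Matrix.of fun i j : Fin n ↦ cmat p F (i : ℕ) (j : ℕ)) := by
    ext i j
    rw [Matrix.mul_apply, Matrix.of_apply, cmat_mul hp hF hX]
    have h2 : ∑ l : Fin n, T i l * (Matrix.of fun i j : Fin n ↦ cmat p F (i : ℕ) (j : ℕ)) l j =
        ∑ l ∈ Finset.range n, (if l ≤ i then coeff (p * ((i : ℕ) - l)) Xi else 0) *
          cmat p F l j := by
      rw [← Fin.sum_univ_eq_sum_range
        (fun l ↦ (if l ≤ (i : ℕ) then coeff (p * ((i : ℕ) - l)) Xi else 0) * cmat p F l j)]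
      rfl
    rw [h2]
    have h3 : Finset.range ((i : ℕ) + 1) ⊆ Finset.range n := by
      apply Finset.range_subset_range.mpr
      exact i.2
    rw [← Finset.sum_subset h3]
    · apply Finset.sum_congr rfl
      intro l hl
      rw [if_pos (by have := Finset.mem_range.mp hl; omega)]
    · intro l _ hl
      rw [if_neg (by rw [Finset.mem_range] at hl; omega), zero_mul]
  rw [h1, Matrix.det_mul]
  have h4 : T.det = 1 := by
    rw [Matrix.det_of_isLowerTriangular (M := T)]
    · apply Finset.prod_eq_one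
      intro i _
      simp only [hT, Matrix.of_apply, le_refl, if_true, Nat.sub_self, mul_zero]
      simpa using hX1
    · intro i j hij
      simp only [hT, Matrix.of_apply]
      rw [if_neg]
      exact not_le.mpr hij
  rw [h4, one_mul]

end GH.MatU
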