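import Mathlib

/-! The determinant `det [1/(p i - j)!]_{1 ≤ i, j ≤ n}` is a `p`-adic unit. -/

open Finset

noncomputable section

namespace GH

namespace MatU

/-- `1/(p i' - j')!` with `i' = i + 1`, `j' = j + 1` (and `0` for `j' > p i'`). -/
def vdE (K : Type*) [Field K] (p i j : ℕ) : K :=
  if j + 1 ≤ p * (i + 1) then (((p * (i + 1) - (j + 1)).factorial : ℕ) : K)⁻¹ else 0

theorem vd_entry {K : Type*} [Field K] [CharZero K] {p : ℕ} (hp : 1 ≤ p) (i j : ℕ) :
    (((p * i + (p - 1)).factorial : ℕ) : K) * vdE K p i j =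
      (descPochhammer K j).eval ((p * i + (p - 1) : ℕ) : K) := by
  rw [descPochhammer_eval_eq_descFactorial]
  unfold vdE
  have h1 : p * (i + 1) = p * i + (p - 1) + 1 := by
    rw [mul_add, mul_one]
    omega
  rw [h1]
  by_cases h : j + 1 ≤ p * i + (p - 1) + 1
  · rw [if_pos h]
    have h2 : p * i + (p - 1) + 1 - (j + 1) = p * i + (p - 1) - j := by omega
    have h3 := Nat.factorial_mul_descFactorial (n := p * i + (p - 1)) (k := j) (by omega)
    rw [h2, ← h3, Nat.cast_mul]
    have h4 : (((p * i + (p - 1) - j).factorial : ℕ) : K) ≠ 0 :=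
      Nat.cast_ne_zero.2 (Nat.factorial_ne_zero _)
    field_simp
  · rw [if_neg h, mul_zero, Nat.descFactorial_of_lt (by omega), Nat.cast_zero]

/-- The determinant in closed form. -/
theorem vd_det (K : Type*) [Field K] [CharZero K] {p : ℕ} (hp : 1 ≤ p) (n : ℕ) :
    (∏ i ∈ range n, (((p * i + (p - 1)).factorial : ℕ) : K)) *
      (Matrix.of fun i j : Fin n => vdE K p i j).det =
    (∏ i ∈ range n, (p : K) ^ i) * ∏ i ∈ range n, ((i.factorial : ℕ) : K) := by
  have h1 := Matrix.det_mul_column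
    (fun i : Fin n => (((p * (i : ℕ) + (p - 1)).factorial : ℕ) : K))
    (Matrix.of fun i j : Fin n => vdE K p i j)
  rw [← Fin.prod_univ_eq_prod_range (fun i => (((p * i + (p - 1)).factorial : ℕ) : K)), ← h1]
  have h2 : (Matrix.of fun i j : Fin n => (((p * (i : ℕ) + (p - 1)).factorial : ℕ) : K) *
      (Matrix.of fun i j : Fin n => vdE K p i j) i j) =
      Matrix.of fun i j : Fin n =>
        (descPochhammer K j).eval ((p * (i : ℕ) + (p - 1) : ℕ) : K) := by
    ext i j
    exact vd_entry hp i j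
  rw [h2, ← Matrix.det_eval_matrixOfPolynomials_eq_det_vandermonde
    (fun i : Fin n => ((p * (i : ℕ) + (p - 1) : ℕ) : K)) (fun j : Fin n => descPochhammer K j)
    (fun j => descPochhammer_natDegree K j) (fun j => monic_descPochhammer K j)]
  have h3 : (fun i : Fin n => ((p * (i : ℕ) + (p - 1) : ℕ) : K)) =
      fun i : Fin n => (p : K) * ((i : ℕ) : K) + ((p - 1 : ℕ) : K) := by
    funext i
    push_cast
    ring
  rw [h3, Matrix.det_vandermonde_add]
  have h4 := Matrix.det_mul_row (fun j : Fin n => (p : K) ^ (j : ℕ))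
    (Matrix.vandermonde fun i : Fin n => ((i : ℕ) : K))
  have h5 : Matrix.vandermonde (fun i : Fin n => (p : K) * ((i : ℕ) : K)) =
      Matrix.of fun i j : Fin n => (p : K) ^ (j : ℕ) *
        (Matrix.vandermonde fun i : Fin n => ((i : ℕ) : K)) i j := by
    ext i j
    rw [Matrix.vandermonde_apply, Matrix.of_apply, Matrix.vandermonde_apply, mul_pow]
  rw [h5, h4, ← Fin.prod_univ_eq_prod_range (fun i => (p : K) ^ i)]
  congr 1
  cases n with
  | zero => simp
  | succ n =>
    rw [Matrix.det_vandermonde_id_eq_superFactorial, ← Nat.prod_range_succ_factorial,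
      Nat.cast_prod]

theorem vd_padic {p : ℕ} [hp : Fact p.Prime] (n : ℕ) :
    padicValNat p (∏ i ∈ range n, (p * i + (p - 1)).factorial) =
      padicValNat p ((∏ i ∈ range n, p ^ i) * ∏ i ∈ range n, i.factorial) := by
  have hp0 : p ≠ 0 := hp.out.ne_zero
  have hp1 : 0 < p := hp.out.pos
  rw [← Finset.prod_mul_distrib]
  induction n with
  | zero => simp
  | succ n ih =>
    rw [Finset.prod_range_succ, Finset.prod_range_succ, padicValNat.mul, padicValNat.mul, ih]
    · congr 1
      rw [padicValNat_factorial_mul_add n (by omega), padicValNat_factorial_mul,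
        padicValNat.mul (pow_ne_zero _ hp0) (Nat.factorial_ne_zero _), padicValNat.prime_pow]
      ring
    · exact Finset.prod_ne_zero_iff.2 fun i _ =>
        mul_ne_zero (pow_ne_zero _ hp0) (Nat.factorial_ne_zero _)
    · exact mul_ne_zero (pow_ne_zero _ hp0) (Nat.factorial_ne_zero _)
    · exact Finset.prod_ne_zero_iff.2 fun i _ => Nat.factorial_ne_zero _
    · exact Nat.factorial_ne_zero _

/-- The determinant is a `p`-adic unit: a quotient of natural numbers prime to `p`. -/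
theorem vd_unit (K : Type*) [Field K] [CharZero K] {p : ℕ} [hp : Fact p.Prime] (n : ℕ) :
    ∃ a b : ℕ, ¬ p ∣ a ∧ ¬ p ∣ b ∧
      (a : K) * (Matrix.of fun i j : Fin n => vdE K p i j).det = b := by
  have hp0 : p ≠ 0 := hp.out.ne_zero
  obtain ⟨A, hA⟩ : ∃ A : ℕ, A = ∏ i ∈ range n, (p * i + (p - 1)).factorial := ⟨_, rfl⟩
  obtain ⟨B, hB⟩ : ∃ B : ℕ, B = (∏ i ∈ range n, p ^ i) * ∏ i ∈ range n, i.factorial := ⟨_, rfl⟩
  have hA0 : A ≠ 0 := hA ▸ Finset.prod_ne_zero_iff.2 fun i _ => Nat.factorial_ne_zero _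
  have hB0 : B ≠ 0 := hB ▸ mul_ne_zero
    (Finset.prod_ne_zero_iff.2 fun i _ => pow_ne_zero _ hp0)
    (Finset.prod_ne_zero_iff.2 fun i _ => Nat.factorial_ne_zero _)
  have h1 := vd_det K (p := p) hp.out.pos n
  have h2 : (∏ i ∈ range n, (((p * i + (p - 1)).factorial : ℕ) : K)) = (A : K) := by
    rw [hA, Nat.cast_prod]
  have h3 : (∏ i ∈ range n, (p : K) ^ i) * ∏ i ∈ range n, ((i.factorial : ℕ) : K) = (B : K) := by
    rw [hB]
    push_cast
    rfl
  rw [h2, h3] at h1
  have hv : padicValNat p A = padicValNat p B := by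
    rw [hA, hB]
    exact vd_padic n
  obtain ⟨a, ha⟩ := pow_padicValNat_dvd (p := p) (n := A)
  obtain ⟨b, hb⟩ := pow_padicValNat_dvd (p := p) (n := B)
  have hnd : ∀ m c : ℕ, m ≠ 0 → m = p ^ padicValNat p m * c → ¬ p ∣ c := by
    intro m c hm hmc hc
    obtain ⟨d, rfl⟩ := hc
    refine pow_succ_padicValNat_not_dvd (p := p) hm ?_
    refine ⟨d, ?_⟩
    rw [pow_succ, mul_assoc]
    exact hmc
  refine ⟨a, b, hnd A a hA0 ha, hnd B b hB0 hb, ?_⟩
  rw [ha, hb, ← hv] at h1
  have hpk : ((p : K) ^ padicValNat p A) ≠ 0 := pow_ne_zero _ (Nat.cast_ne_zero.2 hp0)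
  push_cast at h1
  refine mul_left_cancel₀ hpk ?_
  rw [← mul_assoc]
  exact h1

end MatU

end GH
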